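import Pool.Agent.Lib.MP_242fd5_gt.Ty.D4Str

set_option autoImplicit false

open MeasureTheory ProbabilityTheory Set Metric Filter Topology Real
open scoped ENNReal NNReal RealInnerProductSpace

namespace Pool.Agent.Lib.MP_242fd5_gt.Ty

variable {n N q : ℕ}

/-- two-sided comparability of two centred ellipsoids -/
def Cmp (C : ℝ) (g h : V n ≃L[ℝ] V n) : Prop :=
  ∀ x, ‖g.symm x‖ ≤ C * ‖h.symm x‖ ∧ ‖h.symm x‖ ≤ C * ‖g.symm x‖

namespace Cmp

variable {C C' : ℝ} {g h w : V n ≃L[ℝ] V n}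

lemma symm (H : Cmp C g h) : Cmp C h g := fun x => (H x).symm

lemma refl (hC : 1 ≤ C) (g : V n ≃L[ℝ] V n) : Cmp C g g := fun _ =>
  ⟨le_mul_of_one_le_left (norm_nonneg _) hC, le_mul_of_one_le_left (norm_nonneg _) hC⟩

lemma mono (H : Cmp C g h) (hC : C ≤ C') : Cmp C' g h := fun x =>
  ⟨(H x).1.trans (by gcongr), (H x).2.trans (by gcongr)⟩

lemma trans (hC : 0 ≤ C) (hC' : 0 ≤ C') (H : Cmp C g h) (H' : Cmp C' h w) : Cmp (C * C') g w := by
  intro x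
  constructor
  · calc ‖g.symm x‖ ≤ C * ‖h.symm x‖ := (H x).1
      _ ≤ C * (C' * ‖w.symm x‖) := by gcongr; exact (H' x).1
      _ = _ := by ring
  · calc ‖w.symm x‖ ≤ C' * ‖h.symm x‖ := (H' x).2
      _ ≤ C' * (C * ‖g.symm x‖) := by gcongr; exact (H x).2
      _ = _ := by ring

lemma post (H : Cmp C g h) (W : V n ≃L[ℝ] V n) : Cmp C (g.trans W) (h.trans W) := fun x =>
  H (W.symm x)

lemma rho_le (H : Cmp C g h) (x : V n) : rho h x ≤ C * rho g x := by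
  unfold rho
  rcases eq_or_ne x 0 with rfl | hx
  · simp
  have h1 : 0 < ‖g.symm x‖ := norm_pos_iff.2 (by simpa using hx)
  have h2 : 0 < ‖h.symm x‖ := norm_pos_iff.2 (by simpa using hx)
  rw [← div_eq_mul_inv, le_div_iff₀ h1, inv_mul_le_iff₀ h2, mul_comm]
  exact (H x).1

end Cmp

lemma dual_half {C : ℝ} {g h : V n ≃L[ℝ] V n} (hC : 0 ≤ C)
    (H : ∀ x, ‖h.symm x‖ ≤ C * ‖g.symm x‖) (ξ : V n) :
    ‖(dual g).symm ξ‖ ≤ C * ‖(dual h).symm ξ‖ := by
  set y := (dual g).symm ξ with hy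
  rcases eq_or_ne y 0 with h0 | h0
  · rw [h0, norm_zero]; positivity
  have e1 : ⟪y, y⟫ = ⟪g y, ξ⟫ := by
    rw [← inner_dual g y y, hy, ContinuousLinearEquiv.apply_symm_apply]
  have e2 : ⟪g y, ξ⟫ = ⟪h.symm (g y), (dual h).symm ξ⟫ := by
    rw [← inner_dual h (h.symm (g y)), ContinuousLinearEquiv.apply_symm_apply,
      ContinuousLinearEquiv.apply_symm_apply]
  have e3 := real_inner_le_norm (h.symm (g y)) ((dual h).symm ξ)
  have e4 := H (g y)
  rw [ContinuousLinearEquiv.symm_apply_apply] at e4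
  rw [← e2, ← e1, real_inner_self_eq_norm_mul_norm] at e3
  have hy0 : 0 < ‖y‖ := norm_pos_iff.2 h0
  refine le_of_mul_le_mul_left (e3.trans ?_) hy0
  calc ‖h.symm (g y)‖ * ‖(dual h).symm ξ‖ ≤ C * ‖y‖ * ‖(dual h).symm ξ‖ := by gcongr
    _ = _ := by ring

lemma Cmp.dual {C : ℝ} {g h : V n ≃L[ℝ] V n} (hC : 0 ≤ C) (H : Cmp C g h) :
    Cmp C (dual g) (dual h) := fun ξ =>
  ⟨dual_half hC (fun x => (H x).2) ξ, dual_half hC (fun x => (H x).1) ξ⟩

/-- volume of the intersection of two ellipsoids -/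
noncomputable def ov (g h : V (N + 1) ≃L[ℝ] V (N + 1)) : ℝ := Nn fun x => min (rho g x) (rho h x)

lemma ov_comm (g h : V (N + 1) ≃L[ℝ] V (N + 1)) : ov g h = ov h g := by
  unfold ov; simp_rw [min_comm]

lemma ov_nonneg (g h : V (N + 1) ≃L[ℝ] V (N + 1)) : 0 ≤ ov g h :=
  ((adm_rho g).min (adm_rho h)).Nn_nonneg

lemma ov_ge {C : ℝ} (hC : 1 ≤ C) {g h : V (N + 1) ≃L[ℝ] V (N + 1)} (H : Cmp C g h) :
    C⁻¹ ^ (N + 1) * (jac g * om (N + 1)) ≤ ov g h := by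
  have hC0 : 0 < C := by linarith
  rw [← Nn_rho, ← Nn_smul]
  refine Nn_mono ((adm_rho g).smul (by positivity)) ((adm_rho g).min (adm_rho h)) fun x _ => ?_
  refine le_min ?_ ?_
  · exact mul_le_of_le_one_left ((adm_rho g).nn x) (inv_le_one_of_one_le₀ hC)
  · rw [inv_mul_le_iff₀ hC0]; exact H.symm.rho_le x

lemma vol_slab {t : ℝ} (ht : 0 ≤ t) :
    volume {y : V (N + 1) | ‖y‖ ≤ 1 ∧ |y 0| ≤ t} ≤ ENNReal.ofReal (2 * t * om N) := by
  have h1 : {y : V (N + 1) | ‖y‖ ≤ 1 ∧ |y 0| ≤ t} ⊆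
      (fun x : V (N + 1) => ((x 0, tl x) : ℝ × V N)) ⁻¹' (Icc (-t) t ×ˢ closedBall 0 1) := by
    rintro y ⟨hy, h0⟩
    refine ⟨abs_le.1 h0, ?_⟩
    rw [mem_closedBall_zero_iff]
    have := norm_sq_pt (y 0) (tl y)
    rw [pt_tl] at this
    have h2 : ‖y‖ ^ 2 ≤ 1 := pow_le_one₀ (norm_nonneg _) hy
    exact (sq_le_one_iff₀ (norm_nonneg _)).1 (by nlinarith [sq_nonneg (y 0)])
  refine (measure_mono h1).trans ?_
  rw [mp_split.measure_preimage
    (measurableSet_Icc.prod measurableSet_closedBall).nullMeasurableSet, Measure.volume_eq_prod,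
    Measure.prod_prod, Real.volume_Icc, Measure.addHaar_unitClosedBall_eq_addHaar_unitBall,
    vol_ball, ← ENNReal.ofReal_mul (by linarith)]
  exact le_of_eq (by congr 1; ring)

lemma ov_half (g h : V (N + 1) ≃L[ℝ] V (N + 1)) (x : V (N + 1)) :
    ov g h * ‖h.symm x‖ ≤ 2 * om N * jac g * ‖g.symm x‖ := by
  have hom := om_pos N
  have hj := jac_pos g
  rcases eq_or_ne x 0 with rfl | hx
  · simp
  set W := g.trans h.symm with hW
  set z := h.symm x with hz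
  have hz0 : 0 < ‖z‖ := norm_pos_iff.2 (by simpa [hz] using hx)
  set ξ := (dual W).symm z with hξ
  have hin : ∀ y, ⟪y, ξ⟫ = ⟪W y, z⟫ := fun y => by
    rw [← inner_dual W y ξ, hξ, ContinuousLinearEquiv.apply_symm_apply]
  have h1 : ‖z‖ * ‖z‖ ≤ ‖g.symm x‖ * ‖ξ‖ := by
    refine le_trans (le_of_eq ?_) (real_inner_le_norm _ _)
    rw [hin, ← real_inner_self_eq_norm_mul_norm]
    simp [hW, hz]
  have hξ0 : 0 < ‖ξ‖ := by
    by_contra hc
    have : ‖ξ‖ = 0 := le_antisymm (not_lt.1 hc) (norm_nonneg _)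
    rw [this, mul_zero] at h1
    nlinarith
  obtain ⟨G, hG⟩ := exists_iso_axis ξ
  set t := ‖g.symm x‖ / ‖z‖ with ht
  have hA := (adm_rho g).min (adm_rho h)
  have h2 : (G.toContinuousLinearEquiv.trans g) ⁻¹' star (fun x => min (rho g x) (rho h x)) ⊆
      {y : V (N + 1) | ‖y‖ ≤ 1 ∧ |y 0| ≤ t} := by
    intro y hy
    rw [star_min, star_rho, star_rho] at hy
    obtain ⟨⟨a, ha, ea⟩, ⟨b, hb, eb⟩⟩ := hy
    have ea' : a = G y := g.injective ea
    have eb' : W (G y) = b := by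
      simp only [hW, ContinuousLinearEquiv.trans_apply]
      rw [ContinuousLinearEquiv.symm_apply_eq]; exact eb.symm
    rw [mem_closedBall_zero_iff] at ha hb
    refine ⟨by rwa [ea', G.norm_map] at ha, ?_⟩
    have e1 : ⟪G y, ξ⟫ = y 0 * ‖ξ‖ := by
      conv_lhs => rw [← hG]
      rw [G.inner_map_map, inner_split]; simp
    have e2 := abs_real_inner_le_norm b z
    rw [← eb', ← hin, e1, abs_mul, abs_of_pos hξ0, eb'] at e2
    rw [ht, le_div_iff₀ hz0]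
    refine le_of_mul_le_mul_right ?_ hξ0
    calc |y 0| * ‖z‖ * ‖ξ‖ = |y 0| * ‖ξ‖ * ‖z‖ := by ring
      _ ≤ ‖b‖ * ‖z‖ * ‖z‖ := by gcongr
      _ ≤ 1 * ‖z‖ * ‖z‖ := by gcongr
      _ ≤ _ := by rw [one_mul]; exact h1
  have h3 := (measure_mono h2).trans (vol_slab (N := N) (t := t) (by positivity))
  rw [vol_preimage, hA.vol_star, jac_trans, jac_iso, one_mul,
    ← ENNReal.ofReal_mul (by positivity), ENNReal.ofReal_le_ofReal_iff (by positivity),
    inv_mul_le_iff₀ hj] at h3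
  calc ov g h * ‖z‖ ≤ jac g * (2 * t * om N) * ‖z‖ := by gcongr; exact h3
    _ = _ := by rw [ht]; field_simp

/-- overlapping ellipsoids of the same volume are comparable -/
lemma cmp_of_ov {κ v : ℝ} (hκ : 0 < κ) {g h : V (N + 1) ≃L[ℝ] V (N + 1)} (hg : jac g = v)
    (hh : jac h = v) (H : κ ≤ ov g h) : Cmp (2 * om N * v / κ) g h := by
  intro x
  have h1 := ov_half g h x
  have h2 := ov_half h g x
  rw [ov_comm] at h2
  rw [hg] at h1
  rw [hh] at h2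
  constructor
  · rw [div_mul_eq_mul_div, le_div_iff₀ hκ, mul_comm]
    exact le_trans (by gcongr) h2
  · rw [div_mul_eq_mul_div, le_div_iff₀ hκ, mul_comm]
    exact le_trans (by gcongr) h1

/-! ### rotations in the plane of the first two coordinates -/

@[simp] lemma pt_one (s : ℝ) (y : V (N + 1)) : pt s y 1 = y 0 := rfl

noncomputable def rotL (θ : ℝ) : V (N + 2) →ₗ[ℝ] V (N + 2) where
  toFun x := pt (cos θ * x 0 - sin θ * tl x 0) (pt (sin θ * x 0 + cos θ * tl x 0) (tl (tl x)))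
  map_add' x y := by
    ext i
    refine Fin.cases ?_ (fun j => Fin.cases ?_ (fun l => ?_) j) i <;> simp <;> ring
  map_smul' c x := by
    ext i
    refine Fin.cases ?_ (fun j => Fin.cases ?_ (fun l => ?_) j) i <;> simp <;> ring

lemma rotL_apply (θ : ℝ) (x : V (N + 2)) : rotL θ x =
    pt (cos θ * x 0 - sin θ * tl x 0) (pt (sin θ * x 0 + cos θ * tl x 0) (tl (tl x))) := rfl

lemma rotL_add (θ φ : ℝ) (x : V (N + 2)) : rotL θ (rotL φ x) = rotL (θ + φ) x := by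
  simp only [rotL_apply, pt_zero, tl_pt, cos_add, sin_add]
  congr 1
  · ring
  · congr 1; ring

lemma rotL_zero (x : V (N + 2)) : rotL 0 x = x := by
  simp only [rotL_apply, cos_zero, sin_zero, one_mul, zero_mul, sub_zero, zero_add, pt_tl]

noncomputable def rot (θ : ℝ) : V (N + 2) ≃ₗᵢ[ℝ] V (N + 2) where
  toLinearEquiv := LinearEquiv.ofLinearMap (rotL θ) (rotL (-θ))
    (by ext1 x; simp [rotL_add, rotL_zero]) (by ext1 x; simp [rotL_add, rotL_zero])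
  norm_map' x := by
    have h1 : ‖rotL θ x‖ ^ 2 = ‖x‖ ^ 2 := by
      conv_rhs => rw [← pt_tl x, ← pt_tl (tl x)]
      rw [rotL_apply, norm_sq_pt, norm_sq_pt, norm_sq_pt, norm_sq_pt]
      have := cos_sq_add_sin_sq θ
      linear_combination (x 0 ^ 2 + tl x 0 ^ 2) * this
    exact (sq_eq_sq₀ (norm_nonneg _) (norm_nonneg _)).1 h1

lemma rot_apply (θ : ℝ) (x : V (N + 2)) : rot θ x =
    pt (cos θ * x 0 - sin θ * tl x 0) (pt (sin θ * x 0 + cos θ * tl x 0) (tl (tl x))) := rfl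

lemma rot_add (θ φ : ℝ) (x : V (N + 2)) : rot θ (rot φ x) = rot (θ + φ) x := rotL_add θ φ x

lemma rot_zero (x : V (N + 2)) : rot 0 x = x := rotL_zero x

/-- the infinitesimal rotation -/
def Jm (x : V (N + 2)) : V (N + 2) := pt (-(tl x 0)) (pt (x 0) 0)

lemma rot_sub (θ : ℝ) (x : V (N + 2)) : rot θ x - rot (-θ) x = (2 * sin θ) • Jm x := by
  ext i
  refine Fin.cases ?_ (fun j => Fin.cases ?_ (fun l => ?_) j) i <;> simp [rot_apply, Jm] <;> ring

lemma rodrigues (θ : ℝ) (x : V (N + 2)) :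
    rot θ x = x + sin θ • Jm x + (1 - cos θ) • Jm (Jm x) := by
  ext i
  refine Fin.cases ?_ (fun j => Fin.cases ?_ (fun l => ?_) j) i <;> simp [rot_apply, Jm] <;> ring

/-- the rotated ellipsoid -/
noncomputable def gi (g : V (N + 2) ≃L[ℝ] V (N + 2)) (θ : ℝ) : V (N + 2) ≃L[ℝ] V (N + 2) :=
  g.trans (rot θ).symm.toContinuousLinearEquiv

lemma gi_symm (g : V (N + 2) ≃L[ℝ] V (N + 2)) (θ : ℝ) (x : V (N + 2)) :
    (gi g θ).symm x = g.symm (rot θ x) := rfl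

lemma rho_gi (g : V (N + 2) ≃L[ℝ] V (N + 2)) (θ : ℝ) (x : V (N + 2)) :
    rho (gi g θ) x = rho g (rot θ x) := rfl

lemma jac_gi (g : V (N + 2) ≃L[ℝ] V (N + 2)) (θ : ℝ) : jac (gi g θ) = jac g := by
  rw [gi, jac_trans, jac_iso, mul_one]

lemma dual_gi (g : V (N + 2) ≃L[ℝ] V (N + 2)) (θ : ℝ) : dual (gi g θ) = gi (dual g) θ := by
  rw [gi, dual_trans, dual_iso]; rfl

lemma Cmp.gi {C : ℝ} {g h : V (N + 2) ≃L[ℝ] V (N + 2)} (H : Cmp C g h) (θ : ℝ) :
    Cmp C (gi g θ) (gi h θ) := H.post _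

lemma Cmp.gi_sub {C : ℝ} {g : V (N + 2) ≃L[ℝ] V (N + 2)} {θ φ : ℝ}
    (H : Cmp C (Ty.gi g θ) (Ty.gi g φ)) : Cmp C g (Ty.gi g (φ - θ)) := by
  intro x
  have := H (rot (-θ) x)
  rw [gi_symm, gi_symm, rot_add, rot_add, add_neg_cancel, rot_zero, ← sub_eq_add_neg] at this
  exact this

lemma cmp_gi_zero {C : ℝ} (hC : 1 ≤ C) (g : V (N + 2) ≃L[ℝ] V (N + 2)) : Cmp C g (gi g 0) := by
  intro x
  rw [gi_symm, rot_zero]
  exact Cmp.refl hC g x

lemma J_bound {C s φ : ℝ} {g : V (N + 2) ≃L[ℝ] V (N + 2)} (H : Cmp C g (gi g φ)) (hs : 0 < s)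
    (hφ : s ≤ sin φ) (x : V (N + 2)) : ‖g.symm (Jm x)‖ ≤ C / s * ‖g.symm x‖ := by
  have h1 := (H x).2
  have h2 := (H (rot (-φ) x)).1
  rw [gi_symm] at h1 h2
  rw [rot_add, add_neg_cancel, rot_zero] at h2
  have h3 : (2 * sin φ) • g.symm (Jm x) = g.symm (rot φ x) - g.symm (rot (-φ) x) := by
    rw [← map_smul, ← rot_sub, map_sub]
  have h4 := norm_sub_le (g.symm (rot φ x)) (g.symm (rot (-φ) x))
  rw [← h3, norm_smul, Real.norm_of_nonneg (by linarith)] at h4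
  rw [div_mul_eq_mul_div, le_div_iff₀ hs]
  nlinarith [norm_nonneg (g.symm (Jm x))]

/-- one comparable rotation makes all rotations comparable -/
lemma cmp_all {C s φ : ℝ} (hC : 0 ≤ C) {g : V (N + 2) ≃L[ℝ] V (N + 2)} (H : Cmp C g (gi g φ))
    (hs : 0 < s) (hφ : s ≤ sin φ) (θ : ℝ) : Cmp (1 + C / s + 2 * (C / s) ^ 2) g (gi g θ) := by
  have hK : 0 ≤ C / s := by positivity
  have key : ∀ θ x, ‖g.symm (rot θ x)‖ ≤ (1 + C / s + 2 * (C / s) ^ 2) * ‖g.symm x‖ := by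
    intro θ x
    have h1 := J_bound H hs hφ x
    have h2 := J_bound H hs hφ (Jm x)
    rw [rodrigues, map_add, map_add, map_smul, map_smul]
    have h3 : ‖sin θ • g.symm (Jm x)‖ ≤ ‖g.symm (Jm x)‖ := by
      rw [norm_smul]
      exact mul_le_of_le_one_left (norm_nonneg _) (abs_sin_le_one θ)
    have h4 : ‖(1 - cos θ) • g.symm (Jm (Jm x))‖ ≤ 2 * ‖g.symm (Jm (Jm x))‖ := by
      rw [norm_smul, Real.norm_of_nonneg (by linarith [cos_le_one θ])]
      gcongr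
      linarith [neg_one_le_cos θ]
    have h5 : ‖g.symm (Jm (Jm x))‖ ≤ (C / s) ^ 2 * ‖g.symm x‖ :=
      h2.trans (by rw [sq, mul_assoc]; gcongr)
    refine (norm_add₃_le.trans (add_le_add (add_le_add le_rfl h3) h4)).trans ?_
    nlinarith
  intro x
  refine ⟨?_, key θ x⟩
  have := key (-θ) (rot θ x)
  rwa [rot_add, neg_add_cancel, rot_zero] at this

lemma exists_sin {k : ℕ} : ∃ s : ℝ, 0 < s ∧ ∀ i : ℕ, 0 < i → i < k → s ≤ sin (i * (π / k)) := by
  have h : ∀ i : ℕ, 0 < i → i < k → 0 < sin (i * (π / k)) := by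
    intro i h0 hk
    have hk0 : (0:ℝ) < k := by exact_mod_cast h0.trans hk
    have hi : (0:ℝ) < i := by exact_mod_cast h0
    refine sin_pos_of_pos_of_lt_pi (by have := pi_pos; positivity) ?_
    rw [mul_div_assoc', div_lt_iff₀ hk0, mul_comm]
    have : (i:ℝ) < k := by exact_mod_cast hk
    have := pi_pos
    gcongr
  rcases (Finset.Ioo 0 k).eq_empty_or_nonempty with he | hne
  · refine ⟨1, one_pos, fun i h0 hk => ?_⟩
    have : i ∈ Finset.Ioo 0 k := Finset.mem_Ioo.2 ⟨h0, hk⟩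
    rw [he] at this
    simp at this
  · obtain ⟨j, hj, hm⟩ := Finset.exists_min_image _ (fun i : ℕ => sin (i * (π / k))) hne
    rw [Finset.mem_Ioo] at hj
    exact ⟨_, h j hj.1 hj.2, fun i h0 hk => hm i (Finset.mem_Ioo.2 ⟨h0, hk⟩)⟩

end Pool.Agent.Lib.MP_242fd5_gt.Ty
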