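import Pool.Agent.Lib.MP_242fd5_gt.Ty.G1Bridge
import Pool.Agent.Lib.MP_242fd5_gt.Ty.S7a

set_option autoImplicit false

open MeasureTheory ProbabilityTheory Set Metric Filter Topology
open scoped ENNReal NNReal RealInnerProductSpace symmDiff

namespace Pool.Agent.Lib.MP_242fd5_gt.Ty

variable {n N q : ℕ}

lemma Phi_gl {f : V (N + 2) → ℝ} (F : Adm f) (g : V (N + 2) ≃L[ℝ] V (N + 2)) :
    Phi (fun x => f (g x)) = Phi f := by
  have := (jac_pos g).ne'
  rw [Phi, funext (T_comp F g), Nn_smul, Nn_comp F.T, Nn_comp F, jac_dual, mul_pow, Phi,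
    ← mul_assoc, show (jac g)⁻¹ ^ (N + 1 + 1) * (jac g)⁻¹⁻¹ = (jac g)⁻¹ ^ (N + 1) by
      rw [inv_inv, pow_succ _ (N + 1), mul_assoc, inv_mul_cancel₀ this, mul_one],
    mul_div_mul_left _ _ (by positivity)]

/-- bounded outer volume ratio -/
def OV (C : ℝ) (f : V (N + 1) → ℝ) : Prop := ∃ g, (∀ x, f x ≤ rho g x) ∧ Nn (rho g) ≤ C * Nn f

lemma OV.smul {C t : ℝ} {f : V (N + 1) → ℝ} (h : OV C f) (ht : 0 < t) : OV C fun x => t * f x := by
  obtain ⟨g, h1, h2⟩ := h
  refine ⟨g.trans (hom _ t ht.ne'), fun x => ?_, ?_⟩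
  · rw [rho_hom ht]; exact mul_le_mul_of_nonneg_left (h1 x) ht.le
  · rw [funext (rho_hom ht g), Nn_smul, Nn_smul, mul_left_comm]; gcongr

lemma OV.low (N : ℕ) {C : ℝ} (hC : 0 < C) : ∃ c : ℝ, 0 < c ∧ ∀ f : V (N + 2) → ℝ, Adm f → OV C f →
    c ≤ Phi f := by
  have o1 := om_pos (N + 1)
  have o2 := om_pos (N + 2)
  obtain ⟨η, hη⟩ : ∃ η : ℝ, η = om (N + 1) / (2 * C) := ⟨_, rfl⟩
  have η0 : 0 < η := by rw [hη]; positivity
  refine ⟨η ^ (N + 1) * (η * om (N + 2)) / om (N + 2) ^ (N + 1), by positivity,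
    fun f F ⟨g, h1, h2⟩ => ?_⟩
  rw [← Phi_gl F g]
  have G := F.comp g
  have j := jac_pos g
  have b1 : ∀ x, ‖x‖ = 1 → f (g x) ≤ 1 := fun x hx => (h1 _).trans (by simp [rho, hx])
  have b2 : om (N + 2) ≤ C * Nn fun x => f (g x) := by
    rw [Nn_comp F, mul_left_comm, le_inv_mul_iff₀ j, ← Nn_rho]; exact h2
  have b3 : Nn (fun x => f (g x)) ≤ om (N + 2) :=
    (Nn_mono G adm_inv_norm fun x hx => by simpa [hx] using b1 x hx).trans_eq Nn_inv_norm
  set h : V (N + 2) → ℝ := fun x => f (g x)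
  have B := G.bm' b1
  have b4 : om (N + 1) * Nn h ≤ ∫ u, T h u ∂mu (N + 2) := by
    rw [int_mu_congr fun u hu => T_unit h hu, int_R (B.pow _)]
    exact mul_le_mul_of_nonneg_left (int_mono (G.int_pow _) (G.int_pow _) fun x hx =>
      pow_le_pow_of_le_one (G.nn x) (b1 x hx) (by omega)) o1.le
  have b5 : ∫ u, T h u ∂mu (N + 2) ≤ η * om (N + 2) + η⁻¹ ^ (N + 1) * Nn (T h) := by
    have := int_mono B.T.int_mu ((integrable_const η).add ((G.T.int_pow (N + 2)).const_mul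
      (η⁻¹ ^ (N + 1)))) fun x _ => by
        have := G.T.nn x
        simp only [Pi.add_apply]
        rcases le_total (T h x) η with e | e
        · exact le_add_of_le_of_nonneg e (by positivity)
        · refine le_add_of_nonneg_of_le η0.le ?_
          rw [pow_succ (T h x), ← mul_assoc, ← mul_pow]
          exact le_mul_of_one_le_left this (one_le_pow₀ (by rwa [le_inv_mul_iff₀ η0, mul_one]))
    rwa [integral_add' (integrable_const η) ((G.T.int_pow _).const_mul _), integral_const_mul,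
      integral_const, mu_real_univ, smul_eq_mul, mul_comm] at this
  have b6 : η * om (N + 2) ≤ om (N + 1) * Nn h / 2 := by
    rw [hη, div_mul_eq_mul_div, div_le_div_iff₀ (by positivity) two_pos]
    nlinarith
  have b7 : η ^ (N + 1) * (η * om (N + 2)) ≤ Nn (T h) := by
    rw [← le_inv_mul_iff₀ (by positivity), ← inv_pow]
    linarith
  have b8 : 0 < Nn h := (mul_pos_iff_of_pos_left hC).1 (o2.trans_le b2)
  exact div_le_div₀ G.T.Nn_nonneg b7 (by positivity) (pow_le_pow_left₀ b8.le b3 _)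

lemma OV.T (q : ℕ) {C : ℝ} (hC : 0 < C) : ∃ C' : ℝ, 0 < C' ∧ ∀ f : V (q + 3) → ℝ, Adm f →
    OV C f → OV C' (Ty.T f) := by
  obtain ⟨c, c0, hc⟩ := OV.low (q + 1) hC
  have := PhiB_pos (q + 2)
  refine ⟨PhiB (q + 2) * C ^ (q + 2) / c, by positivity, fun f F H => ?_⟩
  have h0 := hc f F H
  obtain ⟨g, h1, h2⟩ := H
  have p : 0 < jac g * om (q + 2) := mul_pos (jac_pos g) (om_pos _)
  have e : rho ((dual g).trans (hom _ _ p.ne')) = Ty.T (rho g) := by
    rw [funext (T_rho g), ← funext (rho_hom p _)]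
  have v := Nn_pos_of_Phi F (c0.trans_le h0)
  have w : 0 < Nn (rho g) := by rw [Nn_rho]; exact mul_pos (jac_pos g) (om_pos _)
  refine ⟨_, fun x => e ▸ T_mono F (adm_rho g) (fun x _ => h1 x) x, ?_⟩
  rw [e, Nn_T_eq w, Nn_T_eq v, Phi_rho]
  calc _ ≤ PhiB (q + 2) * (C * Nn f) ^ (q + 2) := by gcongr
    _ = PhiB (q + 2) * C ^ (q + 2) / c * (c * Nn f ^ (q + 2)) := by rw [mul_pow]; field_simp
    _ ≤ _ := by gcongr

lemma Nn_mx_add {k : ℕ} (g : Fin k → V (N + 1) ≃L[ℝ] V (N + 1)) {i j : Fin k} (hij : i ≠ j) :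
    Nn (mx g) + ov (g i) (g j) ≤ ∑ l, Nn (rho (g l)) := by
  have := Nn_le_sum (Finset.univ : Finset (Option (Fin k))) (fun o => o.elim (-1) fun _ => 1)
    (g := fun o => o.elim (fun x => min (rho (g i) x) (rho (g j) x)) fun l => rho (g l))
    (adm_mx g) (fun o => by cases o; exacts [(adm_rho _).min (adm_rho _), adm_rho _]) fun x _ => by
      obtain ⟨l, hl⟩ := exists_mx i.pos g x
      have nn := fun l => (adm_rho (g l)).nn x
      have key : ∀ a, a ≠ l → min (rho (g i) x) (rho (g j) x) ≤ rho (g a) x →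
          rho (g l) x ^ (N + 1) + min (rho (g i) x) (rho (g j) x) ^ (N + 1) ≤
            ∑ l, rho (g l) x ^ (N + 1) := fun a ha h =>
        (add_le_add le_rfl (pow_le_pow_left₀ (le_min (nn i) (nn j)) h _)).trans
          (Finset.add_le_sum (f := fun l => rho (g l) x ^ (N + 1)) (fun l _ => pow_nonneg (nn l) _)
            (Finset.mem_univ l) (Finset.mem_univ a) ha.symm)
      simp only [Fintype.sum_option, Option.elim, one_mul, hl]
      rcases eq_or_ne i l with rfl | e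
      · linarith [key j hij.symm (min_le_right _ _)]
      · linarith [key i e (min_le_left _ _)]
  simp only [Fintype.sum_option, Option.elim, one_mul] at this
  rw [ov]
  linarith

lemma ov_ge_of {k : ℕ} {f : V (N + 1) → ℝ} (F : Adm f) (g : Fin k → V (N + 1) ≃L[ℝ] V (N + 1))
    (i : Fin k) {h : V (N + 1) ≃L[ℝ] V (N + 1)} (H : ∀ x, f x ≤ rho h x) :
    Nn (rho (g i)) ≤ ov (g i) h + dV f (mx g) := by
  have M := (adm_rho (g i)).min (adm_rho h)
  rw [ov, Nn, Nn, dV, ← integral_add (M.int_pow _) (int_dV F (adm_mx g))]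
  refine int_mono ((adm_rho _).int_pow _) ((M.int_pow _).add (int_dV F (adm_mx g))) fun x _ => ?_
  rcases le_total (rho (g i) x) (rho h x) with e | e
  · rw [min_eq_left e]
    exact le_add_of_nonneg_right (abs_nonneg _)
  · rw [min_eq_right e]
    linarith [pow_le_pow_left₀ ((adm_rho _).nn x) (le_mx g i x) (N + 1),
      pow_le_pow_left₀ (F.nn x) (H x) (N + 1), neg_abs_le (f x ^ (N + 1) - mx g x ^ (N + 1))]

lemma OV.far (N : ℕ) {k : ℕ} (hk : 2 ≤ k) {C : ℝ} (hC : 0 < C) : ∃ ε : ℝ, 0 < ε ∧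
    ∀ (f : V (N + 1) → ℝ) (g : Fin k → V (N + 1) ≃L[ℝ] V (N + 1)), Adm f → OV C f →
      Nn f = k * om (N + 1) → (∀ i, jac (g i) = 1) → ε ≤ dV f (mx g) := by
  have o1 := om_pos N
  have o2 := om_pos (N + 1)
  obtain ⟨K, hK⟩ : ∃ K : ℝ, K = 1 + (4 * om N * (C * k) / om (N + 1)) * (4 * om N / om (N + 1)) :=
    ⟨_, rfl⟩
  have K1 : 1 ≤ K := by rw [hK]; exact le_add_of_nonneg_right (by positivity)
  refine ⟨min (om (N + 1) / 2) (K⁻¹ ^ (N + 1) * om (N + 1)), by positivity,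
    fun f g F ⟨h, h1, h2⟩ h3 h4 => ?_⟩
  rcases le_total (om (N + 1) / 2) (dV f (mx g)) with e | e
  · exact (min_le_left _ _).trans e
  refine (min_le_right _ _).trans ?_
  have a1 : ∀ i, om (N + 1) / 2 ≤ ov (g i) h := fun i => by
    have := ov_ge_of F g i h1
    rw [Nn_rho, h4] at this
    linarith
  have a2 : jac h ≤ C * k := by
    rw [Nn_rho, h3, ← mul_assoc] at h2
    exact le_of_mul_le_mul_right h2 o2
  have a3 : ∀ i j x, ‖(g j).symm x‖ ≤ K * ‖(g i).symm x‖ := fun i j x => by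
    have b1 := ov_half (g i) h x
    have b2 := ov_half h (g j) x
    rw [h4] at b1
    rw [ov_comm] at b2
    have b3 : ‖h.symm x‖ ≤ 4 * om N / om (N + 1) * ‖(g i).symm x‖ := by
      rw [div_mul_eq_mul_div, le_div_iff₀ o2]
      nlinarith [mul_le_mul_of_nonneg_right (a1 i) (norm_nonneg (h.symm x))]
    have b4 : ‖(g j).symm x‖ ≤ 4 * om N * (C * k) / om (N + 1) * ‖h.symm x‖ := by
      rw [div_mul_eq_mul_div, le_div_iff₀ o2]
      nlinarith [mul_le_mul_of_nonneg_right (a1 j) (norm_nonneg ((g j).symm x)),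
        mul_le_mul_of_nonneg_right a2 (mul_nonneg o1.le (norm_nonneg (h.symm x)))]
    refine (b4.trans (mul_le_mul_of_nonneg_left b3 (by positivity))).trans ?_
    rw [← mul_assoc, hK]
    gcongr
    linarith
  have a4 := ov_ge K1 (g := g ⟨0, by omega⟩) (h := g ⟨1, by omega⟩) fun x => ⟨a3 _ _ x, a3 _ _ x⟩
  have a5 := Nn_mx_add g (i := ⟨0, by omega⟩) (j := ⟨1, by omega⟩) (by simp)
  simp only [Nn_rho, h4, one_mul, Finset.sum_const, Finset.card_univ, Fintype.card_fin,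
    nsmul_eq_mul] at a4 a5
  linarith [(abs_le.1 (abs_Nn_sub_le F (adm_mx g))).2]

theorem ell_of_OV {L : Set (V (q + 3))} {M : ℕ → Set (V (q + 3))} (hM : IsBackwardOrbit L M)
    {C : ℝ} (hC : 0 < C) (h : ∃ᶠ m in atTop, OV C (rad (M m))) : IsEllipsoid L := by
  have F := fun m => (sb_rad (hM.2 m).1).adm
  rcases orbit_type F (orbit_rad hM) with e | ⟨k, k1, h1, t, g, t0, h2, h3, h4⟩
  · obtain ⟨c, c0, hc⟩ := OV.low (q + 1) hC
    obtain ⟨m, a, b⟩ := (h.and_eventually (e.eventually (gt_mem_nhds c0))).exists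
    exact absurd (hc _ (F m) a) b.not_ge
  obtain rfl : k = 1 := by
    by_contra hk
    obtain ⟨ε, ε0, hε⟩ := OV.far (q + 2) (show 2 ≤ k by omega) hC
    obtain ⟨m, a, b⟩ := (h.and_eventually (h4.eventually (gt_mem_nhds ε0))).exists
    exact absurd (hε _ _ ((F m).smul (t0 m).le) (a.smul (t0 m)) (h2 m) (h3 m)) b.not_ge
  have e := fun m => ratio_rad (hM.2 m).1
  refine type_one_iff.1 ⟨M, hM, Or.inl ?_⟩
  rcases orbit_split hM with ⟨j, j1, h5⟩ | h5
  · have h6 := h5.1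
    simp only [e, ratio_ball] at h6
    obtain rfl : j = 1 :=
      le_antisymm ((lev_le_iff q le_rfl j1).1 (tendsto_nhds_unique h1 h6).le) j1
    exact ⟨1, j1, rfl, h5⟩
  · simp only [e] at h5
    exact absurd (tendsto_nhds_unique h1 h5) (lev_pos q k1).ne'

lemma star_iter (j : ℕ) {K : Set (V (q + 3))} (h : IsStarBody K) : IsStarBody (interBody^[j] K) := by
  induction j with
  | zero => exact h
  | succ j ih => rw [Function.iterate_succ_apply']; exact star_inter ih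

lemma orbit_iter {L : Set (V (q + 3))} {M : ℕ → Set (V (q + 3))} (hM : IsBackwardOrbit L M)
    (m : ℕ) : interBody^[m] (M m) = L := by
  induction m with
  | zero => exact hM.1
  | succ m ih => rw [Function.iterate_succ_apply, (hM.2 m).2, ih]

theorem ell_of_ratio {L : Set (V (q + 3))} {C : ℝ≥0} (h : ∃ᶠ m in atTop, ∃ K E : Set (V (q + 3)),
    IsStarBody K ∧ IsEllipsoid E ∧ K ⊆ E ∧ volume E ≤ C * volume K ∧ interBody^[m] K = L) :
    IsEllipsoid L := by
  obtain ⟨M, hM⟩ := exists_backward (L := L) fun m _ => by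
    obtain ⟨j, ⟨K, -, h1, -, -, -, h2⟩, hj⟩ := (h.and_eventually (eventually_ge_atTop m)).exists
    exact ⟨_, star_iter (j - m) h1, by
      rw [← Function.iterate_add_apply, Nat.add_sub_cancel' hj, h2]⟩
  obtain ⟨C', C0, hC⟩ := OV.T q (show 0 < (C : ℝ) + 1 by positivity)
  refine ell_of_OV hM C0 (frequently_atTop.2 fun a => ?_)
  obtain ⟨j, ⟨K, _, h1, ⟨g, rfl⟩, h2, h3, h4⟩, hj⟩ :=
    (h.and_eventually (eventually_ge_atTop (a + 1))).exists
  obtain ⟨m, rfl⟩ : ∃ m, j = m + 1 := ⟨j - 1, by omega⟩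
  have F := (sb_rad h1).adm
  refine ⟨m, by omega, ?_⟩
  rw [← (hM.2 m).2, ← iter_inj m h1 (hM.2 (m + 1)).1 (h4.trans (orbit_iter hM (m + 1)).symm),
    rad_inter h1]
  rw [← ell, ← star_rho, ← star_rad h1] at h2 h3
  refine hC _ F ⟨g, F.le (adm_rho g) fun u hu => ?_, ?_⟩
  · have p := (sb_rad h1).pos u hu
    have := h2 (show rad K u • u ∈ star (rad K) from Or.inr (by
      rw [F.hom _ p, inv_mul_cancel₀ p.ne']))
    rw [star, mem_ofPred_eq, (adm_rho g).hom _ p, le_inv_mul_iff₀ p, mul_one] at this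
    exact this.resolve_left (smul_ne_zero p.ne' (ne_zero_of_unit hu))
  · rw [(adm_rho g).vol_star, F.vol_star, ← ENNReal.ofReal_coe_nnreal,
      ← ENNReal.ofReal_mul C.coe_nonneg,
      ENNReal.ofReal_le_ofReal_iff (mul_nonneg C.coe_nonneg F.Nn_nonneg)] at h3
    nlinarith [F.Nn_nonneg]

theorem convex_ratio (N : ℕ) : ∃ C : ℝ≥0, ∀ K : Set (V (N + 1)), IsStarBody K → Convex ℝ K →
    ∃ E, IsEllipsoid E ∧ K ⊆ E ∧ volume E ≤ C * volume K := by
  have o := om_pos (N + 1)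
  refine ⟨.mk (((N + 1 : ℕ) + 1) ^ (N + 1) * om (N + 1) * (N + 1) ^ (N + 1)) (by positivity),
    fun K hK hc => ?_⟩
  have F := sb_rad hK
  obtain ⟨u0, hu0, h0⟩ := (isCompact_sphere (0 : V (N + 1)) 1).exists_isMinOn
    ⟨pt 1 0, by simp [norm_pt_axis]⟩ (F.cont.mono sphere_subset)
  have r0 := F.pos u0 (by simpa using hu0)
  have m0 : (fun i => rad K u0 • EuclideanSpace.single i (1:ℝ)) ∈ univ.pi fun _ : Fin (N + 1) => K :=
    fun i _ => by
      rw [← star_rad hK]
      refine Or.inr ?_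
      rw [star_rad hK, F.adm.hom _ r0, le_inv_mul_iff₀ r0, mul_one]
      exact h0 (by simp)
  obtain ⟨b, hb, hm⟩ := (isCompact_univ_pi fun _ => hK.1).exists_isMaxOn ⟨_, m0⟩
    continuous_dt.continuousOn
  have hb0 : 0 < dt b := lt_of_lt_of_le (by
    have : lin (fun i : Fin (N + 1) => rad K u0 • EuclideanSpace.single i (1:ℝ)) =
        rad K u0 • LinearMap.id := by
      ext x j
      simp [lin_apply, Pi.single_apply, mul_comm]
    rw [dt, this, LinearMap.det_smul, LinearMap.det_id]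
    positivity) (hm m0)
  let g : V (N + 1) ≃L[ℝ] V (N + 1) :=
    ((lin b).equivOfDetNeZero (abs_pos.1 hb0)).toContinuousLinearEquiv
  have hg : ∀ t, g t = ∑ i, t i • b i := lin_apply b
  have p : (0:ℝ) < (N + 1 : ℕ) + 1 := by positivity
  refine ⟨_, ⟨(hom _ _ p.ne').trans g, rfl⟩, fun y hy => ?_, ?_⟩
  · obtain ⟨t, rfl⟩ := g.surjective y
    have ht : t ∈ cube (N + 1) := fun i => by
      have h1 := hm (show Function.update b i (g t) ∈ univ.pi fun _ => K from fun j _ => by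
        rcases eq_or_ne j i with rfl | e
        · simpa using hy
        · simpa [e] using hb j trivial)
      have h2 : dt (Function.update b i (g t)) = |t i| * dt b := by
        rw [dt, dt, det_lin, det_lin, ← abs_mul, ← smul_eq_mul, ← Matrix.det_updateCol_sum]
        congr 2
        ext k j
        rcases eq_or_ne j i with rfl | e
        · simp [hg]
        · simp [e]
      exact (mul_le_iff_le_one_left hb0).1 (h2.ge.trans h1)
    refine ⟨((N + 1 : ℕ) + 1 : ℝ)⁻¹ • t, ?_, congrArg g (smul_inv_smul₀ p.ne' t)⟩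
    rw [mem_closedBall_zero_iff, norm_smul, Real.norm_of_nonneg (inv_pos.2 p).le,
      inv_mul_le_iff₀ p, mul_one]
    exact mem_closedBall_zero_iff.1 (cube_subset ht)
  · have p' : (0:ℝ) < N + 1 := by positivity
    have sub : g '' {t | ∀ i, |t i| ≤ (2 * (N + 1 : ℝ))⁻¹} ⊆
        (fun y => y + ∑ i, (2 * (N + 1 : ℝ))⁻¹ • b i) ⁻¹' K := by
      rintro _ ⟨t, ht, rfl⟩
      have := hc.sum_mem (t := Finset.univ) (w := fun _ : Fin (N + 1) => (N + 1 : ℝ)⁻¹)
        (z := fun i => ((N + 1) * t i + 1 / 2) • b i) (fun _ _ => by positivity)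
        (by simp [mul_inv_cancel₀ p'.ne']) fun i _ => by
          have h1 := abs_le.1 (ht i)
          have h2 : (N + 1 : ℝ) * (2 * (N + 1 : ℝ))⁻¹ = 1 / 2 := by field_simp
          exact hK.2.1.smul_mem (hb i trivial) (by nlinarith [h1.1]) (by nlinarith [h1.2])
      rw [mem_preimage, hg, ← Finset.sum_add_distrib]
      convert this using 2 with i
      rw [smul_smul, ← add_smul]
      congr 1
      field_simp
    have h3 := measure_mono (μ := volume) sub
    rw [measure_preimage_add_right, vol_image, vol_box, Finset.prod_const, Finset.card_univ,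
      Fintype.card_fin, ← ENNReal.ofReal_pow (by positivity),
      ← ENNReal.ofReal_mul (jac_pos g).le] at h3
    refine le_trans (le_of_eq ?_) (mul_le_mul_right h3 _)
    rw [← ell, ← star_rho, (adm_rho _).vol_star, Nn_rho, jac_trans, jac_hom, abs_of_pos p,
      ← ENNReal.ofReal_coe_nnreal, ← ENNReal.ofReal_mul (NNReal.coe_nonneg _), NNReal.coe_mk]
    congr 1
    rw [show (2 * (2 * (N + 1 : ℝ))⁻¹) = (N + 1 : ℝ)⁻¹ by field_simp, inv_pow]
    field_simp

theorem rigidity (L : Set (V (q + 3))) : List.TFAE [IsEllipsoid L,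
    ∀ m, 1 ≤ m → ∃ K, IsStarBody K ∧ Convex ℝ K ∧ interBody^[m] K = L,
    ∃ C : ℝ≥0, ∃ᶠ m in atTop, ∃ K E, IsStarBody K ∧ IsEllipsoid E ∧ K ⊆ E ∧
      volume E ≤ C * volume K ∧ interBody^[m] K = L] := by
  tfae_have 1 → 2 := fun h m _ => by
    obtain ⟨M, hM, h1⟩ := type_one_iff.2 h
    refine ⟨M m, (hM.2 m).1, ?_, orbit_iter hM m⟩
    have h2 : IsBackwardOrbit (M m) fun j => M (j + m) := ⟨by simp, fun j =>
      ⟨(hM.2 _).1, by beta_reduce; rw [Nat.add_right_comm]; exact (hM.2 _).2⟩⟩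
    obtain ⟨g, hg⟩ := type_one_iff.1 ⟨_, h2, by
      rcases h1 with ⟨j, j1, e, a, E, b, c⟩ | ⟨e, -⟩
      · exact Or.inl ⟨j, j1, e, (tendsto_add_atTop_iff_nat m).2 a, fun i => E (i + m),
          fun i => b _, (tendsto_add_atTop_iff_nat m).2 c⟩
      · simp at e⟩
    rw [hg]
    exact (convex_closedBall _ _).linear_image (g : V (q + 3) →ₗ[ℝ] V (q + 3))
  tfae_have 2 → 3 := fun h => by
    obtain ⟨C, hC⟩ := convex_ratio (q + 2)
    refine ⟨C, ((eventually_ge_atTop 1).mono fun m hm => ?_).frequently⟩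
    obtain ⟨K, h1, h2, h3⟩ := h m hm
    obtain ⟨E, h4, h5, h6⟩ := hC K h1 h2
    exact ⟨K, E, h1, h4, h5, h6, h3⟩
  tfae_have 3 → 1 := fun ⟨_, h⟩ => ell_of_ratio h
  tfae_finish

end Pool.Agent.Lib.MP_242fd5_gt.Ty
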