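import Pool.Agent.Lib.MP_242fd5_gt.Ty.S6Inj

set_option autoImplicit false
set_option linter.style.haveILetI false

/-! The spectral gap of the spherical Radon transform. -/

open MeasureTheory ProbabilityTheory Set Metric Filter Topology
open scoped ENNReal RealInnerProductSpace

namespace Pool.Agent.Lib.MP_242fd5_gt.Ty

variable {n N q : ℕ}

section abstr
variable {W E : Type*} [AddCommGroup W] [Module ℝ W] [NormedAddCommGroup E]
  [InnerProductSpace ℝ E] (ι : W →ₗ[ℝ] E) (ρ : W →ₗ[ℝ] W) (Q : ℕ → Submodule ℝ W)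

lemma exists_proj (j : ℕ) [FiniteDimensional ℝ ((Q j).map ι)] (f : W) :
    ∃ p ∈ Q j, ∀ w ∈ (Q j).map ι, ⟪w, ι (f - p)⟫ = 0 := by
  obtain ⟨y, ⟨p, hp, rfl⟩, z, hz, h⟩ := ((Q j).map ι).exists_add_mem_mem_orthogonal (ι f)
  exact ⟨p, hp, fun w hw => by rw [map_sub, h, add_sub_cancel_left]; exact hz w hw⟩

/-- a symmetric operator that is triangular for a filtration -/
lemma gap_abs (hs : ∀ f g, ⟪ι (ρ f), ι g⟫ = ⟪ι f, ι (ρ g)⟫) (mono : Monotone Q)
    (fd : ∀ j, FiniteDimensional ℝ ((Q j).map ι)) (lam : ℕ → ℝ)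
    (h0 : ∀ j, ∀ f ∈ Q j, ι (ρ f) ∈ (Q j).map ι)
    (h1 : ∀ j, ∀ f ∈ Q (j + 1), ι (ρ f) - lam j • ι f ∈ (Q j).map ι) {θ : ℝ} (θ0 : 0 ≤ θ) (k : ℕ)
    (hθ : ∀ j, k ≤ j → |lam j| ≤ θ) (J : ℕ) (hJ : k ≤ J) :
    ∀ f ∈ Q J, (∀ w ∈ (Q k).map ι, ⟪w, ι f⟫ = 0) → ‖ι (ρ f)‖ ≤ θ * ‖ι f‖ := by
  induction J, hJ using Nat.le_induction with
  | base =>
    intro f hf h
    have a1 : ι f = 0 := inner_self_eq_zero.1 (h _ ⟨f, hf, rfl⟩)
    have a2 : ι (ρ f) = 0 := inner_self_eq_zero.1 (by rw [hs, a1, inner_zero_left] :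
      ⟪ι (ρ f), ι (ρ f)⟫ = 0)
    rw [a1, a2, norm_zero, mul_zero]
  | succ J hJ ih =>
    intro f hf h
    haveI := fd J
    obtain ⟨p, hp, he⟩ := exists_proj ι Q J f
    have e0 : f - p ∈ Q (J + 1) := sub_mem hf (mono J.le_succ hp)
    have a1 : ι (ρ (f - p)) = lam J • ι (f - p) := by
      obtain ⟨w, hw, hw'⟩ := h1 J _ e0
      have : ⟪ι w, ι w⟫ = 0 := by
        conv_lhs => enter [2]; rw [hw']
        rw [inner_sub_left, hs, inner_smul_left, real_inner_comm, he _ (h0 J w hw),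
          real_inner_comm, he _ ⟨w, hw, rfl⟩]
        simp
      rw [← sub_eq_zero, ← hw', inner_self_eq_zero.1 this]
    have a2 := ih p hp fun w hw => by
      have b1 := he w (Submodule.map_mono (mono hJ) hw)
      rwa [map_sub, inner_sub_right, h w hw, zero_sub, neg_eq_zero] at b1
    have a3 : ι f = ι p + ι (f - p) := by rw [map_sub, add_sub_cancel]
    have a4 : ι (ρ f) = ι (ρ p) + lam J • ι (f - p) := by
      rw [← a1, ← map_add, ← map_add, add_sub_cancel]
    have a5 : ‖ι f‖ ^ 2 = ‖ι p‖ ^ 2 + ‖ι (f - p)‖ ^ 2 := by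
      rw [a3, norm_add_sq_real, he _ ⟨p, hp, rfl⟩]; ring
    have a6 : ‖ι (ρ f)‖ ^ 2 = ‖ι (ρ p)‖ ^ 2 + (|lam J| * ‖ι (f - p)‖) ^ 2 := by
      rw [a4, norm_add_sq_real, inner_smul_right, he _ (h0 J p hp), norm_smul, Real.norm_eq_abs]
      ring
    refine (pow_le_pow_iff_left₀ (norm_nonneg _) (by positivity) two_ne_zero).1 ?_
    rw [a6, mul_pow θ, a5, mul_add, ← mul_pow, ← mul_pow]
    gcongr
    exact hθ J hJ

end abstr

/-- the even moments of the sphere -/
noncomputable def cm (N j : ℕ) : ℝ := ∫ y, y 0 ^ (2 * j) ∂mu (N + 1)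

lemma int_inner_even (j : ℕ) (b : V (N + 1)) :
    ∫ y, ⟪y, b⟫ ^ (2 * j) ∂mu (N + 1) = cm N j * (‖b‖ ^ 2) ^ j := by
  obtain ⟨g, hg⟩ := exists_iso_axis b
  rw [← int_mu_iso g, cm, ← integral_mul_const]
  refine integral_congr_ae (Eventually.of_forall fun y => ?_)
  conv_lhs => rw [← hg]
  simp only [g.inner_map_map]
  rw [← pt_tl y, inner_pt, inner_zero_right, add_zero, mul_pow, ← pow_mul]
  rfl

lemma kap_eq_map (g : V (N + 1) ≃ₗᵢ[ℝ] V (N + 1)) :
    kap (N + 1) (g (pt 1 0)) = (mu N).map fun y => g (pt 0 y) := by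
  have hm : Measurable fun y : V N => g (pt 0 y) :=
    (g.continuous.comp (continuous_pt₂.comp (Continuous.prodMk_right 0))).measurable
  ext s hs
  rw [← lintegral_indicator_one hs, ← lintegral_indicator_one hs,
    lint_kap_of_iso (measurable_one.indicator hs), lintegral_map (measurable_one.indicator hs) hm]
  exact (lint_mu ((measurable_one.indicator hs).comp hm)).symm

theorem R_pow (j : ℕ) (a : V (N + 2)) {u : V (N + 2)} (hu : ‖u‖ = 1) :
    R (fun x => ⟪x, a⟫ ^ (2 * j)) u = cm N j * (‖a‖ ^ 2 - ⟪u, a⟫ ^ 2) ^ j := by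
  obtain ⟨g, rfl⟩ := exists_iso_unit hu
  obtain ⟨a, rfl⟩ := g.surjective a
  have hm : Measurable fun y : V (N + 1) => g (pt 0 y) :=
    (g.continuous.comp (continuous_pt₂.comp (Continuous.prodMk_right 0))).measurable
  rw [R, kap_eq_map, integral_map hm.aemeasurable (by fun_prop)]
  simp only [g.inner_map_map, g.norm_map]
  rw [← pt_tl a]
  simp only [inner_pt, zero_mul, zero_add, inner_zero_left, add_zero, one_mul]
  rw [int_inner_even, norm_sq_pt, add_sub_cancel_left]

lemma bm_coord (m : ℕ) : BM 1 fun y : V (N + 1) => y 0 ^ m := by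
  simpa using bm_mono m fun _ => (0 : Fin (N + 1))

lemma cm_one : (N + 1) * cm N 1 = om (N + 1) := by
  have h1 : ∀ i : Fin (N + 1), ∫ y, y i ^ 2 ∂mu (N + 1) = cm N 1 := fun i => by
    simpa [EuclideanSpace.inner_single_right] using
      int_inner_even 1 (EuclideanSpace.single i (1 : ℝ))
  have h2 : ∀ i : Fin (N + 1), Integrable (fun y : V (N + 1) => y i ^ 2) (mu (N + 1)) := fun i => by
    simpa using (bm_mono 2 fun _ => i).int_mu
  have h3 := integral_finsetSum Finset.univ fun i _ => h2 i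
  simp only [h1, Finset.sum_const, Finset.card_univ, Fintype.card_fin, nsmul_eq_mul] at h3
  push_cast at h3
  rw [← h3, ← mu_real_univ, ← mul_one (Measure.real _ _), ← smul_eq_mul, ← integral_const]
  refine integral_congr_ae (mu_sphere.mono fun y hy => ?_)
  simp only [← EuclideanSpace.real_norm_sq_eq, hy, one_pow]

lemma cm_nonneg (j : ℕ) : 0 ≤ cm N j := integral_nonneg fun y => by
  rw [pow_mul]; positivity

lemma coord_sq_le {y : V (N + 1)} (hy : ‖y‖ = 1) : y 0 ^ 2 ≤ 1 := by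
  have := (bm_coord 2).bdd y hy
  rwa [abs_of_nonneg (sq_nonneg _)] at this

lemma cm_anti : Antitone (cm N) := fun i j h =>
  integral_mono_ae (bm_coord _).int_mu (bm_coord _).int_mu (mu_sphere.mono fun y hy => by
    simp only [pow_mul]
    exact pow_le_pow_of_le_one (sq_nonneg _) (coord_sq_le hy) h)

lemma cm_two_lt : cm (N + 1) 2 < cm (N + 1) 1 := by
  refine (cm_anti one_le_two).lt_of_ne fun h => ?_
  have i1 := (bm_coord (N := N + 1) (2 * 1)).int_mu
  have i2 := (bm_coord (N := N + 1) (2 * 2)).int_mu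
  have h1 := (integral_eq_zero_iff_of_nonneg_ae (f := fun y : V (N + 2) =>
    y 0 ^ (2 * 1) - y 0 ^ (2 * 2)) (mu_sphere.mono fun y hy => by
      have := coord_sq_le hy
      simp only [Pi.zero_apply, pow_mul, pow_one]
      nlinarith [sq_nonneg (y 0)]) (i1.sub i2)).1 (by
    rw [integral_sub i1 i2]; exact sub_eq_zero.2 h.symm)
  have h2 : cm (N + 1) 1 = om (N + 2) := by
    rw [← mu_real_univ, ← mul_one (Measure.real _ _), ← smul_eq_mul, ← integral_const]
    refine integral_congr_ae ?_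
    filter_upwards [h1, mu_ae_inner (pt_axis_ne_zero (N := N + 1) one_ne_zero)] with y h3 h4
    rw [← pt_tl y, inner_pt] at h4
    have h5 : y 0 ≠ 0 := by simpa using h4
    have h6 : y 0 ^ 2 * (1 - y 0 ^ 2) = 0 := by rw [← show _ = (0 : ℝ) from h3]; ring
    have := (mul_eq_zero.1 h6).resolve_left (pow_ne_zero _ h5)
    rw [mul_one]
    linarith
  have h3 := cm_one (N := N + 1)
  have := om_pos (N + 2)
  rw [h2] at h3
  push_cast at h3
  nlinarith [(Nat.cast_nonneg N : (0 : ℝ) ≤ N)]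

lemma ae_zero_of_moments' {h : V (n + 1) → ℝ} (H : Integrable h (mu (n + 1)))
    (hm : ∀ (m : ℕ) (w : Fin m → Fin (n + 1)), ∫ x, (∏ i, x (w i)) * h x ∂mu (n + 1) = 0) :
    ∀ᵐ x ∂mu (n + 1), h x = 0 := by
  have hK : IsCompact {u : V (n + 1) | ‖u‖ = 1} := by
    rw [show {u : V (n + 1) | ‖u‖ = 1} = sphere 0 1 by ext u; simp]
    exact isCompact_sphere _ _
  have bm : ∀ g : C(V (n + 1), ℝ), Integrable (fun x => g x * h x) (mu (n + 1)) := fun g => by
    obtain ⟨D, hD⟩ := hK.exists_bound_of_continuousOn g.continuous.continuousOn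
    exact H.bdd_mul g.continuous.aestronglyMeasurable (mu_sphere.mono hD)
  let e : Fin (n + 1) → C(V (n + 1), ℝ) := fun i => ⟨fun x => x i, by fun_prop⟩
  have h1 : ∀ g ∈ Submonoid.closure (range e), ∃ (m : ℕ) (w : Fin m → Fin (n + 1)),
      ∀ x : V (n + 1), g x = ∏ i, x (w i) := by
    intro g hg
    induction hg using Submonoid.closure_induction_left with
    | one => exact ⟨0, Fin.elim0, fun x => by simp⟩
    | mul_left a ha b hb ih =>
      obtain ⟨i, rfl⟩ := ha
      obtain ⟨m, w, hw⟩ := ih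
      exact ⟨m + 1, Fin.cons i w, fun x => by simp [Fin.prod_univ_succ, hw, e]⟩
  have h2 : ∀ g ∈ Algebra.adjoin ℝ (range e), ∫ x, g x * h x ∂mu (n + 1) = 0 := by
    intro g hg
    rw [← Subalgebra.mem_toSubmodule, Algebra.adjoin_eq_span] at hg
    induction hg using Submodule.span_induction with
    | mem g hg =>
      obtain ⟨m, w, hw⟩ := h1 g hg
      simp_rw [hw]; exact hm m w
    | zero => simp
    | add a b _ _ ha hb =>
      simp only [ContinuousMap.add_apply, add_mul]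
      rw [integral_add (bm a) (bm b), ha, hb, add_zero]
    | smul c a _ ha =>
      simp only [ContinuousMap.smul_apply, smul_eq_mul, mul_assoc]
      rw [integral_const_mul, ha, mul_zero]
  have hs : (Algebra.adjoin ℝ (range e)).SeparatesPoints := by
    intro x y hxy
    obtain ⟨i, hi⟩ : ∃ i, x i ≠ y i := by
      by_contra hh
      push Not at hh
      exact hxy (by ext i; exact hh i)
    exact ⟨e i, ⟨e i, Algebra.subset_adjoin ⟨i, rfl⟩, rfl⟩, hi⟩
  refine ae_eq_zero_of_integral_contDiff_smul_eq_zero H.locallyIntegrable fun g hg _ => ?_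
  have C0 : 0 ≤ ∫ x, |h x| ∂mu (n + 1) := integral_nonneg fun _ => abs_nonneg _
  rw [← abs_nonpos_iff]
  refine le_of_forall_pos_le_add fun ε hε => ?_
  obtain ⟨p, hp, hp2⟩ :=
    ContinuousMap.exists_mem_subalgebra_near_continuous_of_isCompact_of_separatesPoints hs
      ⟨g, hg.continuous⟩ hK (ε := ε / (∫ x, |h x| ∂mu (n + 1) + 1)) (by positivity)
  have b2 : |∫ x, (p x * h x - g x * h x) ∂mu (n + 1)| ≤
      ∫ x, ε / (∫ x, |h x| ∂mu (n + 1) + 1) * |h x| ∂mu (n + 1) := by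
    rw [← Real.norm_eq_abs]
    refine norm_integral_le_of_norm_le (H.abs.const_mul _) (mu_sphere.mono fun x hx => ?_)
    rw [← sub_mul, norm_mul]
    exact mul_le_mul_of_nonneg_right (hp2 x hx).le (abs_nonneg _)
  have ig : Integrable (fun x => g x * h x) (mu (n + 1)) := bm ⟨g, hg.continuous⟩
  rw [integral_sub (bm p) ig, h2 p hp, zero_sub, abs_neg,
    integral_const_mul] at b2
  refine b2.trans ?_
  rw [zero_add, div_mul_eq_mul_div, div_le_iff₀ (by positivity)]
  nlinarith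

/-- an integrable function orthogonal to all even powers of linear forms is odd -/
lemma odd_of_orth {z : V (n + 1) → ℝ} (H : Integrable z (mu (n + 1)))
    (hz : ∀ (j : ℕ) (a : V (n + 1)), ∫ x, ⟪x, a⟫ ^ (2 * j) * z x ∂mu (n + 1) = 0) :
    ∀ᵐ x ∂mu (n + 1), z x + z (-x) = 0 := by
  have mp := mp_mu_iso (LinearIsometryEquiv.neg ℝ : V (n + 1) ≃ₗᵢ[ℝ] V (n + 1))
  have H' : Integrable (fun x => z (-x)) (mu (n + 1)) := mp.integrable_comp_of_integrable H
  have im : ∀ {z : V (n + 1) → ℝ}, Integrable z (mu (n + 1)) → ∀ (m : ℕ) (w : Fin m → Fin (n + 1)),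
      Integrable (fun x => (∏ i, x (w i)) * z x) (mu (n + 1)) := fun H m w =>
    H.bdd_mul (bm_mono m w).meas.aestronglyMeasurable (mu_sphere.mono (bm_mono m w).bdd)
  refine ae_zero_of_moments' (H.add H') fun m w => ?_
  have h1 : ∫ x, (∏ i, x (w i)) * z (-x) ∂mu (n + 1) =
      (-1) ^ m * ∫ x, (∏ i, x (w i)) * z x ∂mu (n + 1) := by
    rw [← int_mu_iso (LinearIsometryEquiv.neg ℝ), ← integral_const_mul]
    refine integral_congr_ae (Eventually.of_forall fun x => ?_)
    simp [Finset.prod_neg, mul_assoc]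
  simp only [mul_add]
  rw [integral_add (im H m w) (im H' m w), h1]
  rcases Nat.even_or_odd' m with ⟨j, rfl | rfl⟩
  · have h2 : ∀ a : V (n + 1), ∑ w : Fin (2 * j) → Fin (n + 1), (∏ i, a (w i)) *
        ∫ x, (∏ i, x (w i)) * z x ∂mu (n + 1) = 0 := fun a => by
      simp_rw [← integral_const_mul]
      rw [← integral_finsetSum _ fun w _ => (im H _ w).const_mul _, ← hz j a]
      refine integral_congr_ae (Eventually.of_forall fun x => ?_)
      simp only [PiLp.inner_apply, RCLike.inner_apply, conj_trivial, Fintype.sum_pow,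
        Finset.sum_mul, Finset.prod_mul_distrib, mul_assoc]
    have h3 : ∑ w : Fin (2 * j) → Fin (n + 1), (∫ x, (∏ i, x (w i)) * z x ∂mu (n + 1)) ^ 2 = 0 := by
      simp_rw [sq]
      conv_lhs => enter [2, w]; rw [← integral_mul_const]
      rw [← integral_finsetSum _ fun w _ => (im H _ w).mul_const _, ← integral_zero _ ℝ]
      refine integral_congr_ae (Eventually.of_forall fun a => ?_)
      simp only [mul_right_comm _ (z a), ← Finset.sum_mul, h2, zero_mul]
    rw [pow_eq_zero_iff two_ne_zero |>.1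
      ((Finset.sum_eq_zero_iff_of_nonneg fun w _ => sq_nonneg _).1 h3 w (Finset.mem_univ _))]
    simp
  · rw [pow_succ, pow_mul]; simp

/-- bounded measurable functions on the sphere -/
def BW (n : ℕ) : Submodule ℝ (V n → ℝ) where
  carrier := {h | ∃ C, BM C h}
  add_mem' := fun ⟨_, h⟩ ⟨_, h'⟩ => ⟨_, h.add h'⟩
  zero_mem' := ⟨_, BM.const 0⟩
  smul_mem' := fun c _ ⟨_, h⟩ => ⟨_, h.const_mul c⟩

lemma BW.memLp (h : BW (N + 1)) : MemLp h.1 2 (mu (N + 1)) := by
  obtain ⟨C, H⟩ := h.2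
  exact MemLp.of_bound H.meas.aestronglyMeasurable C (mu_sphere.mono H.bdd)

noncomputable def toL (N : ℕ) : BW (N + 1) →ₗ[ℝ] Lp ℝ 2 (mu (N + 1)) where
  toFun h := (BW.memLp h).toLp _
  map_add' _ _ := rfl
  map_smul' _ _ := rfl

lemma inner_toL' (z : Lp ℝ 2 (mu (N + 1))) (g : BW (N + 1)) :
    ⟪z, toL N g⟫ = ∫ x, g.1 x * z x ∂mu (N + 1) := by
  rw [L2.inner_def]
  refine integral_congr_ae ((BW.memLp g).coeFn_toLp.mono fun x hx => ?_)
  simp only [RCLike.inner_apply, conj_trivial]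
  exact congrArg (· * _) hx

lemma inner_toL (f g : BW (N + 1)) : ⟪toL N f, toL N g⟫ = ∫ x, g.1 x * f.1 x ∂mu (N + 1) := by
  rw [inner_toL']
  exact integral_congr_ae ((BW.memLp f).coeFn_toLp.mono fun x hx => congrArg (_ * ·) hx)

lemma toL_congr {f g : BW (N + 1)} (h : ∀ x, ‖x‖ = 1 → f.1 x = g.1 x) : toL N f = toL N g :=
  MemLp.toLp_congr (BW.memLp f) (BW.memLp g) (mu_sphere.mono h)

open Classical in
noncomputable def RW (N : ℕ) : BW (N + 2) →ₗ[ℝ] BW (N + 2) where
  toFun h := ⟨fun u => if ‖u‖ = 1 then R h.1 u else 0, by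
    obtain ⟨C, H⟩ := h.2
    exact ⟨_, Measurable.ite measurableSet_unit H.R.meas measurable_const, fun u hu => by
      rw [if_pos hu]; exact H.R.bdd u hu⟩⟩
  map_add' f g := Subtype.ext (funext fun u => by
    obtain ⟨C, F⟩ := f.2
    obtain ⟨D, G⟩ := g.2
    by_cases hu : ‖u‖ = 1
    · simp only [hu, if_true, Submodule.coe_add, Pi.add_apply]
      exact R_add F G (ne_zero_of_unit hu)
    · simp [hu])
  map_smul' c f := Subtype.ext (funext fun u => by
    by_cases hu : ‖u‖ = 1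
    · simp only [hu, if_true, Submodule.coe_smul, Pi.smul_apply]
      exact R_const_mul c f.1 u
    · simp [hu])

lemma RW_unit (h : BW (N + 2)) {u : V (N + 2)} (hu : ‖u‖ = 1) : (RW N h).1 u = R h.1 u := if_pos hu

noncomputable def pw (a : V n) (m : ℕ) : BW n :=
  ⟨fun x => ⟪x, a⟫ ^ m, ‖a‖ ^ m, by fun_prop, fun x hx => by
    rw [abs_pow]
    exact pow_le_pow_left₀ (abs_nonneg _) (by simpa [hx] using abs_real_inner_le_norm x a) m⟩

def QW (n j : ℕ) : Submodule ℝ (BW n) := Submodule.span ℝ {f | ∃ a, ∃ i < j, f = pw a (2 * i)}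

lemma QW_mono : Monotone (QW n) := fun _ _ h =>
  Submodule.span_mono fun _ ⟨a, i, hi, e⟩ => ⟨a, i, hi.trans_le h, e⟩

lemma QW_fd (j : ℕ) : FiniteDimensional ℝ (QW n j) := by
  let s : (Σ i : Fin j, Fin (2 * i) → Fin n) → BW n := fun p => ⟨_, 1, bm_mono _ p.2⟩
  haveI := FiniteDimensional.span_of_finite ℝ (finite_range s)
  refine Submodule.finiteDimensional_of_le (S₂ := Submodule.span ℝ (range s))
    (Submodule.span_le.2 ?_)
  rintro _ ⟨a, i, hi, rfl⟩
  have : pw a (2 * i) = ∑ w : Fin (2 * i) → Fin n, (∏ l, a (w l)) • s ⟨⟨i, hi⟩, w⟩ :=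
    Subtype.ext (funext fun x => by
      simp only [pw, s, PiLp.inner_apply, RCLike.inner_apply, conj_trivial, Fintype.sum_pow,
        Finset.prod_mul_distrib, Submodule.coe_sum, Finset.sum_apply, Submodule.coe_smul,
        Pi.smul_apply, smul_eq_mul])
  rw [this]
  exact sum_mem fun w _ => Submodule.smul_mem _ _ (Submodule.subset_span ⟨_, rfl⟩)

lemma RW_pw (a : V (N + 2)) (i : ℕ) : toL _ (RW N (pw a (2 * i))) -
    ((-1) ^ i * cm N i) • toL _ (pw a (2 * i)) ∈ (QW (N + 2) i).map (toL _) := by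
  refine ⟨∑ m ∈ Finset.range i, (cm N i * ((-1) ^ m * (‖a‖ ^ 2) ^ (i - m) * i.choose m)) •
    pw a (2 * m), sum_mem fun m hm => Submodule.smul_mem _ _
      (Submodule.subset_span ⟨a, m, Finset.mem_range.1 hm, rfl⟩), ?_⟩
  rw [← map_smul, ← map_sub]
  refine toL_congr fun u hu => ?_
  simp only [Submodule.coe_sum, Finset.sum_apply, Submodule.coe_smul, Pi.smul_apply, smul_eq_mul,
    Submodule.coe_sub, Pi.sub_apply, RW_unit _ hu, pw]
  rw [R_pow i a hu, sub_eq_neg_add (‖a‖ ^ 2), add_pow, Finset.sum_range_succ, mul_add,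
    Finset.mul_sum, neg_pow (_ ^ 2) i, ← pow_mul]
  simp only [Nat.sub_self, pow_zero, Nat.choose_self, Nat.cast_one, mul_one]
  rw [eq_sub_iff_add_eq]
  congr 1
  · exact Finset.sum_congr rfl fun m _ => by rw [neg_pow (_ ^ 2) m, ← pow_mul]; ring
  · ring

/-- spectral gap of the spherical Radon transform off the quadratic forms -/
theorem gap_cm {C : ℝ} {h : V (N + 2) → ℝ} (H : BM C h)
    (h0 : ∀ a, ∫ x, h x * ⟪x, a⟫ ^ 2 ∂mu (N + 2) = 0) :
    ∫ u, R h u ^ 2 ∂mu (N + 2) ≤ cm N 2 ^ 2 * ∫ x, h x ^ 2 ∂mu (N + 2) := by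
  have hs : ∀ f g, ⟪toL _ (RW N f), toL _ g⟫ = ⟪toL _ f, toL _ (RW N g)⟫ := fun f g => by
    obtain ⟨C, F⟩ := f.2
    obtain ⟨D, G⟩ := g.2
    rw [inner_toL, real_inner_comm, inner_toL]
    refine Eq.trans ?_ ((R_symm G F).trans ?_) <;>
      exact integral_congr_ae (mu_sphere.mono fun u hu => by simp only [RW_unit _ hu])
  have fd : ∀ j, FiniteDimensional ℝ ((QW (N + 2) j).map (toL _)) := fun j => by
    haveI := QW_fd (n := N + 2) j
    infer_instance
  have k0 : ∀ j, ∀ f ∈ QW (N + 2) j, toL _ (RW N f) ∈ (QW (N + 2) j).map (toL _) := by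
    intro j f hf
    induction hf using Submodule.span_induction with
    | mem f hf =>
      obtain ⟨a, i, hi, rfl⟩ := hf
      have := add_mem (Submodule.map_mono (QW_mono hi.le) (RW_pw a i)) (Submodule.smul_mem _
        ((-1) ^ i * cm N i) ⟨_, Submodule.subset_span ⟨a, i, hi, rfl⟩, rfl⟩)
      rwa [sub_add_cancel] at this
    | zero => simp
    | add f g _ _ hf hg => rw [map_add, map_add]; exact add_mem hf hg
    | smul c f _ hf => rw [map_smul, map_smul]; exact Submodule.smul_mem _ _ hf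
  have k1 : ∀ j, ∀ f ∈ QW (N + 2) (j + 1), toL _ (RW N f) - ((-1) ^ j * cm N j) • toL _ f ∈
      (QW (N + 2) j).map (toL _) := by
    intro j f hf
    induction hf using Submodule.span_induction with
    | mem f hf =>
      obtain ⟨a, i, hi, rfl⟩ := hf
      rcases (Nat.lt_succ_iff.1 hi).eq_or_lt with rfl | hi
      · exact RW_pw a i
      · have : pw a (2 * i) ∈ QW (N + 2) j := Submodule.subset_span ⟨a, i, hi, rfl⟩
        exact sub_mem (k0 j _ this) (Submodule.smul_mem _ _ ⟨_, this, rfl⟩)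
    | zero => simp
    | add f g _ _ hf hg =>
      rw [map_add, map_add, map_add, smul_add, add_sub_add_comm]; exact add_mem hf hg
    | smul c f _ hf =>
      rw [map_smul, map_smul, map_smul, smul_comm, ← smul_sub]; exact Submodule.smul_mem _ _ hf
  have c0 := cm_nonneg (N := N) 2
  have ga := gap_abs (toL _) (RW N) (QW (N + 2)) hs QW_mono fd _ k0 k1 c0 2 fun j hj => by
    rw [abs_mul, abs_pow, abs_neg, abs_one, one_pow, one_mul, abs_of_nonneg (cm_nonneg j)]
    exact cm_anti hj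
  let f : BW (N + 2) := ⟨h, C, H⟩
  have f0 : ∀ w ∈ (QW (N + 2) 2).map (toL _), ⟪toL _ f, w⟫ = 0 := by
    rintro _ ⟨p, hp, rfl⟩
    induction hp using Submodule.span_induction with
    | mem p hp =>
      obtain ⟨a, i, hi, rfl⟩ := hp
      rw [real_inner_comm, inner_toL]
      interval_cases i
      · have i1 : ∀ l : Fin (N + 2), Integrable (fun x : V (N + 2) =>
            h x * ⟪x, EuclideanSpace.single l (1 : ℝ)⟫ ^ 2) (mu (N + 2)) := fun l =>
          (H.mul (bm_inner_pow (by simp) 2)).int_mu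
        have := integral_finsetSum Finset.univ fun l _ => i1 l
        simp only [h0, Finset.sum_const_zero] at this
        rw [← this]
        refine integral_congr_ae (mu_sphere.mono fun x hx => ?_)
        simp [pw, f, ← Finset.mul_sum, EuclideanSpace.inner_single_right,
          ← EuclideanSpace.real_norm_sq_eq, hx]
      · exact h0 a
    | zero => simp
    | add p p' _ _ hp hp' => rw [map_add, inner_add_right, hp, hp', add_zero]
    | smul c p _ hp => rw [map_smul, inner_smul_right, hp, mul_zero]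
  have f1 : ∀ y ∈ (⨆ j, (QW (N + 2) j).map (toL _)).topologicalClosure,
      ⟪toL _ (RW N f), y⟫ ≤ cm N 2 * ‖toL _ f‖ * ‖y‖ := by
    intro y hy
    refine closure_minimal (t := {y | ⟪toL _ (RW N f), y⟫ ≤ cm N 2 * ‖toL _ f‖ * ‖y‖})
      (fun y hy => ?_) (isClosed_le (by fun_prop) (by fun_prop)) hy
    obtain ⟨J, p, hp, rfl⟩ := (Submodule.mem_iSup_of_directed _
      (Monotone.directed_le fun _ _ h => Submodule.map_mono (QW_mono h))).1 hy
    haveI := fd 2
    obtain ⟨p₁, hp₁, he⟩ := exists_proj (toL _) (QW (N + 2)) 2 p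
    have b1 := ga (max J 2) (le_max_right _ _) (p - p₁)
      (sub_mem (QW_mono (le_max_left _ _) hp) (QW_mono (le_max_right _ _) hp₁)) he
    have b2 : ‖toL _ (p - p₁)‖ ≤ ‖toL _ p‖ := by
      have : ‖toL _ p‖ ^ 2 = ‖toL _ p₁‖ ^ 2 + ‖toL _ (p - p₁)‖ ^ 2 := by
        conv_lhs => rw [← add_sub_cancel p₁ p, map_add, norm_add_sq_real, he _ ⟨p₁, hp₁, rfl⟩]
        ring
      exact (pow_le_pow_iff_left₀ (norm_nonneg _) (norm_nonneg _) two_ne_zero).1
        (by rw [this]; exact le_add_of_nonneg_left (sq_nonneg _))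
    show ⟪_, _⟫ ≤ _
    rw [hs, ← add_sub_cancel p₁ p, map_add, map_add, inner_add_right, f0 _ (k0 2 _ hp₁), zero_add,
      add_sub_cancel]
    refine (real_inner_le_norm _ _).trans ?_
    rw [mul_comm (cm N 2), mul_assoc]
    gcongr
    exact b1.trans (by gcongr)
  have f2 := f1 (toL _ (RW N f)) (by
    rw [← Submodule.orthogonal_orthogonal_eq_closure, Submodule.mem_orthogonal]
    intro z hz
    have iz : Integrable z (mu (N + 2)) := (Lp.memLp z).integrable one_le_two
    have z1 := odd_of_orth iz fun j a => by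
      have := (Submodule.mem_orthogonal' _ _).1 hz _ (Submodule.mem_iSup_of_mem (j + 1)
        ⟨pw a (2 * j), Submodule.subset_span ⟨a, j, j.lt_succ_self, rfl⟩, rfl⟩)
      rwa [inner_toL'] at this
    have z2 : ∫ x, R h x * z x ∂mu (N + 2) = -∫ x, R h x * z x ∂mu (N + 2) := by
      conv_lhs => rw [← int_mu_iso (LinearIsometryEquiv.neg ℝ)]
      rw [← integral_neg]
      refine integral_congr_ae (z1.mono fun x hx => ?_)
      simp only [LinearIsometryEquiv.coe_neg, R_neg]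
      rw [eq_neg_of_add_eq_zero_right hx, mul_neg]
    rw [inner_toL', integral_congr_ae (g := fun x => R h x * z x)
      (mu_sphere.mono fun u hu => by simp only [RW_unit _ hu, f])]
    linarith)
  rw [real_inner_self_eq_norm_sq] at f2
  have f3 : ‖toL _ (RW N f)‖ ≤ cm N 2 * ‖toL _ f‖ := by
    rcases (norm_nonneg (toL _ (RW N f))).eq_or_lt with e | e
    · rw [← e]; positivity
    · exact le_of_mul_le_mul_right (by rwa [← sq]) e
  have f4 := pow_le_pow_left₀ (norm_nonneg _) f3 2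
  rw [mul_pow, ← real_inner_self_eq_norm_sq, ← real_inner_self_eq_norm_sq, inner_toL,
    inner_toL] at f4
  simp only [sq (h _), sq (R h _)]
  exact (integral_congr_ae (mu_sphere.mono fun u hu => by simp only [RW_unit _ hu, f])).trans_le f4

theorem gap (q : ℕ) : ∃ θ : ℝ, 0 ≤ θ ∧ θ < 1 ∧ ∀ {C : ℝ} {h : V (q + 3) → ℝ}, BM C h →
    (∀ a, ∫ x, h x * ⟪x, a⟫ ^ 2 ∂mu (q + 3) = 0) →
    (q + 2) ^ 2 * ∫ u, R h u ^ 2 ∂mu (q + 3) ≤
      (θ * om (q + 2)) ^ 2 * ∫ x, h x ^ 2 ∂mu (q + 3) := by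
  have c2 := cm_nonneg (N := q + 1) 2
  have c1 := cm_two_lt (N := q)
  have c0 := c2.trans_lt c1
  refine ⟨cm (q + 1) 2 / cm (q + 1) 1, by positivity, (div_lt_one c0).2 c1, fun H h0 => ?_⟩
  have h1 := mul_le_mul_of_nonneg_left (gap_cm H h0) (sq_nonneg ((q : ℝ) + 2))
  refine h1.trans (le_of_eq ?_)
  rw [← cm_one (N := q + 1)]
  push_cast
  field_simp
  ring

end Pool.Agent.Lib.MP_242fd5_gt.Ty
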