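import Pool.Agent.Lib.MP_242fd5_gt.Star

set_option autoImplicit false

open MeasureTheory ProbabilityTheory Set Metric Filter Topology
open scoped ENNReal RealInnerProductSpace

namespace Pool.Agent.Lib.MP_242fd5_gt.Ty

abbrev V (n : ℕ) := EuclideanSpace ℝ (Fin n)

noncomputable section

variable {n N : ℕ}

/-- normalisation to the unit sphere -/
def nrm (x : V n) : V n := ‖x‖⁻¹ • x

/-- projection onto `ξ^⊥` -/
def prj (ξ x : V n) : V n := x - (⟪x, ξ⟫ / ‖ξ‖ ^ 2) • ξ

/-- Lebesgue measure of the hyperplane `ξ^⊥`, divided by `‖ξ‖` -/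
def secM (ξ : V n) : Measure (V n) :=
  (volume.restrict {x : V n | ⟪x, ξ⟫ ∈ Icc (0:ℝ) 1}).map (prj ξ)

def sec (F : V n → ℝ≥0∞) (ξ : V n) : ℝ≥0∞ := ∫⁻ x, F x ∂secM ξ

/-- the measure on the unit sphere, of total mass the volume of the unit ball -/
def mu (n : ℕ) : Measure (V n) := (volume.restrict (ball (0 : V n) 1)).map nrm

def kap0 (u : V n) : Measure (V n) := ((secM (nrm u)).restrict (ball (0 : V n) 1)).map nrm

@[fun_prop] lemma measurable_nrm : Measurable (nrm : V n → V n) := by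
  unfold nrm; fun_prop

lemma measurable_prj₂ : Measurable fun p : V n × V n => prj p.1 p.2 := by
  unfold prj; fun_prop

@[fun_prop] lemma measurable_prj (ξ : V n) : Measurable (prj ξ) := by
  unfold prj; fun_prop

lemma measurableSet_slab (ξ : V n) : MeasurableSet {x : V n | ⟪x, ξ⟫ ∈ Icc (0:ℝ) 1} :=
  measurableSet_Icc.preimage (by fun_prop)

lemma sec_eq {F : V n → ℝ≥0∞} (hF : Measurable F) (ξ : V n) :
    sec F ξ = ∫⁻ x, (Icc (0:ℝ) 1).indicator 1 ⟪x, ξ⟫ * F (prj ξ x) := by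
  unfold sec secM
  rw [lintegral_map hF (measurable_prj ξ), ← lintegral_indicator (measurableSet_slab ξ)]
  refine lintegral_congr fun x => ?_
  by_cases h : ⟪x, ξ⟫ ∈ Icc (0:ℝ) 1
  · rw [indicator_of_mem (show x ∈ {x : V n | ⟪x, ξ⟫ ∈ Icc (0:ℝ) 1} from h), indicator_of_mem h]
    simp
  · rw [indicator_of_notMem (show x ∉ {x : V n | ⟪x, ξ⟫ ∈ Icc (0:ℝ) 1} from h),
      indicator_of_notMem h, zero_mul]

lemma measurable_sec₂ {α : Type} [MeasurableSpace α] {F : α → V n → ℝ≥0∞} {ξ : α → V n}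
    (hF : Measurable (Function.uncurry F)) (hξ : Measurable ξ) :
    Measurable fun a => sec (F a) (ξ a) := by
  have h1 : ∀ a, Measurable (F a) := fun a => hF.of_uncurry_left
  simp_rw [sec_eq (h1 _)]
  refine Measurable.lintegral_prod_right
    (f := fun a x => (Icc (0:ℝ) 1).indicator 1 ⟪x, ξ a⟫ * F a (prj (ξ a) x)) ?_
  refine Measurable.mul ((measurable_one.indicator measurableSet_Icc).comp (by fun_prop)) ?_
  exact hF.comp (measurable_fst.prodMk (measurable_prj₂.comp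
    ((hξ.comp measurable_fst).prodMk measurable_snd)))

lemma measurable_sec {F : V n → ℝ≥0∞} (hF : Measurable F) : Measurable (sec F) :=
  measurable_sec₂ (F := fun _ => F) (hF.comp measurable_snd) measurable_id

lemma lint_kap0 {h : V n → ℝ≥0∞} (hh : Measurable h) (u : V n) :
    ∫⁻ v, h v ∂kap0 u = sec ((ball (0 : V n) 1).indicator fun x => h (nrm x)) (nrm u) := by
  unfold kap0 sec
  rw [lintegral_map hh measurable_nrm, lintegral_indicator measurableSet_ball]

/-- the great subsphere kernel -/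
def kap (n : ℕ) : Kernel (V n) (V n) where
  toFun := kap0
  measurable' := Measure.measurable_of_measurable_coe _ fun s hs => by
    simp_rw [← lintegral_indicator_one hs, lint_kap0 (measurable_one.indicator hs)]
    exact (measurable_sec (((measurable_one.indicator hs).comp measurable_nrm).indicator
      measurableSet_ball)).comp measurable_nrm

lemma lint_kap {h : V n → ℝ≥0∞} (hh : Measurable h) (u : V n) :
    ∫⁻ v, h v ∂kap n u = sec ((ball (0 : V n) 1).indicator fun x => h (nrm x)) (nrm u) :=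
  lint_kap0 hh u

lemma lint_mu {h : V n → ℝ≥0∞} (hh : Measurable h) :
    ∫⁻ v, h v ∂mu n = ∫⁻ x in ball (0 : V n) 1, h (nrm x) := by
  unfold mu
  rw [lintegral_map hh measurable_nrm]

/-- spherical Radon transform -/
def Re (h : V n → ℝ≥0∞) (u : V n) : ℝ≥0∞ := ∫⁻ v, h v ∂kap n u
def R (h : V n → ℝ) (u : V n) : ℝ := ∫ v, h v ∂kap n u

/-- the intersection body operator on radial functions -/
def Te (a : V (N + 1) → ℝ≥0∞) (u : V (N + 1)) : ℝ≥0∞ := ∫⁻ v, a v ^ N ∂kap (N + 1) u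
def T (f : V (N + 1) → ℝ) (ξ : V (N + 1)) : ℝ := ‖ξ‖⁻¹ * ∫ v, f v ^ N ∂kap (N + 1) ξ

/-- the volume -/
def Ne (a : V (N + 1) → ℝ≥0∞) : ℝ≥0∞ := ∫⁻ u, a u ^ (N + 1) ∂mu (N + 1)
def Nn (f : V (N + 1) → ℝ) : ℝ := ∫ u, f u ^ (N + 1) ∂mu (N + 1)

/-- the `L^n` distance to the power `n` -/
def dN (f h : V (N + 1) → ℝ) : ℝ := ∫ u, |f u - h u| ^ (N + 1) ∂mu (N + 1)
/-- the volume of the symmetric difference -/
def dV (f h : V (N + 1) → ℝ) : ℝ := ∫ u, |f u ^ (N + 1) - h u ^ (N + 1)| ∂mu (N + 1)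

def Phi (f : V (N + 1) → ℝ) : ℝ := Nn (T f) / Nn f ^ N

/-- volume of the unit ball -/
def om (n : ℕ) : ℝ := (volume (ball (0 : V n) 1)).toReal

def PhiB (N : ℕ) : ℝ := om N ^ (N + 1) / om (N + 1) ^ (N - 1)

/-- the energy levels -/
def lev (N k : ℕ) : ℝ := PhiB N / (k : ℝ) ^ (N - 1)

/-- admissible radial functions -/
structure Adm (f : V n → ℝ) : Prop where
  meas : Measurable f
  nn : ∀ x, 0 ≤ f x
  hom : ∀ t : ℝ, 0 < t → ∀ x, f (t • x) = t⁻¹ * f x
  bdd : ∃ C : ℝ, ∀ x, ‖x‖ = 1 → f x ≤ C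

/-- bounded measurable functions on the sphere -/
structure BM (C : ℝ) (h : V n → ℝ) : Prop where
  meas : Measurable h
  bdd : ∀ x, ‖x‖ = 1 → |h x| ≤ C

def star (f : V n → ℝ) : Set (V n) := {x | x = 0 ∨ 1 ≤ f x}

def jac (g : V n ≃L[ℝ] V n) : ℝ := |LinearMap.det (g : V n →ₗ[ℝ] V n)|

/-- the inverse transpose -/
def dual (g : V n ≃L[ℝ] V n) : V n ≃L[ℝ] V n :=
  ContinuousLinearEquiv.equivOfInverse
    (ContinuousLinearMap.adjoint (g.symm : V n →L[ℝ] V n))
    (ContinuousLinearMap.adjoint (g : V n →L[ℝ] V n))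
    (fun x => by
      rw [← ContinuousLinearMap.comp_apply, ← ContinuousLinearMap.adjoint_comp]; simp)
    (fun x => by
      rw [← ContinuousLinearMap.comp_apply, ← ContinuousLinearMap.adjoint_comp]; simp)

/-- centred ellipsoid and its radial function -/
def ell (g : V n ≃L[ℝ] V n) : Set (V n) := g '' closedBall 0 1
def rho (g : V n ≃L[ℝ] V n) (x : V n) : ℝ := ‖g.symm x‖⁻¹

/-- radial function of a finite union of ellipsoids -/
def mx {k : ℕ} (g : Fin k → V n ≃L[ℝ] V n) (x : V n) : ℝ := ⨆ i, rho (g i) x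

/-- the kernel of the Radon transform applied twice -/
def kr (u x : V n) : ℝ := ‖x - ⟪x, u⟫ • u‖⁻¹

def pt (s : ℝ) (y : V N) : V (N + 1) := WithLp.toLp 2 (Fin.cons s y.ofLp)
def tl (x : V (N + 1)) : V N := WithLp.toLp 2 fun i => x i.succ

/-- the linear map with given columns -/
def lin (b : Fin n → V n) : V n →ₗ[ℝ] V n :=
  (Fintype.linearCombination ℝ b).comp (WithLp.linearEquiv 2 ℝ (Fin n → ℝ)).toLinearMap

def cube (n : ℕ) : Set (V n) := {t | ∀ i, |t i| ≤ 1}

/-- radial function of a set, extended with degree `-1` -/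
def rad (L : Set (V n)) (x : V n) : ℝ := ‖x‖⁻¹ * radial L (nrm x)

end

end Pool.Agent.Lib.MP_242fd5_gt.Ty
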