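import Pool.Agent.Lib.MP_242fd5_gt.Ty.A0Defs

set_option autoImplicit false

open MeasureTheory ProbabilityTheory Set Metric Filter Topology
open scoped ENNReal RealInnerProductSpace

namespace Pool.Agent.Lib.MP_242fd5_gt.Ty

variable {n N : ℕ}

lemma norm_nrm {x : V n} (hx : x ≠ 0) : ‖nrm x‖ = 1 := by
  unfold nrm; rw [norm_smul, norm_inv, norm_norm, inv_mul_cancel₀ (norm_ne_zero_iff.2 hx)]

lemma nrm_unit {x : V n} (hx : ‖x‖ = 1) : nrm x = x := by unfold nrm; rw [hx]; simp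

@[simp] lemma nrm_zero : nrm (0 : V n) = 0 := by simp [nrm]

lemma nrm_smul {t : ℝ} (ht : 0 < t) (x : V n) : nrm (t • x) = nrm x := by
  unfold nrm
  rw [norm_smul, Real.norm_of_nonneg ht.le, smul_smul, mul_inv, mul_comm t⁻¹, mul_assoc,
    inv_mul_cancel₀ ht.ne', mul_one]

lemma nrm_nrm (x : V n) : nrm (nrm x) = nrm x := by
  by_cases hx : x = 0
  · simp [hx]
  · exact nrm_unit (norm_nrm hx)

lemma norm_smul_nrm (x : V n) : ‖x‖ • nrm x = x := by
  by_cases hx : x = 0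
  · simp [hx]
  · unfold nrm; rw [smul_smul, mul_inv_cancel₀ (norm_ne_zero_iff.2 hx), one_smul]

lemma nrm_neg (x : V n) : nrm (-x) = -nrm x := by unfold nrm; simp

lemma nrm_iso (g : V n ≃ₗᵢ[ℝ] V n) (x : V n) : nrm (g x) = g (nrm x) := by
  unfold nrm; simp

lemma nrm_ne_zero {x : V n} (hx : x ≠ 0) : nrm x ≠ 0 := by
  rw [← norm_ne_zero_iff, norm_nrm hx]; exact one_ne_zero

lemma ne_zero_of_unit {x : V n} (hx : ‖x‖ = 1) : x ≠ 0 := by
  rw [← norm_ne_zero_iff, hx]; exact one_ne_zero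

lemma inner_dual (g : V n ≃L[ℝ] V n) (x ξ : V n) : ⟪g x, dual g ξ⟫ = ⟪x, ξ⟫ := by
  show ⟪g x, ContinuousLinearMap.adjoint (g.symm : V n →L[ℝ] V n) ξ⟫ = _
  rw [ContinuousLinearMap.adjoint_inner_right]; simp

lemma eq_dual {g h : V n ≃L[ℝ] V n} (H : ∀ x ξ, ⟪g x, h ξ⟫ = ⟪x, ξ⟫) : h = dual g := by
  ext1
  funext ξ
  refine ext_inner_left ℝ fun v => ?_
  obtain ⟨x, rfl⟩ := g.surjective v
  rw [H, inner_dual]

lemma dual_dual (g : V n ≃L[ℝ] V n) : dual (dual g) = g :=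
  (eq_dual fun x ξ => by rw [real_inner_comm, inner_dual, real_inner_comm]).symm

lemma dual_symm (g : V n ≃L[ℝ] V n) : dual g.symm = (dual g).symm :=
  (eq_dual fun x ξ => by rw [← inner_dual g]; simp).symm

lemma dual_trans (g h : V n ≃L[ℝ] V n) : dual (g.trans h) = (dual g).trans (dual h) :=
  (eq_dual fun x ξ => by simp [inner_dual]).symm

lemma dual_iso (g : V n ≃ₗᵢ[ℝ] V n) :
    dual g.toContinuousLinearEquiv = g.toContinuousLinearEquiv :=
  (eq_dual fun x ξ => by simp).symm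

lemma dual_refl : dual (ContinuousLinearEquiv.refl ℝ (V n)) = ContinuousLinearEquiv.refl ℝ (V n) :=
  (eq_dual fun x ξ => by simp).symm

lemma det_adj (f : V n →ₗ[ℝ] V n) : LinearMap.det (LinearMap.adjoint f) = LinearMap.det f := by
  let b := EuclideanSpace.basisFun (Fin n) ℝ
  rw [← LinearMap.det_toMatrix b.toBasis, ← LinearMap.det_toMatrix b.toBasis f,
    LinearMap.toMatrix_adjoint b b, Matrix.det_conjTranspose, star_trivial]

lemma jac_trans (g h : V n ≃L[ℝ] V n) : jac (g.trans h) = jac g * jac h := by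
  unfold jac
  rw [← abs_mul, mul_comm, ← LinearMap.det_comp]; rfl

@[simp] lemma jac_refl : jac (ContinuousLinearEquiv.refl ℝ (V n)) = 1 := by
  unfold jac
  rw [show ((ContinuousLinearEquiv.refl ℝ (V n) : V n ≃L[ℝ] V n) : V n →ₗ[ℝ] V n) = LinearMap.id
    from rfl, LinearMap.det_id, abs_one]

lemma jac_mul_symm (g : V n ≃L[ℝ] V n) : jac g * jac g.symm = 1 := by
  rw [← jac_trans, ContinuousLinearEquiv.self_trans_symm, jac_refl]

lemma jac_pos (g : V n ≃L[ℝ] V n) : 0 < jac g := by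
  have := jac_mul_symm g
  exact lt_of_le_of_ne (abs_nonneg _) fun h => by rw [← h] at this; simp at this

lemma jac_symm (g : V n ≃L[ℝ] V n) : jac g.symm = (jac g)⁻¹ :=
  (inv_eq_of_mul_eq_one_right (jac_mul_symm g)).symm

lemma jac_dual (g : V n ≃L[ℝ] V n) : jac (dual g) = (jac g)⁻¹ := by
  rw [← jac_symm]
  unfold jac
  rw [← det_adj (g.symm : V n →ₗ[ℝ] V n)]
  congr 2

lemma jac_iso (g : V n ≃ₗᵢ[ℝ] V n) : jac g.toContinuousLinearEquiv = 1 := by
  have h := jac_dual g.toContinuousLinearEquiv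
  rw [dual_iso] at h
  have h0 := jac_pos g.toContinuousLinearEquiv
  have h1 : jac g.toContinuousLinearEquiv * jac g.toContinuousLinearEquiv = 1 := by
    nth_rewrite 2 [h]; exact mul_inv_cancel₀ h0.ne'
  nlinarith

/-- the homothety -/
noncomputable def hom (n : ℕ) (t : ℝ) (ht : t ≠ 0) : V n ≃L[ℝ] V n :=
  ContinuousLinearEquiv.equivOfInverse (t • ContinuousLinearMap.id ℝ _)
    (t⁻¹ • ContinuousLinearMap.id ℝ _) (fun x => by simp [smul_smul, ht])
    (fun x => by simp [smul_smul, ht])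

@[simp] lemma hom_apply {t : ℝ} (ht : t ≠ 0) (x : V n) : hom n t ht x = t • x := rfl
@[simp] lemma hom_symm_apply {t : ℝ} (ht : t ≠ 0) (x : V n) : (hom n t ht).symm x = t⁻¹ • x := rfl

lemma jac_hom {t : ℝ} (ht : t ≠ 0) : jac (hom n t ht) = |t| ^ n := by
  unfold jac
  rw [show ((hom n t ht : V n ≃L[ℝ] V n) : V n →ₗ[ℝ] V n) = t • LinearMap.id from rfl,
    LinearMap.det_smul, LinearMap.det_id, mul_one, abs_pow]
  simp

lemma dual_hom {t : ℝ} (ht : t ≠ 0) : dual (hom n t ht) = hom n t⁻¹ (inv_ne_zero ht) :=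
  (eq_dual fun x ξ => by
    simp only [hom_apply, inner_smul_left, inner_smul_right, conj_trivial]; field_simp).symm

lemma lint_lin (f : V n →ₗ[ℝ] V n) (hf : LinearMap.det f ≠ 0) {F : V n → ℝ≥0∞}
    (hF : Measurable F) :
    ∫⁻ x, F (f x) = ENNReal.ofReal |LinearMap.det f|⁻¹ * ∫⁻ x, F x := by
  rw [← lintegral_map hF f.continuous_of_finiteDimensional.measurable,
    Measure.map_linearMap_addHaar_eq_smul_addHaar _ hf, lintegral_smul_measure, smul_eq_mul,
    abs_inv]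

lemma lint_comp (g : V n ≃L[ℝ] V n) {F : V n → ℝ≥0∞} (hF : Measurable F) :
    ∫⁻ x, F (g x) = ENNReal.ofReal (jac g)⁻¹ * ∫⁻ x, F x :=
  lint_lin (g : V n →ₗ[ℝ] V n) (abs_pos.1 (jac_pos g)) hF

lemma vol_image (g : V n ≃L[ℝ] V n) (s : Set (V n)) :
    volume (g '' s) = ENNReal.ofReal (jac g) * volume s :=
  Measure.addHaar_image_continuousLinearEquiv _ g s

lemma vol_preimage (g : V n ≃L[ℝ] V n) (s : Set (V n)) :
    volume (g ⁻¹' s) = ENNReal.ofReal (jac g)⁻¹ * volume s := by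
  rw [Measure.addHaar_preimage_continuousLinearEquiv, ← jac_symm]; rfl

lemma exists_iso_map {u v : V n} (h : ‖u‖ = ‖v‖) : ∃ g : V n ≃ₗᵢ[ℝ] V n, g u = v :=
  ⟨_, Submodule.reflection_sub h⟩

/-! coordinates -/

@[simp] lemma pt_zero (s : ℝ) (y : V N) : pt s y 0 = s := rfl
@[simp] lemma pt_succ (s : ℝ) (y : V N) (i : Fin N) : pt s y i.succ = y i := rfl
@[simp] lemma tl_apply (x : V (N + 1)) (i : Fin N) : tl x i = x i.succ := rfl
@[simp] lemma tl_pt (s : ℝ) (y : V N) : tl (pt s y) = y := rfl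

@[simp] lemma pt_tl (x : V (N + 1)) : pt (x 0) (tl x) = x := by
  ext i; refine Fin.cases rfl (fun j => rfl) i

lemma pt_add (s s' : ℝ) (y y' : V N) : pt (s + s') (y + y') = pt s y + pt s' y' := by
  ext i; refine Fin.cases rfl (fun j => rfl) i

lemma pt_sub (s s' : ℝ) (y y' : V N) : pt (s - s') (y - y') = pt s y - pt s' y' := by
  ext i; refine Fin.cases rfl (fun j => rfl) i

lemma pt_smul (c s : ℝ) (y : V N) : pt (c * s) (c • y) = c • pt s y := by
  ext i; refine Fin.cases rfl (fun j => rfl) i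

lemma pt_zero_zero : pt 0 (0 : V N) = 0 := by
  ext i; refine Fin.cases rfl (fun j => rfl) i

lemma tl_add (x x' : V (N + 1)) : tl (x + x') = tl x + tl x' := rfl
lemma tl_sub (x x' : V (N + 1)) : tl (x - x') = tl x - tl x' := rfl
lemma tl_smul (c : ℝ) (x : V (N + 1)) : tl (c • x) = c • tl x := rfl

lemma inner_split (x z : V (N + 1)) : ⟪x, z⟫ = x 0 * z 0 + ⟪tl x, tl z⟫ := by
  simp [PiLp.inner_apply, Fin.sum_univ_succ, mul_comm]

lemma inner_pt (s s' : ℝ) (y y' : V N) : ⟪pt s y, pt s' y'⟫ = s * s' + ⟪y, y'⟫ :=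
  inner_split _ _

lemma norm_sq_pt (s : ℝ) (y : V N) : ‖pt s y‖ ^ 2 = s ^ 2 + ‖y‖ ^ 2 := by
  rw [← real_inner_self_eq_norm_sq, ← real_inner_self_eq_norm_sq, inner_pt, sq]

lemma norm_pt_zero (y : V N) : ‖pt 0 y‖ = ‖y‖ := by
  have := norm_sq_pt 0 y
  rw [← pow_left_inj₀ (norm_nonneg _) (norm_nonneg _) two_ne_zero, this]; simp

lemma norm_pt_axis (s : ℝ) : ‖pt s (0 : V N)‖ = |s| := by
  have := norm_sq_pt s (0 : V N)
  rw [← pow_left_inj₀ (norm_nonneg _) (abs_nonneg _) two_ne_zero, this]; simp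

@[fun_prop] lemma continuous_tl : Continuous (tl : V (N + 1) → V N) := by
  unfold tl; fun_prop

lemma continuous_pt₂ : Continuous fun p : ℝ × V N => pt p.1 p.2 := by
  unfold pt
  refine (PiLp.continuous_toLp 2 _).comp (continuous_pi fun i => ?_)
  refine Fin.cases ?_ (fun j => ?_) i
  · exact continuous_fst
  · simp only [Fin.cons_succ]; fun_prop

@[fun_prop] lemma Continuous.pt {α : Type} [TopologicalSpace α] {s : α → ℝ} {y : α → V N}
    (hs : Continuous s) (hy : Continuous y) : Continuous fun a => pt (s a) (y a) :=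
  continuous_pt₂.comp (hs.prodMk hy)

@[fun_prop] lemma measurable_tl : Measurable (tl : V (N + 1) → V N) := continuous_tl.measurable

@[fun_prop] lemma Measurable.pt {α : Type} [MeasurableSpace α] {s : α → ℝ} {y : α → V N}
    (hs : Measurable s) (hy : Measurable y) : Measurable fun a => pt (s a) (y a) :=
  continuous_pt₂.measurable.comp (hs.prodMk hy)

lemma mp_split : MeasurePreserving (fun x : V (N + 1) => ((x 0, tl x) : ℝ × V N)) := by
  have h0 := PiLp.volume_preserving_ofLp (Fin (N + 1))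
  have h1 := volume_preserving_piFinSuccAbove (fun _ : Fin (N + 1) => ℝ) 0
  have h2 := PiLp.volume_preserving_toLp (Fin N)
  exact (((MeasurePreserving.id (volume : Measure ℝ)).prod h2).comp h1).comp h0

lemma lint_pt {F : V (N + 1) → ℝ≥0∞} (hF : Measurable F) :
    ∫⁻ x, F x = ∫⁻ s : ℝ, ∫⁻ y : V N, F (pt s y) := by
  have hm : Measurable fun p : ℝ × V N => F (pt p.1 p.2) := hF.comp continuous_pt₂.measurable
  rw [← lintegral_prod _ hm.aemeasurable, ← Measure.volume_eq_prod, ← mp_split.lintegral_comp hm]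
  simp

lemma lint_pt' {F : V (N + 1) → ℝ≥0∞} (hF : Measurable F) :
    ∫⁻ x, F x = ∫⁻ y : V N, ∫⁻ s : ℝ, F (pt s y) := by
  have hm : Measurable fun p : ℝ × V N => F (pt p.1 p.2) := hF.comp continuous_pt₂.measurable
  rw [lint_pt hF, lintegral_lintegral_swap hm.aemeasurable]

end Pool.Agent.Lib.MP_242fd5_gt.Ty
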