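import Pool.Agent.Lib.MP_242fd5_gt.Ty.A1Lin

set_option autoImplicit false

open MeasureTheory ProbabilityTheory Set Metric Filter Topology
open scoped ENNReal RealInnerProductSpace

namespace Pool.Agent.Lib.MP_242fd5_gt.Ty

variable {n N : ℕ}

lemma measurable_ind : Measurable ((Icc (0:ℝ) 1).indicator (1 : ℝ → ℝ≥0∞)) :=
  measurable_one.indicator measurableSet_Icc

@[fun_prop] lemma measurable_ind' {α : Type} [MeasurableSpace α] {f : α → ℝ} (hf : Measurable f) :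
    Measurable fun a => (Icc (0:ℝ) 1).indicator (1 : ℝ → ℝ≥0∞) (f a) := measurable_ind.comp hf

lemma sec_eq_of_w {F : V n → ℝ≥0∞} (hF : Measurable F) {ξ w : V n} (hw : ⟪w, ξ⟫ = 1) :
    sec F ξ = ∫⁻ x, (Icc (0:ℝ) 1).indicator 1 ⟪x, ξ⟫ * F (x - ⟪x, ξ⟫ • w) := by
  have hξ : ξ ≠ 0 := by rintro rfl; simp at hw
  have hn : ‖ξ‖ ^ 2 ≠ 0 := pow_ne_zero _ (norm_ne_zero_iff.2 hξ)
  set v : V n := w - (‖ξ‖ ^ 2)⁻¹ • ξ with hv
  have hvξ : ⟪v, ξ⟫ = 0 := by
    rw [hv, inner_sub_left, hw, inner_smul_left, real_inner_self_eq_norm_sq]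
    simp [inv_mul_cancel₀ hn]
  let f : Module.Dual ℝ (V n) := innerₗ (V n) ξ
  have hf : ∀ x, f x = ⟪x, ξ⟫ := fun x => by simp [f, real_inner_comm]
  have hd : LinearMap.det (LinearMap.transvection f v) = 1 := by
    rw [LinearMap.transvection.det, hf, hvξ, add_zero]
  have hG : Measurable fun x : V n => (Icc (0:ℝ) 1).indicator (1 : ℝ → ℝ≥0∞) ⟪x, ξ⟫ *
      F (x - ⟪x, ξ⟫ • w) := by fun_prop
  have := lint_lin (LinearMap.transvection f v) (by rw [hd]; exact one_ne_zero) hG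
  rw [hd, abs_one, inv_one, ENNReal.ofReal_one, one_mul] at this
  rw [← this, sec_eq hF]
  refine lintegral_congr fun x => ?_
  have h1 : ⟪LinearMap.transvection f v x, ξ⟫ = ⟪x, ξ⟫ := by
    rw [LinearMap.transvection.apply, inner_add_left, inner_smul_left, hvξ]; simp
  rw [h1, LinearMap.transvection.apply, hf]
  congr 2
  rw [prj, hv, smul_sub, smul_smul, div_eq_mul_inv]
  abel

lemma sec_comp (g : V n ≃L[ℝ] V n) {F : V n → ℝ≥0∞} (hF : Measurable F) {ξ : V n} (hξ : ξ ≠ 0) :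
    sec (fun x => F (g x)) ξ = ENNReal.ofReal (jac g)⁻¹ * sec F (dual g ξ) := by
  have hn : ‖ξ‖ ^ 2 ≠ 0 := pow_ne_zero _ (norm_ne_zero_iff.2 hξ)
  have hw : ⟪(‖ξ‖ ^ 2)⁻¹ • ξ, ξ⟫ = 1 := by
    rw [inner_smul_left, real_inner_self_eq_norm_sq]; simp [inv_mul_cancel₀ hn]
  have hw' : ⟪g ((‖ξ‖ ^ 2)⁻¹ • ξ), dual g ξ⟫ = 1 := by rw [inner_dual, hw]
  have hg := g.continuous.measurable
  rw [sec_eq_of_w (by fun_prop) hw, sec_eq_of_w hF hw', ← lint_comp g (by fun_prop)]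
  refine lintegral_congr fun x => ?_
  simp only [inner_dual, map_sub, map_smul]

lemma sec_iso (g : V n ≃ₗᵢ[ℝ] V n) {F : V n → ℝ≥0∞} (hF : Measurable F) {ξ : V n} (hξ : ξ ≠ 0) :
    sec (fun x => F (g x)) ξ = sec F (g ξ) := by
  have := sec_comp g.toContinuousLinearEquiv hF hξ
  rw [jac_iso, dual_iso, inv_one, ENNReal.ofReal_one, one_mul] at this
  exact this

lemma lint_ind_aff {τ : ℝ} (hτ : τ ≠ 0) (b : ℝ) :
    ∫⁻ s : ℝ, (Icc (0:ℝ) 1).indicator (1 : ℝ → ℝ≥0∞) (s * τ + b) = ENNReal.ofReal |τ|⁻¹ := by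
  have h1 : ∫⁻ s : ℝ, (Icc (0:ℝ) 1).indicator (1 : ℝ → ℝ≥0∞) (s + b) = 1 := by
    rw [lintegral_add_right_eq_self (fun s => (Icc (0:ℝ) 1).indicator (1 : ℝ → ℝ≥0∞) s) b,
      lintegral_indicator_one measurableSet_Icc]
    simp
  rw [← lintegral_map (f := fun s => (Icc (0:ℝ) 1).indicator (1 : ℝ → ℝ≥0∞) (s + b))
    (measurable_ind.comp (by fun_prop)) (measurable_mul_const τ),
    Real.map_volume_mul_right hτ, lintegral_smul_measure, h1, smul_eq_mul, mul_one, abs_inv]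

lemma sec_chart {F : V (N + 1) → ℝ≥0∞} (hF : Measurable F) {τ : ℝ} (hτ : τ ≠ 0) (η : V N) :
    sec F (pt τ η) = ENNReal.ofReal |τ|⁻¹ * ∫⁻ y : V N, F (pt (-(⟪η, y⟫ / τ)) y) := by
  have hw : ⟪pt τ⁻¹ (0 : V N), pt τ η⟫ = 1 := by rw [inner_pt]; simp [hτ]
  rw [sec_eq_of_w hF hw, lint_pt' (by fun_prop), ← lintegral_const_mul _ (by fun_prop)]
  refine lintegral_congr fun y => ?_
  have h1 : ∀ s : ℝ, pt s y - ⟪pt s y, pt τ η⟫ • pt τ⁻¹ (0 : V N) = pt (-(⟪η, y⟫ / τ)) y := by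
    intro s
    rw [← pt_smul, ← pt_sub, inner_pt, real_inner_comm]
    congr 1
    · field_simp; ring
    · simp
  simp only [h1]
  rw [lintegral_mul_const _ (by fun_prop)]
  simp only [inner_pt]
  rw [lint_ind_aff hτ]

lemma sec_axis {F : V (N + 1) → ℝ≥0∞} (hF : Measurable F) {τ : ℝ} (hτ : τ ≠ 0) :
    sec F (pt τ 0) = ENNReal.ofReal |τ|⁻¹ * ∫⁻ y : V N, F (pt 0 y) := by
  rw [sec_chart hF hτ]; simp

lemma exists_iso_axis (ξ : V (N + 1)) : ∃ g : V (N + 1) ≃ₗᵢ[ℝ] V (N + 1), g (pt ‖ξ‖ 0) = ξ :=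
  exists_iso_map (by rw [norm_pt_axis, abs_norm])

lemma pt_axis_ne_zero {τ : ℝ} (hτ : τ ≠ 0) : pt τ (0 : V N) ≠ 0 := by
  rw [← norm_ne_zero_iff, norm_pt_axis]; exact abs_ne_zero.2 hτ

/-- the section measure as the image of Lebesgue measure under an isometric embedding -/
lemma sec_of_iso {F : V (N + 1) → ℝ≥0∞} (hF : Measurable F) (g : V (N + 1) ≃ₗᵢ[ℝ] V (N + 1))
    {τ : ℝ} (hτ : τ ≠ 0) :
    sec F (g (pt τ 0)) = ENNReal.ofReal |τ|⁻¹ * ∫⁻ y : V N, F (g (pt 0 y)) := by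
  rw [← sec_iso g hF (pt_axis_ne_zero hτ),
    sec_axis (F := fun x => F (g x)) (hF.comp g.continuous.measurable) hτ]

lemma sec_smul {F : V (N + 1) → ℝ≥0∞} (hF : Measurable F) {c : ℝ} (hc : c ≠ 0) {ξ : V (N + 1)}
    (hξ : ξ ≠ 0) : sec F (c • ξ) = ENNReal.ofReal |c|⁻¹ * sec F ξ := by
  obtain ⟨g, hg⟩ := exists_iso_axis ξ
  have h0 : ‖ξ‖ ≠ 0 := norm_ne_zero_iff.2 hξ
  have h1 : c • ξ = g (pt (c * ‖ξ‖) 0) := by
    conv_lhs => rw [← hg]
    rw [← map_smul, ← pt_smul, smul_zero]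
  rw [h1, sec_of_iso hF g (mul_ne_zero hc h0)]
  conv_rhs => rw [← hg, sec_of_iso hF g h0]
  rw [← mul_assoc, ← ENNReal.ofReal_mul (by positivity), abs_mul, mul_inv]

lemma sec_nrm {F : V (N + 1) → ℝ≥0∞} (hF : Measurable F) {ξ : V (N + 1)} (hξ : ξ ≠ 0) :
    sec F ξ = ENNReal.ofReal ‖ξ‖⁻¹ * sec F (nrm ξ) := by
  conv_lhs => rw [← norm_smul_nrm ξ]
  rw [sec_smul hF (norm_ne_zero_iff.2 hξ) (nrm_ne_zero hξ), abs_norm]

lemma sec_neg {F : V (N + 1) → ℝ≥0∞} (hF : Measurable F) (ξ : V (N + 1)) :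
    sec F (-ξ) = sec F ξ := by
  by_cases hξ : ξ = 0
  · simp [hξ]
  · rw [← neg_one_smul ℝ ξ, sec_smul hF (by norm_num) hξ]; simp

lemma sec_mono {F G : V n → ℝ≥0∞} (h : ∀ x, F x ≤ G x) (ξ : V n) : sec F ξ ≤ sec G ξ :=
  lintegral_mono h

lemma sec_congr {F G : V n → ℝ≥0∞} (hF : Measurable F) (hG : Measurable G) {ξ : V n} (hξ : ξ ≠ 0)
    (h : ∀ x, ⟪x, ξ⟫ = 0 → F x = G x) : sec F ξ = sec G ξ := by
  have hn : ‖ξ‖ ^ 2 ≠ 0 := pow_ne_zero _ (norm_ne_zero_iff.2 hξ)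
  rw [sec_eq hF, sec_eq hG]
  refine lintegral_congr fun x => ?_
  rw [h]
  rw [prj, inner_sub_left, inner_smul_left, real_inner_self_eq_norm_sq]
  simp [div_mul_cancel₀ _ hn]

lemma lint_scale {r : ℝ} (hr : 0 < r) {f : ℝ → ℝ≥0∞} (hf : Measurable f) :
    ∫⁻ y in Ioi (0:ℝ), f y = ENNReal.ofReal r * ∫⁻ σ in Ioi (0:ℝ), f (σ * r) := by
  rw [← lintegral_indicator measurableSet_Ioi, ← lintegral_indicator measurableSet_Ioi]
  have h1 : ∀ σ, (Ioi (0:ℝ)).indicator (fun σ => f (σ * r)) σ =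
      (Ioi (0:ℝ)).indicator f (σ * r) := by
    intro σ
    by_cases h : 0 < σ
    · rw [indicator_of_mem (show σ ∈ Ioi 0 from h),
        indicator_of_mem (show σ * r ∈ Ioi 0 from mul_pos h hr)]
    · rw [indicator_of_notMem (show σ ∉ Ioi 0 from h), indicator_of_notMem
        (show σ * r ∉ Ioi 0 from fun h' => h ((mul_pos_iff_of_pos_right hr).1 h'))]
  simp only [h1]
  rw [← lintegral_map (hf.indicator measurableSet_Ioi) (measurable_mul_const r),
    Real.map_volume_mul_right hr.ne', lintegral_smul_measure, smul_eq_mul, ← mul_assoc,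
    ← ENNReal.ofReal_mul hr.le, abs_of_pos (inv_pos.2 hr), mul_inv_cancel₀ hr.ne']
  simp

lemma lint_tail (d : ℕ) {a : ℝ} (ha : 0 < a) :
    ∫⁻ t in Ioi a, ENNReal.ofReal ((d + 1) * (t ^ (d + 2))⁻¹) = ENNReal.ofReal (a ^ (d + 1))⁻¹ := by
  have h1 : ∀ t ∈ Ioi a, ((d:ℝ) + 1) * (t ^ (d + 2))⁻¹ = (d + 1) * t ^ (-((d:ℝ) + 2)) := by
    intro t ht
    rw [Real.rpow_neg (ha.trans ht).le]
    norm_cast
  have hd : -((d:ℝ) + 2) < -1 := by have : (0:ℝ) ≤ d := Nat.cast_nonneg d; linarith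
  rw [setLIntegral_congr_fun measurableSet_Ioi fun t ht => by rw [h1 t ht],
    ← ofReal_integral_eq_lintegral_ofReal
      ((integrableOn_Ioi_rpow_of_lt hd ha).const_mul _), integral_const_mul,
    integral_Ioi_rpow_of_lt hd ha]
  · congr 1
    rw [show -((d:ℝ) + 2) + 1 = -((d + 1 : ℕ) : ℝ) by push_cast; ring, Real.rpow_neg ha.le,
      Real.rpow_natCast]
    push_cast
    field_simp
  · filter_upwards [ae_restrict_mem measurableSet_Ioi] with t ht
    have : 0 < t := ha.trans ht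
    positivity

/-- polar coordinates for a homogeneous measure -/
theorem polar_gen (m : Measure (V n)) [SFinite m] (d : ℕ) (h0 : m {0} = 0)
    (hm : ∀ t : ℝ, 0 < t → ∀ F : V n → ℝ≥0∞, Measurable F →
      ∫⁻ x, F (t • x) ∂m = ENNReal.ofReal (t ^ (d + 1))⁻¹ * ∫⁻ x, F x ∂m)
    {F : V n → ℝ≥0∞} (hF : Measurable F) :
    ∫⁻ x, F x ∂m = ∫⁻ u, (∫⁻ r in Ioi (0:ℝ), ENNReal.ofReal ((d + 1) * r ^ d) * F (r • u))
      ∂((m.restrict (ball (0 : V n) 1)).map nrm) := by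
  have hae : ∀ᵐ x ∂m, x ≠ 0 := by
    rw [ae_iff]; simpa using h0
  have hI : Measurable fun u : V n =>
      ∫⁻ r in Ioi (0:ℝ), ENNReal.ofReal ((d + 1) * r ^ d) * F (r • u) :=
    Measurable.lintegral_prod_right
      (f := fun (u : V n) (r : ℝ) => ENNReal.ofReal ((d + 1) * r ^ d) * F (r • u))
      (by unfold Function.uncurry; fun_prop)
  obtain ⟨H, hHd⟩ : ∃ H : ℝ → V n → ℝ≥0∞, H = fun t z => (Ioi ‖z‖).indicator
    (fun t => ENNReal.ofReal ((d + 1) * (t ^ (d + 2))⁻¹)) t *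
      (ENNReal.ofReal (‖z‖ ^ (d + 1)) * F z) := ⟨_, rfl⟩
  have hH : Measurable (Function.uncurry H) := by
    rw [hHd]
    refine Measurable.mul ?_ (Measurable.mul (by fun_prop) (hF.comp measurable_snd))
    exact Measurable.ite (measurableSet_lt (by fun_prop) measurable_fst) (by fun_prop)
      measurable_const
  have hH' : Measurable fun p : V n × ℝ =>
      ENNReal.ofReal (p.2 ^ (d + 1)) * H p.2 (p.2 • p.1) :=
    Measurable.mul (by fun_prop) (hH.comp (f := fun p : V n × ℝ => (p.2, p.2 • p.1)) (by fun_prop))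
  rw [lintegral_map hI measurable_nrm, ← lintegral_indicator measurableSet_ball]
  symm
  calc _ = ∫⁻ x, (∫⁻ t in Ioi (0:ℝ), ENNReal.ofReal (t ^ (d + 1)) * H t (t • x)) ∂m := by
        refine lintegral_congr_ae ?_
        filter_upwards [hae] with x hx
        have hx' : 0 < ‖x‖ := norm_pos_iff.2 hx
        by_cases hb : x ∈ ball (0 : V n) 1
        · rw [indicator_of_mem hb, lint_scale hx' (by fun_prop),
            ← lintegral_const_mul' _ _ ENNReal.ofReal_ne_top]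
          refine setLIntegral_congr_fun measurableSet_Ioi fun t ht => ?_
          have ht' : 0 < t := ht
          have hb' : ‖x‖ < 1 := by simpa using hb
          have e1 : ‖t • x‖ = t * ‖x‖ := by rw [norm_smul, Real.norm_of_nonneg ht'.le]
          simp only [hHd]
          rw [indicator_of_mem (show t ∈ Ioi ‖t • x‖ by
            rw [e1]; exact mul_lt_of_lt_one_right ht' hb'), mul_smul, norm_smul_nrm, e1,
            ← mul_assoc, ← mul_assoc, ← mul_assoc, ← ENNReal.ofReal_mul (by positivity),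
            ← ENNReal.ofReal_mul (by positivity), ← ENNReal.ofReal_mul (by positivity)]
          congr 2
          field_simp
          ring
        · rw [indicator_of_notMem hb]
          symm
          rw [setLIntegral_congr_fun measurableSet_Ioi (g := fun _ => 0) fun t ht => ?_]
          · simp
          have ht' : 0 < t := ht
          have hb' : 1 ≤ ‖x‖ := by simpa using hb
          simp only [hHd]
          rw [indicator_of_notMem (show t ∉ Ioi ‖t • x‖ by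
            rw [norm_smul, Real.norm_of_nonneg ht'.le]
            exact not_lt.2 (le_mul_of_one_le_right ht'.le hb'))]
          simp
    _ = ∫⁻ t in Ioi (0:ℝ), ∫⁻ x, ENNReal.ofReal (t ^ (d + 1)) * H t (t • x) ∂m :=
        lintegral_lintegral_swap
          (f := fun x t => ENNReal.ofReal (t ^ (d + 1)) * H t (t • x)) hH'.aemeasurable
    _ = ∫⁻ t in Ioi (0:ℝ), ∫⁻ z, H t z ∂m := by
        refine setLIntegral_congr_fun measurableSet_Ioi fun t ht => ?_
        have ht' : 0 < t := ht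
        rw [lintegral_const_mul' _ _ ENNReal.ofReal_ne_top, hm t ht' (H t) hH.of_uncurry_left,
          ← mul_assoc, ← ENNReal.ofReal_mul (by positivity), mul_inv_cancel₀ (by positivity)]
        simp
    _ = ∫⁻ z, (∫⁻ t in Ioi (0:ℝ), H t z) ∂m := lintegral_lintegral_swap hH.aemeasurable
    _ = _ := by
        refine lintegral_congr_ae ?_
        filter_upwards [hae] with z hz
        have hz' : 0 < ‖z‖ := norm_pos_iff.2 hz
        simp only [hHd]
        rw [lintegral_mul_const _ (Measurable.indicator (by fun_prop) measurableSet_Ioi),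
          lintegral_indicator measurableSet_Ioi, Measure.restrict_restrict measurableSet_Ioi,
          inter_eq_left.2 (Ioi_subset_Ioi hz'.le), lint_tail d hz', ← mul_assoc,
          ← ENNReal.ofReal_mul (by positivity), inv_mul_cancel₀ (by positivity)]
        simp

theorem polar_vol {F : V (N + 1) → ℝ≥0∞} (hF : Measurable F) :
    ∫⁻ x, F x = ∫⁻ u, (∫⁻ r in Ioi (0:ℝ), ENNReal.ofReal ((N + 1) * r ^ N) * F (r • u))
      ∂mu (N + 1) := by
  refine polar_gen volume N (measure_singleton _) (fun t ht G hG => ?_) hF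
  have := lint_comp (hom (N + 1) t ht.ne') hG
  rwa [jac_hom, abs_of_pos ht] at this

instance (ξ : V n) : SFinite (secM ξ) := by unfold secM; infer_instance

lemma secM_zero {ξ : V (N + 2)} (hξ : ξ ≠ 0) : secM ξ {0} = 0 := by
  obtain ⟨g, hg⟩ := exists_iso_axis ξ
  have hm : Measurable (({0} : Set (V (N + 2))).indicator (1 : V (N + 2) → ℝ≥0∞)) :=
    measurable_one.indicator (measurableSet_singleton _)
  have := sec_of_iso hm g (norm_ne_zero_iff.2 hξ)
  rw [hg, sec, lintegral_indicator_one (measurableSet_singleton _)] at this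
  rw [this, lintegral_congr_ae (g := fun _ => 0), lintegral_zero, mul_zero]
  filter_upwards [Measure.ae_ne volume 0] with y hy
  refine indicator_of_notMem (fun h => hy ?_) _
  have h1 : ‖g (pt 0 y)‖ = 0 := by rw [mem_singleton_iff.1 h, norm_zero]
  rwa [g.norm_map, norm_pt_zero, norm_eq_zero] at h1

theorem polar_sec {F : V (N + 2) → ℝ≥0∞} (hF : Measurable F) {u : V (N + 2)} (hu : ‖u‖ = 1) :
    sec F u = ∫⁻ v, (∫⁻ r in Ioi (0:ℝ), ENNReal.ofReal ((N + 1) * r ^ N) * F (r • v))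
      ∂kap (N + 2) u := by
  have hu0 := ne_zero_of_unit hu
  have h1 : kap (N + 2) u = ((secM u).restrict (ball (0 : V (N + 2)) 1)).map nrm := by
    show kap0 u = _
    rw [kap0, nrm_unit hu]
  rw [h1]
  refine polar_gen (secM u) N (secM_zero hu0) (fun t ht G hG => ?_) hF
  have := sec_comp (hom (N + 2) t ht.ne') hG hu0
  rw [jac_hom, abs_of_pos ht, dual_hom, hom_apply, sec_smul hG (inv_ne_zero ht.ne') hu0,
    ← mul_assoc, ← ENNReal.ofReal_mul (by positivity), abs_of_pos (inv_pos.2 ht), inv_inv] at this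
  rw [show (t ^ (N + 1))⁻¹ = (t ^ (N + 2))⁻¹ * t by field_simp; ring]
  exact this

end Pool.Agent.Lib.MP_242fd5_gt.Ty
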