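import Pool.Agent.Lib.MP_242fd5_gt.Ty.A2Sec

set_option autoImplicit false

open MeasureTheory ProbabilityTheory Set Metric Filter Topology
open scoped ENNReal RealInnerProductSpace

namespace Pool.Agent.Lib.MP_242fd5_gt.Ty

variable {n N : ℕ}

lemma vol_ball (n : ℕ) : volume (ball (0 : V n) 1) = ENNReal.ofReal (om n) :=
  (ENNReal.ofReal_toReal measure_ball_lt_top.ne).symm

lemma om_pos (n : ℕ) : 0 < om n :=
  ENNReal.toReal_pos (measure_ball_pos _ _ one_pos).ne' measure_ball_lt_top.ne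

lemma mu_univ (n : ℕ) : mu n univ = ENNReal.ofReal (om n) := by
  unfold mu
  rw [Measure.map_apply measurable_nrm MeasurableSet.univ, preimage_univ,
    Measure.restrict_apply_univ, vol_ball]

instance : IsFiniteMeasure (mu n) := ⟨by rw [mu_univ]; exact ENNReal.ofReal_lt_top⟩

lemma mu_real_univ (n : ℕ) : (mu n).real univ = om n := by
  rw [Measure.real, mu_univ, ENNReal.toReal_ofReal (om_pos n).le]

lemma measurableSet_unit : MeasurableSet {u : V n | ‖u‖ = 1} :=
  measurableSet_eq_fun (by fun_prop) measurable_const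

lemma mu_sphere : ∀ᵐ u ∂mu (N + 1), ‖u‖ = 1 := by
  unfold mu
  rw [ae_map_iff measurable_nrm.aemeasurable measurableSet_unit]
  filter_upwards [ae_restrict_of_ae (Measure.ae_ne volume 0)] with x hx using norm_nrm hx

lemma kap_nrm (u : V n) : kap n (nrm u) = kap n u := by
  show kap0 _ = kap0 _
  unfold kap0; rw [nrm_nrm]

lemma kap_smul {t : ℝ} (ht : 0 < t) (u : V n) : kap n (t • u) = kap n u := by
  show kap0 _ = kap0 _
  unfold kap0; rw [nrm_smul ht]

lemma measurable_ballInd {h : V n → ℝ≥0∞} (hh : Measurable h) :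
    Measurable ((ball (0 : V n) 1).indicator fun x => h (nrm x)) :=
  (hh.comp measurable_nrm).indicator measurableSet_ball

lemma kap_neg (u : V (N + 1)) : kap (N + 1) (-u) = kap (N + 1) u := by
  ext s hs
  rw [← lintegral_indicator_one hs, ← lintegral_indicator_one hs,
    lint_kap (measurable_one.indicator hs), lint_kap (measurable_one.indicator hs), nrm_neg,
    sec_neg (measurable_ballInd (measurable_one.indicator hs))]

/-- the kernel in adapted coordinates -/
lemma lint_kap_of_iso {h : V (N + 1) → ℝ≥0∞} (hh : Measurable h)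
    (g : V (N + 1) ≃ₗᵢ[ℝ] V (N + 1)) :
    ∫⁻ v, h v ∂kap (N + 1) (g (pt 1 0)) = ∫⁻ y in ball (0 : V N) 1, h (g (pt 0 (nrm y))) := by
  have h1 : ‖g (pt 1 (0 : V N))‖ = 1 := by rw [g.norm_map, norm_pt_axis, abs_one]
  rw [lint_kap hh, nrm_unit h1, sec_of_iso (measurable_ballInd hh) g one_ne_zero,
    ← lintegral_indicator measurableSet_ball]
  simp only [abs_one, inv_one, ENNReal.ofReal_one, one_mul]
  refine lintegral_congr fun y => ?_
  have h2 : nrm (g (pt 0 y)) = g (pt 0 (nrm y)) := by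
    rw [nrm_iso, nrm, norm_pt_zero, ← pt_smul, mul_zero]; rfl
  by_cases hy : y ∈ ball (0 : V N) 1
  · rw [indicator_of_mem hy, indicator_of_mem, h2]
    rwa [mem_ball_zero_iff, g.norm_map, norm_pt_zero, ← mem_ball_zero_iff]
  · rw [indicator_of_notMem hy, indicator_of_notMem]
    rwa [mem_ball_zero_iff, g.norm_map, norm_pt_zero, ← mem_ball_zero_iff]

lemma exists_iso_unit {u : V (N + 1)} (hu : ‖u‖ = 1) :
    ∃ g : V (N + 1) ≃ₗᵢ[ℝ] V (N + 1), g (pt 1 0) = u := by
  have := exists_iso_axis u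
  rwa [hu] at this

lemma kap_univ {u : V (N + 1)} (hu : u ≠ 0) : kap (N + 1) u univ = ENNReal.ofReal (om N) := by
  obtain ⟨g, hg⟩ := exists_iso_unit (norm_nrm hu)
  rw [← kap_nrm, ← hg, ← lintegral_one, lint_kap_of_iso measurable_const g, lintegral_one,
    Measure.restrict_apply_univ, vol_ball]

lemma kap_real_univ {u : V (N + 1)} (hu : u ≠ 0) : (kap (N + 1) u).real univ = om N := by
  rw [Measure.real, kap_univ hu, ENNReal.toReal_ofReal (om_pos N).le]

instance : IsFiniteKernel (kap (N + 1)) := by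
  refine ⟨⟨max (ENNReal.ofReal (om N)) (kap (N + 1) 0 univ), ?_, fun u => ?_⟩⟩
  · refine max_lt ENNReal.ofReal_lt_top ?_
    rw [← lintegral_one, lint_kap measurable_const, sec_eq (measurable_ballInd measurable_const)]
    simp only [nrm_zero, inner_zero_right, prj, zero_div, smul_zero, sub_zero]
    rw [indicator_of_mem (by simp)]
    simp only [Pi.one_apply, one_mul]
    rw [lintegral_indicator measurableSet_ball]
    simpa using measure_ball_lt_top
  · by_cases hu : u = 0
    · rw [hu]; exact le_max_right _ _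
    · rw [kap_univ hu]; exact le_max_left _ _

lemma kap_sphere {u : V (N + 2)} (hu : u ≠ 0) :
    ∀ᵐ v ∂kap (N + 2) u, ‖v‖ = 1 ∧ ⟪v, u⟫ = 0 := by
  obtain ⟨g, hg⟩ := exists_iso_unit (norm_nrm hu)
  have hs : MeasurableSet {v : V (N + 2) | ¬(‖v‖ = 1 ∧ ⟪v, u⟫ = 0)} :=
    (measurableSet_unit.inter (measurableSet_eq_fun (by fun_prop) measurable_const)).compl
  rw [ae_iff, ← kap_nrm, ← hg, ← lintegral_indicator_one hs,
    lint_kap_of_iso (measurable_one.indicator hs) g, lintegral_congr_ae (g := fun _ => 0),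
    lintegral_zero]
  filter_upwards [ae_restrict_of_ae (Measure.ae_ne volume 0)] with y hy
  refine indicator_of_notMem (not_not.2 ⟨?_, ?_⟩) _
  · rw [g.norm_map, norm_pt_zero, norm_nrm hy]
  · rw [← norm_smul_nrm u, ← hg, inner_smul_right, g.inner_map_map, inner_pt]; simp

lemma lint_mu_iso (g : V n ≃ₗᵢ[ℝ] V n) {h : V n → ℝ≥0∞} (hh : Measurable h) :
    ∫⁻ u, h (g u) ∂mu n = ∫⁻ u, h u ∂mu n := by
  have hg := g.continuous.measurable
  rw [lint_mu hh, lint_mu (h := fun u => h (g u)) (hh.comp hg),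
    ← lintegral_indicator measurableSet_ball, ← lintegral_indicator measurableSet_ball]
  have := lint_comp g.toContinuousLinearEquiv (measurable_ballInd hh)
  rw [jac_iso, inv_one, ENNReal.ofReal_one, one_mul] at this
  rw [← this]
  refine lintegral_congr fun x => ?_
  show _ = (ball (0 : V n) 1).indicator (fun x => h (nrm x)) (g x)
  by_cases hx : x ∈ ball (0 : V n) 1
  · rw [indicator_of_mem hx, indicator_of_mem (by simpa using hx), nrm_iso]
  · rw [indicator_of_notMem hx, indicator_of_notMem (by simpa using hx)]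

lemma mu_map_iso (g : V n ≃ₗᵢ[ℝ] V n) : (mu n).map g = mu n := by
  ext s hs
  rw [← lintegral_indicator_one hs, ← lintegral_indicator_one hs,
    lintegral_map (measurable_one.indicator hs) g.continuous.measurable,
    lint_mu_iso g (measurable_one.indicator hs)]

lemma mp_mu_iso (g : V n ≃ₗᵢ[ℝ] V n) : MeasurePreserving g (mu n) (mu n) :=
  ⟨g.continuous.measurable, mu_map_iso g⟩

lemma int_mu_iso (g : V n ≃ₗᵢ[ℝ] V n) (h : V n → ℝ) :
    ∫ u, h (g u) ∂mu n = ∫ u, h u ∂mu n :=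
  (mp_mu_iso g).integral_comp g.toHomeomorph.measurableEmbedding h

lemma lint_kap_iso (g : V (N + 1) ≃ₗᵢ[ℝ] V (N + 1)) {h : V (N + 1) → ℝ≥0∞} (hh : Measurable h)
    {u : V (N + 1)} (hu : u ≠ 0) :
    ∫⁻ v, h (g v) ∂kap (N + 1) u = ∫⁻ v, h v ∂kap (N + 1) (g u) := by
  obtain ⟨e, he⟩ := exists_iso_unit (norm_nrm hu)
  rw [← kap_nrm, ← kap_nrm (g u), nrm_iso, ← he,
    lint_kap_of_iso (h := fun v => h (g v)) (hh.comp g.continuous.measurable) e]
  exact (lint_kap_of_iso hh (e.trans g)).symm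

lemma kap_map_iso (g : V (N + 1) ≃ₗᵢ[ℝ] V (N + 1)) {u : V (N + 1)} (hu : u ≠ 0) :
    (kap (N + 1) u).map g = kap (N + 1) (g u) := by
  ext s hs
  rw [← lintegral_indicator_one hs, ← lintegral_indicator_one hs,
    lintegral_map (measurable_one.indicator hs) g.continuous.measurable,
    lint_kap_iso g (measurable_one.indicator hs) hu]

lemma R_iso (g : V (N + 1) ≃ₗᵢ[ℝ] V (N + 1)) (h : V (N + 1) → ℝ) {u : V (N + 1)} (hu : u ≠ 0) :
    R (fun v => h (g v)) u = R h (g u) := by
  unfold R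
  rw [← kap_map_iso g hu]
  exact (g.toHomeomorph.measurableEmbedding.integral_map h).symm

/-! symmetry -/

lemma lint_inv {b : ℝ} (hb : b ≠ 0) (Φ : ℝ → ℝ → ℝ≥0∞) :
    ∫⁻ τ : ℝ, ENNReal.ofReal |τ|⁻¹ * Φ τ (-(b / τ)) =
      ∫⁻ s : ℝ, ENNReal.ofReal |s|⁻¹ * Φ (-(b / s)) s := by
  have hs : MeasurableSet ({0}ᶜ : Set ℝ) := (measurableSet_singleton _).compl
  have him : (fun s : ℝ => -(b / s)) '' {0}ᶜ = {0}ᶜ := by
    ext τ
    constructor
    · rintro ⟨s, hs, rfl⟩
      have : s ≠ 0 := hs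
      simp [hb, this]
    · intro hτ
      have : τ ≠ 0 := hτ
      exact ⟨-(b / τ), by simp [hb, this], by field_simp⟩
  have := lintegral_image_eq_lintegral_abs_deriv_mul (f := fun s : ℝ => -(b / s))
    (f' := fun s => b / s ^ 2) hs (fun s hs => by
      have h0 : s ≠ 0 := hs
      have := ((hasDerivAt_inv h0).const_mul b).neg
      refine HasDerivAt.hasDerivWithinAt ?_
      convert this using 1
      · ext; simp [div_eq_mul_inv]
      · simp [div_eq_mul_inv])
    (fun s hs t ht h => by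
      have h0 : s ≠ 0 := hs
      have h1 : t ≠ 0 := ht
      have h2 : b / s = b / t := neg_injective h
      field_simp at h2
      exact h2.symm)
    (fun τ => ENNReal.ofReal |τ|⁻¹ * Φ τ (-(b / τ)))
  rw [him, restrict_compl_singleton] at this
  rw [this]
  refine lintegral_congr_ae ?_
  filter_upwards [Measure.ae_ne volume 0] with s hs
  rw [← mul_assoc, ← ENNReal.ofReal_mul (abs_nonneg _), show -(b / -(b / s)) = s by field_simp]
  congr 2
  rw [abs_neg, abs_div, abs_div, abs_pow]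
  have : |s| ≠ 0 := abs_ne_zero.2 hs
  have : |b| ≠ 0 := abs_ne_zero.2 hb
  field_simp

lemma ae_inner_ne {η : V n} (hη : η ≠ 0) : ∀ᵐ y : V n, ⟪η, y⟫ ≠ 0 := by
  have := Measure.addHaar_submodule (volume : Measure (V n)) (ℝ ∙ η)ᗮ (fun h => by
    have : η ∈ (ℝ ∙ η)ᗮ := h ▸ Submodule.mem_top
    rw [Submodule.mem_orthogonal_singleton_iff_inner_right, inner_self_eq_zero] at this
    exact hη this)
  rw [ae_iff]
  convert this using 2
  ext y
  simp [Submodule.mem_orthogonal_singleton_iff_inner_right]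

lemma lint_sec_diag {Ψ : V (N + 1) → V (N + 1) → ℝ≥0∞} (hΨ : Measurable (Function.uncurry Ψ)) :
    ∫⁻ ξ, sec (Ψ ξ) ξ = ∫⁻ η : V N, ∫⁻ y : V N, ∫⁻ τ : ℝ,
      ENNReal.ofReal |τ|⁻¹ * Ψ (pt τ η) (pt (-(⟪η, y⟫ / τ)) y) := by
  rw [lint_pt' (measurable_sec₂ hΨ measurable_id')]
  refine lintegral_congr fun η => ?_
  have hm : Measurable fun p : V N × ℝ => Ψ (pt p.2 η) (pt (-(⟪η, p.1⟫ / p.2)) p.1) :=
    hΨ.comp (f := fun p : V N × ℝ => (pt p.2 η, pt (-(⟪η, p.1⟫ / p.2)) p.1)) (by fun_prop)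
  rw [lintegral_lintegral_swap (f := fun (y : V N) (τ : ℝ) =>
    ENNReal.ofReal |τ|⁻¹ * Ψ (pt τ η) (pt (-(⟪η, y⟫ / τ)) y))
    (Measurable.aemeasurable (Measurable.mul (by fun_prop) hm))]
  refine lintegral_congr_ae ?_
  filter_upwards [Measure.ae_ne volume 0] with τ hτ
  rw [lintegral_const_mul' _ _ ENNReal.ofReal_ne_top]
  exact sec_chart hΨ.of_uncurry_left hτ η

theorem sec_symm {Ψ : V (N + 2) → V (N + 2) → ℝ≥0∞} (hΨ : Measurable (Function.uncurry Ψ)) :
    ∫⁻ ξ, sec (Ψ ξ) ξ = ∫⁻ x, sec (fun ξ => Ψ ξ x) x := by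
  have hΨ' : Measurable (Function.uncurry fun x ξ => Ψ ξ x) := hΨ.comp measurable_swap
  rw [lint_sec_diag hΨ, lint_sec_diag hΨ', lintegral_lintegral_swap]
  · refine lintegral_congr_ae ?_
    filter_upwards [Measure.ae_ne volume 0] with y hy
    refine lintegral_congr_ae ?_
    filter_upwards [ae_inner_ne hy] with η hη
    rw [real_inner_comm]
    exact lint_inv hη fun τ s => Ψ (pt τ η) (pt s y)
  · refine Measurable.aemeasurable (Measurable.lintegral_prod_right
      (f := fun (p : V (N + 1) × V (N + 1)) (τ : ℝ) =>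
        ENNReal.ofReal |τ|⁻¹ * Ψ (pt τ p.1) (pt (-(⟪p.1, p.2⟫ / τ)) p.2)) ?_)
    exact Measurable.mul (by fun_prop) (hΨ.comp (f := fun q : (V (N + 1) × V (N + 1)) × ℝ =>
      (pt q.2 q.1.1, pt (-(⟪q.1.1, q.1.2⟫ / q.2)) q.1.2)) (by fun_prop))

/-- integration of a radial weight times a function of the direction -/
lemma lint_radial {w : ℝ → ℝ≥0∞} (hw : Measurable w) {h : V (N + 1) → ℝ≥0∞} (hh : Measurable h) :
    ∫⁻ x, w ‖x‖ * h (nrm x) = (∫⁻ r in Ioi (0:ℝ), ENNReal.ofReal ((N + 1) * r ^ N) * w r) *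
      ∫⁻ u, h u ∂mu (N + 1) := by
  rw [polar_vol (by fun_prop), ← lintegral_const_mul _ hh]
  refine lintegral_congr_ae ?_
  filter_upwards [mu_sphere] with u hu
  rw [← lintegral_mul_const _ (by fun_prop)]
  refine setLIntegral_congr_fun measurableSet_Ioi fun r hr => ?_
  have hr' : 0 < r := hr
  rw [nrm_smul hr', nrm_unit hu, norm_smul, hu, Real.norm_of_nonneg hr'.le, mul_one, mul_assoc]

lemma lint_pow_Iio (d : ℕ) {H : ℝ} (hH : 0 ≤ H) :
    ∫⁻ r in Ioi (0:ℝ), ENNReal.ofReal ((d + 1) * r ^ d) * (Iio H).indicator 1 r =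
      ENNReal.ofReal (H ^ (d + 1)) := by
  have h1 : ∀ r, ENNReal.ofReal ((d + 1) * r ^ d) * (Iio H).indicator 1 r =
      (Iio H).indicator (fun r : ℝ => ENNReal.ofReal ((d + 1) * r ^ d)) r := by
    intro r; by_cases h : r ∈ Iio H <;> simp [h]
  simp only [h1]
  rw [lintegral_indicator measurableSet_Iio, Measure.restrict_restrict measurableSet_Iio,
    Iio_inter_Ioi, setLIntegral_congr Ioo_ae_eq_Ioc,
    ← ofReal_integral_eq_lintegral_ofReal
      ((intervalIntegral.intervalIntegrable_pow d).const_mul _).1,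
    ← intervalIntegral.integral_of_le hH, intervalIntegral.integral_const_mul, integral_pow]
  · congr 1
    have : (d:ℝ) + 1 ≠ 0 := by positivity
    field_simp
    simp
  · filter_upwards [ae_restrict_mem measurableSet_Ioc] with y hy
    have := hy.1
    positivity

/-- the weight `1/r` on the unit ball -/
lemma lint_inv_weight (d : ℕ) :
    ∫⁻ r in Ioi (0:ℝ), ENNReal.ofReal (((d + 1 : ℕ) + 1) * r ^ (d + 1)) *
      ((Iio (1:ℝ)).indicator 1 r * ENNReal.ofReal r⁻¹) = ENNReal.ofReal ((d + 2) / (d + 1)) := by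
  have := lint_pow_Iio d zero_le_one
  rw [one_pow, ENNReal.ofReal_one] at this
  rw [← mul_one (ENNReal.ofReal ((d + 2) / (d + 1))), ← this,
    ← lintegral_const_mul' _ _ ENNReal.ofReal_ne_top]
  refine setLIntegral_congr_fun measurableSet_Ioi fun r hr => ?_
  have hr' : 0 < r := hr
  rw [mul_comm ((Iio (1:ℝ)).indicator 1 r), ← mul_assoc, ← mul_assoc,
    ← ENNReal.ofReal_mul (by positivity), ← ENNReal.ofReal_mul (by positivity)]
  congr 2
  push_cast
  field_simp
  ring

lemma ball_ind_eq (h : V n → ℝ≥0∞) (x : V n) :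
    (ball (0 : V n) 1).indicator h x = (Iio (1:ℝ)).indicator 1 ‖x‖ * h x := by
  by_cases hx : ‖x‖ < 1
  · rw [indicator_of_mem (mem_ball_zero_iff.2 hx), indicator_of_mem (show ‖x‖ ∈ Iio 1 from hx)]
    simp
  · rw [indicator_of_notMem (fun h => hx (mem_ball_zero_iff.1 h)),
      indicator_of_notMem (show ‖x‖ ∉ Iio 1 from hx), zero_mul]

lemma lint_pair {F : V (N + 2) → V (N + 2) → ℝ≥0∞} (hF : Measurable (Function.uncurry F)) :
    ∫⁻ ξ, sec (fun x => (ball (0 : V (N + 2)) 1).indicator 1 ξ *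
      ((ball (0 : V (N + 2)) 1).indicator 1 x * F (nrm ξ) (nrm x))) ξ =
      ENNReal.ofReal ((N + 2) / (N + 1)) * ∫⁻ u, ∫⁻ v, F u v ∂kap (N + 2) u ∂mu (N + 2) := by
  rw [← lint_inv_weight N, ← lint_radial
    (w := fun r => (Iio (1:ℝ)).indicator 1 r * ENNReal.ofReal r⁻¹) (Measurable.mul
      (measurable_one.indicator measurableSet_Iio) (by fun_prop)) hF.lintegral_kernel_prod_right]
  refine lintegral_congr_ae ?_
  filter_upwards [Measure.ae_ne volume 0] with ξ hξ
  have h1 : Measurable (F (nrm ξ)) := hF.of_uncurry_left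
  rw [lint_kap h1, nrm_nrm, mul_assoc, ← sec_nrm (measurable_ballInd h1) hξ, ball_ind_eq]
  unfold sec
  rw [← lintegral_const_mul _ (measurable_ballInd h1)]
  refine lintegral_congr fun x => ?_
  by_cases hx : x ∈ ball (0 : V (N + 2)) 1 <;> simp [hx]

theorem kap_symm {F : V (N + 2) → V (N + 2) → ℝ≥0∞} (hF : Measurable (Function.uncurry F)) :
    ∫⁻ u, ∫⁻ v, F u v ∂kap (N + 2) u ∂mu (N + 2) =
      ∫⁻ u, ∫⁻ v, F v u ∂kap (N + 2) u ∂mu (N + 2) := by
  have hF' : Measurable (Function.uncurry fun u v => F v u) := hF.comp measurable_swap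
  have hb : Measurable ((ball (0 : V (N + 2)) 1).indicator (1 : V (N + 2) → ℝ≥0∞)) :=
    measurable_one.indicator measurableSet_ball
  refine (ENNReal.mul_right_inj (a := ENNReal.ofReal ((N + 2) / (N + 1)))
    (ENNReal.ofReal_pos.2 (by positivity)).ne' ENNReal.ofReal_ne_top).1 ?_
  rw [← lint_pair hF, ← lint_pair hF', sec_symm]
  · simp only [mul_left_comm]
  · exact (hb.comp measurable_fst).mul ((hb.comp measurable_snd).mul
      (hF.comp (f := fun p : V (N + 2) × V (N + 2) => (nrm p.1, nrm p.2)) (by fun_prop)))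

theorem compProd_swap : (mu (N + 2) ⊗ₘ kap (N + 2)).map Prod.swap = mu (N + 2) ⊗ₘ kap (N + 2) := by
  ext s hs
  have h1 : Measurable (s.indicator (1 : V (N + 2) × V (N + 2) → ℝ≥0∞)) :=
    measurable_one.indicator hs
  rw [← lintegral_indicator_one hs, ← lintegral_indicator_one hs, lintegral_map h1 measurable_swap,
    Measure.lintegral_compProd h1,
    Measure.lintegral_compProd (f := fun p => s.indicator 1 (Prod.swap p))
      (h1.comp measurable_swap)]
  exact (kap_symm (F := fun u v => s.indicator 1 (u, v)) h1).symm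

end Pool.Agent.Lib.MP_242fd5_gt.Ty
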