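import Pool.Agent.Lib.MP_242fd5_gt.Ty.A3Kap

set_option autoImplicit false

open MeasureTheory ProbabilityTheory Set Metric Filter Topology
open scoped ENNReal RealInnerProductSpace

namespace Pool.Agent.Lib.MP_242fd5_gt.Ty

variable {n N q : ℕ}

@[fun_prop] lemma measurable_Re {h : V (N + 1) → ℝ≥0∞} (hh : Measurable h) : Measurable (Re h) :=
  hh.lintegral_kernel

@[fun_prop] lemma measurable_kr (u : V n) : Measurable (kr u) := by unfold kr; fun_prop

lemma measurable_kr₂ : Measurable fun p : V n × V n => kr p.1 p.2 := by unfold kr; fun_prop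

lemma kr_nonneg (u x : V n) : 0 ≤ kr u x := by unfold kr; positivity

lemma kr_iso (g : V n ≃ₗᵢ[ℝ] V n) (u x : V n) : kr (g u) (g x) = kr u x := by
  unfold kr
  rw [g.inner_map_map, ← map_smul, ← map_sub, g.norm_map]

lemma kr_axis (x : V (N + 1)) : kr (pt 1 0) x = ‖tl x‖⁻¹ := by
  unfold kr
  conv_lhs => rw [← pt_tl x, inner_pt, ← pt_smul, ← pt_sub]
  simp [norm_pt_zero]

lemma sec_pt0 {F : V (N + 1) → ℝ≥0∞} (hF : Measurable F) (η : V N) :
    sec F (pt 0 η) = sec (fun y => ∫⁻ s : ℝ, F (pt s y)) η := by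
  have hI : Measurable fun y : V N => ∫⁻ s : ℝ, F (pt s y) :=
    Measurable.lintegral_prod_right (f := fun (y : V N) (s : ℝ) => F (pt s y))
      (by unfold Function.uncurry; fun_prop)
  rw [sec_eq hF, sec_eq hI, lint_pt' (by fun_prop)]
  refine lintegral_congr fun y => ?_
  rw [← lintegral_const_mul _ (by fun_prop)]
  refine lintegral_congr fun s => ?_
  rw [prj, prj, inner_pt, norm_pt_zero, ← pt_smul, ← pt_sub]
  simp

noncomputable def cK (q : ℕ) : ℝ := (q + 1) / (q + 2) * om (q + 1) * ((q + 3) / (q + 2))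

lemma cK_pos (q : ℕ) : 0 < cK q := by have := om_pos (q + 1); unfold cK; positivity

lemma sec_norm_ball {u : V (q + 2)} (hu : ‖u‖ = 1) :
    sec (fun η => (Iio (1:ℝ)).indicator 1 ‖η‖ * ENNReal.ofReal ‖η‖) u =
      ENNReal.ofReal ((q + 1) / (q + 2) * om (q + 1)) := by
  have hi : Measurable ((Iio (1:ℝ)).indicator (1 : ℝ → ℝ≥0∞)) :=
    measurable_one.indicator measurableSet_Iio
  rw [polar_sec (by fun_prop) hu, lintegral_congr_ae
    (g := fun _ => ENNReal.ofReal ((q + 1) / (q + 2))), lintegral_const,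
    kap_univ (ne_zero_of_unit hu), ENNReal.ofReal_mul (by positivity)]
  filter_upwards [kap_sphere (ne_zero_of_unit hu)] with v hv
  have := lint_pow_Iio (q + 1) zero_le_one
  rw [one_pow, ENNReal.ofReal_one] at this
  rw [← mul_one (ENNReal.ofReal ((q + 1) / (q + 2))), ← this,
    ← lintegral_const_mul' _ _ ENNReal.ofReal_ne_top]
  refine setLIntegral_congr_fun measurableSet_Ioi fun r hr => ?_
  have hr' : 0 < r := hr
  rw [norm_smul, hv.1, mul_one, Real.norm_of_nonneg hr'.le,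
    mul_comm ((Iio (1:ℝ)).indicator 1 r), ← mul_assoc, ← mul_assoc,
    ← ENNReal.ofReal_mul (by positivity), ← ENNReal.ofReal_mul (by positivity)]
  congr 2
  push_cast
  field_simp
  ring

lemma ReRe_axis {h : V (q + 3) → ℝ≥0∞} (hh : Measurable h) :
    Re (Re h) (pt 1 0) =
      ENNReal.ofReal (cK q) * ∫⁻ x, h x * ENNReal.ofReal (kr (pt 1 0) x) ∂mu (q + 3) := by
  have hi : Measurable ((Iio (1:ℝ)).indicator (1 : ℝ → ℝ≥0∞)) :=
    measurable_one.indicator measurableSet_Iio
  have hb := measurable_ballInd hh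
  obtain ⟨Φ, hΦ⟩ : ∃ Φ : V (q + 2) → ℝ≥0∞,
    Φ = fun y => ∫⁻ s : ℝ, (ball (0 : V (q + 3)) 1).indicator (fun x => h (nrm x)) (pt s y) :=
    ⟨_, rfl⟩
  have hΦm : Measurable Φ := by
    rw [hΦ]
    exact Measurable.lintegral_prod_right (f := fun (y : V (q + 2)) (s : ℝ) =>
      (ball (0 : V (q + 3)) 1).indicator (fun x => h (nrm x)) (pt s y))
      (hb.comp (f := fun p : V (q + 2) × ℝ => pt p.2 p.1) (by fun_prop))
  calc Re (Re h) (pt 1 0)
      = ∫⁻ η in ball (0 : V (q + 2)) 1, Re h (pt 0 (nrm η)) :=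
        lint_kap_of_iso (measurable_Re hh) (LinearIsometryEquiv.refl ℝ _)
    _ = ∫⁻ η : V (q + 2), sec (fun y => (Iio (1:ℝ)).indicator 1 ‖η‖ * ENNReal.ofReal ‖η‖ * Φ y) η := by
        rw [← lintegral_indicator measurableSet_ball]
        refine lintegral_congr_ae ?_
        filter_upwards [Measure.ae_ne volume 0] with η hη
        have h1 : ‖pt 0 (nrm η)‖ = 1 := by rw [norm_pt_zero, norm_nrm hη]
        have h2 := norm_pos_iff.2 hη
        rw [ball_ind_eq, Re, lint_kap hh, nrm_unit h1, sec_pt0 hb, ← hΦ]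
        unfold sec
        rw [lintegral_const_mul _ hΦm, mul_assoc]
        congr 1
        have := sec_nrm hΦm hη
        unfold sec at this
        rw [this, ← mul_assoc, ← ENNReal.ofReal_mul h2.le, mul_inv_cancel₀ h2.ne']
        simp
    _ = ∫⁻ y : V (q + 2), sec (fun η => (Iio (1:ℝ)).indicator 1 ‖η‖ * ENNReal.ofReal ‖η‖ * Φ y) y :=
        sec_symm (Ψ := fun η y => (Iio (1:ℝ)).indicator 1 ‖η‖ * ENNReal.ofReal ‖η‖ * Φ y)
          (by unfold Function.uncurry; fun_prop)
    _ = ENNReal.ofReal ((q + 1) / (q + 2) * om (q + 1)) *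
          ∫⁻ y : V (q + 2), ENNReal.ofReal ‖y‖⁻¹ * Φ y := by
        rw [← lintegral_const_mul _ (by fun_prop)]
        refine lintegral_congr_ae ?_
        filter_upwards [Measure.ae_ne volume 0] with y hy
        rw [← sec_norm_ball (norm_nrm hy), ← mul_assoc, mul_comm (sec _ _),
          ← sec_nrm (by fun_prop) hy]
        unfold sec
        rw [lintegral_mul_const _ (by fun_prop)]
    _ = _ := by
        have h3 : ∫⁻ y : V (q + 2), ENNReal.ofReal ‖y‖⁻¹ * Φ y =
            ∫⁻ x : V (q + 3), ((Iio (1:ℝ)).indicator 1 ‖x‖ * ENNReal.ofReal ‖x‖⁻¹) *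
              (h (nrm x) * ENNReal.ofReal (kr (pt 1 0) (nrm x))) := by
          rw [lintegral_congr_ae (μ := (volume : Measure (V (q + 3))))
            (g := fun x => ENNReal.ofReal ‖tl x‖⁻¹ *
            (ball (0 : V (q + 3)) 1).indicator (fun x => h (nrm x)) x),
            lint_pt' (N := q + 2) (by fun_prop)]
          · refine lintegral_congr fun y => ?_
            simp only [hΦ, tl_pt]
            rw [lintegral_const_mul' _ _ ENNReal.ofReal_ne_top]
          · filter_upwards [Measure.ae_ne volume 0] with x hx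
            have h2 := norm_pos_iff.2 hx
            have h4 : ENNReal.ofReal ‖x‖⁻¹ * ENNReal.ofReal (kr (pt 1 0) (nrm x)) =
                ENNReal.ofReal ‖tl x‖⁻¹ := by
              rw [← ENNReal.ofReal_mul (by positivity), kr_axis, nrm, tl_smul, norm_smul, norm_inv,
                norm_norm, mul_inv, inv_inv, ← mul_assoc, inv_mul_cancel₀ h2.ne', one_mul]
            rw [ball_ind_eq, ← h4]
            ring
        rw [h3, lint_radial (w := fun r => (Iio (1:ℝ)).indicator 1 r * ENNReal.ofReal r⁻¹)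
          (h := fun x => h x * ENNReal.ofReal (kr (pt 1 0) x)) (by fun_prop) (by fun_prop),
          lint_inv_weight (q + 1), ← mul_assoc,
          ← ENNReal.ofReal_mul (by have := om_pos (q + 1); positivity), cK]
        congr 2
        push_cast
        ring

theorem ReRe {h : V (q + 3) → ℝ≥0∞} (hh : Measurable h) {u : V (q + 3)} (hu : ‖u‖ = 1) :
    Re (Re h) u = ENNReal.ofReal (cK q) * ∫⁻ x, h x * ENNReal.ofReal (kr u x) ∂mu (q + 3) := by
  obtain ⟨g, rfl⟩ := exists_iso_unit hu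
  have hg := g.continuous.measurable
  rw [← lint_mu_iso g (by fun_prop)]
  simp only [kr_iso]
  rw [← ReRe_axis (h := fun x => h (g x)) (by fun_prop), Re,
    ← lint_kap_iso g (measurable_Re hh) (pt_axis_ne_zero one_ne_zero)]
  refine lintegral_congr_ae ?_
  filter_upwards [kap_sphere (pt_axis_ne_zero one_ne_zero)] with v hv
  exact (lint_kap_iso g hh (ne_zero_of_unit hv.1)).symm

theorem lint_kr_rpow (q : ℕ) : ∃ C : ℝ, 0 < C ∧ ∀ u : V (q + 3), ‖u‖ = 1 →
    ∫⁻ x, ENNReal.ofReal (kr u x ^ (7 / 4 : ℝ)) ∂mu (q + 3) ≤ ENNReal.ofReal C := by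
  have hI : IntegrableOn (fun y : V (q + 2) => ‖y‖⁻¹ ^ (7 / 4 : ℝ)) (ball 0 1) volume := by
    refine integrableOn_ball_of_norm_le_rpow (C := 1) (α := 7 / 4) (by simp) ?_
      (Eventually.of_forall fun y => ?_) (Measurable.aestronglyMeasurable (by fun_prop))
    · simp only [finrank_euclideanSpace, Fintype.card_fin]
      push_cast
      have : (0:ℝ) ≤ q := Nat.cast_nonneg q
      linarith
    · rw [one_mul, Real.norm_of_nonneg (by positivity), Real.inv_rpow (norm_nonneg _),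
        Real.rpow_neg (norm_nonneg _)]
  have hI' := hI.lintegral_lt_top
  set I := ∫⁻ y in ball (0 : V (q + 2)) 1, ENNReal.ofReal (‖y‖⁻¹ ^ (7 / 4 : ℝ)) with hId
  refine ⟨(2 * I).toReal + 1, by positivity, fun u hu => ?_⟩
  obtain ⟨g, rfl⟩ := exists_iso_unit hu
  rw [← lint_mu_iso g (by fun_prop)]
  simp only [kr_iso]
  have h2 : 2 * I ≠ ∞ := ENNReal.mul_ne_top (by simp) hI'.ne
  refine le_trans ?_ ((ENNReal.ofReal_toReal h2).symm.le.trans
    (ENNReal.ofReal_le_ofReal (by linarith)))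
  have hi : Measurable ((Ioo (-1:ℝ) 1).indicator (1 : ℝ → ℝ≥0∞)) :=
    measurable_one.indicator measurableSet_Ioo
  have hj : Measurable ((ball (0 : V (q + 2)) 1).indicator
      fun y => ENNReal.ofReal (‖y‖⁻¹ ^ (7 / 4 : ℝ))) :=
    Measurable.indicator (by fun_prop) measurableSet_ball
  calc _ = ∫⁻ x, (ball (0 : V (q + 3)) 1).indicator
        (fun x => ENNReal.ofReal (kr (pt 1 0) (nrm x) ^ (7 / 4 : ℝ))) x := by
        rw [lint_mu (by fun_prop), lintegral_indicator measurableSet_ball]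
    _ ≤ ∫⁻ x : V (q + 3), (Ioo (-1:ℝ) 1).indicator 1 (x 0) * (ball (0 : V (q + 2)) 1).indicator
        (fun y => ENNReal.ofReal (‖y‖⁻¹ ^ (7 / 4 : ℝ))) (tl x) := by
        refine lintegral_mono fun x => ?_
        by_cases hx : x ∈ ball (0 : V (q + 3)) 1
        swap
        · rw [indicator_of_notMem hx]; exact zero_le
        have h1 : ‖x‖ < 1 := by simpa using hx
        have h3 := norm_sq_pt (x 0) (tl x)
        rw [pt_tl] at h3
        have h4 : ‖x‖ ^ 2 < 1 := by nlinarith [norm_nonneg x]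
        rw [indicator_of_mem hx, indicator_of_mem (show x 0 ∈ Ioo (-1:ℝ) 1 from
          ⟨by nlinarith [sq_nonneg ‖tl x‖], by nlinarith [sq_nonneg ‖tl x‖]⟩),
          indicator_of_mem (mem_ball_zero_iff.2
            (by nlinarith [sq_nonneg (x 0), norm_nonneg (tl x)])), Pi.one_apply, one_mul]
        refine ENNReal.ofReal_le_ofReal (Real.rpow_le_rpow (kr_nonneg _ _) ?_ (by norm_num))
        rw [kr_axis, nrm, tl_smul, norm_smul, norm_inv, norm_norm, mul_inv, inv_inv]
        exact mul_le_of_le_one_left (by positivity) h1.le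
    _ = 2 * I := by
        rw [lint_pt (by fun_prop)]
        simp only [pt_zero, tl_pt]
        simp only [lintegral_const_mul _ hj, lintegral_indicator measurableSet_ball]
        rw [lintegral_mul_const _ hi, lintegral_indicator_one measurableSet_Ioo, Real.volume_Ioo]
        norm_num [hId]

/-! the chart formula -/

lemma lint_log_pos : ∃ L : ℝ≥0∞, L ≠ 0 ∧ L ≠ ∞ ∧ (∀ c : ℝ, 0 < c →
    ∫⁻ r in Ioi (0:ℝ), ENNReal.ofReal r⁻¹ * (Icc (1:ℝ) 2).indicator 1 (r * c) = L) ∧
    ∫⁻ s : ℝ, ENNReal.ofReal |s|⁻¹ * (Icc (1:ℝ) 2).indicator 1 |s| = 2 * L := by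
  have hi : Measurable ((Icc (1:ℝ) 2).indicator (1 : ℝ → ℝ≥0∞)) :=
    measurable_one.indicator measurableSet_Icc
  refine ⟨∫⁻ r in Ioi (0:ℝ), ENNReal.ofReal r⁻¹ * (Icc (1:ℝ) 2).indicator 1 r, ?_, ?_,
    fun c hc => ?_, ?_⟩
  · refine ne_of_gt (lt_of_lt_of_le ?_ (lintegral_mono
      (f := (Icc (1:ℝ) 2).indicator fun _ => ENNReal.ofReal 2⁻¹) fun r => ?_))
    · rw [lintegral_indicator measurableSet_Icc, Measure.restrict_restrict measurableSet_Icc,
        inter_eq_left.2 (show Icc (1:ℝ) 2 ⊆ Ioi 0 from fun x hx => lt_of_lt_of_le one_pos hx.1)]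
      simp
    · by_cases h : r ∈ Icc (1:ℝ) 2
      · simp only [indicator_of_mem h, Pi.one_apply, mul_one]
        exact ENNReal.ofReal_le_ofReal (inv_anti₀ (by linarith [h.1]) h.2)
      · simp [h]
  · refine ne_of_lt (lt_of_le_of_lt (lintegral_mono
      (g := (Icc (1:ℝ) 2).indicator 1) fun r => ?_) ?_)
    · by_cases h : r ∈ Icc (1:ℝ) 2
      · simp only [indicator_of_mem h, Pi.one_apply, mul_one]
        exact ENNReal.ofReal_le_one.2 (inv_le_one_of_one_le₀ h.1)
      · simp [h]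
    · rw [lintegral_indicator_one measurableSet_Icc]
      exact lt_of_le_of_lt (Measure.restrict_apply_le _ _) (by simp)
  · rw [lint_scale hc (f := fun r => ENNReal.ofReal r⁻¹ * (Icc (1:ℝ) 2).indicator 1 r)
      (by fun_prop), ← lintegral_const_mul' _ _ ENNReal.ofReal_ne_top]
    refine setLIntegral_congr_fun measurableSet_Ioi fun r hr => ?_
    have hr' : 0 < r := hr
    rw [← mul_assoc, ← ENNReal.ofReal_mul hc.le]
    congr 2
    field_simp
  · rw [← lintegral_add_compl _ (measurableSet_Ioi (a := (0:ℝ))), two_mul, compl_Ioi]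
    congr 1
    · exact setLIntegral_congr_fun measurableSet_Ioi fun r hr => by rw [abs_of_pos hr]
    rw [← setLIntegral_congr Iio_ae_eq_Iic, ← lintegral_indicator measurableSet_Iio,
      ← lintegral_indicator measurableSet_Ioi, ← lintegral_neg_eq_self]
    refine lintegral_congr fun x => ?_
    by_cases hx : 0 < x
    · rw [indicator_of_mem (show -x ∈ Iio 0 by simpa using hx),
        indicator_of_mem (show x ∈ Ioi 0 from hx), abs_neg, abs_of_pos hx]
    · rw [indicator_of_notMem (show -x ∉ Iio 0 by simpa using hx),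
        indicator_of_notMem (show x ∉ Ioi 0 from hx)]

lemma mu_ae_inner {η : V (N + 1)} (hη : η ≠ 0) : ∀ᵐ u ∂mu (N + 1), ⟪η, u⟫ ≠ 0 := by
  unfold mu
  refine (ae_map_iff measurable_nrm.aemeasurable (p := fun u => ⟪η, u⟫ ≠ 0)
    (measurableSet_eq_fun (f := fun u : V (N + 1) => ⟪η, u⟫) (by fun_prop)
      measurable_const).compl).2 ?_
  filter_upwards [ae_restrict_of_ae (ae_inner_ne hη)] with x hx
  have : x ≠ 0 := by rintro rfl; simp at hx
  show ⟪η, nrm x⟫ ≠ 0
  rw [nrm, inner_smul_right]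
  exact mul_ne_zero (inv_ne_zero (norm_ne_zero_iff.2 this)) hx

theorem chartG (N : ℕ) : ∃ c : ℝ≥0∞, c ≠ 0 ∧ c ≠ ∞ ∧ ∀ F : V (N + 1) → ℝ≥0∞, Measurable F →
    ∫⁻ u, sec F u ^ (N + 1) ∂mu (N + 1) =
      c * ∫⁻ a : V N, (∫⁻ y : V N, F (pt ⟪a, y⟫ y)) ^ (N + 1) := by
  obtain ⟨L, L0, L1, hL, hL2⟩ := lint_log_pos
  have hi : Measurable ((Icc (1:ℝ) 2).indicator (1 : ℝ → ℝ≥0∞)) :=
    measurable_one.indicator measurableSet_Icc
  have hN : ENNReal.ofReal ((N:ℝ) + 1) ≠ 0 := (ENNReal.ofReal_pos.2 (by positivity)).ne'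
  refine ⟨2 * (ENNReal.ofReal ((N:ℝ) + 1))⁻¹, mul_ne_zero two_ne_zero (by simp),
    ENNReal.mul_ne_top (by simp) (ENNReal.inv_ne_top.2 hN), fun F hF => ?_⟩
  have hs := measurable_sec hF
  have h1 : ∫⁻ x : V (N + 1), sec F x ^ (N + 1) * (Icc (1:ℝ) 2).indicator 1 |x 0| =
      L * (ENNReal.ofReal ((N:ℝ) + 1) * ∫⁻ u, sec F u ^ (N + 1) ∂mu (N + 1)) := by
    rw [polar_vol (by fun_prop), ← lintegral_const_mul _ (by fun_prop),
      ← lintegral_const_mul _ (by fun_prop)]
    refine lintegral_congr_ae ?_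
    filter_upwards [mu_sphere, mu_ae_inner (pt_axis_ne_zero (N := N) one_ne_zero)] with u hu h0
    have h0' : 0 < |u 0| := by
      rw [inner_split] at h0
      simpa using h0
    rw [← hL _ h0', ← lintegral_mul_const _ (by fun_prop)]
    refine setLIntegral_congr_fun measurableSet_Ioi fun r hr => ?_
    have hr' : 0 < r := hr
    rw [sec_smul hF hr'.ne' (ne_zero_of_unit hu), mul_pow, ← ENNReal.ofReal_pow (by positivity),
      abs_of_pos hr', PiLp.smul_apply, smul_eq_mul, abs_mul, abs_of_pos hr']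
    have : ENNReal.ofReal ((N + 1) * r ^ N) * ENNReal.ofReal (r⁻¹ ^ (N + 1)) =
        ENNReal.ofReal r⁻¹ * ENNReal.ofReal ((N:ℝ) + 1) := by
      rw [← ENNReal.ofReal_mul (by positivity), ← ENNReal.ofReal_mul (by positivity)]
      congr 1
      rw [inv_pow, pow_succ]
      field_simp
    calc _ = (ENNReal.ofReal ((N + 1) * r ^ N) * ENNReal.ofReal (r⁻¹ ^ (N + 1))) *
        (sec F u ^ (N + 1) * (Icc (1:ℝ) 2).indicator 1 (r * |u 0|)) := by ring
      _ = _ := by rw [this]; ring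
  have h2 : ∫⁻ x : V (N + 1), sec F x ^ (N + 1) * (Icc (1:ℝ) 2).indicator 1 |x 0| =
      L * (2 * ∫⁻ a : V N, (∫⁻ y : V N, F (pt ⟪a, y⟫ y)) ^ (N + 1)) := by
    rw [lint_pt (by fun_prop), ← mul_assoc, mul_comm L, ← hL2,
      ← lintegral_mul_const _ (by fun_prop)]
    refine lintegral_congr_ae ?_
    filter_upwards [Measure.ae_ne volume 0] with s hs0
    simp only [pt_zero]
    have hs1 : 0 < |s| := abs_pos.2 hs0
    have h3 := lint_comp (hom N (-s) (neg_ne_zero.2 hs0))
      (F := fun η => sec F (pt s η) ^ (N + 1)) (by fun_prop)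
    have h4 : ∀ a : V N, sec F (pt s (hom N (-s) (neg_ne_zero.2 hs0) a)) ^ (N + 1) =
        ENNReal.ofReal (|s|⁻¹ ^ (N + 1)) * (∫⁻ y : V N, F (pt ⟪a, y⟫ y)) ^ (N + 1) := by
      intro a
      rw [sec_chart hF hs0, mul_pow, ← ENNReal.ofReal_pow (by positivity)]
      simp only [hom_apply, inner_smul_left, conj_trivial]
      congr 3
      funext y
      congr 2
      field_simp
    simp only [h4] at h3
    rw [lintegral_const_mul' _ _ ENNReal.ofReal_ne_top, jac_hom, abs_neg] at h3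
    rw [lintegral_mul_const _ (by fun_prop), mul_right_comm]
    congr 1
    refine (ENNReal.mul_right_inj (a := ENNReal.ofReal (|s| ^ N)⁻¹)
      (ENNReal.ofReal_pos.2 (by positivity)).ne' ENNReal.ofReal_ne_top).1 ?_
    rw [← h3, ← mul_assoc, ← ENNReal.ofReal_mul (by positivity), pow_succ, inv_pow]
  rw [h1] at h2
  have h5 := (ENNReal.mul_right_inj L0 L1).1 h2
  rw [mul_right_comm, ← h5, mul_right_comm, ENNReal.mul_inv_cancel hN ENNReal.ofReal_ne_top,
    one_mul]

end Pool.Agent.Lib.MP_242fd5_gt.Ty
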