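import Pool.Agent.Lib.MP_242fd5_gt.Ty.A4RR

set_option autoImplicit false

open MeasureTheory ProbabilityTheory Set Metric Filter Topology
open scoped ENNReal RealInnerProductSpace

namespace Pool.Agent.Lib.MP_242fd5_gt.Ty

variable {n N q : ℕ}

/-! real valued Radon transform of bounded functions -/

lemma BM.nonneg {C : ℝ} {h : V (N + 1) → ℝ} (H : BM C h) : 0 ≤ C :=
  (abs_nonneg _).trans (H.bdd (pt 1 0) (by rw [norm_pt_axis, abs_one]))

lemma BM.mono {C C' : ℝ} {h : V n → ℝ} (H : BM C h) (hC : C ≤ C') : BM C' h :=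
  ⟨H.meas, fun x hx => (H.bdd x hx).trans hC⟩

lemma BM.const (c : ℝ) : BM |c| (fun _ : V n => c) := ⟨measurable_const, fun _ _ => le_rfl⟩

lemma BM.add {C C' : ℝ} {h h' : V n → ℝ} (H : BM C h) (H' : BM C' h') :
    BM (C + C') fun x => h x + h' x :=
  ⟨H.meas.add H'.meas, fun x hx => (abs_add_le _ _).trans (add_le_add (H.bdd x hx) (H'.bdd x hx))⟩

lemma BM.sub {C C' : ℝ} {h h' : V n → ℝ} (H : BM C h) (H' : BM C' h') :
    BM (C + C') fun x => h x - h' x :=
  ⟨H.meas.sub H'.meas, fun x hx => (abs_sub _ _).trans (add_le_add (H.bdd x hx) (H'.bdd x hx))⟩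

lemma BM.mul {C C' : ℝ} {h h' : V n → ℝ} (H : BM C h) (H' : BM C' h') :
    BM (C * C') fun x => h x * h' x :=
  ⟨H.meas.mul H'.meas, fun x hx => by
    rw [abs_mul]
    exact mul_le_mul (H.bdd x hx) (H'.bdd x hx) (abs_nonneg _) ((abs_nonneg _).trans (H.bdd x hx))⟩

lemma BM.const_mul {C : ℝ} {h : V n → ℝ} (H : BM C h) (c : ℝ) : BM (|c| * C) fun x => c * h x :=
  (BM.const c).mul H

lemma BM.abs {C : ℝ} {h : V n → ℝ} (H : BM C h) : BM C fun x => |h x| :=
  ⟨H.meas.abs, fun x hx => by rw [abs_abs]; exact H.bdd x hx⟩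

lemma BM.pow {C : ℝ} {h : V n → ℝ} (H : BM C h) (k : ℕ) : BM (C ^ k) fun x => h x ^ k :=
  ⟨H.meas.pow_const k, fun x hx => by
    rw [abs_pow]; exact pow_le_pow_left₀ (abs_nonneg _) (H.bdd x hx) k⟩

lemma BM.iso {C : ℝ} {h : V n → ℝ} (H : BM C h) (g : V n ≃ₗᵢ[ℝ] V n) : BM C fun x => h (g x) :=
  ⟨H.meas.comp g.continuous.measurable, fun x hx => H.bdd _ (by rw [g.norm_map, hx])⟩

lemma BM.int_mu {C : ℝ} {h : V (N + 1) → ℝ} (H : BM C h) : Integrable h (mu (N + 1)) :=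
  Integrable.of_bound H.meas.aestronglyMeasurable C (mu_sphere.mono fun x hx => H.bdd x hx)

lemma BM.int_kap {C : ℝ} {h : V (N + 2) → ℝ} (H : BM C h) {u : V (N + 2)} (hu : u ≠ 0) :
    Integrable h (kap (N + 2) u) :=
  Integrable.of_bound H.meas.aestronglyMeasurable C
    ((kap_sphere hu).mono fun x hx => H.bdd x hx.1)

lemma BM.abs_int_le {C : ℝ} {h : V (N + 1) → ℝ} (H : BM C h) :
    |∫ x, h x ∂mu (N + 1)| ≤ C * om (N + 1) := by
  have := norm_integral_le_of_norm_le_const (μ := mu (N + 1)) (f := h) (C := C)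
    (mu_sphere.mono fun x hx => H.bdd x hx)
  rwa [mu_real_univ] at this

lemma measurable_R {h : V (N + 1) → ℝ} (hh : Measurable h) : Measurable (R h) :=
  (hh.stronglyMeasurable.integral_kernel (κ := kap (N + 1))).measurable

lemma BM.R {C : ℝ} {h : V (N + 2) → ℝ} (H : BM C h) : BM (C * om (N + 1)) (R h) :=
  ⟨measurable_R H.meas, fun u hu => by
    have := norm_integral_le_of_norm_le_const (μ := kap (N + 2) u) (f := h) (C := C)
      ((kap_sphere (ne_zero_of_unit hu)).mono fun x hx => H.bdd x hx.1)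
    rwa [kap_real_univ (ne_zero_of_unit hu)] at this⟩

lemma R_nonneg {h : V n → ℝ} (h0 : ∀ x, 0 ≤ h x) (u : V n) : 0 ≤ R h u := integral_nonneg h0

lemma R_neg (h : V (N + 1) → ℝ) (u : V (N + 1)) : R h (-u) = R h u := by
  unfold R; rw [kap_neg]

lemma R_nrm (h : V n → ℝ) (u : V n) : R h (nrm u) = R h u := by
  unfold R; rw [kap_nrm]

lemma R_const (c : ℝ) {u : V (N + 1)} (hu : u ≠ 0) : R (fun _ => c) u = om N * c := by
  unfold R; rw [integral_const, kap_real_univ hu, smul_eq_mul]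

lemma R_const_mul (c : ℝ) (h : V n → ℝ) (u : V n) : R (fun x => c * h x) u = c * R h u :=
  integral_const_mul _ _

lemma R_congr {h h' : V (N + 2) → ℝ} (H : ∀ x, ‖x‖ = 1 → h x = h' x) {u : V (N + 2)}
    (hu : u ≠ 0) : R h u = R h' u :=
  integral_congr_ae ((kap_sphere hu).mono fun x hx => H x hx.1)

lemma R_mono {C C' : ℝ} {h h' : V (N + 2) → ℝ} (H : BM C h) (H' : BM C' h')
    (hle : ∀ x, ‖x‖ = 1 → h x ≤ h' x) {u : V (N + 2)} (hu : u ≠ 0) : R h u ≤ R h' u :=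
  integral_mono_ae (H.int_kap hu) (H'.int_kap hu) ((kap_sphere hu).mono fun x hx => hle x hx.1)

lemma R_add {C C' : ℝ} {h h' : V (N + 2) → ℝ} (H : BM C h) (H' : BM C' h') {u : V (N + 2)}
    (hu : u ≠ 0) : R (fun x => h x + h' x) u = R h u + R h' u :=
  integral_add (H.int_kap hu) (H'.int_kap hu)

lemma R_sub {C C' : ℝ} {h h' : V (N + 2) → ℝ} (H : BM C h) (H' : BM C' h') {u : V (N + 2)}
    (hu : u ≠ 0) : R (fun x => h x - h' x) u = R h u - R h' u :=
  integral_sub (H.int_kap hu) (H'.int_kap hu)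

lemma abs_R_le (h : V n → ℝ) (u : V n) : |R h u| ≤ R (fun x => |h x|) u :=
  abs_integral_le_integral_abs

lemma int_mu_mono {C C' : ℝ} {h h' : V (N + 1) → ℝ} (H : BM C h) (H' : BM C' h')
    (hle : ∀ x, ‖x‖ = 1 → h x ≤ h' x) : ∫ x, h x ∂mu (N + 1) ≤ ∫ x, h' x ∂mu (N + 1) :=
  integral_mono_ae H.int_mu H'.int_mu (mu_sphere.mono hle)

lemma int_mu_congr {h h' : V (N + 1) → ℝ} (H : ∀ x, ‖x‖ = 1 → h x = h' x) :
    ∫ x, h x ∂mu (N + 1) = ∫ x, h' x ∂mu (N + 1) :=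
  integral_congr_ae (mu_sphere.mono H)

lemma ofReal_R {C : ℝ} {h : V (N + 2) → ℝ} (H : BM C h) (h0 : ∀ x, 0 ≤ h x) {u : V (N + 2)}
    (hu : u ≠ 0) : ENNReal.ofReal (R h u) = Re (fun x => ENNReal.ofReal (h x)) u :=
  ofReal_integral_eq_lintegral_ofReal (H.int_kap hu) (Eventually.of_forall h0)

lemma ofReal_int_mu {C : ℝ} {h : V (N + 1) → ℝ} (H : BM C h) (h0 : ∀ x, 0 ≤ h x) :
    ENNReal.ofReal (∫ x, h x ∂mu (N + 1)) = ∫⁻ x, ENNReal.ofReal (h x) ∂mu (N + 1) :=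
  ofReal_integral_eq_lintegral_ofReal H.int_mu (Eventually.of_forall h0)

lemma ae_pair_sphere : ∀ᵐ p ∂(mu (N + 2) ⊗ₘ kap (N + 2)), ‖p.1‖ = 1 ∧ ‖p.2‖ = 1 := by
  refine (Measure.ae_compProd_iff (p := fun p : V (N + 2) × V (N + 2) => ‖p.1‖ = 1 ∧ ‖p.2‖ = 1)
    ((measurableSet_unit.preimage measurable_fst).inter
      (measurableSet_unit.preimage measurable_snd))).2 ?_
  filter_upwards [mu_sphere] with u hu
  filter_upwards [kap_sphere (ne_zero_of_unit hu)] with v hv using ⟨hu, hv.1⟩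

theorem R_symm {C C' : ℝ} {g h : V (N + 2) → ℝ} (G : BM C g) (H : BM C' h) :
    ∫ u, g u * R h u ∂mu (N + 2) = ∫ u, h u * R g u ∂mu (N + 2) := by
  have key : ∀ {C C' : ℝ} {g h : V (N + 2) → ℝ}, BM C g → BM C' h →
      ∫ u, g u * R h u ∂mu (N + 2) = ∫ p, g p.1 * h p.2 ∂(mu (N + 2) ⊗ₘ kap (N + 2)) := by
    intro C C' g h G H
    have hm : Measurable fun p : V (N + 2) × V (N + 2) => g p.1 * h p.2 :=
      (G.meas.comp measurable_fst).mul (H.meas.comp measurable_snd)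
    rw [Measure.integral_compProd (Integrable.of_bound hm.aestronglyMeasurable (C * C')
      (ae_pair_sphere.mono fun p hp => by
        rw [Real.norm_eq_abs, abs_mul]
        exact mul_le_mul (G.bdd _ hp.1) (H.bdd _ hp.2) (abs_nonneg _) G.nonneg))]
    simp only [R, integral_const_mul]
  rw [key G H, key H G]
  conv_lhs => rw [← compProd_swap]
  rw [integral_map (f := fun p : V (N + 2) × V (N + 2) => g p.1 * h p.2)
    measurable_swap.aemeasurable (Measurable.aestronglyMeasurable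
    ((G.meas.comp measurable_fst).mul (H.meas.comp measurable_snd)))]
  simp only [Prod.fst_swap, Prod.snd_swap, mul_comm]

lemma int_R {C : ℝ} {h : V (N + 2) → ℝ} (H : BM C h) :
    ∫ u, R h u ∂mu (N + 2) = om (N + 1) * ∫ u, h u ∂mu (N + 2) := by
  have := R_symm (BM.const 1) H
  simp only [one_mul] at this
  rw [this, ← integral_const_mul]
  exact int_mu_congr fun x hx => by rw [R_const 1 (ne_zero_of_unit hx), mul_one, mul_comm]

theorem Re_symm {g h : V (N + 2) → ℝ≥0∞} (hg : Measurable g) (hh : Measurable h) :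
    ∫⁻ u, g u * Re h u ∂mu (N + 2) = ∫⁻ u, h u * Re g u ∂mu (N + 2) := by
  have := kap_symm (F := fun u v => g u * h v) (by unfold Function.uncurry; fun_prop)
  simp only [lintegral_const_mul _ hh, lintegral_mul_const _ hg] at this
  simp only [Re, mul_comm (h _)]
  exact this

lemma lint_Re {h : V (N + 2) → ℝ≥0∞} (hh : Measurable h) :
    ∫⁻ u, Re h u ∂mu (N + 2) = ENNReal.ofReal (om (N + 1)) * ∫⁻ u, h u ∂mu (N + 2) := by
  have := Re_symm (g := fun _ => 1) measurable_const hh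
  simp only [one_mul] at this
  rw [this, ← lintegral_const_mul _ hh]
  refine lintegral_congr_ae (mu_sphere.mono fun x hx => ?_)
  simp only [Re, lintegral_one, kap_univ (ne_zero_of_unit hx), mul_comm]

lemma ae_kap {p : V (N + 2) → Prop} (h : ∀ᵐ x ∂mu (N + 2), p x) :
    ∀ᵐ u ∂mu (N + 2), ∀ᵐ v ∂kap (N + 2) u, p v := by
  obtain ⟨Z, hZ, hm, h0⟩ := exists_measurable_superset_of_null (ae_iff.1 h)
  have h1 := lint_Re (h := Z.indicator 1) (measurable_one.indicator hm)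
  rw [lintegral_indicator_one hm, h0, mul_zero,
    lintegral_eq_zero_iff (measurable_Re (measurable_one.indicator hm))] at h1
  filter_upwards [h1] with u hu
  rw [Re, lintegral_indicator_one hm] at hu
  exact ae_iff.2 (measure_mono_null hZ hu)

lemma le_one_add_rpow {x : ℝ} (hx : 0 ≤ x) : x ≤ 1 + x ^ (7 / 4 : ℝ) := by
  rcases le_total x 1 with h | h
  · exact h.trans (le_add_of_nonneg_right (by positivity))
  · exact (Real.self_le_rpow_of_one_le h (by norm_num)).trans (le_add_of_nonneg_left zero_le_one)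

lemma int_kr_rpow (q : ℕ) : ∃ C : ℝ, 0 < C ∧ ∀ u : V (q + 3), ‖u‖ = 1 →
    Integrable (fun x => kr u x ^ (7 / 4 : ℝ)) (mu (q + 3)) ∧
      ∫ x, kr u x ^ (7 / 4 : ℝ) ∂mu (q + 3) ≤ C := by
  obtain ⟨C, hC, h⟩ := lint_kr_rpow q
  refine ⟨C, hC, fun u hu => ?_⟩
  have h0 : ∀ x, 0 ≤ kr u x ^ (7 / 4 : ℝ) := fun x => Real.rpow_nonneg (kr_nonneg _ _) _
  have h1 : Integrable (fun x => kr u x ^ (7 / 4 : ℝ)) (mu (q + 3)) :=
    (lintegral_ofReal_ne_top_iff_integrable (Measurable.aestronglyMeasurable (by fun_prop))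
      (Eventually.of_forall h0)).1 ((h u hu).trans_lt ENNReal.ofReal_lt_top).ne
  refine ⟨h1, (ENNReal.ofReal_le_ofReal_iff hC.le).1 ?_⟩
  rw [ofReal_integral_eq_lintegral_ofReal h1 (Eventually.of_forall h0)]
  exact h u hu

lemma int_kr {u : V (q + 3)} (hu : ‖u‖ = 1) : Integrable (kr u) (mu (q + 3)) := by
  obtain ⟨C, -, h⟩ := int_kr_rpow q
  refine Integrable.mono' ((integrable_const 1).add (h u hu).1)
    (measurable_kr u).aestronglyMeasurable (Eventually.of_forall fun x => ?_)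
  rw [Real.norm_of_nonneg (kr_nonneg _ _)]
  exact le_one_add_rpow (kr_nonneg _ _)

lemma BM.int_kr {C : ℝ} {h : V (q + 3) → ℝ} (H : BM C h) {u : V (q + 3)} (hu : ‖u‖ = 1) :
    Integrable (fun x => h x * kr u x) (mu (q + 3)) :=
  (Ty.int_kr hu).bdd_mul H.meas.aestronglyMeasurable (mu_sphere.mono fun x hx => H.bdd x hx)

theorem RR_nonneg {C : ℝ} {h : V (q + 3) → ℝ} (H : BM C h) (h0 : ∀ x, 0 ≤ h x) {u : V (q + 3)}
    (hu : ‖u‖ = 1) : R (R h) u = cK q * ∫ x, h x * kr u x ∂mu (q + 3) := by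
  have h1 : ∀ x, 0 ≤ h x * kr u x := fun x => mul_nonneg (h0 x) (kr_nonneg _ _)
  refine (ENNReal.ofReal_eq_ofReal_iff (R_nonneg (R_nonneg h0) _)
    (mul_nonneg (cK_pos q).le (integral_nonneg h1))).1 ?_
  rw [ofReal_R H.R (R_nonneg h0) (ne_zero_of_unit hu), ENNReal.ofReal_mul (cK_pos q).le,
    ofReal_integral_eq_lintegral_ofReal (H.int_kr hu) (Eventually.of_forall h1)]
  simp only [ENNReal.ofReal_mul (h0 _)]
  rw [← ReRe H.meas.ennreal_ofReal hu]
  refine lintegral_congr_ae ((kap_sphere (ne_zero_of_unit hu)).mono fun v hv => ?_)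
  exact ofReal_R H h0 (ne_zero_of_unit hv.1)

theorem RR {C : ℝ} {h : V (q + 3) → ℝ} (H : BM C h) {u : V (q + 3)} (hu : ‖u‖ = 1) :
    R (R h) u = cK q * ∫ x, h x * kr u x ∂mu (q + 3) := by
  have H1 := H.abs
  have H2 := H.abs.sub H
  have e1 := RR_nonneg H1 (fun x => abs_nonneg _) hu
  have e2 := RR_nonneg H2 (fun x => sub_nonneg.2 (le_abs_self _)) hu
  rw [R_congr (fun x hx => R_sub H1 H (ne_zero_of_unit hx)) (ne_zero_of_unit hu),
    R_sub H1.R H.R (ne_zero_of_unit hu), e1] at e2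
  simp only [sub_mul] at e2
  rw [integral_sub (H1.int_kr hu) (H.int_kr hu)] at e2
  linarith

/-! supports -/

lemma mu_open_pos {O : Set (V (N + 1))} (hO : IsOpen O) {u : V (N + 1)} (hu : ‖u‖ = 1)
    (huO : u ∈ O) : 0 < mu (N + 1) O := by
  unfold mu
  rw [Measure.map_apply measurable_nrm hO.measurableSet,
    Measure.restrict_apply (hO.measurableSet.preimage measurable_nrm)]
  have h2 : (2⁻¹ : ℝ) • u ≠ 0 := smul_ne_zero (by norm_num) (ne_zero_of_unit hu)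
  have hc : ContinuousAt nrm ((2⁻¹ : ℝ) • u) :=
    (continuousAt_id.norm.inv₀ (norm_ne_zero_iff.2 h2)).smul continuousAt_id
  refine Measure.measure_pos_of_mem_nhds _ (inter_mem (hc.preimage_mem_nhds ?_)
    (isOpen_ball.mem_nhds ?_))
  · rw [nrm_smul (by norm_num), nrm_unit hu]; exact hO.mem_nhds huO
  · rw [mem_ball_zero_iff, norm_smul, hu]; norm_num

lemma le_of_ae_le {f h : V (N + 1) → ℝ} (hf : ContinuousOn f {0}ᶜ) (hh : ContinuousOn h {0}ᶜ)
    (H : ∀ᵐ x ∂mu (N + 1), f x ≤ h x) {u : V (N + 1)} (hu : ‖u‖ = 1) : f u ≤ h u := by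
  by_contra hlt
  have hO : IsOpen ({0}ᶜ ∩ (fun x => f x - h x) ⁻¹' Ioi 0 : Set (V (N + 1))) :=
    (hf.sub hh).isOpen_inter_preimage isOpen_compl_singleton isOpen_Ioi
  refine (mu_open_pos hO hu ⟨ne_zero_of_unit hu, sub_pos.2 (not_le.1 hlt)⟩).ne'
    (measure_mono_null (fun x hx => ?_) (ae_iff.1 H))
  exact not_le.2 (sub_pos.1 hx.2)

lemma eq_of_ae_eq {f h : V (N + 1) → ℝ} (hf : ContinuousOn f {0}ᶜ) (hh : ContinuousOn h {0}ᶜ)
    (H : ∀ᵐ x ∂mu (N + 1), f x = h x) {u : V (N + 1)} (hu : ‖u‖ = 1) : f u = h u :=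
  le_antisymm (le_of_ae_le hf hh (H.mono fun _ h => h.le) hu)
    (le_of_ae_le hh hf (H.mono fun _ h => h.ge) hu)

lemma kap_open_pos {O : Set (V (N + 2))} (hO : IsOpen O) {u v : V (N + 2)} (hu : ‖u‖ = 1)
    (hv : ‖v‖ = 1) (huv : ⟪v, u⟫ = 0) (hvO : v ∈ O) : 0 < kap (N + 2) u O := by
  obtain ⟨g, rfl⟩ := exists_iso_unit hu
  obtain ⟨w, rfl⟩ := g.surjective v
  rw [g.inner_map_map, inner_split] at huv
  have h0 : w 0 = 0 := by simpa using huv
  have h1 : pt 0 (tl w) = w := by rw [← h0, pt_tl]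
  have hi : Measurable (O.indicator (1 : V (N + 2) → ℝ≥0∞)) :=
    measurable_one.indicator hO.measurableSet
  have hg := g.continuous
  have hO' : IsOpen ((fun y : V (N + 1) => g (pt 0 y)) ⁻¹' O) := hO.preimage (by fun_prop)
  rw [← lintegral_indicator_one hO.measurableSet, lint_kap_of_iso hi g,
    ← lint_mu (h := fun y => O.indicator 1 (g (pt 0 y))) (hi.comp (Continuous.measurable
      (by fun_prop)))]
  refine lt_of_lt_of_eq (mu_open_pos hO' (u := tl w) ?_ ?_) ?_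
  · rw [← norm_pt_zero, h1, ← g.norm_map, hv]
  · show g (pt 0 (tl w)) ∈ O
    rwa [h1]
  · rw [← lintegral_indicator_one hO'.measurableSet]; rfl

end Pool.Agent.Lib.MP_242fd5_gt.Ty
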