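import Pool.Agent.Lib.MP_242fd5_gt.Ty.A5Rad

set_option autoImplicit false

open MeasureTheory ProbabilityTheory Set Metric Filter Topology
open scoped ENNReal RealInnerProductSpace symmDiff

namespace Pool.Agent.Lib.MP_242fd5_gt.Ty

variable {n N q : ℕ}

lemma lint_pow_le (d : ℕ) (A : ℝ≥0∞) :
    ∫⁻ r in Ioi (0:ℝ), ENNReal.ofReal ((d + 1) * r ^ d) *
      {r : ℝ | ENNReal.ofReal r ≤ A}.indicator 1 r = A ^ (d + 1) := by
  by_cases hA : A = ∞
  · subst hA
    rw [ENNReal.top_pow (Nat.succ_ne_zero d), eq_top_iff]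
    refine ENNReal.le_of_forall_nnreal_lt fun c _ => ?_
    calc (c : ℝ≥0∞) ≤ ENNReal.ofReal (((c:ℝ) + 1) ^ (d + 1)) := by
          rw [← ENNReal.ofReal_coe_nnreal]
          refine ENNReal.ofReal_le_ofReal (le_trans (by linarith) (le_self_pow₀ ?_ (by omega)))
          have := c.coe_nonneg
          linarith
      _ ≤ _ := by
          rw [← lint_pow_Iio d (by positivity)]
          refine lintegral_mono fun r => ?_
          by_cases h : r ∈ Iio ((c:ℝ) + 1) <;> simp [h]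
  · have h1 : {r : ℝ | ENNReal.ofReal r ≤ A} = Iic A.toReal := by
      ext r; exact ENNReal.ofReal_le_iff_le_toReal hA
    rw [h1, ← ENNReal.ofReal_toReal hA, ← ENNReal.ofReal_pow ENNReal.toReal_nonneg,
      ENNReal.toReal_ofReal ENNReal.toReal_nonneg, ← lint_pow_Iio d ENNReal.toReal_nonneg]
    refine lintegral_congr_ae (ae_restrict_of_ae ?_)
    filter_upwards [Measure.ae_ne volume A.toReal] with r hr
    by_cases h : r < A.toReal
    · rw [indicator_of_mem (show r ∈ Iic _ from h.le), indicator_of_mem (show r ∈ Iio _ from h)]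
    · rw [indicator_of_notMem (show r ∉ Iic _ from fun h' => h (lt_of_le_of_ne h' hr)),
        indicator_of_notMem (show r ∉ Iio _ from h)]

/-- star set of an extended valued function on the sphere -/
def starE (a : V n → ℝ≥0∞) : Set (V n) := {x | ENNReal.ofReal ‖x‖ ≤ a (nrm x)}

lemma measurableSet_starE {a : V n → ℝ≥0∞} (ha : Measurable a) : MeasurableSet (starE a) :=
  measurableSet_le (by fun_prop) (by fun_prop)

lemma ray_starE (d : ℕ) (a : V n → ℝ≥0∞) {u : V n} (hu : ‖u‖ = 1) :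
    ∫⁻ r in Ioi (0:ℝ), ENNReal.ofReal ((d + 1) * r ^ d) * (starE a).indicator 1 (r • u) =
      a u ^ (d + 1) := by
  rw [← lint_pow_le d (a u)]
  refine setLIntegral_congr_fun measurableSet_Ioi fun r hr => ?_
  have hr' : 0 < r := hr
  have : r • u ∈ starE a ↔ r ∈ {r : ℝ | ENNReal.ofReal r ≤ a u} := by
    simp only [starE, mem_ofPred_eq]
    rw [nrm_smul hr', nrm_unit hu, norm_smul, hu, mul_one, Real.norm_of_nonneg hr'.le]
  by_cases h : r • u ∈ starE a
  · rw [indicator_of_mem h, indicator_of_mem (this.1 h)]; rfl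
  · rw [indicator_of_notMem h, indicator_of_notMem (fun h' => h (this.2 h'))]

lemma vol_starE {a : V (N + 1) → ℝ≥0∞} (ha : Measurable a) : volume (starE a) = Ne a := by
  rw [← lintegral_indicator_one (measurableSet_starE ha),
    polar_vol (measurable_one.indicator (measurableSet_starE ha))]
  exact lintegral_congr_ae (mu_sphere.mono fun u hu => ray_starE N a hu)

lemma sec_starE {a : V (N + 2) → ℝ≥0∞} (ha : Measurable a) {u : V (N + 2)} (hu : ‖u‖ = 1) :
    sec ((starE a).indicator 1) u = Te a u := by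
  rw [polar_sec (measurable_one.indicator (measurableSet_starE ha)) hu]
  exact lintegral_congr_ae ((kap_sphere (ne_zero_of_unit hu)).mono fun v hv => ray_starE N a hv.1)

namespace Adm

variable {f h : V n → ℝ}

lemma zero (H : Adm f) : f 0 = 0 := by
  have := H.hom 2 two_pos 0
  rw [smul_zero] at this
  linarith

lemma eq_nrm (H : Adm f) (x : V n) : f x = ‖x‖⁻¹ * f (nrm x) := by
  by_cases hx : x = 0
  · simp [hx, H.zero]
  · rw [← H.hom _ (norm_pos_iff.2 hx), norm_smul_nrm]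

lemma bm (H : Adm f) : ∃ C, BM C f := by
  obtain ⟨C, hC⟩ := H.bdd
  exact ⟨C, H.meas, fun x hx => by rw [abs_of_nonneg (H.nn x)]; exact hC x hx⟩

lemma bm' (H : Adm f) {C : ℝ} (hC : ∀ x, ‖x‖ = 1 → f x ≤ C) : BM C f :=
  ⟨H.meas, fun x hx => by rw [abs_of_nonneg (H.nn x)]; exact hC x hx⟩

lemma ext (H : Adm f) (H' : Adm h) (e : ∀ x, ‖x‖ = 1 → f x = h x) : f = h := by
  funext x
  by_cases hx : x = 0
  · rw [hx, H.zero, H'.zero]
  · rw [H.eq_nrm, H'.eq_nrm, e _ (norm_nrm hx)]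

lemma le (H : Adm f) (H' : Adm h) (e : ∀ x, ‖x‖ = 1 → f x ≤ h x) (x : V n) : f x ≤ h x := by
  by_cases hx : x = 0
  · rw [hx, H.zero, H'.zero]
  · rw [H.eq_nrm, H'.eq_nrm]
    exact mul_le_mul_of_nonneg_left (e _ (norm_nrm hx)) (by positivity)

lemma comp (H : Adm f) (g : V n ≃L[ℝ] V n) : Adm fun x => f (g x) := by
  refine ⟨H.meas.comp g.continuous.measurable, fun x => H.nn _,
    fun t ht x => by rw [map_smul, H.hom t ht], ?_⟩
  obtain ⟨C, hC⟩ := H.bdd
  refine ⟨‖(g.symm : V n →L[ℝ] V n)‖ * |C|, fun x hx => ?_⟩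
  have h0 : g x ≠ 0 := by simpa using ne_zero_of_unit hx
  have h1 : 1 ≤ ‖(g.symm : V n →L[ℝ] V n)‖ * ‖g x‖ := by
    simpa [hx] using (g.symm : V n →L[ℝ] V n).le_opNorm (g x)
  rw [H.eq_nrm]
  refine mul_le_mul ?_ ((hC _ (norm_nrm h0)).trans (le_abs_self C)) (H.nn _) (norm_nonneg _)
  rw [inv_le_iff_one_le_mul₀ (norm_pos_iff.2 h0)]
  exact h1

lemma smul (H : Adm f) {c : ℝ} (hc : 0 ≤ c) : Adm fun x => c * f x := by
  obtain ⟨C, hC⟩ := H.bdd
  exact ⟨H.meas.const_mul c, fun x => mul_nonneg hc (H.nn x),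
    fun t ht x => by rw [H.hom t ht]; ring, c * C, fun x hx => by gcongr; exact hC x hx⟩

lemma add (H : Adm f) (H' : Adm h) : Adm fun x => f x + h x := by
  obtain ⟨C, hC⟩ := H.bdd
  obtain ⟨C', hC'⟩ := H'.bdd
  exact ⟨H.meas.add H'.meas, fun x => add_nonneg (H.nn x) (H'.nn x),
    fun t ht x => by rw [H.hom t ht, H'.hom t ht]; ring, C + C',
    fun x hx => add_le_add (hC x hx) (hC' x hx)⟩

lemma absSub (H : Adm f) (H' : Adm h) : Adm fun x => |f x - h x| := by
  obtain ⟨C, hC⟩ := H.bm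
  obtain ⟨C', hC'⟩ := H'.bm
  exact ⟨(H.meas.sub H'.meas).abs, fun x => abs_nonneg _,
    fun t ht x => by
      rw [H.hom t ht, H'.hom t ht, ← mul_sub, abs_mul, abs_of_pos (inv_pos.2 ht)], C + C',
    fun x hx => (hC.sub hC').bdd x hx⟩

lemma max (H : Adm f) (H' : Adm h) : Adm fun x => max (f x) (h x) := by
  obtain ⟨C, hC⟩ := H.bdd
  obtain ⟨C', hC'⟩ := H'.bdd
  exact ⟨H.meas.max H'.meas, fun x => le_max_of_le_left (H.nn x),
    fun t ht x => by rw [H.hom t ht, H'.hom t ht, mul_max_of_nonneg _ _ (inv_pos.2 ht).le],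
    Max.max C C', fun x hx => max_le_max (hC x hx) (hC' x hx)⟩

lemma min (H : Adm f) (H' : Adm h) : Adm fun x => min (f x) (h x) := by
  obtain ⟨C, hC⟩ := H.bdd
  exact ⟨H.meas.min H'.meas, fun x => le_min (H.nn x) (H'.nn x),
    fun t ht x => by rw [H.hom t ht, H'.hom t ht, mul_min_of_nonneg _ _ (inv_pos.2 ht).le],
    C, fun x hx => (min_le_left _ _).trans (hC x hx)⟩

/-- the part of `f` above `h` -/
lemma above (H : Adm f) (H' : Adm h) : Adm fun x => if h x < f x then f x else 0 := by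
  obtain ⟨C, hC⟩ := H.bdd
  refine ⟨Measurable.ite (measurableSet_lt H'.meas H.meas) H.meas measurable_const,
    fun x => by split_ifs; exacts [H.nn x, le_rfl], fun t ht x => ?_, C, fun x hx => ?_⟩
  · rw [H.hom t ht, H'.hom t ht]
    simp only [mul_lt_mul_iff_right₀ (inv_pos.2 ht)]
    split_ifs <;> simp
  · split_ifs
    exacts [hC x hx, (H.nn x).trans (hC x hx)]

/-- the part of `f` below `h` -/
lemma below (H : Adm f) (H' : Adm h) : Adm fun x => if h x < f x then 0 else f x := by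
  obtain ⟨C, hC⟩ := H.bdd
  refine ⟨Measurable.ite (measurableSet_lt H'.meas H.meas) measurable_const H.meas,
    fun x => by split_ifs; exacts [le_rfl, H.nn x], fun t ht x => ?_, C, fun x hx => ?_⟩
  · rw [H.hom t ht, H'.hom t ht]
    simp only [mul_lt_mul_iff_right₀ (inv_pos.2 ht)]
    split_ifs <;> simp
  · split_ifs
    exacts [(H.nn x).trans (hC x hx), hC x hx]

lemma sum {ι : Type} (s : Finset ι) {f : ι → V n → ℝ} (H : ∀ i, Adm (f i)) :
    Adm fun x => ∑ i ∈ s, f i x := by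
  classical
  induction s using Finset.induction_on with
  | empty => exact ⟨by simp, by simp, by simp, 0, by simp⟩
  | insert i s hi ih => simp only [Finset.sum_insert hi]; exact (H i).add ih

lemma star_eq (H : Adm f) : star f = starE fun x => ENNReal.ofReal (f x) := by
  ext x
  simp only [star, starE, mem_ofPred_eq]
  by_cases hx : x = 0
  · simp [hx]
  · rw [ENNReal.ofReal_le_ofReal_iff (H.nn _), H.eq_nrm x, ← div_eq_inv_mul,
      one_le_div (norm_pos_iff.2 hx)]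
    simp [hx]

lemma measurableSet_star (H : Adm f) : MeasurableSet (star f) := by
  rw [H.star_eq]; exact measurableSet_starE H.meas.ennreal_ofReal

end Adm

lemma adm_zero : Adm fun _ : V n => (0:ℝ) := ⟨by simp, by simp, by simp, 0, by simp⟩

lemma adm_ext {C : ℝ} {h : V n → ℝ} (H : BM C h) (h0 : ∀ x, 0 ≤ h x) :
    Adm fun x => ‖x‖⁻¹ * h (nrm x) :=
  ⟨by have := H.meas; fun_prop, fun x => mul_nonneg (by positivity) (h0 _), fun t ht x => by
    rw [nrm_smul ht, norm_smul, Real.norm_of_nonneg ht.le, mul_inv, mul_assoc], C,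
    fun x hx => by rw [nrm_unit hx, hx, inv_one, one_mul]; exact (le_abs_self _).trans (H.bdd x hx)⟩

lemma adm_inv_norm : Adm fun x : V n => ‖x‖⁻¹ := by
  simpa using adm_ext (n := n) (BM.const 1) (fun _ => zero_le_one)

lemma adm_rho (g : V n ≃L[ℝ] V n) : Adm (rho g) := adm_inv_norm.comp g.symm

lemma T_eq (f : V (N + 1) → ℝ) (ξ : V (N + 1)) : T f ξ = ‖ξ‖⁻¹ * R (fun v => f v ^ N) ξ := rfl

lemma T_unit (f : V (N + 1) → ℝ) {u : V (N + 1)} (hu : ‖u‖ = 1) :
    T f u = R (fun v => f v ^ N) u := by rw [T_eq, hu, inv_one, one_mul]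

lemma T_neg (f : V (N + 1) → ℝ) (u : V (N + 1)) : T f (-u) = T f u := by
  rw [T_eq, T_eq, norm_neg, R_neg]

lemma adm_T {C : ℝ} {f : V (N + 2) → ℝ} (H : BM C f) (h0 : ∀ x, 0 ≤ f x) : Adm (T f) := by
  have := adm_ext (H.pow (N + 1)).R (R_nonneg fun x => pow_nonneg (h0 x) _)
  simp only [R_nrm] at this
  exact this

lemma Adm.T {f : V (N + 2) → ℝ} (H : Adm f) : Adm (T f) := by
  obtain ⟨C, hC⟩ := H.bm
  exact adm_T hC H.nn

lemma BM.T {C : ℝ} {f : V (N + 2) → ℝ} (H : BM C f) : BM (C ^ (N + 1) * om (N + 1)) (T f) :=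
  ⟨by have := (H.pow (N + 1)).R.meas; unfold Ty.T; exact Measurable.mul (by fun_prop) this,
    fun u hu => by rw [T_unit f hu]; exact (H.pow (N + 1)).R.bdd u hu⟩

lemma T_congr {f h : V (N + 2) → ℝ} (H : ∀ x, ‖x‖ = 1 → f x = h x) : T f = T h := by
  funext ξ
  by_cases hξ : ξ = 0
  · simp [hξ, T]
  · rw [T_eq, T_eq, R_congr (fun x hx => by rw [H x hx]) hξ]

lemma T_mono {f h : V (N + 2) → ℝ} (H : Adm f) (H' : Adm h) (e : ∀ x, ‖x‖ = 1 → f x ≤ h x)
    (ξ : V (N + 2)) : T f ξ ≤ T h ξ := by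
  obtain ⟨C, hC⟩ := H.bm
  obtain ⟨C', hC'⟩ := H'.bm
  refine H.T.le H'.T (fun u hu => ?_) ξ
  rw [T_unit f hu, T_unit h hu]
  exact R_mono (hC.pow _) (hC'.pow _) (fun x hx => pow_le_pow_left₀ (H.nn x) (e x hx) _)
    (ne_zero_of_unit hu)

lemma T_smul (c : ℝ) (f : V (N + 1) → ℝ) (ξ : V (N + 1)) :
    T (fun x => c * f x) ξ = c ^ N * T f ξ := by
  simp only [T_eq, mul_pow, R_const_mul]; ring

lemma Nn_smul (c : ℝ) (f : V (N + 1) → ℝ) : Nn (fun x => c * f x) = c ^ (N + 1) * Nn f := by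
  simp only [Nn, mul_pow, integral_const_mul]

lemma Adm.Nn_nonneg {f : V (N + 1) → ℝ} (H : Adm f) : 0 ≤ Nn f :=
  integral_nonneg fun x => pow_nonneg (H.nn x) _

lemma Nn_mono {f h : V (N + 1) → ℝ} (H : Adm f) (H' : Adm h) (e : ∀ x, ‖x‖ = 1 → f x ≤ h x) :
    Nn f ≤ Nn h := by
  obtain ⟨C, hC⟩ := H.bm
  obtain ⟨C', hC'⟩ := H'.bm
  exact int_mu_mono (hC.pow _) (hC'.pow _) fun x hx => pow_le_pow_left₀ (H.nn x) (e x hx) _

lemma Nn_congr {f h : V (N + 1) → ℝ} (e : ∀ᵐ x ∂mu (N + 1), f x = h x) : Nn f = Nn h :=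
  integral_congr_ae (e.mono fun x hx => by simp only [hx])

lemma Adm.int_pow {f : V (N + 1) → ℝ} (H : Adm f) (k : ℕ) :
    Integrable (fun x => f x ^ k) (mu (N + 1)) := by
  obtain ⟨C, hC⟩ := H.bm
  exact (hC.pow k).int_mu

lemma Adm.ofReal_Nn {f : V (N + 1) → ℝ} (H : Adm f) :
    ENNReal.ofReal (Nn f) = Ne fun x => ENNReal.ofReal (f x) := by
  obtain ⟨C, hC⟩ := H.bm
  rw [Nn, ofReal_int_mu (hC.pow _) fun x => pow_nonneg (H.nn x) _]
  simp only [ENNReal.ofReal_pow (H.nn _), Ne]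

lemma Adm.ofReal_T {f : V (N + 2) → ℝ} (H : Adm f) {u : V (N + 2)} (hu : ‖u‖ = 1) :
    ENNReal.ofReal (Ty.T f u) = Te (fun x => ENNReal.ofReal (f x)) u := by
  obtain ⟨C, hC⟩ := H.bm
  rw [T_unit f hu, ofReal_R (hC.pow _) (fun x => pow_nonneg (H.nn x) _) (ne_zero_of_unit hu)]
  simp only [ENNReal.ofReal_pow (H.nn _), Te, Re]

lemma Adm.vol_star {f : V (N + 1) → ℝ} (H : Adm f) : volume (star f) = ENNReal.ofReal (Nn f) := by
  rw [H.star_eq, vol_starE H.meas.ennreal_ofReal, H.ofReal_Nn]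

lemma Adm.real_star {f : V (N + 1) → ℝ} (H : Adm f) : volume.real (star f) = Nn f := by
  rw [Measure.real, H.vol_star, ENNReal.toReal_ofReal H.Nn_nonneg]

lemma Adm.sec_star {f : V (N + 2) → ℝ} (H : Adm f) {ξ : V (N + 2)} (hξ : ξ ≠ 0) :
    sec ((star f).indicator 1) ξ = ENNReal.ofReal (Ty.T f ξ) := by
  rw [sec_nrm (measurable_one.indicator H.measurableSet_star) hξ, H.T.eq_nrm,
    ENNReal.ofReal_mul (by positivity), H.ofReal_T (norm_nrm hξ), H.star_eq,
    sec_starE H.meas.ennreal_ofReal (norm_nrm hξ)]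

lemma star_comp (f : V n → ℝ) (g : V n ≃L[ℝ] V n) : star (fun x => f (g x)) = g ⁻¹' star f := by
  ext x; simp [star]

lemma star_mono {f h : V n → ℝ} (e : ∀ x, f x ≤ h x) : star f ⊆ star h :=
  fun x hx => hx.imp_right fun h1 => h1.trans (e x)

lemma star_max (f h : V n → ℝ) : star (fun x => max (f x) (h x)) = star f ∪ star h := by
  ext x; simp only [star, mem_ofPred_eq, mem_union, le_max_iff]; tauto

lemma star_min (f h : V n → ℝ) : star (fun x => min (f x) (h x)) = star f ∩ star h := by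
  ext x; simp only [star, mem_ofPred_eq, mem_inter_iff, le_min_iff]; tauto

lemma Nn_comp {f : V (N + 1) → ℝ} (H : Adm f) (g : V (N + 1) ≃L[ℝ] V (N + 1)) :
    Nn (fun x => f (g x)) = (jac g)⁻¹ * Nn f := by
  have h0 := inv_pos.2 (jac_pos g)
  refine (ENNReal.ofReal_eq_ofReal_iff (H.comp g).Nn_nonneg (mul_nonneg h0.le H.Nn_nonneg)).1 ?_
  rw [← (H.comp g).vol_star, star_comp, vol_preimage, H.vol_star, ENNReal.ofReal_mul h0.le]

lemma T_comp {f : V (N + 2) → ℝ} (H : Adm f) (g : V (N + 2) ≃L[ℝ] V (N + 2)) (ξ : V (N + 2)) :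
    T (fun x => f (g x)) ξ = (jac g)⁻¹ * T f (dual g ξ) := by
  by_cases hξ : ξ = 0
  · simp [hξ, T]
  have h0 := inv_pos.2 (jac_pos g)
  refine (ENNReal.ofReal_eq_ofReal_iff ((H.comp g).T.nn _) (mul_nonneg h0.le (H.T.nn _))).1 ?_
  rw [← (H.comp g).sec_star hξ, star_comp, ENNReal.ofReal_mul h0.le,
    ← H.sec_star (by simpa using hξ),
    ← sec_comp g (measurable_one.indicator H.measurableSet_star) hξ]
  rfl

lemma TT_comp {f : V (N + 2) → ℝ} (H : Adm f) {g : V (N + 2) ≃L[ℝ] V (N + 2)} (hg : jac g = 1)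
    (x : V (N + 2)) : T (T fun x => f (g x)) x = T (T f) (g x) := by
  have : (T fun x => f (g x)) = fun x => T f (dual g x) := by
    funext x; rw [T_comp H, hg, inv_one, one_mul]
  rw [this, T_comp H.T, jac_dual, hg, dual_dual]; simp

lemma T_iso {f : V (N + 2) → ℝ} (H : Adm f) (g : V (N + 2) ≃ₗᵢ[ℝ] V (N + 2)) (ξ : V (N + 2)) :
    T (fun x => f (g x)) ξ = T f (g ξ) := by
  have := T_comp H g.toContinuousLinearEquiv ξ
  rw [jac_iso, dual_iso, inv_one, one_mul] at this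
  exact this

lemma dN_eq (f h : V (N + 1) → ℝ) : dN f h = Nn fun x => |f x - h x| := rfl

lemma dN_comp {f h : V (N + 1) → ℝ} (H : Adm f) (H' : Adm h) (g : V (N + 1) ≃L[ℝ] V (N + 1)) :
    dN (fun x => f (g x)) (fun x => h (g x)) = (jac g)⁻¹ * dN f h :=
  Nn_comp (H.absSub H') g

lemma dV_eq {f h : V (N + 1) → ℝ} (H : Adm f) (H' : Adm h) :
    dV f h = Nn (fun x => max (f x) (h x)) - Nn fun x => min (f x) (h x) := by
  rw [Nn, Nn, ← integral_sub ((H.max H').int_pow _) ((H.min H').int_pow _)]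
  refine integral_congr_ae (Eventually.of_forall fun x => ?_)
  rcases le_total (f x) (h x) with e | e
  · simp only [max_eq_right e, min_eq_left e]
    rw [abs_sub_comm, abs_of_nonneg (sub_nonneg.2 (pow_le_pow_left₀ (H.nn x) e _))]
  · simp only [max_eq_left e, min_eq_right e]
    rw [abs_of_nonneg (sub_nonneg.2 (pow_le_pow_left₀ (H'.nn x) e _))]

lemma dV_nonneg (f h : V (N + 1) → ℝ) : 0 ≤ dV f h := integral_nonneg fun _ => abs_nonneg _
lemma dN_nonneg (f h : V (N + 1) → ℝ) : 0 ≤ dN f h :=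
  integral_nonneg fun _ => pow_nonneg (abs_nonneg _) _

lemma dV_comp {f h : V (N + 1) → ℝ} (H : Adm f) (H' : Adm h) (g : V (N + 1) ≃L[ℝ] V (N + 1)) :
    dV (fun x => f (g x)) (fun x => h (g x)) = (jac g)⁻¹ * dV f h := by
  rw [dV_eq (H.comp g) (H'.comp g), dV_eq H H', mul_sub, ← Nn_comp (H.max H'),
    ← Nn_comp (H.min H')]

lemma vol_symmDiff {f h : V (N + 1) → ℝ} (H : Adm f) (H' : Adm h) :
    volume (star f ∆ star h) = ENNReal.ofReal (dV f h) := by
  rw [show star f ∆ star h = (star f ∪ star h) \ (star f ∩ star h) from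
    symmDiff_eq_sup_sdiff_inf _ _, ← star_max, ← star_min,
    measure_sdiff (star_mono fun x => min_le_max) (H.min H').measurableSet_star.nullMeasurableSet
      (by rw [(H.min H').vol_star]; exact ENNReal.ofReal_ne_top), (H.max H').vol_star,
    (H.min H').vol_star, dV_eq H H', ENNReal.ofReal_sub _ (H.min H').Nn_nonneg]

/-! ellipsoids -/

lemma rho_pos (g : V n ≃L[ℝ] V n) {x : V n} (hx : x ≠ 0) : 0 < rho g x :=
  inv_pos.2 (norm_pos_iff.2 (by simpa using hx))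

lemma continuousOn_rho (g : V n ≃L[ℝ] V n) : ContinuousOn (rho g) {0}ᶜ :=
  (g.symm.continuous.norm.continuousOn).inv₀ fun x hx => norm_ne_zero_iff.2 (by simpa using hx)

lemma star_rho (g : V n ≃L[ℝ] V n) : star (rho g) = ell g := by
  ext x
  rw [ell, ContinuousLinearEquiv.image_eq_preimage_symm, mem_preimage, mem_closedBall_zero_iff]
  simp only [star, rho, mem_ofPred_eq]
  by_cases hx : x = 0
  · simp [hx]
  · rw [one_le_inv₀ (norm_pos_iff.2 (by simpa using hx))]; simp [hx]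

lemma rho_comp (g h : V n ≃L[ℝ] V n) (x : V n) : rho g (h x) = rho (g.trans h.symm) x := rfl

lemma rho_hom {t : ℝ} (ht : 0 < t) (g : V n ≃L[ℝ] V n) (x : V n) :
    rho (g.trans (hom n t ht.ne')) x = t * rho g x := by
  show rho g (t⁻¹ • x) = _
  rw [(adm_rho g).hom _ (inv_pos.2 ht), inv_inv]

lemma Nn_inv_norm : Nn (fun x : V (N + 1) => ‖x‖⁻¹) = om (N + 1) := by
  rw [Nn, int_mu_congr (h' := fun _ => 1) fun x hx => by simp [hx], integral_const, mu_real_univ]
  simp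

lemma T_inv_norm (ξ : V (N + 2)) : T (fun x : V (N + 2) => ‖x‖⁻¹) ξ = om (N + 1) * ‖ξ‖⁻¹ := by
  by_cases hξ : ξ = 0
  · simp [hξ, T]
  · rw [T_eq, R_congr (h' := fun _ => 1) (fun x hx => by simp [hx]) hξ, R_const 1 hξ]; ring

lemma Nn_rho (g : V (N + 1) ≃L[ℝ] V (N + 1)) : Nn (rho g) = jac g * om (N + 1) := by
  have := Nn_comp adm_inv_norm g.symm
  rwa [jac_symm, inv_inv, Nn_inv_norm] at this

lemma T_rho (g : V (N + 2) ≃L[ℝ] V (N + 2)) (ξ : V (N + 2)) :
    T (rho g) ξ = jac g * om (N + 1) * rho (dual g) ξ := by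
  have := T_comp adm_inv_norm g.symm ξ
  rw [jac_symm, inv_inv, T_inv_norm, dual_symm, ← mul_assoc] at this
  exact this

lemma TT_rho (g : V (q + 3) ≃L[ℝ] V (q + 3)) (x : V (q + 3)) :
    T (T (rho g)) x = jac g ^ (q + 1) * om (q + 2) ^ (q + 3) * rho g x := by
  rw [show T (rho g) = fun ξ => jac g * om (q + 2) * rho (dual g) ξ from funext (T_rho g), T_smul,
    T_rho, jac_dual, dual_dual]
  have := (jac_pos g).ne'
  field_simp
  ring

lemma Phi_rho (g : V (q + 3) ≃L[ℝ] V (q + 3)) : Phi (rho g) = PhiB (q + 2) := by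
  rw [Phi, show T (rho g) = fun ξ => jac g * om (q + 2) * rho (dual g) ξ from funext (T_rho g),
    Nn_smul, Nn_rho, Nn_rho, jac_dual, PhiB, show q + 2 - 1 = q + 1 from rfl]
  have := (jac_pos g).ne'
  have := (om_pos (q + 2 + 1)).ne'
  field_simp
  ring

lemma PhiB_pos (N : ℕ) : 0 < PhiB N := by
  have := om_pos N; have := om_pos (N + 1); unfold PhiB; positivity

lemma le_mx {k : ℕ} (g : Fin k → V n ≃L[ℝ] V n) (i : Fin k) (x : V n) : rho (g i) x ≤ mx g x :=
  le_ciSup (f := fun i => rho (g i) x) (Finite.bddAbove_range _) i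

lemma mx_nonneg {k : ℕ} (g : Fin k → V n ≃L[ℝ] V n) (x : V n) : 0 ≤ mx g x :=
  Real.iSup_nonneg fun i => (adm_rho (g i)).nn x

lemma mx_le {k : ℕ} (g : Fin k → V n ≃L[ℝ] V n) {x : V n} {c : ℝ} (hc : 0 ≤ c)
    (h : ∀ i, rho (g i) x ≤ c) : mx g x ≤ c := Real.iSup_le h hc

lemma mx_zero (g : Fin 0 → V n ≃L[ℝ] V n) (x : V n) : mx g x = 0 := by simp [mx]

lemma mx_cons {k : ℕ} (h : V n ≃L[ℝ] V n) (g : Fin k → V n ≃L[ℝ] V n) (x : V n) :
    mx (Fin.cons h g : Fin (k + 1) → V n ≃L[ℝ] V n) x = max (mx g x) (rho h x) := by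
  refine le_antisymm (mx_le _ (le_max_of_le_left (mx_nonneg g x)) fun i => ?_)
    (max_le (mx_le _ (mx_nonneg _ _) fun i => ?_) ?_)
  · exact Fin.cases (le_max_right _ _) (fun j => le_max_of_le_left (le_mx g j x)) i
  · exact le_mx (Fin.cons h g : Fin (k + 1) → V n ≃L[ℝ] V n) i.succ x
  · exact le_mx (Fin.cons h g : Fin (k + 1) → V n ≃L[ℝ] V n) 0 x

lemma adm_mx {k : ℕ} (g : Fin k → V n ≃L[ℝ] V n) : Adm (mx g) := by
  induction k with
  | zero => rw [show mx g = fun _ => 0 from funext (mx_zero g)]; exact adm_zero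
  | succ k ih =>
    rw [← Fin.cons_self_tail g, show mx (Fin.cons (g 0) (Fin.tail g)) = _ from funext (mx_cons _ _)]
    exact (ih _).max (adm_rho _)

lemma exists_mx {k : ℕ} (hk : 0 < k) (g : Fin k → V n ≃L[ℝ] V n) (x : V n) :
    ∃ i, mx g x = rho (g i) x := by
  have : Nonempty (Fin k) := ⟨⟨0, hk⟩⟩
  obtain ⟨i, hi⟩ := exists_eq_ciSup_of_finite (f := fun i => rho (g i) x)
  exact ⟨i, hi.symm⟩

lemma star_mx {k : ℕ} (hk : 0 < k) (g : Fin k → V n ≃L[ℝ] V n) : star (mx g) = ⋃ i, ell (g i) := by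
  ext x
  simp only [mem_iUnion, ← star_rho]
  constructor
  · rintro (h | h)
    · exact ⟨⟨0, hk⟩, Or.inl h⟩
    · obtain ⟨i, hi⟩ := exists_mx hk g x
      exact ⟨i, Or.inr (hi ▸ h)⟩
  · rintro ⟨i, hi⟩
    exact star_mono (le_mx g i) hi

lemma mx_comp {k : ℕ} (g : Fin k → V n ≃L[ℝ] V n) (h : V n ≃L[ℝ] V n) (x : V n) :
    mx g (h x) = mx (fun i => (g i).trans h.symm) x := rfl

end Pool.Agent.Lib.MP_242fd5_gt.Ty
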