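import Pool.Agent.Lib.MP_242fd5_gt.Ty.A6Adm

set_option autoImplicit false

open MeasureTheory ProbabilityTheory Set Metric Filter Topology
open scoped ENNReal RealInnerProductSpace

namespace Pool.Agent.Lib.MP_242fd5_gt.Ty

variable {n N q d : ℕ}

section Pi
variable {α : Type} [MeasurableSpace α] (m : Measure α) [SigmaFinite m]

lemma measurable_insertNth (j : Fin (d + 1)) :
    Measurable fun p : α × (Fin d → α) => (Fin.insertNth j p.1 p.2 : Fin (d + 1) → α) :=
  (MeasurableEquiv.piFinSuccAbove (fun _ => α) j).symm.measurable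

lemma lint_insert' (j : Fin (d + 1)) {F : (Fin (d + 1) → α) → ℝ≥0∞} (hF : Measurable F) :
    ∫⁻ Y, F Y ∂Measure.pi (fun _ => m) =
      ∫⁻ y, ∫⁻ b, F (Fin.insertNth j y b) ∂Measure.pi (fun _ => m) ∂m := by
  rw [← ((measurePreserving_piFinSuccAbove (fun _ : Fin (d + 1) => m) j).symm _).lintegral_comp hF]
  exact lintegral_prod _ (hF.comp (measurable_insertNth j)).aemeasurable

lemma lint_insert (j : Fin (d + 1)) {F : (Fin (d + 1) → α) → ℝ≥0∞} (hF : Measurable F) :
    ∫⁻ Y, F Y ∂Measure.pi (fun _ => m) =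
      ∫⁻ b, ∫⁻ y, F (Fin.insertNth j y b) ∂m ∂Measure.pi (fun _ => m) := by
  rw [lint_insert' m j hF, lintegral_lintegral_swap (f := fun y b => F (Fin.insertNth j y b))
    (hF.comp (measurable_insertNth j)).aemeasurable]

lemma lint_prod : ∀ (d : ℕ) (f : Fin d → α → ℝ≥0∞), (∀ i, Measurable (f i)) →
    ∫⁻ Y, ∏ i, f i (Y i) ∂Measure.pi (fun _ : Fin d => m) = ∏ i, ∫⁻ y, f i y ∂m
  | 0, f, _ => by simp
  | d + 1, f, hf => by
    rw [lint_insert' m 0 (by fun_prop), Fin.prod_univ_succ, ← lintegral_mul_const _ (hf 0),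
      ← lint_prod d (fun i => f i.succ) fun i => hf _]
    refine lintegral_congr fun y => ?_
    rw [← lintegral_const_mul _ (by fun_prop)]
    refine lintegral_congr fun b => ?_
    rw [Fin.prod_univ_succ, Fin.insertNth_zero']
    rfl

lemma lint_pi_restrict {K : Set α} (hK : MeasurableSet K) {F : (Fin d → α) → ℝ≥0∞} :
    ∫⁻ Y, F Y ∂Measure.pi (fun _ => m.restrict K) =
      ∫⁻ Y, (∏ i, K.indicator 1 (Y i)) * F Y ∂Measure.pi (fun _ => m) := by
  rw [← Measure.restrict_pi_pi, ← lintegral_indicator (MeasurableSet.univ_pi fun _ => hK)]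
  refine lintegral_congr fun Y => ?_
  by_cases h : Y ∈ univ.pi fun _ : Fin d => K
  · rw [indicator_of_mem h, Finset.prod_eq_one fun i _ => indicator_of_mem (h i trivial) _, one_mul]
  · rw [indicator_of_notMem h]
    obtain ⟨i, hi⟩ : ∃ i, Y i ∉ K := by simpa using h
    rw [Finset.prod_eq_zero (Finset.mem_univ i) (indicator_of_notMem hi _), zero_mul]

end Pi

lemma lin_apply (b : Fin n → V n) (t : V n) : lin b t = ∑ i, t i • b i := by
  simp [lin, Fintype.linearCombination_apply]

lemma det_lin (b : Fin n → V n) :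
    LinearMap.det (lin b) = Matrix.det (Matrix.of fun i j => b j i) := by
  rw [← LinearMap.det_toMatrix (EuclideanSpace.basisFun (Fin n) ℝ).toBasis]
  congr 1
  ext i j
  simp [LinearMap.toMatrix_apply, lin_apply]

noncomputable def dt (b : Fin n → V n) : ℝ := |LinearMap.det (lin b)|

lemma dt_nonneg (b : Fin n → V n) : 0 ≤ dt b := abs_nonneg _

@[fun_prop] lemma continuous_dt : Continuous (dt : (Fin n → V n) → ℝ) := by
  unfold dt
  simp only [det_lin]
  exact (Continuous.matrix_det (continuous_matrix fun i j => by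
    simp only [Matrix.of_apply]; fun_prop)).abs

@[fun_prop] lemma measurable_dt : Measurable (dt : (Fin n → V n) → ℝ) := continuous_dt.measurable

lemma isClosed_cube : IsClosed (cube n) := by
  simp only [cube, ofPred_forall]
  exact isClosed_iInter fun i => isClosed_le (by fun_prop) continuous_const

lemma cube_subset : cube n ⊆ closedBall 0 (n + 1) := fun t ht => by
  rw [mem_closedBall_zero_iff]
  have h1 : ‖t‖ ^ 2 ≤ n := by
    rw [EuclideanSpace.real_norm_sq_eq]
    calc ∑ i, t i ^ 2 ≤ ∑ _i : Fin n, (1:ℝ) :=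
          Finset.sum_le_sum fun i _ => (sq_le_one_iff_abs_le_one _).2 (ht i)
      _ = n := by simp
  have : (0:ℝ) ≤ n := Nat.cast_nonneg n
  nlinarith [norm_nonneg t]

lemma isCompact_cube : IsCompact (cube n) :=
  (isCompact_closedBall _ _).of_isClosed_subset isClosed_cube cube_subset

lemma vol_box (r : Fin n → ℝ) :
    volume {t : V n | ∀ i, |t i| ≤ r i} = ∏ i, ENNReal.ofReal (2 * r i) := by
  have : {t : V n | ∀ i, |t i| ≤ r i} = WithLp.ofLp ⁻¹' (univ.pi fun i => Icc (-r i) (r i)) := by
    ext t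
    simp only [abs_le, mem_ofPred_eq, mem_preimage, Set.mem_pi, mem_univ, mem_Icc, true_imp_iff]
  rw [this, (PiLp.volume_preserving_ofLp (Fin n)).measure_preimage
    (MeasurableSet.univ_pi fun _ => measurableSet_Icc).nullMeasurableSet, volume_pi_pi]
  simp only [Real.volume_Icc]
  congr 1
  ext i
  congr 1
  ring

lemma vol_cube (n : ℕ) : volume (cube n) = 2 ^ n := by
  have := vol_box (n := n) fun _ => 1
  simpa [cube] using this

def box (b : Fin n → V n) : Set (V n) := lin b '' cube n

lemma isClosed_box₂ : IsClosed {p : (Fin n → V n) × V n | p.2 ∈ box p.1} := by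
  have : CompactSpace (cube n) := isCompact_iff_compactSpace.1 isCompact_cube
  have h1 : IsClosed {z : ((Fin n → V n) × V n) × cube n | ∑ i, z.2.1 i • z.1.1 i = z.1.2} :=
    isClosed_eq (by fun_prop) (by fun_prop)
  convert isClosedMap_fst_of_compactSpace _ h1 using 1
  ext p
  simp [box, lin_apply]

lemma measurableSet_box (b : Fin n → V n) : MeasurableSet (box b) :=
  (isCompact_cube.image (lin b).continuous_of_finiteDimensional).measurableSet

lemma vol_box' (b : Fin n → V n) : volume (box b) = ENNReal.ofReal (dt b) * 2 ^ n := by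
  rw [box, Measure.addHaar_image_linearMap, vol_cube, dt]

lemma cover (Y : Fin (n + 1) → V n) : ∃ j, Y j ∈ box fun i => Y (j.succAbove i) := by
  have h : ¬LinearIndependent ℝ Y := fun h => by simpa using h.fintype_card_le_finrank
  obtain ⟨g, hg, i0, hi0⟩ := Fintype.not_linearIndependent_iff.1 h
  obtain ⟨j, hj⟩ := Finite.exists_max fun i => |g i|
  have h0 : 0 < |g j| := (abs_pos.2 hi0).trans_le (hj i0)
  have h1 : g j ≠ 0 := abs_pos.1 h0
  refine ⟨j, WithLp.toLp 2 fun i => -(g (j.succAbove i) / g j), fun i => ?_, ?_⟩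
  · simp only [abs_neg, abs_div]
    exact (div_le_one h0).2 (hj _)
  · rw [Fin.sum_univ_succAbove _ j] at hg
    rw [lin_apply]
    refine smul_right_injective _ h1 ?_
    simp only [Finset.smul_sum, smul_smul]
    rw [eq_neg_of_add_eq_zero_left hg, ← Finset.sum_neg_distrib]
    refine Finset.sum_congr rfl fun i _ => ?_
    rw [← neg_smul]
    congr 1
    field_simp

/-- covering by boxes, integrated -/
lemma lint_cover (m : Measure (V n)) [SigmaFinite m] {F : (Fin (n + 1) → V n) → ℝ≥0∞}
    (hF : Measurable F) : ∫⁻ Y, F Y ∂Measure.pi (fun _ => m) ≤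
      ∑ j : Fin (n + 1), ∫⁻ b, ∫⁻ y in box b, F (Fin.insertNth j y b) ∂m
        ∂Measure.pi (fun _ => m) := by
  have hC : ∀ j : Fin (n + 1),
      MeasurableSet {Y : Fin (n + 1) → V n | Y j ∈ box fun i => Y (j.succAbove i)} := fun j =>
    isClosed_box₂.measurableSet.preimage
      (f := fun Y : Fin (n + 1) → V n => (fun i => Y (j.succAbove i), Y j)) (by fun_prop)
  calc _ ≤ ∫⁻ Y, ∑ j : Fin (n + 1),
        {Y : Fin (n + 1) → V n | Y j ∈ box fun i => Y (j.succAbove i)}.indicator F Y
          ∂Measure.pi (fun _ => m) := by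
        refine lintegral_mono fun Y => ?_
        obtain ⟨j, hj⟩ := cover Y
        refine le_trans ?_ (Finset.single_le_sum (fun _ _ => zero_le) (Finset.mem_univ j))
        rw [indicator_of_mem (by exact hj)]
    _ = _ := by
        rw [lintegral_finsetSum _ fun j _ => hF.indicator (hC j)]
        refine Finset.sum_congr rfl fun j _ => ?_
        rw [lint_insert m j (hF.indicator (hC j))]
        refine lintegral_congr fun b => ?_
        rw [← lintegral_indicator (measurableSet_box b)]
        refine lintegral_congr fun y => ?_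
        by_cases hy : y ∈ box b
        · rw [indicator_of_mem hy, indicator_of_mem (by simpa using hy)]
        · rw [indicator_of_notMem hy, indicator_of_notMem (by simpa using hy)]

lemma lint_box (b : Fin n → V n) {G : V n → ℝ≥0∞} (hG : Measurable G) :
    ∫⁻ y in box b, G y = ENNReal.ofReal (dt b) * ∫⁻ t in cube n, G (lin b t) := by
  by_cases h : LinearMap.det (lin b) = 0
  · have h0 : dt b = 0 := by rw [dt, h, abs_zero]
    rw [setLIntegral_measure_zero _ _ (by rw [vol_box', h0]; simp), h0]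
    simp
  have h1 : 0 < dt b := abs_pos.2 h
  have hinj : Function.Injective (lin b) := ((lin b).equivOfDetNeZero h).injective
  have := lint_lin (lin b) h (hG.indicator (measurableSet_box b))
  rw [← lintegral_indicator (measurableSet_box b),
    ← lintegral_indicator isClosed_cube.measurableSet,
    lintegral_congr (f := (cube n).indicator fun t => G (lin b t))
      (g := fun t => (box b).indicator G (lin b t)), this, ← mul_assoc, ← dt,
    ← ENNReal.ofReal_mul h1.le, mul_inv_cancel₀ h1.ne']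
  · simp
  · intro t
    by_cases ht : t ∈ cube n
    · rw [indicator_of_mem ht, indicator_of_mem (show lin b t ∈ box b from mem_image_of_mem _ ht)]
    · rw [indicator_of_notMem ht, indicator_of_notMem
        (show lin b t ∉ box b from fun h => ht (hinj.mem_set_image.1 h))]

lemma dt_mul_lint_le (f : V n →ₗ[ℝ] V n) {G : V n → ℝ≥0∞} (hG : Measurable G) :
    ENNReal.ofReal |LinearMap.det f| * ∫⁻ a, G (f a) ≤ ∫⁻ s, G s := by
  by_cases h : LinearMap.det f = 0
  · simp [h]
  rw [lint_lin f h hG, ← mul_assoc, ← ENNReal.ofReal_mul (abs_nonneg _),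
    mul_inv_cancel₀ (abs_ne_zero.2 h)]
  simp

lemma adj_lin (b : Fin n → V n) (a : V n) (i : Fin n) :
    LinearMap.adjoint (lin b) a i = ⟪a, b i⟫ := by
  have := LinearMap.adjoint_inner_left (lin b) (EuclideanSpace.single i (1:ℝ)) a
  rw [EuclideanSpace.inner_single_right] at this
  simpa [lin_apply, Pi.single_apply] using this

lemma mp_tuple : MeasurePreserving fun x : Fin d → V (N + 1) =>
    ((WithLp.toLp 2 fun i => x i 0, fun i => tl (x i)) : V d × (Fin d → V N)) := by
  have h1 := volume_preserving_pi (fun _ : Fin d => mp_split (N := N))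
  have h2 := volume_measurePreserving_arrowProdEquivProdArrow ℝ (V N) (Fin d)
  have h3 := (PiLp.volume_preserving_toLp (Fin d)).prod
    (MeasurePreserving.id (volume : Measure (Fin d → V N)))
  exact (h3.comp h2).comp h1

lemma pt_sum (t : V N) (s : Fin N → ℝ) (b : Fin N → V N) :
    pt (∑ i, t i * s i) (∑ i, t i • b i) = ∑ i, t i • pt (s i) (b i) := by
  ext j
  refine Fin.cases ?_ (fun j => ?_) j <;> simp

/-- the basic count -/
noncomputable def Om (K : Set (V (N + 1))) : ℝ≥0∞ :=
  ∫⁻ x : Fin N → V (N + 1), (∫⁻ t in cube N, K.indicator 1 (∑ i, t i • x i))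
    ∂Measure.pi fun _ => volume.restrict K

theorem chart_le_Om {K : Set (V (N + 1))} (hK : MeasurableSet K) :
    ∫⁻ a : V N, (∫⁻ y : V N, K.indicator 1 (pt ⟪a, y⟫ y)) ^ (N + 1) ≤ (N + 1) * Om K := by
  obtain ⟨I, hI⟩ : ∃ I : V (N + 1) → ℝ≥0∞, I = K.indicator 1 := ⟨_, rfl⟩
  have hm : Measurable I := hI ▸ measurable_one.indicator hK
  obtain ⟨Ψ, hΨ⟩ : ∃ Ψ : (Fin N → V (N + 1)) → ℝ≥0∞,
    Ψ = fun x => (∏ i, I (x i)) * ∫⁻ t in cube N, I (∑ i, t i • x i) := ⟨_, rfl⟩
  have hΨm : Measurable Ψ := by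
    rw [hΨ]
    exact Measurable.mul (by fun_prop) (Measurable.lintegral_prod_right
      (f := fun (x : Fin N → V (N + 1)) (t : V N) => I (∑ i, t i • x i))
      (by unfold Function.uncurry; fun_prop))
  rw [Om, lint_pi_restrict _ hK, ← hI, ← hΨ]
  calc _ ≤ ∫⁻ a : V N, (N + 1) * ∫⁻ b : Fin N → V N,
        ENNReal.ofReal (dt b) * Ψ fun i => pt ⟪a, b i⟫ (b i) := by
        refine lintegral_mono fun a => ?_
        have h1 := lint_prod (volume : Measure (V N)) (N + 1) (fun _ y => I (pt ⟪a, y⟫ y))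
          (fun _ => by fun_prop)
        rw [Finset.prod_const, Finset.card_univ, Fintype.card_fin] at h1
        simp only
        rw [← h1]
        refine (lint_cover volume (by fun_prop)).trans (le_of_eq ?_)
        rw [Finset.sum_eq_card_nsmul (b := ∫⁻ b : Fin N → V N,
          ENNReal.ofReal (dt b) * Ψ fun i => pt ⟪a, b i⟫ (b i)) fun j _ => ?_]
        · simp
        refine lintegral_congr fun b => ?_
        simp only [Fin.prod_univ_succAbove _ j, Fin.insertNth_apply_same,
          Fin.insertNth_apply_succAbove]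
        rw [lintegral_mul_const _ (by fun_prop), lint_box b (by fun_prop), hΨ, mul_assoc]
        simp only [lin_apply, inner_sum, inner_smul_right, pt_sum]
        rw [mul_comm (∫⁻ t in cube N, _)]
    _ = (N + 1) * ∫⁻ b : Fin N → V N, ENNReal.ofReal (dt b) *
        ∫⁻ a : V N, Ψ fun i => pt ⟪a, b i⟫ (b i) := by
        rw [lintegral_const_mul' _ _ (by simp), lintegral_lintegral_swap
          (Measurable.aemeasurable (by unfold Function.uncurry; fun_prop))]
        simp only [lintegral_const_mul' _ _ ENNReal.ofReal_ne_top]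
    _ ≤ (N + 1) * ∫⁻ b : Fin N → V N, ∫⁻ s : V N, Ψ fun i => pt (s i) (b i) := by
        gcongr with b
        have := dt_mul_lint_le (LinearMap.adjoint (lin b))
          (G := fun s : V N => Ψ fun i => pt (s i) (b i)) (by fun_prop)
        simpa only [adj_lin, det_adj, dt] using this
    _ = _ := by
        congr 1
        have hm2 : Measurable fun p : V N × (Fin N → V N) => Ψ fun i => pt (p.1 i) (p.2 i) := by
          fun_prop
        rw [← lintegral_prod_symm _ hm2.aemeasurable, ← Measure.volume_eq_prod,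
          ← mp_tuple.lintegral_comp hm2]
        simp
        rfl

lemma Om_le (K : Set (V (N + 1))) : Om K ≤ 2 ^ N * volume K ^ N := by
  calc Om K ≤ ∫⁻ _x : Fin N → V (N + 1), (2:ℝ≥0∞) ^ N ∂Measure.pi fun _ => volume.restrict K := by
        refine lintegral_mono fun x => ?_
        calc _ ≤ ∫⁻ _t in cube N, 1 := lintegral_mono fun t => indicator_le_self K 1 _
          _ = 2 ^ N := by simp [vol_cube]
    _ = _ := by simp [Measure.pi_univ]

/-- sections of a set in terms of the count -/
theorem sec_le_Om (N : ℕ) : ∃ c : ℝ, 0 < c ∧ ∀ K : Set (V (N + 1)), MeasurableSet K →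
    ∫⁻ u, sec (K.indicator 1) u ^ (N + 1) ∂mu (N + 1) ≤ ENNReal.ofReal c * Om K := by
  obtain ⟨c, c0, c1, h⟩ := chartG N
  have h2 : c * (N + 1) ≠ ∞ := ENNReal.mul_ne_top c1 (by simp)
  refine ⟨(c * (N + 1)).toReal, ENNReal.toReal_pos (mul_ne_zero c0 (by simp)) h2, fun K hK => ?_⟩
  rw [h _ (measurable_one.indicator hK), ENNReal.ofReal_toReal h2, mul_assoc]
  exact mul_le_mul_right (chart_le_Om hK) _

/-- rough Busemann inequality -/
theorem busE (N : ℕ) : ∃ C : ℝ, 0 < C ∧ ∀ a : V (N + 2) → ℝ≥0∞, Measurable a →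
    Ne (Te a) ≤ ENNReal.ofReal C * Ne a ^ (N + 1) := by
  obtain ⟨c, c0, h⟩ := sec_le_Om (N + 1)
  refine ⟨c * 2 ^ (N + 1), by positivity, fun a ha => ?_⟩
  calc Ne (Te a) = ∫⁻ u, sec ((starE a).indicator 1) u ^ (N + 1 + 1) ∂mu (N + 1 + 1) :=
        lintegral_congr_ae (mu_sphere.mono fun u hu => by simp only [sec_starE ha hu])
    _ ≤ _ := h _ (measurableSet_starE ha)
    _ ≤ _ := by
        rw [← vol_starE ha, ENNReal.ofReal_mul c0.le, mul_assoc, ENNReal.ofReal_pow two_pos.le,
          ENNReal.ofReal_ofNat]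
        exact mul_le_mul_right (Om_le _) _

lemma Adm.ofReal_Nn_T {f : V (N + 2) → ℝ} (H : Adm f) :
    ENNReal.ofReal (Nn (Ty.T f)) = Ne (Te fun x => ENNReal.ofReal (f x)) := by
  rw [H.T.ofReal_Nn]
  exact lintegral_congr_ae (mu_sphere.mono fun u hu => by simp only [H.ofReal_T hu])

theorem bus (N : ℕ) : ∃ C : ℝ, 0 < C ∧ ∀ f : V (N + 2) → ℝ, Adm f →
    Nn (T f) ≤ C * Nn f ^ (N + 1) := by
  obtain ⟨C, C0, h⟩ := busE N
  refine ⟨C, C0, fun f H => ?_⟩
  have := h _ H.meas.ennreal_ofReal
  rwa [← H.ofReal_Nn_T, ← H.ofReal_Nn, ← ENNReal.ofReal_pow H.Nn_nonneg, ← ENNReal.ofReal_mul C0.le,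
    ENNReal.ofReal_le_ofReal_iff (mul_nonneg C0.le (pow_nonneg H.Nn_nonneg _))] at this

end Pool.Agent.Lib.MP_242fd5_gt.Ty
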