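import Pool.Agent.Lib.MP_242fd5_gt.Ty.B1Box

set_option autoImplicit false

open MeasureTheory ProbabilityTheory Set Metric Filter Topology
open scoped ENNReal NNReal RealInnerProductSpace

namespace Pool.Agent.Lib.MP_242fd5_gt.Ty

variable {n N q d : ℕ}

lemma lower_of {c ε : ℝ≥0∞} (hc : c ≠ ∞) (hε : ε ≠ 0) (k : ℝ≥0 → ℝ≥0∞)
    (hk : ∀ η, 0 < η → k η ≠ ∞) : ∃ ε' : ℝ≥0∞, ε' ≠ 0 ∧ ∀ a u : ℝ≥0∞,
      (∀ η : ℝ≥0, 0 < η → a ≤ η * c + k η * u) → ε ≤ a → ε' ≤ u := by
  obtain ⟨η, h0, h1⟩ := ENNReal.exists_nnreal_pos_mul_lt hc hε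
  obtain ⟨r, r0, r1⟩ := ENNReal.lt_iff_exists_add_pos_lt.1 h1
  obtain ⟨e, e0, e1⟩ := ENNReal.exists_nnreal_pos_mul_lt (hk η h0) (ENNReal.coe_pos.2 r0).ne'
  refine ⟨e, (ENNReal.coe_pos.2 e0).ne', fun a u h h2 => ?_⟩
  by_contra h3
  refine absurd (h2.trans (h η h0)) (not_le.2 (lt_of_le_of_lt ?_ r1))
  gcongr
  exact (mul_le_mul_right (not_le.1 h3).le _).trans (mul_comm (k η) _ ▸ e1.le)

lemma le_eta (u : ℝ≥0∞) {η : ℝ≥0} (h : 0 < η) : u ≤ η + (η : ℝ≥0∞)⁻¹ * (u * u) := by
  rcases le_total u η with h1 | h1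
  · exact h1.trans le_self_add
  · refine le_trans ?_ le_add_self
    calc u = (η : ℝ≥0∞)⁻¹ * (η * u) := by
          rw [← mul_assoc, ENNReal.inv_mul_cancel (ENNReal.coe_pos.2 h).ne' ENNReal.coe_ne_top,
            one_mul]
      _ ≤ _ := by gcongr

/-- the step measure -/
noncomputable def nu (r : ℝ) (K : Set (V n)) : Measure (ℝ × V n) :=
  (volume.restrict (Icc (-r) r)).prod (volume.restrict K)

instance (r : ℝ) (K : Set (V n)) : SigmaFinite (nu r K) := by unfold nu; infer_instance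

lemma nu_univ (r : ℝ) (K : Set (V n)) : nu r K univ = ENNReal.ofReal (2 * r) * volume K := by
  rw [nu, ← univ_prod_univ, Measure.prod_prod]
  simp [two_mul]

lemma lint_pairs (r : ℝ) (K : Set (V n)) {F : (Fin d → ℝ × V n) → ℝ≥0∞} (hF : Measurable F) :
    ∫⁻ w, F w ∂Measure.pi (fun _ => nu r K) = ∫⁻ x : Fin d → V n, ∫⁻ s : Fin d → ℝ,
      F (fun i => (s i, x i)) ∂(Measure.pi fun _ => volume.restrict (Icc (-r) r))
      ∂Measure.pi fun _ => volume.restrict K := by
  have h := (measurePreserving_arrowProdEquivProdArrow ℝ (V n) (Fin d)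
    (fun _ => volume.restrict (Icc (-r) r)) fun _ => volume.restrict K).symm _
  rw [nu, ← h.lintegral_comp hF]
  exact lintegral_prod_symm _ (hF.comp h.measurable).aemeasurable

lemma lint_cube {G : V d → ℝ≥0∞} (hG : Measurable G) :
    ∫⁻ t in cube d, G t = ∫⁻ s : Fin d → ℝ, G (WithLp.toLp 2 s)
      ∂Measure.pi fun _ => volume.restrict (Icc (-1 : ℝ) 1) := by
  rw [← Measure.restrict_pi_pi, ← volume_pi, ← lintegral_indicator isClosed_cube.measurableSet,
    ← lintegral_indicator (MeasurableSet.univ_pi fun _ => measurableSet_Icc),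
    ← (PiLp.volume_preserving_toLp (Fin d)).lintegral_comp
      (hG.indicator isClosed_cube.measurableSet)]
  refine lintegral_congr fun s => ?_
  have : WithLp.toLp 2 s ∈ cube d ↔ s ∈ univ.pi fun _ => Icc (-1 : ℝ) 1 := by
    simp only [cube, abs_le, mem_ofPred_eq, Set.mem_pi, mem_univ, mem_Icc, true_imp_iff]
  by_cases h : WithLp.toLp 2 s ∈ cube d
  · rw [indicator_of_mem h, indicator_of_mem (this.1 h)]
  · rw [indicator_of_notMem h, indicator_of_notMem fun h' => h (this.2 h')]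

/-- the averaging operator -/
noncomputable def av (K : Set (V n)) (f : V n → ℝ≥0∞) (z : V n) : ℝ≥0∞ :=
  ∫⁻ w, f (z + w.1 • w.2) ∂nu 2 K

variable {K : Set (V n)}

lemma measurable_av {f : V n → ℝ≥0∞} (hf : Measurable f) : Measurable (av K f) :=
  Measurable.lintegral_prod_right (f := fun (z : V n) (w : ℝ × V n) => f (z + w.1 • w.2))
    (by unfold Function.uncurry; fun_prop)

lemma measurable_av_iter {f : V n → ℝ≥0∞} (hf : Measurable f) (m : ℕ) :
    Measurable ((av K)^[m] f) := by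
  induction m with
  | zero => exact hf
  | succ m ih => rw [Function.iterate_succ_apply']; exact measurable_av ih

lemma av_neg {f : V n → ℝ≥0∞} (hf : Measurable f) (z : V n) :
    ∫⁻ w, f (z - w.1 • w.2) ∂nu 2 K = av K f z := by
  have h1 : MeasurePreserving (fun s : ℝ => -s) (volume.restrict (Icc (-2 : ℝ) 2))
      (volume.restrict (Icc (-2 : ℝ) 2)) := by
    have := (Measure.measurePreserving_neg (volume : Measure ℝ)).restrict_preimage
      (measurableSet_Icc (a := (-2 : ℝ)) (b := 2))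
    simpa using this
  have h2 := h1.prod (MeasurePreserving.id (volume.restrict K))
  rw [av, nu, ← h2.lintegral_comp (f := fun w : ℝ × V n => f (z + w.1 • w.2)) (by fun_prop)]
  simp [sub_eq_add_neg]

lemma av_symm {f g : V n → ℝ≥0∞} (hf : Measurable f) (hg : Measurable g) :
    ∫⁻ z, av K f z * g z = ∫⁻ z, f z * av K g z := by
  calc _ = ∫⁻ z, ∫⁻ w, f (z + w.1 • w.2) * g z ∂nu 2 K :=
        lintegral_congr fun z => (lintegral_mul_const _ (by fun_prop)).symm
    _ = ∫⁻ w, (∫⁻ z, f (z + w.1 • w.2) * g z) ∂nu 2 K := lintegral_lintegral_swap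
        (Measurable.aemeasurable (by unfold Function.uncurry; fun_prop))
    _ = ∫⁻ w, (∫⁻ z, f z * g (z - w.1 • w.2)) ∂nu 2 K := by
        refine lintegral_congr fun w => ?_
        rw [← lintegral_add_right_eq_self (fun z => f z * g (z - w.1 • w.2)) (w.1 • w.2)]
        simp
    _ = ∫⁻ z, ∫⁻ w, f z * g (z - w.1 • w.2) ∂nu 2 K := lintegral_lintegral_swap
        (Measurable.aemeasurable (by unfold Function.uncurry; fun_prop))
    _ = _ := lintegral_congr fun z => by rw [lintegral_const_mul _ (by fun_prop), av_neg hg]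

lemma av_iter_symm (m : ℕ) : ∀ {f g : V n → ℝ≥0∞}, Measurable f → Measurable g →
    ∫⁻ z, (av K)^[m] f z * g z = ∫⁻ z, f z * (av K)^[m] g z := by
  induction m with
  | zero => intros; rfl
  | succ m ih =>
    intro f g hf hg
    rw [Function.iterate_succ_apply', av_symm (measurable_av_iter hf m) hg,
      ih hf (measurable_av hg)]
    rfl

lemma av_iter_le {f : V n → ℝ≥0∞} {c : ℝ≥0∞} (h : ∀ z, f z ≤ c) (m : ℕ) (z : V n) :
    (av K)^[m] f z ≤ nu 2 K univ ^ m * c := by
  induction m generalizing z with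
  | zero => simpa using h z
  | succ m ih =>
    rw [Function.iterate_succ_apply']
    refine (lintegral_mono fun w => ih _).trans (le_of_eq ?_)
    rw [lintegral_const]; ring

lemma lint_av_iter {f : V n → ℝ≥0∞} (hf : Measurable f) (m : ℕ) :
    ∫⁻ z, (av K)^[m] f z ≤ nu 2 K univ ^ m * ∫⁻ z, f z := by
  have := av_iter_symm (K := K) m hf (measurable_const (a := 1))
  simp only [mul_one] at this
  rw [this, ← lintegral_const_mul _ hf]
  refine lintegral_mono fun z => ?_
  rw [mul_comm]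
  exact mul_le_mul_left (by simpa using av_iter_le (K := K) (fun _ => le_refl (1:ℝ≥0∞)) m z) _

lemma av_unroll (m : ℕ) : ∀ {f : V n → ℝ≥0∞}, Measurable f → ∀ z, (av K)^[m] f z =
    ∫⁻ w : Fin m → ℝ × V n, f (z + ∑ i, (w i).1 • (w i).2) ∂Measure.pi fun _ => nu 2 K := by
  induction m with
  | zero => intro f _ z; simp
  | succ m ih =>
    intro f hf z
    rw [Function.iterate_succ_apply', lint_insert' _ 0 (by fun_prop)]
    refine lintegral_congr fun y => ?_
    rw [ih hf]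
    simp only [Fin.insertNth_zero', Fin.sum_univ_succ, Fin.cons_zero, Fin.cons_succ, add_assoc]

noncomputable def Th (K : Set (V n)) (m : ℕ) : ℝ≥0∞ :=
  ∫⁻ z, K.indicator 1 z * (av K)^[m] (K.indicator 1) z

lemma Th_double (hK : MeasurableSet K) (m : ℕ) {η : ℝ≥0} (h : 0 < η) :
    Th K m ≤ η * volume K + (η : ℝ≥0∞)⁻¹ * Th K (2 * m) := by
  have hI : Measurable (K.indicator (1 : V n → ℝ≥0∞)) := measurable_one.indicator hK
  have hu := measurable_av_iter (K := K) hI m
  rw [Th, Th, two_mul, Function.iterate_add_apply, ← av_iter_symm m hI hu,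
    ← lintegral_const_mul _ (by fun_prop), ← lintegral_indicator_one hK,
    ← lintegral_const_mul _ hI, ← lintegral_add_left (by fun_prop)]
  refine lintegral_mono fun z => ?_
  by_cases hz : z ∈ K
  · simpa [hz] using le_eta _ h
  · simp [hz]

lemma ell_sq {I : V n → ℝ≥0∞} (hI : Measurable I) (z x : V n) :
    (∫⁻ t in Icc (-1 : ℝ) 1, I (z + t • x)) * (∫⁻ t in Icc (-1 : ℝ) 1, I (z + t • x)) ≤
      ∫⁻ t in Icc (-1 : ℝ) 1, I (z + t • x) * ∫⁻ s in Icc (-2 : ℝ) 2, I (z + t • x + s • x) := by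
  rw [← lintegral_mul_const _ (by fun_prop)]
  refine setLIntegral_mono' measurableSet_Icc fun t ht => mul_le_mul_right ?_ _
  rw [← lintegral_indicator measurableSet_Icc, ← lintegral_indicator measurableSet_Icc,
    ← lintegral_add_left_eq_self _ t]
  refine lintegral_mono fun s => ?_
  by_cases h : t + s ∈ Icc (-1 : ℝ) 1
  · rw [indicator_of_mem h, indicator_of_mem (show s ∈ Icc (-2 : ℝ) 2 from
      ⟨by linarith [h.1, ht.2], by linarith [h.2, ht.1]⟩), add_smul, add_assoc]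
  · simp [h]

lemma lint_aff_le {H : V n → ℝ≥0∞} (hH : Measurable H) {t : ℝ} {δ : ℝ≥0} (h0 : 0 < δ)
    (h : (δ:ℝ) ≤ |t|) (u : V n) : ∫⁻ x in K, H (t • x + u) ≤ ((δ : ℝ≥0∞)⁻¹) ^ n * ∫⁻ z, H z := by
  have ht : 0 < |t| := lt_of_lt_of_le (by exact_mod_cast h0) h
  have := lint_comp (hom n t (abs_pos.1 ht)) (F := fun z => H (z + u)) (by fun_prop)
  rw [lintegral_add_right_eq_self H u, jac_hom] at this
  refine (setLIntegral_le_lintegral _ _).trans (this.le.trans (mul_le_mul_left ?_ _))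
  rw [← inv_pow, ENNReal.ofReal_pow (by positivity), ENNReal.ofReal_inv_of_pos ht]
  gcongr
  rw [← ENNReal.ofReal_coe_nnreal]
  exact ENNReal.ofReal_le_ofReal h

lemma two_step (hK : MeasurableSet K) (v : V n) {η : ℝ≥0} (h : 0 < η) :
    ∫⁻ w1, ∫⁻ w0, K.indicator 1 (w0.1 • w0.2 + (w1.1 • w1.2 + v)) ∂nu 1 K ∂nu 1 K ≤
      η * (6 * volume K ^ 2) + (4 * (η : ℝ≥0∞)⁻¹ ^ (n + 1)) * Th K 1 := by
  obtain ⟨I, hI⟩ : ∃ I : V n → ℝ≥0∞, I = K.indicator 1 := ⟨_, rfl⟩
  have hm : Measurable I := hI ▸ measurable_one.indicator hK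
  have hI1 : ∀ z, I z ≤ 1 := fun z => hI ▸ indicator_le_self K 1 z
  have hJ : Measurable fun p : V n × V n => ∫⁻ s in Icc (-2 : ℝ) 2, I (p.1 + s • p.2) :=
    Measurable.lintegral_prod_right (f := fun (p : V n × V n) (s : ℝ) => I (p.1 + s • p.2))
      (by unfold Function.uncurry; fun_prop)
  have hTh : Th K 1 = ∫⁻ x in K, ∫⁻ z, I z * ∫⁻ s in Icc (-2 : ℝ) 2, I (z + s • x) := by
    have hm2 : Measurable (Function.uncurry fun x z : V n =>
        I z * ∫⁻ s in Icc (-2 : ℝ) 2, I (z + s • x)) :=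
      Measurable.mul (hm.comp measurable_snd) (hJ.comp measurable_swap)
    rw [Th, ← hI, lintegral_lintegral_swap hm2.aemeasurable]
    refine lintegral_congr fun z => ?_
    rw [lintegral_const_mul (f := fun x => ∫⁻ s in Icc (-2 : ℝ) 2, I (z + s • x)) _
      (hJ.comp (measurable_const.prodMk measurable_id'))]
    congr 1
    exact lintegral_prod_symm _ (Measurable.aemeasurable (by fun_prop))
  have hv2 : volume (Icc (-1 : ℝ) 1) = 2 := by rw [Real.volume_Icc]; norm_num
  have key : ∀ t0 : ℝ, ∫⁻ x0 in K, ∫⁻ w1, I (t0 • x0 + (w1.1 • w1.2 + v)) ∂nu 1 K ≤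
      (Icc (-(η:ℝ)) η).indicator (fun _ => 2 * volume K ^ 2) t0 +
        (η * volume K ^ 2 + 2 * (η : ℝ≥0∞)⁻¹ ^ (n + 1) * Th K 1) := by
    intro t0
    by_cases ht : t0 ∈ Icc (-(η:ℝ)) η
    · refine le_trans ?_ le_self_add
      rw [indicator_of_mem ht]
      refine (lintegral_mono fun x0 => lintegral_mono fun w1 => hI1 _).trans (le_of_eq ?_)
      simp [nu_univ, sq, mul_assoc]
    refine le_trans ?_ le_add_self
    have ht' : (η:ℝ) ≤ |t0| := by
      by_contra h1
      exact ht ⟨(abs_lt.1 (not_le.1 h1)).1.le, (abs_lt.1 (not_le.1 h1)).2.le⟩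
    have hG : Measurable fun p : V n × (V n × ℝ) => I (t0 • p.1 + (p.2.2 • p.2.1 + v)) *
        ∫⁻ s in Icc (-2 : ℝ) 2, I (t0 • p.1 + (p.2.2 • p.2.1 + v) + s • p.2.1) :=
      Measurable.mul (by fun_prop) (hJ.comp (f := fun p : V n × (V n × ℝ) =>
        (t0 • p.1 + (p.2.2 • p.2.1 + v), p.2.1)) (by fun_prop))
    calc _ ≤ ∫⁻ x0 in K, (η * volume K + (η : ℝ≥0∞)⁻¹ * ∫⁻ p : V n × ℝ,
            I (t0 • x0 + (p.2 • p.1 + v)) *
            (∫⁻ s in Icc (-2 : ℝ) 2, I (t0 • x0 + (p.2 • p.1 + v) + s • p.1))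
            ∂(volume.restrict K).prod (volume.restrict (Icc (-1 : ℝ) 1))) := by
          refine lintegral_mono fun x0 => ?_
          have hG0 : Measurable fun p : V n × ℝ => I (t0 • x0 + (p.2 • p.1 + v)) *
              ∫⁻ s in Icc (-2 : ℝ) 2, I (t0 • x0 + (p.2 • p.1 + v) + s • p.1) :=
            hG.comp measurable_prodMk_left
          rw [nu, lintegral_prod_symm _ (Measurable.aemeasurable (by fun_prop)),
            lintegral_prod _ hG0.aemeasurable,
            ← lintegral_const_mul' _ _ (by simpa using h.ne'), ← setLIntegral_const,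
            ← lintegral_add_left measurable_const]
          refine lintegral_mono fun x1 => (le_eta _ h).trans ?_
          gcongr
          have := ell_sq hm (t0 • x0 + v) x1
          simpa only [add_assoc, add_comm v] using this
      _ = η * volume K ^ 2 + (η : ℝ≥0∞)⁻¹ * ∫⁻ p : V n × ℝ, (∫⁻ x0 in K,
            I (t0 • x0 + (p.2 • p.1 + v)) *
            (∫⁻ s in Icc (-2 : ℝ) 2, I (t0 • x0 + (p.2 • p.1 + v) + s • p.1)))
            ∂(volume.restrict K).prod (volume.restrict (Icc (-1 : ℝ) 1)) := by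
          rw [lintegral_add_left measurable_const, setLIntegral_const,
            lintegral_const_mul' _ _ (by simpa using h.ne'),
            lintegral_lintegral_swap hG.aemeasurable, sq, mul_assoc]
      _ ≤ η * volume K ^ 2 + (η : ℝ≥0∞)⁻¹ * ∫⁻ p : V n × ℝ, ((η : ℝ≥0∞)⁻¹) ^ n *
            (∫⁻ z, I z * ∫⁻ s in Icc (-2 : ℝ) 2, I (z + s • p.1))
            ∂(volume.restrict K).prod (volume.restrict (Icc (-1 : ℝ) 1)) := by
          gcongr with p
          exact lint_aff_le (H := fun z => I z * ∫⁻ s in Icc (-2 : ℝ) 2, I (z + s • p.1))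
            (hm.mul (hJ.comp (measurable_id'.prodMk measurable_const))) h ht' _
      _ = _ := by
          have hL : Measurable fun x : V n =>
              ∫⁻ z, I z * ∫⁻ s in Icc (-2 : ℝ) 2, I (z + s • x) :=
            Measurable.lintegral_prod_right (f := fun x z : V n =>
              I z * ∫⁻ s in Icc (-2 : ℝ) 2, I (z + s • x))
              (Measurable.mul (hm.comp measurable_snd) (hJ.comp measurable_swap))
          have hL0 : Measurable fun p : V n × ℝ =>
              ∫⁻ z, I z * ∫⁻ s in Icc (-2 : ℝ) 2, I (z + s • p.1) := hL.comp measurable_fst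
          rw [lintegral_const_mul _ hL0, lintegral_prod _ hL0.aemeasurable]
          simp only [setLIntegral_const, hv2]
          rw [lintegral_mul_const _ hL, ← hTh]
          ring
  rw [← hI, lintegral_lintegral_swap
    (Measurable.aemeasurable (by unfold Function.uncurry; fun_prop))]
  conv_lhs => arg 1; rw [nu]
  rw [lintegral_prod _ (Measurable.aemeasurable (Measurable.lintegral_prod_right
    (f := fun w0 w1 : ℝ × V n => I (w0.1 • w0.2 + (w1.1 • w1.2 + v)))
    (by unfold Function.uncurry; fun_prop)))]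
  refine (lintegral_mono key).trans ?_
  rw [lintegral_add_right _ measurable_const, setLIntegral_const, hv2]
  refine le_trans (add_le_add_left (setLIntegral_le_lintegral _ _) _) (le_of_eq ?_)
  rw [lintegral_indicator_const measurableSet_Icc, Real.volume_Icc, sub_neg_eq_add,
    ENNReal.ofReal_add η.coe_nonneg η.coe_nonneg, ENNReal.ofReal_coe_nnreal]
  ring

lemma Om_le_Th {K : Set (V (q + 3))} (hK : MeasurableSet K) {η : ℝ≥0} (h : 0 < η) :
    Om K ≤ η * (6 * volume K ^ 2 * (2 * volume K) ^ q) +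
      (4 * (η : ℝ≥0∞)⁻¹ ^ (q + 3 + 1) * (2 * volume K) ^ q) * Th K 1 := by
  have hI : Measurable (K.indicator (1 : V (q + 3) → ℝ≥0∞)) := measurable_one.indicator hK
  have h1 : Om K = ∫⁻ w : Fin (q + 2) → ℝ × V (q + 3), K.indicator 1 (∑ i, (w i).1 • (w i).2)
      ∂Measure.pi fun _ => nu 1 K := by
    rw [lint_pairs 1 K (by fun_prop), Om]
    exact lintegral_congr fun x => lint_cube (by fun_prop)
  have h2 : Measurable fun b : Fin (q + 1) → ℝ × V (q + 3) =>
      ∫⁻ y, K.indicator (1 : V (q + 3) → ℝ≥0∞) (y.1 • y.2 + ∑ i, (b i).1 • (b i).2) ∂nu 1 K :=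
    Measurable.lintegral_prod_right (f := fun (b : Fin (q + 1) → ℝ × V (q + 3))
      (y : ℝ × V (q + 3)) => K.indicator (1 : V (q + 3) → ℝ≥0∞)
        (y.1 • y.2 + ∑ i, (b i).1 • (b i).2)) (by unfold Function.uncurry; fun_prop)
  rw [h1, lint_insert _ 0 (by fun_prop)]
  simp only [Fin.insertNth_zero', Fin.sum_univ_succ (n := q + 1), Fin.cons_zero, Fin.cons_succ]
  rw [lint_insert _ 0 h2]
  simp only [Fin.insertNth_zero', Fin.sum_univ_succ (n := q), Fin.cons_zero, Fin.cons_succ]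
  refine (lintegral_mono fun b => two_step hK _ h).trans (le_of_eq ?_)
  rw [lintegral_const, Measure.pi_univ]
  simp only [nu_univ, Finset.prod_const, Finset.card_univ, Fintype.card_fin, mul_one,
    ENNReal.ofReal_ofNat]
  ring

lemma Th_le (hK : MeasurableSet K) {W δ : ℝ≥0∞} (hW : volume K ≤ W) (r : ℕ) {η : ℝ≥0} (h : 0 < η)
    (hδ : ∀ b : Fin n → V n, dt b ≤ (η:ℝ)⁻¹ → volume (box b ∩ K) ≤ δ) :
    Th K (n + 1 + r) ≤ η * ((n + 1) * (4 * ((4 * W) ^ r * W * W) * W * W ^ n)) +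
      ((n + 1) * (4 ^ (n + 1) * ((4 * W) ^ r * W) * W ^ n)) * δ := by
  obtain ⟨I, hI⟩ : ∃ I : V n → ℝ≥0∞, I = K.indicator 1 := ⟨_, rfl⟩
  have hm : Measurable I := hI ▸ measurable_one.indicator hK
  have hI1 : ∀ z, I z ≤ 1 := fun z => hI ▸ indicator_le_self K 1 z
  have hIW : ∫⁻ z, I z ≤ W := by rwa [hI, lintegral_indicator_one hK]
  have hnu : nu 2 K univ ≤ 4 * W := by
    rw [nu_univ]; norm_num; gcongr
  have hψ := measurable_av_iter (K := K) hm r
  obtain ⟨φ, hφ⟩ : ∃ φ : V n → ℝ≥0∞, φ = fun v => ∫⁻ z, I z * (av K)^[r] I (z + v) := ⟨_, rfl⟩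
  have hφm : Measurable φ := hφ ▸ Measurable.lintegral_prod_right
    (f := fun v z : V n => I z * (av K)^[r] I (z + v)) (by unfold Function.uncurry; fun_prop)
  have hφ1 : ∀ v, φ v ≤ (4 * W) ^ r * W := fun v => by
    rw [hφ]
    calc _ ≤ ∫⁻ z, (4 * W) ^ r * I z := lintegral_mono fun z => by
          rw [mul_comm]
          refine mul_le_mul_left ((av_iter_le hI1 r _).trans ?_) _
          rw [mul_one]; gcongr
      _ ≤ _ := by rw [lintegral_const_mul _ hm]; gcongr
  have hφ2 : ∫⁻ v, φ v ≤ (4 * W) ^ r * W * W := by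
    rw [hφ, lintegral_lintegral_swap
      (Measurable.aemeasurable (by unfold Function.uncurry; fun_prop))]
    calc _ ≤ ∫⁻ z, (4 * W) ^ r * W * I z := lintegral_mono fun z => by
          rw [lintegral_const_mul _ (by fun_prop), lintegral_add_left_eq_self, mul_comm]
          refine mul_le_mul_left ((lint_av_iter hm r).trans ?_) _
          gcongr
      _ ≤ _ := by rw [lintegral_const_mul _ hm]; gcongr
  have h1 : Th K (n + 1 + r) = ∫⁻ w : Fin (n + 1) → ℝ × V n, φ (∑ i, (w i).1 • (w i).2)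
      ∂Measure.pi fun _ => nu 2 K := by
    rw [Th, ← hI, Function.iterate_add_apply, hφ, lintegral_lintegral_swap
      (Measurable.aemeasurable (by unfold Function.uncurry; fun_prop))]
    refine lintegral_congr fun z => ?_
    rw [av_unroll _ hψ, lintegral_const_mul _ (by fun_prop)]
  have hv4 : volume (Icc (-2 : ℝ) 2) = 4 := by rw [Real.volume_Icc]; norm_num
  rw [h1, lint_pairs 2 K (by fun_prop)]
  refine (lint_cover _ (Measurable.lintegral_prod_right (f := fun (x : Fin (n + 1) → V n)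
    (s : Fin (n + 1) → ℝ) => φ (∑ i, s i • x i)) (by unfold Function.uncurry; fun_prop))).trans ?_
  refine (Finset.sum_le_card_nsmul _ _ ((η * (4 * ((4 * W) ^ r * W * W) * W) +
    4 ^ (n + 1) * ((4 * W) ^ r * W) * δ) * W ^ n) fun j _ => ?_).trans (le_of_eq (by simp; ring))
  refine (lintegral_mono (g := fun _ => η * (4 * ((4 * W) ^ r * W * W) * W) +
    4 ^ (n + 1) * ((4 * W) ^ r * W) * δ) fun b => ?_).trans ?_
  swap
  · rw [lintegral_const, Measure.pi_univ]
    simp only [Measure.restrict_apply_univ, Finset.prod_const, Finset.card_univ, Fintype.card_fin]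
    gcongr
  by_cases hb : dt b ≤ (η:ℝ)⁻¹
  · refine le_trans ?_ le_add_self
    refine (lintegral_mono fun y => lintegral_mono fun s => hφ1 _).trans ?_
    simp only [lintegral_const, Measure.pi_univ, Measure.restrict_apply_univ, hv4,
      Finset.prod_const, Finset.card_univ, Fintype.card_fin]
    rw [Measure.restrict_apply (measurableSet_box b), mul_comm _ (4 ^ (n + 1))]
    exact mul_le_mul_right (hδ b hb) _
  · refine le_trans ?_ le_self_add
    have hη : (0:ℝ) < η := by exact_mod_cast h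
    have hb0 : 0 < dt b := (inv_pos.2 hη).trans (not_le.1 hb)
    refine (lintegral_mono (g := fun _ => η * ((4 * W) ^ r * W * W) * 4) fun y => ?_).trans ?_
    swap
    · rw [lintegral_const, Measure.restrict_apply_univ]
      calc _ ≤ η * ((4 * W) ^ r * W * W) * 4 * W := by
            gcongr
            exact (measure_mono (subset_univ _)).trans (by rwa [Measure.restrict_apply_univ])
        _ = _ := by ring
    rw [lint_insert' _ j (by fun_prop)]
    refine (lintegral_mono (g := fun _ => η * ((4 * W) ^ r * W * W)) fun sj => ?_).trans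
      (by rw [setLIntegral_const, hv4])
    simp only [Fin.sum_univ_succAbove _ j, Fin.insertNth_apply_same,
      Fin.insertNth_apply_succAbove]
    rw [← Measure.restrict_pi_pi, ← volume_pi]
    refine (setLIntegral_le_lintegral _ _).trans ?_
    have h3 := lint_lin (lin b) (abs_pos.1 hb0) (F := fun z => φ (sj • y + z)) (by fun_prop)
    rw [lintegral_add_left_eq_self φ, ← (PiLp.volume_preserving_toLp (Fin n)).lintegral_comp
      (by have := (lin b).continuous_of_finiteDimensional.measurable; fun_prop)] at h3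
    simp only [lin_apply] at h3
    refine h3.le.trans (mul_le_mul' ?_ hφ2)
    rw [← ENNReal.ofReal_coe_nnreal]
    exact ENNReal.ofReal_le_ofReal (inv_le_of_inv_le₀ hη (not_le.1 hb).le)

theorem inv_set (q : ℕ) {W ε : ℝ≥0∞} (hW : W ≠ ∞) (hε : ε ≠ 0) : ∃ δ : ℝ≥0∞, δ ≠ 0 ∧ ∃ D : ℝ,
    ∀ K : Set (V (q + 3)), MeasurableSet K → volume K ≤ W → ε ≤ Om K →
      ∃ b : Fin (q + 3) → V (q + 3), dt b ≤ D ∧ δ ≤ volume (box b ∩ K) := by
  have hη : ∀ η : ℝ≥0, 0 < η → (η : ℝ≥0∞)⁻¹ ≠ ∞ := fun η h => by simpa using h.ne'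
  have h1 : ∀ j : ℕ, ∃ e : ℝ≥0∞, e ≠ 0 ∧ ∀ K : Set (V (q + 3)), MeasurableSet K → volume K ≤ W →
      ε ≤ Om K → e ≤ Th K (2 ^ j) := by
    intro j
    induction j with
    | zero =>
      obtain ⟨e, e0, he⟩ := lower_of (c := 6 * W ^ 2 * (2 * W) ^ q) (by finiteness) hε
        (fun η => 4 * (η : ℝ≥0∞)⁻¹ ^ (q + 3 + 1) * (2 * W) ^ q)
        (fun η h => by have := hη η h; finiteness)
      exact ⟨e, e0, fun K hK h2 h3 => he _ _ (fun η h => (Om_le_Th hK h).trans (by
        rw [pow_zero]; gcongr)) h3⟩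
    | succ j ih =>
      obtain ⟨e, e0, he⟩ := ih
      obtain ⟨e', e0', he'⟩ := lower_of hW e0 (fun η => (η : ℝ≥0∞)⁻¹) hη
      exact ⟨e', e0', fun K hK h2 h3 => he' _ _ (fun η h => (Th_double hK _ h).trans (by
        rw [pow_succ']; gcongr)) (he K hK h2 h3)⟩
  obtain ⟨e, e0, he⟩ := h1 (q + 3 + 1)
  obtain ⟨r, hr⟩ := Nat.exists_eq_add_of_le (Nat.lt_two_pow_self (n := q + 3 + 1)).le
  obtain ⟨η, η0, h2⟩ := ENNReal.exists_nnreal_pos_mul_lt (a := ((q + 3 : ℕ) + 1) *
    (4 * ((4 * W) ^ r * W * W) * W * W ^ (q + 3))) (by finiteness) e0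
  obtain ⟨s, s0, h3⟩ := ENNReal.lt_iff_exists_add_pos_lt.1 h2
  obtain ⟨δ, δ0, h4⟩ := ENNReal.exists_nnreal_pos_mul_lt (a := ((q + 3 : ℕ) + 1) *
    (4 ^ (q + 3 + 1) * ((4 * W) ^ r * W) * W ^ (q + 3))) (by finiteness)
    (ENNReal.coe_pos.2 s0).ne'
  refine ⟨δ, (ENNReal.coe_pos.2 δ0).ne', (η:ℝ)⁻¹, fun K hK h5 h6 => ?_⟩
  by_contra h7
  push Not at h7
  have h8 := (he K hK h5 h6).trans (hr ▸ Th_le hK h5 r η0 fun b hb => (h7 b hb).le)
  refine absurd h8 (not_le.2 (lt_of_le_of_lt ?_ h3))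
  gcongr
  rw [mul_comm]
  exact h4.le

/-- inverse Busemann inequality for radial functions -/
theorem inv_bus (q : ℕ) (C : ℝ) {ε : ℝ} (hε : 0 < ε) : ∃ δ : ℝ, 0 < δ ∧ ∃ A : ℝ, 0 < A ∧
    ∀ f : V (q + 3) → ℝ, Adm f → Nn f ≤ C → ε ≤ Nn (T f) →
      ∃ g : V (q + 3) ≃L[ℝ] V (q + 3), jac g = 1 ∧
        δ ≤ Nn fun x => min (f (g x)) (A * ‖x‖⁻¹) := by
  obtain ⟨c, c0, hc⟩ := sec_le_Om (q + 2)
  obtain ⟨δ, δ0, D, h⟩ := inv_set q (W := ENNReal.ofReal C) (ε := ENNReal.ofReal (ε / c))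
    ENNReal.ofReal_ne_top (ENNReal.ofReal_pos.2 (by positivity)).ne'
  refine ⟨(min δ 1).toReal, ENNReal.toReal_pos (by simp [δ0]) (by simp),
    (|D| + 1) * ((q + 3 : ℕ) + 1), by positivity, fun f H h1 h2 => ?_⟩
  obtain ⟨b, hb, hb'⟩ := h (star f) H.measurableSet_star
    (by rw [H.vol_star]; exact ENNReal.ofReal_le_ofReal h1) (by
      have h3 := hc _ H.measurableSet_star
      rw [lintegral_congr_ae (mu_sphere.mono fun u hu => by
        simp only [H.sec_star (ne_zero_of_unit hu)]; rfl)] at h3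
      have h4 := (ENNReal.ofReal_le_ofReal h2).trans (H.T.ofReal_Nn.le.trans h3)
      rw [ENNReal.ofReal_div_of_pos c0]
      exact ENNReal.div_le_of_le_mul' h4)
  have hb0 : 0 < dt b := by
    refine lt_of_le_of_ne (dt_nonneg b) fun h0 => δ0 ?_
    have := hb'.trans (measure_mono inter_subset_left)
    rwa [vol_box', ← h0, ENNReal.ofReal_zero, zero_mul, le_zero_iff] at this
  let L : V (q + 3) ≃L[ℝ] V (q + 3) :=
    ((lin b).equivOfDetNeZero (abs_pos.1 hb0)).toContinuousLinearEquiv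
  have hL : jac L = dt b := rfl
  obtain ⟨t, t0, ht⟩ : ∃ t : ℝ, 0 < t ∧ t ^ (q + 3) = dt b :=
    ⟨dt b ^ ((q + 3 : ℕ) : ℝ)⁻¹, Real.rpow_pos_of_pos hb0 _,
      Real.rpow_inv_natCast_pow hb0.le (by omega)⟩
  have ht1 : t ≤ |D| + 1 := by
    by_contra h5
    have h6 : 1 ≤ t := by linarith [abs_nonneg D]
    have := le_self_pow₀ h6 (show q + 3 ≠ 0 by omega)
    linarith [le_abs_self D]
  let g := (hom (q + 3) t⁻¹ (inv_ne_zero t0.ne')).trans L
  have hg : jac g = 1 := by
    rw [jac_trans, jac_hom, hL, abs_of_pos (inv_pos.2 t0), inv_pow, ht, inv_mul_cancel₀ hb0.ne']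
  refine ⟨g, hg, ?_⟩
  have hA : Adm fun x : V (q + 3) => ((|D| + 1) * ((q + 3 : ℕ) + 1)) * ‖x‖⁻¹ :=
    adm_inv_norm.smul (by positivity)
  have hM := (H.comp g).min hA
  refine ENNReal.toReal_le_of_le_ofReal hM.Nn_nonneg ((min_le_left _ _).trans (hb'.trans ?_))
  have hv := vol_preimage g (box b ∩ star f)
  rw [hg, inv_one, ENNReal.ofReal_one, one_mul] at hv
  rw [← hM.vol_star, ← hv, star_min, star_comp]
  refine measure_mono fun x hx => ⟨hx.2, ?_⟩
  by_cases hx0 : x = 0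
  · exact Or.inl hx0
  obtain ⟨s, hs, h5⟩ := hx.1
  have h6 : s = t⁻¹ • x := L.injective h5
  have h7 : ‖s‖ ≤ (q + 3 : ℕ) + 1 := mem_closedBall_zero_iff.1 (cube_subset hs)
  rw [h6, norm_smul, Real.norm_of_nonneg (inv_pos.2 t0).le, inv_mul_le_iff₀ t0] at h7
  refine Or.inr ?_
  simp only
  rw [← div_eq_mul_inv, one_le_div (norm_pos_iff.2 hx0)]
  exact h7.trans (by gcongr)

end Pool.Agent.Lib.MP_242fd5_gt.Ty
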