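import Pool.Agent.Lib.MP_242fd5_gt.Ty.B1Box

set_option autoImplicit false

open MeasureTheory ProbabilityTheory Set Metric Filter Topology Real
open scoped ENNReal NNReal RealInnerProductSpace

namespace Pool.Agent.Lib.MP_242fd5_gt.Ty

variable {n N q : ℕ}

noncomputable def ex (s : ℝ) : ℝ≥0∞ := ENNReal.ofReal (exp s)

lemma ex_add (s t : ℝ) : ex (s + t) = ex s * ex t := by
  unfold ex; rw [exp_add, ENNReal.ofReal_mul (exp_pos _).le]
lemma ex_ne_top (s : ℝ) : ex s ≠ ∞ := ENNReal.ofReal_ne_top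
lemma ex_zero : ex 0 = 1 := by simp [ex]
@[gcongr] lemma ex_mono {s t : ℝ} (h : s ≤ t) : ex s ≤ ex t :=
  ENNReal.ofReal_le_ofReal (exp_le_exp.2 h)
lemma ex_pow (s : ℝ) (k : ℕ) : ex s ^ k = ex (k * s) := by
  unfold ex; rw [← ENNReal.ofReal_pow (exp_pos _).le, ← exp_nat_mul]
lemma exists_ex {x : ℝ≥0∞} (hx : x ≠ ∞) : ∃ c, 0 ≤ c ∧ x ≤ ex c :=
  ⟨x.toReal, ENNReal.toReal_nonneg, by
    conv_lhs => rw [← ENNReal.ofReal_toReal hx]
    exact ENNReal.ofReal_le_ofReal (by linarith [add_one_le_exp x.toReal])⟩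

lemma add_pow_le_two (x y : ℝ≥0∞) (k : ℕ) : (x + y) ^ k ≤ 2 ^ k * (x ^ k + y ^ k) := by
  rcases le_total x y with h | h
  · calc (x + y) ^ k ≤ (2 * y) ^ k := by gcongr; rw [two_mul]; gcongr
      _ ≤ _ := by rw [mul_pow]; gcongr; exact le_add_self
  · calc (x + y) ^ k ≤ (2 * x) ^ k := by gcongr; rw [two_mul]; gcongr
      _ ≤ _ := by rw [mul_pow]; gcongr; exact le_self_add

@[fun_prop] lemma measurable_Te {a : V (N + 1) → ℝ≥0∞} (ha : Measurable a) : Measurable (Te a) :=
  measurable_Re (h := fun v => a v ^ N) (by fun_prop)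

lemma Te_mono {a b : V (N + 1) → ℝ≥0∞} (h : ∀ x, a x ≤ b x) (u : V (N + 1)) : Te a u ≤ Te b u :=
  lintegral_mono fun x => by gcongr; exact h x

lemma Te_add_le {a b : V (N + 1) → ℝ≥0∞} (ha : Measurable a) (u : V (N + 1)) :
    Te (fun x => a x + b x) u ≤ 2 ^ N * (Te a u + Te b u) := by
  unfold Te
  rw [← lintegral_add_left (by fun_prop), ← lintegral_const_mul' _ _ (by simp)]
  exact lintegral_mono fun x => add_pow_le_two _ _ _

lemma Te_split {a : V (N + 2) → ℝ≥0∞} (ha : Measurable a) (A : ℝ≥0∞) (u : V (N + 2)) :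
    Te a u = Te ({x | A < a x}ᶜ.indicator a) u + Te ({x | A < a x}.indicator a) u := by
  have hs : MeasurableSet {x | A < a x} := measurableSet_lt measurable_const ha
  unfold Te
  rw [← lintegral_add_left ((ha.indicator hs.compl).pow_const _)]
  refine lintegral_congr fun x => ?_
  by_cases h : x ∈ {x | A < a x}
  · rw [indicator_of_mem h, indicator_of_notMem (notMem_compl_iff.2 h)]; simp
  · rw [indicator_of_notMem h, indicator_of_mem (mem_compl h)]; simp

lemma Ne_indicator {a : V (N + 1) → ℝ≥0∞} {s : Set (V (N + 1))} (hs : MeasurableSet s) :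
    Ne (s.indicator a) = ∫⁻ u in s, a u ^ (N + 1) ∂mu (N + 1) := by
  rw [Ne, ← lintegral_indicator hs]
  refine lintegral_congr fun x => ?_
  by_cases h : x ∈ s <;> simp [h]

lemma jensen_pow {α : Type} [MeasurableSpace α] (m : Measure α) {h : α → ℝ≥0∞}
    (hh : Measurable h) (k : ℕ) :
    (∫⁻ x, h x ∂m) ^ (k + 2) ≤ m univ ^ (k + 1) * ∫⁻ x, h x ^ (k + 2) ∂m := by
  have hk : (0:ℝ) < k + 1 := by positivity
  have hpq : ((k:ℝ) + 2).HolderConjugate (((k:ℝ) + 2) / (k + 1)) := by
    rw [Real.holderConjugate_iff]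
    exact ⟨by linarith, by field_simp; ring⟩
  have := ENNReal.lintegral_mul_le_Lp_mul_Lq m hpq hh.aemeasurable
    (aemeasurable_const (b := (1:ℝ≥0∞)))
  simp only [Pi.mul_apply, mul_one, ENNReal.one_rpow, lintegral_const, one_mul] at this
  refine (pow_le_pow_left' this _).trans (le_of_eq ?_)
  rw [mul_pow, ← ENNReal.rpow_natCast, ← ENNReal.rpow_natCast, ← ENNReal.rpow_mul,
    ← ENNReal.rpow_mul, mul_comm, ← ENNReal.rpow_natCast (m univ)]
  congr 2
  · push_cast; field_simp
  · push_cast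
    rw [one_div_mul_cancel (by positivity), ENNReal.rpow_one]
    refine lintegral_congr fun x => ?_
    rw [← ENNReal.rpow_natCast]
    push_cast
    rfl

lemma kr_split (x β : ℝ) (hx : 0 ≤ x) : x ≤ exp β + x ^ (7 / 4 : ℝ) * exp (-(3 / 4 * β)) := by
  rcases le_total x (exp β) with h | h
  · exact h.trans (le_add_of_nonneg_right (by positivity))
  · refine le_trans ?_ (le_add_of_nonneg_left (exp_pos β).le)
    have h0 : 0 < x := (exp_pos β).trans_le h
    have h1 : exp (3 / 4 * β) ≤ x ^ (3 / 4 : ℝ) := by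
      rw [mul_comm, exp_mul]
      exact rpow_le_rpow (exp_pos β).le h (by norm_num)
    rw [exp_neg, ← div_eq_mul_inv, le_div_iff₀ (exp_pos _),
      show (7 / 4 : ℝ) = 1 + 3 / 4 by norm_num, rpow_add h0, rpow_one]
    gcongr

lemma kr_bound (q : ℕ) : ∃ c : ℝ, 0 ≤ c ∧ ∀ (h : V (q + 3) → ℝ≥0∞) (S : ℝ≥0∞) (β : ℝ),
    Measurable h → (∀ x, h x ≤ S) → ∀ u : V (q + 3), ‖u‖ = 1 →
      ∫⁻ x, h x * ENNReal.ofReal (kr u x) ∂mu (q + 3) ≤
        ex β * ∫⁻ x, h x ∂mu (q + 3) + S * ex (c - 3 / 4 * β) := by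
  obtain ⟨C, -, hC⟩ := lint_kr_rpow q
  obtain ⟨c, c0, hc⟩ := exists_ex (x := ENNReal.ofReal C) ENNReal.ofReal_ne_top
  refine ⟨c, c0, fun h S β hh hS u hu => ?_⟩
  calc _ ≤ ∫⁻ x, (ex β * h x + S * ex (-(3 / 4 * β)) * ENNReal.ofReal (kr u x ^ (7 / 4 : ℝ)))
        ∂mu (q + 3) := by
        refine lintegral_mono fun x => ?_
        refine (mul_le_mul_right (ENNReal.ofReal_le_ofReal (kr_split _ β (kr_nonneg u x))) _).trans ?_
        rw [ENNReal.ofReal_add (exp_pos _).le (mul_nonneg (rpow_nonneg (kr_nonneg _ _) _)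
          (exp_pos _).le), ENNReal.ofReal_mul (rpow_nonneg (kr_nonneg _ _) _), mul_add,
          mul_comm (h x), mul_assoc S, mul_comm (ex (-(3 / 4 * β)))]
        gcongr
        exacts [le_rfl, hS x, le_rfl]
    _ ≤ _ := by
        rw [lintegral_add_left (by fun_prop), lintegral_const_mul _ hh,
          lintegral_const_mul _ (by fun_prop), sub_eq_neg_add, ex_add, mul_assoc]
        gcongr
        exact (hC u hu).trans hc

lemma TT_low (q : ℕ) (W : ℝ) : ∃ c : ℝ, 0 ≤ c ∧ ∀ (a : V (q + 3) → ℝ≥0∞) (α : ℝ), Measurable a →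
    Ne a ≤ ENNReal.ofReal W → 0 ≤ α → (∀ x, a x ≤ ex α) → ∀ u : V (q + 3), ‖u‖ = 1 →
      Te (Te a) u ≤ ex (c + ((q + 2) ^ 2 - 3 / 4) * α) := by
  obtain ⟨c, c0, hc⟩ := kr_bound q
  obtain ⟨c1, c10, h1⟩ := exists_ex (x := ENNReal.ofReal (om (q + 2)) ^ (q + 1) *
    ENNReal.ofReal (cK q) * (ENNReal.ofReal (om (q + 3)) + ENNReal.ofReal W + ex c))
    (by have := ex_ne_top c; finiteness)
  refine ⟨c1, c10, fun a α ha hW hα hb u hu => ?_⟩
  have hq : (0:ℝ) ≤ q := Nat.cast_nonneg q
  have h2 : ∫⁻ x, a x ^ (q + 2) ∂mu (q + 3) ≤ ENNReal.ofReal (om (q + 3)) + ENNReal.ofReal W := by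
    refine le_trans ?_ (add_le_add_right hW _)
    rw [← mu_univ, ← lintegral_one, Ne, ← lintegral_add_left measurable_const]
    refine lintegral_mono fun x => ?_
    rcases le_total (a x) 1 with h | h
    · exact (pow_le_one₀ zero_le h).trans le_self_add
    · exact (pow_le_pow_right₀ h (by omega)).trans le_add_self
  calc Te (Te a) u ≤ ∫⁻ v, (ex α ^ (q + 2) * ENNReal.ofReal (om (q + 2))) ^ (q + 1) *
        Re (fun x => a x ^ (q + 2)) v ∂kap (q + 3) u := by
        refine lintegral_mono_ae ((kap_sphere (ne_zero_of_unit hu)).mono fun v hv => ?_)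
        rw [pow_succ]
        gcongr
        · rw [← kap_univ (ne_zero_of_unit hv.1), ← lintegral_const]
          exact lintegral_mono fun x => by gcongr; exact hb x
        · exact le_rfl
    _ = (ex α ^ (q + 2) * ENNReal.ofReal (om (q + 2))) ^ (q + 1) * (ENNReal.ofReal (cK q) *
        ∫⁻ x, a x ^ (q + 2) * ENNReal.ofReal (kr u x) ∂mu (q + 3)) := by
        rw [lintegral_const_mul _ (by fun_prop), ← ReRe (by fun_prop) hu]; rfl
    _ ≤ (ex α ^ (q + 2) * ENNReal.ofReal (om (q + 2))) ^ (q + 1) * (ENNReal.ofReal (cK q) *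
        (ex ((q + 2 - 3 / 4) * α) * (ENNReal.ofReal (om (q + 3)) + ENNReal.ofReal W + ex c))) := by
        gcongr
        refine (hc _ (ex α ^ (q + 2)) α (by fun_prop) (fun x => by gcongr; exact hb x) u hu).trans ?_
        rw [mul_add, ex_pow, ← ex_add, ← ex_add]
        refine add_le_add (mul_le_mul' (ex_mono (by nlinarith)) h2) (ex_mono ?_)
        push_cast
        linarith
    _ ≤ _ := by
        rw [ex_add, show (((q:ℝ) + 2) ^ 2 - 3 / 4) * α =
          ((q + 1 : ℕ) * ((q + 2 : ℕ) * α)) + (q + 2 - 3 / 4) * α by push_cast; ring, ex_add,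
          ← ex_pow, ← ex_pow, mul_pow]
        calc _ = (ENNReal.ofReal (om (q + 2)) ^ (q + 1) * ENNReal.ofReal (cK q) *
            (ENNReal.ofReal (om (q + 3)) + ENNReal.ofReal W + ex c)) *
            ((ex α ^ (q + 2)) ^ (q + 1) * ex ((q + 2 - 3 / 4) * α)) := by ring
          _ ≤ _ := by gcongr

lemma le_two_mul_of {a x y : ℝ≥0∞} (h : a ≤ x + y) (h2 : 2 * x < a) : a ≤ 2 * y := by
  rcases le_total x y with h1 | h1
  · exact h.trans (by rw [two_mul]; gcongr)
  · exact absurd (h.trans (by rw [two_mul]; gcongr)) (not_le.2 h2)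

lemma tail_step (q : ℕ) (W lam : ℝ) : ∃ c c' : ℝ, 0 ≤ c ∧ 0 ≤ c' ∧
    ∀ (a b : V (q + 3) → ℝ≥0∞) (α α' : ℝ), Measurable a → Measurable b →
      Ne b ≤ ENNReal.ofReal W → 0 ≤ α → c + ((q + 2) ^ 2 - 3 / 4) * α ≤ α' →
      (∀ᵐ u ∂mu (q + 3), a u ≤ ENNReal.ofReal lam * Te (Te b) u) →
      ∫⁻ u in {x | ex α' < a x}, a u ^ (q + 3) ∂mu (q + 3) ≤
        ex c' * (∫⁻ u in {x | ex α < b x}, b u ^ (q + 3) ∂mu (q + 3)) ^ ((q + 2) ^ 2) := by
  obtain ⟨c, c0, hc⟩ := TT_low q W
  obtain ⟨B, -, hB⟩ := busE (q + 1)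
  obtain ⟨c1, c10, h1⟩ := exists_ex (x := 2 * (ENNReal.ofReal lam * 2 ^ (q + 2))) (by finiteness)
  obtain ⟨c2, c20, h2⟩ := exists_ex (x := (2 * (ENNReal.ofReal lam * 2 ^ (q + 2))) ^ (q + 3) *
    (ENNReal.ofReal B * ENNReal.ofReal B ^ (q + 2))) (by finiteness)
  refine ⟨c1 + c, c2, by positivity, c20, fun a b α α' ha hb hW hα hα' h => ?_⟩
  have hs : MeasurableSet {x | ex α < b x} := measurableSet_lt measurable_const hb
  have hs' : MeasurableSet {x | ex α' < a x} := measurableSet_lt measurable_const ha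
  have m1 := hb.indicator hs.compl
  have m2 := hb.indicator hs
  calc _ ≤ ∫⁻ u, (2 * (ENNReal.ofReal lam * 2 ^ (q + 2))) ^ (q + 3) *
        Te (Te ({x | ex α < b x}.indicator b)) u ^ (q + 3) ∂mu (q + 3) := by
        rw [← lintegral_indicator hs']
        refine lintegral_mono_ae ?_
        filter_upwards [h, mu_sphere] with u hu hu1
        by_cases hx : u ∈ {x | ex α' < a x}
        swap
        · simp [hx]
        rw [indicator_of_mem hx, ← mul_pow, mul_assoc]
        gcongr
        refine le_two_mul_of (x := ENNReal.ofReal lam * 2 ^ (q + 2) *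
          Te (Te ({x | ex α < b x}ᶜ.indicator b)) u) (hu.trans ?_) (lt_of_le_of_lt ?_ hx)
        · rw [← mul_add, mul_assoc, show Te b = _ from funext (Te_split hb (ex α))]
          exact mul_le_mul_right (Te_add_le (measurable_Te m1) u) _
        · rw [← mul_assoc]
          refine le_trans (mul_le_mul' h1 (hc _ α m1 (le_trans (lintegral_mono fun x => by
            gcongr; exact indicator_le_self _ _ x) hW) hα (fun x => ?_) u hu1)) ?_
          · by_cases h3 : x ∈ {x | ex α < b x}ᶜ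
            · rw [indicator_of_mem h3]; exact not_lt.1 h3
            · simp [h3]
          · rw [← ex_add]; gcongr; linarith
    _ ≤ _ := by
        rw [lintegral_const_mul _ (by fun_prop), ← Ne_indicator hs]
        refine (mul_le_mul_right ((hB _ (measurable_Te m2)).trans (mul_le_mul_right
          (pow_le_pow_left' (hB _ m2) _) _)) _).trans ?_
        rw [mul_pow (ENNReal.ofReal B), ← pow_mul, ← mul_assoc (ENNReal.ofReal B), ← mul_assoc, sq]
        gcongr

lemma summable_dg {D P l : ℝ} (hD : 4 ≤ D) (hP : 0 ≤ P) (hl : 0 ≤ l) :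
    Summable fun i : ℕ => exp (D * ((P + (i + 2) * l) * (i + 2) * (D - 3 / 4) ^ (i + 1)) -
      3 / 8 * D ^ i) := by
  have hr : |(D - 3 / 4) / D| < 1 := by
    rw [abs_of_pos (div_pos (by linarith) (by linarith)), div_lt_one (by linarith)]; linarith
  have h0 := tendsto_pow_const_mul_const_pow_of_abs_lt_one 0 hr
  have h2 := tendsto_pow_const_mul_const_pow_of_abs_lt_one 2 hr
  have h3 := (h2.add (h0.const_mul 4)).const_mul (2 * (D * D * (P + l)))
  simp only [mul_zero, add_zero] at h3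
  refine Summable.of_norm_bounded_eventually_nat (g := fun i => exp (-(1 / 4)) ^ i)
    (summable_geometric_of_lt_one (exp_pos _).le (exp_lt_one_iff.2 (by norm_num))) ?_
  filter_upwards [h3.eventually (gt_mem_nhds (show (0:ℝ) < 1 / 8 by norm_num))] with i hi
  rw [Real.norm_of_nonneg (exp_pos _).le, ← exp_nat_mul, exp_le_exp]
  have hi0 : (0:ℝ) ≤ i := Nat.cast_nonneg i
  have h4 : (i:ℝ) ≤ D ^ i := by
    have := one_add_mul_le_pow (a := D - 1) (by linarith) i
    rw [add_sub_cancel] at this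
    nlinarith
  have hD0 : 0 < D ^ i := by positivity
  have hr0 : 0 ≤ ((D - 3 / 4) / D) ^ i := pow_nonneg (div_nonneg (by linarith) (by linarith)) _
  have h5 : (D - 3 / 4) ^ (i + 1) ≤ D * (((D - 3 / 4) / D) ^ i * D ^ i) := by
    rw [← mul_pow, div_mul_cancel₀ _ (by linarith), pow_succ']
    have : 0 ≤ (D - 3 / 4) ^ i := pow_nonneg (by linarith) _
    gcongr
    linarith
  have h6 : (P + (i + 2) * l) * (i + 2) ≤ (P + l) * (2 * (i ^ 2 + 4)) := by
    have : (P + (i + 2) * l) ≤ (P + l) * (i + 2) := by nlinarith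
    have h7 : ((i:ℝ) + 2) * (i + 2) ≤ 2 * (i ^ 2 + 4) := by nlinarith [sq_nonneg ((i:ℝ) - 2)]
    calc _ ≤ (P + l) * (i + 2) * (i + 2) := by gcongr
      _ = (P + l) * ((i + 2) * (i + 2)) := by ring
      _ ≤ _ := by gcongr
  have h8 : D * ((P + (i + 2) * l) * (i + 2) * (D - 3 / 4) ^ (i + 1)) ≤ 1 / 8 * D ^ i := by
    calc _ ≤ D * ((P + l) * (2 * (i ^ 2 + 4)) * (D * (((D - 3 / 4) / D) ^ i * D ^ i))) := by
          have : 0 ≤ (D - 3 / 4) ^ (i + 1) := pow_nonneg (by linarith) _
          gcongr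
      _ = (2 * (D * D * (P + l)) * ((i:ℝ) ^ 2 * ((D - 3 / 4) / D) ^ i +
          4 * ((i:ℝ) ^ 0 * ((D - 3 / 4) / D) ^ i))) * D ^ i := by ring
      _ ≤ _ := by gcongr
  linarith

theorem deGiorgi (q : ℕ) (W lam : ℝ) : ∃ y : ℝ, 0 < y ∧ ∀ α l : ℝ, 0 ≤ α → 0 ≤ l → ∃ C : ℝ,
    ∀ a : ℕ → V (q + 3) → ℝ≥0∞, (∀ j, Measurable (a j)) → (∀ j, Ne (a j) ≤ ENNReal.ofReal W) →
      (∀ j, (∀ᵐ u ∂mu (q + 3), a j u ≤ ENNReal.ofReal lam * Te (Te (a (j + 1))) u) ∨
        ∀ᵐ u ∂mu (q + 3), a j u ≤ ex (α + j * l)) →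
      (∀ j : ℕ, ∫⁻ u in {x | ex (α + j * l) < a j x}, a j u ^ (q + 3) ∂mu (q + 3) ≤
        ENNReal.ofReal y) → ∀ᵐ u ∂mu (q + 3), a 0 u ≤ ENNReal.ofReal C := by
  obtain ⟨c, c', c0, c0', hc⟩ := tail_step q W lam
  obtain ⟨k, k0, hk⟩ := kr_bound q
  refine ⟨exp (-(1 + c')), exp_pos _, fun α l hα hl => ?_⟩
  obtain ⟨D, hD⟩ : ∃ D : ℝ, D = (q + 2) ^ 2 := ⟨_, rfl⟩
  have hD4 : 4 ≤ D := by have : (0:ℝ) ≤ q := Nat.cast_nonneg q; nlinarith
  have hβ : ∀ i : ℕ, 1 ≤ (D - 3 / 4) ^ i := fun i => one_le_pow₀ (by linarith)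
  obtain ⟨θ, hθ⟩ : ∃ θ : ℕ → ℕ → ℝ, θ = fun (j i : ℕ) =>
    (α + c + 1 + (j + i) * l) * (i + 1) * (D - 3 / 4) ^ i := ⟨_, rfl⟩
  have θ1 : ∀ j i : ℕ, (α + c + 1 + (j + i) * l) * (i + 1) ≤ θ j i := fun j i => by
    rw [hθ]; exact le_mul_of_one_le_right (by positivity) (hβ i)
  have θ2 : ∀ j i : ℕ, α + j * l ≤ θ j i := fun j i => by
    refine le_trans ?_ ((le_mul_of_one_le_right (by positivity) (by
      have : (0:ℝ) ≤ i := Nat.cast_nonneg i; linarith)).trans (θ1 j i))
    have : 0 ≤ i * l := by positivity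
    linarith
  have θ0 : ∀ j i, 0 ≤ θ j i := fun j i => le_trans (by positivity) (θ2 j i)
  have θ3 : ∀ j i : ℕ, c + (D - 3 / 4) * θ (j + 1) i ≤ θ j (i + 1) := fun j i => by
    have h1 : c ≤ (α + c + 1 + (j + i + 1) * l) * (D - 3 / 4) ^ (i + 1) :=
      le_trans (by have : 0 ≤ (j + i + 1) * l := by positivity
                   linarith) (le_mul_of_one_le_right (by positivity) (hβ _))
    rw [hθ]
    push_cast
    refine (add_le_add_left h1 _).trans (le_of_eq ?_)
    ring
  have hsum := summable_dg hD4 (show 0 ≤ α + c + 1 by positivity) hl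
  obtain ⟨S, hS⟩ : ∃ S : ℝ≥0∞, S = ex (D * θ 1 0) * (ENNReal.ofReal (om (q + 3)) + ex k) +
    (1 + ex k) * ∑' i : ℕ, ex (D * θ 1 (i + 1) - 3 / 8 * D ^ i) := ⟨_, rfl⟩
  have hS1 : S ≠ ∞ := by
    have h1 : ∑' i : ℕ, ex (D * θ 1 (i + 1) - 3 / 8 * D ^ i) ≠ ∞ := by
      have := ENNReal.ofReal_tsum_of_nonneg (fun i => (exp_pos _).le) hsum
      refine ne_of_eq_of_ne (Eq.trans ?_ this.symm) ENNReal.ofReal_ne_top
      congr 1
      ext i
      rw [hθ, ex]
      push_cast
      congr 4 <;> ring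
    have := ex_ne_top k
    have := ex_ne_top (D * θ 1 0)
    rw [hS]
    finiteness
  have hX : ex α + ENNReal.ofReal lam * (ENNReal.ofReal (om (q + 2)) ^ (q + 1) *
    (ENNReal.ofReal (cK q) * S)) ≠ ∞ := by have := ex_ne_top α; finiteness
  refine ⟨(ex α + ENNReal.ofReal lam * (ENNReal.ofReal (om (q + 2)) ^ (q + 1) *
      (ENNReal.ofReal (cK q) * S))).toReal, fun a ha hW h hy => ?_⟩
  rw [ENNReal.ofReal_toReal hX]
  have hs : ∀ j t, MeasurableSet {x | ex t < a j x} := fun j t =>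
    measurableSet_lt measurable_const (ha j)
  have key : ∀ i j, ∫⁻ u in {x | ex (θ j i) < a j x}, a j u ^ (q + 3) ∂mu (q + 3) ≤
      ex (-(D ^ i + c')) := by
    intro i
    induction i with
    | zero =>
      intro j
      refine (lintegral_mono_set fun x hx => lt_of_le_of_lt (ex_mono (θ2 j 0)) hx).trans ?_
      rw [pow_zero]
      exact hy j
    | succ i ih =>
      intro j
      rcases h j with h | h
      · refine (hc _ _ (θ (j + 1) i) _ (ha j) (ha _) (hW _) (θ0 _ _) (hD ▸ θ3 j i) h).trans ?_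
        refine (mul_le_mul_right (pow_le_pow_left' (ih _) _) _).trans ?_
        rw [ex_pow, ← ex_add]
        push_cast
        rw [← hD, pow_succ]
        gcongr
        nlinarith
      · have h0 : mu (q + 3) {x | ex (θ j (i + 1)) < a j x} = 0 := measure_mono_null (fun x hx =>
          not_le.2 (lt_of_le_of_lt (ex_mono (θ2 j (i + 1))) hx)) (ae_iff.1 h)
        rw [setLIntegral_measure_zero _ _ h0]
        exact zero_le
  rcases h 0 with h | h
  swap
  · filter_upwards [h] with u hu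
    simp only [Nat.cast_zero, zero_mul, add_zero] at hu
    exact hu.trans le_self_add
  filter_upwards [h, mu_sphere] with u hu hu1
  refine hu.trans (le_trans (mul_le_mul_right ?_ _) le_add_self)
  have m1 := ha 1
  calc Te (Te (a (0 + 1))) u ≤ ∫⁻ v, ENNReal.ofReal (om (q + 2)) ^ (q + 1) *
        Re (fun x => (a 1 x ^ (q + 2)) ^ (q + 2)) v ∂kap (q + 3) u := by
        refine lintegral_mono_ae ((kap_sphere (ne_zero_of_unit hu1)).mono fun v hv => ?_)
        rw [← kap_univ (ne_zero_of_unit hv.1)]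
        exact jensen_pow _ (by fun_prop) q
    _ = ENNReal.ofReal (om (q + 2)) ^ (q + 1) * (ENNReal.ofReal (cK q) *
        ∫⁻ x, (a 1 x ^ (q + 2)) ^ (q + 2) * ENNReal.ofReal (kr u x) ∂mu (q + 3)) := by
        rw [lintegral_const_mul _ (by fun_prop), ← ReRe (by fun_prop) hu1]; rfl
    _ ≤ _ := by
        gcongr
        have hfin : ∀ᵐ x ∂mu (q + 3), a 1 x ^ (q + 3) < ∞ :=
          ae_lt_top (by fun_prop) ((hW 1).trans_lt ENNReal.ofReal_lt_top).ne
        have hi : ∀ i, Measurable ({x | ex (θ 1 i) < a 1 x}.indicator (1 : V (q + 3) → ℝ≥0∞)) :=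
          fun i => measurable_one.indicator (hs 1 _)
        calc _ ≤ ∫⁻ x, (ex (D * θ 1 0) * (1 * ENNReal.ofReal (kr u x)) + ∑' i : ℕ,
              ex (D * θ 1 (i + 1)) * ({x | ex (θ 1 i) < a 1 x}.indicator 1 x *
                ENNReal.ofReal (kr u x))) ∂mu (q + 3) := by
              refine lintegral_mono_ae (hfin.mono fun x hx => ?_)
              have hD' : ∀ t, a 1 x ≤ ex t → (a 1 x ^ (q + 2)) ^ (q + 2) ≤ ex (D * t) := by
                intro t ht
                rw [← pow_mul, ← sq, hD]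
                have := ex_pow t ((q + 2) ^ 2)
                push_cast at this
                rw [← this]
                gcongr
              obtain ⟨t, -, ht⟩ := exists_ex (x := a 1 x) fun h0 => by simp [h0] at hx
              have hex : ∃ i : ℕ, a 1 x ≤ ex (θ 1 i) := by
                obtain ⟨i, hi⟩ := exists_nat_ge t
                refine ⟨i, ht.trans (ex_mono (le_trans ?_ (θ1 1 i)))⟩
                have : 0 ≤ (((1:ℕ):ℝ) + i) * l := by positivity
                nlinarith [(Nat.cast_nonneg i : (0:ℝ) ≤ i)]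
              have h1 := Nat.find_spec hex
              rcases h2 : Nat.find hex with _ | i
              · rw [h2] at h1
                refine le_trans ?_ le_self_add
                rw [one_mul]
                gcongr
                exact hD' _ h1
              · have h3 := Nat.find_min hex (show i < Nat.find hex by omega)
                rw [h2] at h1
                refine le_trans (le_trans ?_ (ENNReal.le_tsum i)) le_add_self
                rw [indicator_of_mem (show x ∈ {x | ex (θ 1 i) < a 1 x} from not_le.1 h3),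
                  Pi.one_apply, one_mul]
                gcongr
                exact hD' _ h1
          _ ≤ S := by
              rw [lintegral_add_left (by fun_prop), lintegral_tsum fun i =>
                Measurable.aemeasurable (by have := hi i; fun_prop),
                lintegral_const_mul _ (by fun_prop), hS, ← ENNReal.tsum_mul_left]
              gcongr with i
              · have := hk (fun _ => 1) 1 0 measurable_const (fun _ => le_rfl) u hu1
                simpa [ex_zero, mu_univ] using this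
              rw [lintegral_const_mul _ (by have := hi i; fun_prop), sub_eq_add_neg, ex_add,
                mul_left_comm]
              gcongr
              refine (hk _ 1 (D ^ i / 2) (hi i) (fun x => indicator_le_self _ _ x) u hu1).trans ?_
              have h4 : mu (q + 3) {x | ex (θ 1 i) < a 1 x} ≤ ex (-(D ^ i)) := by
                refine le_trans ?_ ((key i 1).trans (ex_mono (by linarith)))
                rw [← setLIntegral_one]
                refine setLIntegral_mono' (hs 1 _) fun x hx => one_le_pow₀ (le_trans ?_ hx.le)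
                rw [← ex_zero]
                exact ex_mono (θ0 1 i)
              have h5 : 0 < D ^ i := by positivity
              rw [lintegral_indicator_one (hs 1 _), add_mul, one_mul, one_mul, ← ex_add]
              gcongr
              · refine (mul_le_mul_right h4 _).trans ?_
                rw [← ex_add]
                gcongr
                linarith
              · linarith

end Pool.Agent.Lib.MP_242fd5_gt.Ty
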