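import Pool.Agent.Lib.MP_242fd5_gt.Ty.C1DG

set_option autoImplicit false

open MeasureTheory ProbabilityTheory Set Metric Filter Topology Real
open scoped ENNReal NNReal RealInnerProductSpace

namespace Pool.Agent.Lib.MP_242fd5_gt.Ty

variable {n N q : ℕ}

lemma proj_lip {x u w : V n} (hx : ‖x‖ = 1) (hu : ‖u‖ = 1) (hw : ‖w‖ = 1) :
    ‖⟪x, u⟫ • u - ⟪x, w⟫ • w‖ ≤ 2 * ‖u - w‖ := by
  have h1 : ⟪x, u⟫ • u - ⟪x, w⟫ • w = ⟪x, u - w⟫ • u + ⟪x, w⟫ • (u - w) := by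
    rw [inner_sub_right, sub_smul, smul_sub]; abel
  have h2 := abs_real_inner_le_norm x (u - w)
  have h3 := abs_real_inner_le_norm x w
  rw [hx, one_mul] at h2 h3
  rw [h1]
  refine (norm_add_le _ _).trans ?_
  rw [norm_smul, norm_smul, hu, Real.norm_eq_abs, Real.norm_eq_abs]
  nlinarith [norm_nonneg (u - w)]

lemma exists_rot {u v : V n} (hu : ‖u‖ = 1) (hv : ‖v‖ = 1) (h : ‖u - v‖ ≤ 1) :
    ∃ g : V n ≃ₗᵢ[ℝ] V n, g u = v ∧ ∀ x, ‖x‖ = 1 → ‖g x - x‖ ≤ 4 * ‖u - v‖ := by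
  obtain ⟨m, hm⟩ : ∃ m : V n, m = (2⁻¹ : ℝ) • (u + v) := ⟨_, rfl⟩
  have h1 : ‖u - m‖ = ‖u - v‖ / 2 := by
    rw [show u - m = (2⁻¹ : ℝ) • (u - v) by rw [hm]; module, norm_smul]; norm_num; ring
  have h2 : 1 - ‖u - v‖ / 2 ≤ ‖m‖ := by linarith [norm_sub_norm_le u m]
  have h3 : ‖m‖ ≤ 1 := by
    rw [hm, norm_smul]
    have := norm_add_le u v
    norm_num; linarith
  have h4 : 0 < ‖m‖ := by linarith
  have hm0 := norm_pos_iff.1 h4
  have hw := norm_nrm hm0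
  have h5 : ‖nrm m - u‖ ≤ ‖u - v‖ := by
    have e : nrm m - m = (1 - ‖m‖) • nrm m := by rw [sub_smul, one_smul, norm_smul_nrm]
    have := norm_sub_le_norm_sub_add_norm_sub (nrm m) m u
    rw [e, norm_smul, hw, Real.norm_of_nonneg (by linarith), norm_sub_rev m u] at this
    linarith
  have hr : ∀ {w : V n}, ‖w‖ = 1 → ∀ x, Submodule.reflection (ℝ ∙ w) x = 2 • (⟪x, w⟫ • w) - x := by
    intro w hw x
    rw [Submodule.reflection_apply, Submodule.starProjection_unit_singleton ℝ hw, real_inner_comm]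
  refine ⟨(Submodule.reflection (ℝ ∙ u)).trans (Submodule.reflection (ℝ ∙ nrm m)), ?_,
    fun x hx => ?_⟩
  · rw [LinearIsometryEquiv.trans_apply, Submodule.reflection_mem_subspace_eq_self
      (Submodule.mem_span_singleton_self u), hr hw]
    have e1 : ⟪u, m⟫ = ‖m‖ ^ 2 := by
      rw [← real_inner_self_eq_norm_sq, hm]
      simp only [inner_smul_left, inner_smul_right, inner_add_left, inner_add_right,
        real_inner_self_eq_norm_sq, hu, hv, real_inner_comm u v, conj_trivial]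
      ring
    have e2 : ⟪u, nrm m⟫ • nrm m = m := by
      rw [nrm, inner_smul_right, e1, smul_smul, show ‖m‖⁻¹ * ‖m‖ ^ 2 * ‖m‖⁻¹ = 1 by field_simp,
        one_smul]
    rw [e2, hm]
    module
  · obtain ⟨y, rfl⟩ := (Submodule.reflection (ℝ ∙ u)).surjective x
    rw [LinearIsometryEquiv.norm_map] at hx
    rw [LinearIsometryEquiv.trans_apply, Submodule.reflection_reflection, hr hw, hr hu,
      sub_sub_sub_cancel_right, ← smul_sub, two_smul]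
    linarith [norm_add_le (⟪y, nrm m⟫ • nrm m - ⟪y, u⟫ • u) (⟪y, nrm m⟫ • nrm m - ⟪y, u⟫ • u),
      proj_lip hx hw hu]

lemma inv_holder {a b t : ℝ} (ha : 0 < a) (hb : 0 < b) (h : |a - b| ≤ t) :
    |a⁻¹ - b⁻¹| ≤ t ^ (3 / 4 : ℝ) * (a⁻¹ ^ (7 / 4 : ℝ) + b⁻¹ ^ (7 / 4 : ℝ)) := by
  wlog hab : a ≤ b generalizing a b
  · rw [abs_sub_comm, add_comm]
    exact this hb ha (by rwa [abs_sub_comm]) (not_le.1 hab).le
  have ht : 0 ≤ t := (abs_nonneg _).trans h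
  rw [abs_sub_comm, abs_of_nonneg (sub_nonneg.2 hab)] at h
  rw [abs_of_nonneg (sub_nonneg.2 (inv_anti₀ ha hab))]
  have h1 : 1 - a / b ≤ (t / a) ^ (3 / 4 : ℝ) := by
    have h2 : 0 ≤ 1 - a / b := sub_nonneg.2 ((div_le_one hb).2 hab)
    have h3 : 1 - a / b ≤ t / a := by
      rw [one_sub_div hb.ne']
      gcongr
    refine le_trans ?_ (rpow_le_rpow h2 h3 (by norm_num))
    exact self_le_rpow_of_le_one h2 (by have := div_pos ha hb; linarith) (by norm_num)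
  calc a⁻¹ - b⁻¹ = a⁻¹ * (1 - a / b) := by field_simp
    _ ≤ a⁻¹ * (t / a) ^ (3 / 4 : ℝ) := by gcongr
    _ = t ^ (3 / 4 : ℝ) * a⁻¹ ^ (7 / 4 : ℝ) := by
        rw [div_eq_mul_inv, mul_rpow ht (by positivity), show (7 / 4 : ℝ) = 1 + 3 / 4 by norm_num,
          rpow_add (by positivity), rpow_one]
        ring
    _ ≤ _ := by gcongr; exact le_add_of_nonneg_right (by positivity)

lemma exists_perp {u : V (N + 2)} (hu : ‖u‖ = 1) : ∃ η : V (N + 2), η ≠ 0 ∧ ⟪η, u⟫ = 0 := by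
  obtain ⟨g, rfl⟩ := exists_iso_unit hu
  refine ⟨g (pt 0 (pt 1 0)), ?_, by rw [g.inner_map_map, inner_pt]; simp⟩
  rw [← norm_ne_zero_iff, g.norm_map, norm_pt_zero, norm_pt_axis]; simp

lemma ae_off_axis {u : V (N + 2)} (hu : ‖u‖ = 1) : ∀ᵐ x ∂mu (N + 2), 0 < ‖x - ⟪x, u⟫ • u‖ := by
  obtain ⟨η, h0, h1⟩ := exists_perp hu
  filter_upwards [mu_ae_inner h0] with x hx
  refine norm_pos_iff.2 fun h => hx ?_
  rw [sub_eq_zero.1 h, inner_smul_right, h1, mul_zero]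

/-- the twice applied Radon transform -/
noncomputable def KK (h : V (N + 1) → ℝ) (u : V (N + 1)) : ℝ := ∫ x, h x * kr u x ∂mu (N + 1)

lemma KK_iso (g : V (N + 1) ≃ₗᵢ[ℝ] V (N + 1)) (h : V (N + 1) → ℝ) (u : V (N + 1)) :
    KK (fun x => h (g x)) u = KK h (g u) := by
  unfold KK
  rw [← int_mu_iso g fun x => h x * kr (g u) x]
  simp only [kr_iso]

lemma KK_holder (q : ℕ) : ∃ C : ℝ, 0 < C ∧ ∀ (A : ℝ) (h : V (q + 3) → ℝ), BM A h →
    ∀ u v : V (q + 3), ‖u‖ = 1 → ‖v‖ = 1 →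
      |KK h u - KK h v| ≤ C * A * ‖u - v‖ ^ (3 / 4 : ℝ) := by
  obtain ⟨C, C0, hC⟩ := int_kr_rpow q
  refine ⟨4 * C, by positivity, fun A h H u v hu hv => ?_⟩
  have hA := H.nonneg
  unfold KK
  rw [← integral_sub (H.int_kr hu) (H.int_kr hv), ← Real.norm_eq_abs]
  refine (norm_integral_le_of_norm_le (g := fun x => A * (2 * ‖u - v‖) ^ (3 / 4 : ℝ) *
    (kr u x ^ (7 / 4 : ℝ) + kr v x ^ (7 / 4 : ℝ))) (((hC u hu).1.add (hC v hv).1).const_mul _)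
    ?_).trans ?_
  · filter_upwards [mu_sphere, ae_off_axis hu, ae_off_axis hv] with x hx h1 h2
    rw [← mul_sub, Real.norm_eq_abs, abs_mul, mul_assoc]
    refine mul_le_mul (H.bdd x hx) (inv_holder h1 h2 ((abs_norm_sub_norm_le _ _).trans ?_))
      (abs_nonneg _) hA
    rw [sub_sub_sub_cancel_left, norm_sub_rev]
    exact proj_lip hx hu hv
  · rw [integral_const_mul, integral_add (hC u hu).1 (hC v hv).1,
      mul_rpow two_pos.le (norm_nonneg _)]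
    have h2 : (2:ℝ) ^ (3 / 4 : ℝ) ≤ 2 := rpow_le_self_of_one_le one_le_two (by norm_num)
    calc _ ≤ A * (2 * ‖u - v‖ ^ (3 / 4 : ℝ)) * (C + C) := by
          gcongr
          exacts [add_nonneg (integral_nonneg fun x => rpow_nonneg (kr_nonneg _ _) _)
            (integral_nonneg fun x => rpow_nonneg (kr_nonneg _ _) _), (hC u hu).2, (hC v hv).2]
      _ = _ := by ring

lemma KK_le (q : ℕ) {ε : ℝ} (hε : 0 < ε) : ∃ B : ℝ, 0 < B ∧ ∀ (S : ℝ) (h : V (q + 3) → ℝ),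
    BM S h → (∀ x, 0 ≤ h x) → ∀ u : V (q + 3), ‖u‖ = 1 →
      KK h u ≤ B * ∫ x, h x ∂mu (q + 3) + ε * S := by
  obtain ⟨C, C0, hC⟩ := int_kr_rpow q
  obtain ⟨β, hβ⟩ : ∃ β : ℝ, exp (-(3 / 4 * β)) * C = ε :=
    ⟨-(4 / 3 * log (ε / C)), by
      rw [show -(3 / 4 * -(4 / 3 * log (ε / C))) = log (ε / C) by ring, exp_log (by positivity)]
      field_simp⟩
  refine ⟨exp β, exp_pos _, fun S h H h0 u hu => ?_⟩
  have hS := H.nonneg
  calc KK h u ≤ ∫ x, (exp β * h x + S * exp (-(3 / 4 * β)) * kr u x ^ (7 / 4 : ℝ)) ∂mu (q + 3) := by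
        refine integral_mono_ae (H.int_kr hu) ((H.int_mu.const_mul _).add
          ((hC u hu).1.const_mul _)) (mu_sphere.mono fun x hx => ?_)
        have h1 := mul_le_mul_of_nonneg_left (kr_split _ β (kr_nonneg u x)) (h0 x)
        have h2 : h x ≤ S := (le_abs_self _).trans (H.bdd x hx)
        have h3 : 0 ≤ kr u x ^ (7 / 4 : ℝ) * exp (-(3 / 4 * β)) :=
          mul_nonneg (rpow_nonneg (kr_nonneg _ _) _) (exp_pos _).le
        nlinarith
    _ ≤ _ := by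
        rw [integral_add (H.int_mu.const_mul _) ((hC u hu).1.const_mul _), integral_const_mul,
          integral_const_mul, ← hβ, mul_comm _ S, mul_assoc]
        gcongr
        exact (hC u hu).2

lemma abs_pow_sub_le {a b A : ℝ} (ha : |a| ≤ A) (hb : |b| ≤ A) (k : ℕ) :
    |a ^ (k + 1) - b ^ (k + 1)| ≤ (k + 1) * A ^ k * |a - b| := by
  have := abs_pow_sub_pow_le a b (k + 1)
  rw [Nat.add_sub_cancel] at this
  refine this.trans (le_of_le_of_eq (mul_le_mul_of_nonneg_left (pow_le_pow_left₀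
    (le_max_of_le_left (abs_nonneg _)) (max_le ha hb) k) (by positivity)) ?_)
  push_cast
  ring

lemma T_lip {A : ℝ} {f h : V (N + 2) → ℝ} (H : BM A f) (H' : BM A h) {u : V (N + 2)}
    (hu : ‖u‖ = 1) : |T f u - T h u| ≤ (N + 1) * A ^ N * R (fun x => |f x - h x|) u := by
  have h0 := ne_zero_of_unit hu
  rw [T_unit f hu, T_unit h hu, ← R_sub (H.pow _) (H'.pow _) h0, ← R_const_mul]
  exact (abs_R_le _ _).trans (R_mono ((H.pow _).sub (H'.pow _)).abs ((H.sub H').abs.const_mul _)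
    (fun x hx => abs_pow_sub_le (H.bdd x hx) (H'.bdd x hx) N) h0)

lemma T_lip_sup {A S : ℝ} {f h : V (N + 2) → ℝ} (H : BM A f) (H' : BM A h)
    (hS : ∀ x, ‖x‖ = 1 → |f x - h x| ≤ S) {u : V (N + 2)} (hu : ‖u‖ = 1) :
    |T f u - T h u| ≤ (N + 1) * A ^ N * om (N + 1) * S := by
  have hA := H.nonneg
  refine (T_lip H H' hu).trans ?_
  rw [mul_assoc _ (om _), ← R_const S (ne_zero_of_unit hu)]
  gcongr
  exact R_mono (H.sub H').abs (BM.const S) hS (ne_zero_of_unit hu)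

lemma TT_lip (q : ℕ) (A : ℝ) : ∃ C : ℝ, 0 ≤ C ∧ ∀ f h : V (q + 3) → ℝ, BM A f → BM A h →
    ∀ u : V (q + 3), ‖u‖ = 1 → |T (T f) u - T (T h) u| ≤ C * KK (fun x => |f x - h x|) u := by
  have := om_pos (q + 2)
  have := cK_pos q
  refine ⟨((q + 1 : ℕ) + 1) * (|A| ^ (q + 2) * om (q + 2)) ^ (q + 1) *
    (((q + 1 : ℕ) + 1) * |A| ^ (q + 1) * cK q), by positivity, fun f h H H' u hu => ?_⟩
  have hA := H.nonneg
  rw [abs_of_nonneg hA]
  refine (T_lip H.T H'.T hu).trans ?_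
  rw [mul_assoc _ _ (KK _ _), mul_assoc _ (cK q), KK, ← RR (H.sub H').abs hu]
  refine mul_le_mul_of_nonneg_left ?_ (by positivity)
  rw [← R_const_mul]
  exact R_mono (H.T.sub H'.T).abs ((H.sub H').abs.R.const_mul _) (fun x hx => T_lip H H' hx)
    (ne_zero_of_unit hu)

lemma sq_R_eq {A : ℝ} {φ : V (q + 3) → ℝ} (H : BM A φ) :
    ∫ u, R φ u ^ 2 ∂mu (q + 3) = cK q * ∫ u, φ u * KK φ u ∂mu (q + 3) := by
  simp only [sq]
  rw [R_symm H.R H, ← integral_const_mul]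
  exact int_mu_congr fun u hu => by rw [RR H hu, KK]; ring

lemma KK_sub {A A' : ℝ} {h h' : V (q + 3) → ℝ} (H : BM A h) (H' : BM A' h') {u : V (q + 3)}
    (hu : ‖u‖ = 1) : KK (fun x => h x - h' x) u = KK h u - KK h' u := by
  simp only [KK, sub_mul]
  exact integral_sub (H.int_kr hu) (H'.int_kr hu)

lemma sq_R_le {A S : ℝ} {φ : V (q + 3) → ℝ} (H : BM A φ) (hS : ∀ u, ‖u‖ = 1 → |KK φ u| ≤ S) :
    ∫ u, R φ u ^ 2 ∂mu (q + 3) ≤ cK q * S * ∫ u, |φ u| ∂mu (q + 3) := by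
  rw [sq_R_eq H, mul_assoc, ← integral_const_mul S]
  refine mul_le_mul_of_nonneg_left ((le_abs_self _).trans ?_) (cK_pos q).le
  rw [← Real.norm_eq_abs]
  refine norm_integral_le_of_norm_le (H.abs.int_mu.const_mul _) (mu_sphere.mono fun u hu => ?_)
  rw [Real.norm_eq_abs, abs_mul, mul_comm]
  exact mul_le_mul_of_nonneg_right (hS u hu) (abs_nonneg _)

lemma L2_mod (q : ℕ) (A : ℝ) : ∃ C : ℝ, 0 ≤ C ∧ ∀ (f : V (q + 3) → ℝ), Adm f → BM A f →
    ∀ (g : V (q + 3) ≃ₗᵢ[ℝ] V (q + 3)) (t S : ℝ), (∀ x, ‖x‖ = 1 → ‖g x - x‖ ≤ t) →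
      (∀ x, ‖x‖ = 1 → |f (g x) - f x| ≤ S) →
      ∫ u, (T f (g u) - T f u) ^ 2 ∂mu (q + 3) ≤ C * t ^ (3 / 4 : ℝ) * S := by
  obtain ⟨C, C0, hC⟩ := KK_holder q
  have := om_pos (q + 3)
  have := cK_pos q
  refine ⟨cK q * (C * |A| ^ (q + 2)) * (((q + 1 : ℕ) + 1) * |A| ^ (q + 1) * om (q + 3)),
    by positivity, fun f F H g t S ht hS => ?_⟩
  have hA := H.nonneg
  rw [abs_of_nonneg hA]
  have H1 := (H.iso g).pow (q + 2)
  have H2 := H.pow (q + 2)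
  have ht0 : 0 ≤ t := (norm_nonneg _).trans (ht (pt 1 0) (by rw [norm_pt_axis, abs_one]))
  rw [int_mu_congr (h' := fun u => R (fun x => f (g x) ^ (q + 2) - f x ^ (q + 2)) u ^ 2)
    fun u hu => by rw [R_sub H1 H2 (ne_zero_of_unit hu), ← T_iso F, T_unit _ hu, T_unit _ hu]]
  refine (sq_R_le (S := C * A ^ (q + 2) * t ^ (3 / 4 : ℝ)) (H1.sub H2) fun u hu => ?_).trans ?_
  · rw [KK_sub H1 H2 hu, KK_iso g fun x => f x ^ (q + 2)]
    refine (hC _ _ H2 _ _ (by rw [g.norm_map, hu]) hu).trans ?_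
    gcongr
    exact ht u hu
  · have h1 : BM (((q + 1 : ℕ) + 1) * A ^ (q + 1) * S)
        fun x => |f (g x) ^ (q + 2) - f x ^ (q + 2)| := ⟨(H1.sub H2).abs.meas, fun x hx => by
      rw [abs_abs]
      refine (abs_pow_sub_le ((H.iso g).bdd x hx) (H.bdd x hx) (q + 1)).trans ?_
      gcongr
      exact hS x hx⟩
    calc _ ≤ cK q * (C * A ^ (q + 2) * t ^ (3 / 4 : ℝ)) *
        (((q + 1 : ℕ) + 1) * A ^ (q + 1) * S * om (q + 3)) := by
          gcongr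
          exact (le_abs_self _).trans h1.abs_int_le
      _ = _ := by ring

lemma L1_le {A η : ℝ} {h : V (N + 1) → ℝ} (H : BM A h) (hη : 0 < η) :
    ∫ u, |h u| ∂mu (N + 1) ≤ η * om (N + 1) + η⁻¹ * ∫ u, h u ^ 2 ∂mu (N + 1) := by
  rw [← integral_const_mul, ← mu_real_univ, mul_comm η, ← smul_eq_mul, ← integral_const,
    ← integral_add (integrable_const _) ((H.pow 2).int_mu.const_mul _)]
  refine integral_mono H.abs.int_mu ((integrable_const _).add ((H.pow 2).int_mu.const_mul _))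
    fun u => ?_
  simp only
  rw [← sq_abs, ← sub_le_iff_le_add', le_inv_mul_iff₀ hη]
  nlinarith [sq_nonneg (|h u| - η), abs_nonneg (h u)]

theorem holder {f : V (q + 3) → ℝ} (F : Adm f) {lam : ℝ} (hl : 0 ≤ lam)
    (h : ∀ u, ‖u‖ = 1 → f u = lam * T (T f) u) :
    ∃ C : ℝ, ∀ u v, ‖u‖ = 1 → ‖v‖ = 1 → |f u - f v| ≤ C * ‖u - v‖ ^ (3 / 4 : ℝ) := by
  obtain ⟨A, H⟩ := F.bm
  have hA := H.nonneg
  obtain ⟨C1, C10, h1⟩ := TT_lip q A
  obtain ⟨B, B0, h2⟩ := KK_le q (show 0 < (4 * (lam * C1 + 1))⁻¹ by positivity)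
  obtain ⟨C3, C30, h3⟩ := L2_mod q (A ^ (q + 2) * om (q + 2))
  have o2 := om_pos (q + 2)
  have o3 := om_pos (q + 3)
  obtain ⟨κ, hκ⟩ : ∃ κ : ℝ, κ = (4 * ((lam * C1 + 1) * B * om (q + 3)))⁻¹ := ⟨_, rfl⟩
  have κ0 : 0 < κ := by rw [hκ]; positivity
  obtain ⟨L, hL⟩ : ∃ L : ℝ, L = ((q + 1 : ℕ) + 1) * A ^ (q + 1) * om (q + 2) := ⟨_, rfl⟩
  have L0 : 0 ≤ L := by rw [hL]; positivity
  refine ⟨2 * A + 2 * ((lam * C1 + 1) * B * (κ⁻¹ * (lam ^ 2 * C3 * L))) * 4, fun u v hu hv => ?_⟩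
  have hp : 0 ≤ ‖u - v‖ ^ (3 / 4 : ℝ) := by positivity
  rcases le_total 1 ‖u - v‖ with h4 | h4
  · have h5 := (H.sub (BM.const (f v))).bdd u hu
    have h6 := H.bdd v hv
    have h7 := one_le_rpow h4 (show (0:ℝ) ≤ 3 / 4 by norm_num)
    rw [add_mul]
    refine le_trans ?_ (le_add_of_nonneg_right (by positivity))
    nlinarith
  obtain ⟨g, rfl, hg⟩ := exists_rot hu hv h4
  set t := ‖u - g u‖ with ht
  have hD := (H.iso g).sub H
  have hb : BddAbove ((fun x => |f (g x) - f x|) '' {x | ‖x‖ = 1}) :=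
    ⟨A + A, by rintro _ ⟨x, hx, rfl⟩; exact hD.bdd x hx⟩
  obtain ⟨S, hS⟩ : ∃ S, S = sSup ((fun x => |f (g x) - f x|) '' {x | ‖x‖ = 1}) := ⟨_, rfl⟩
  have hS1 : ∀ x, ‖x‖ = 1 → |f (g x) - f x| ≤ S := fun x hx => hS ▸ le_csSup hb ⟨x, hx, rfl⟩
  rw [abs_sub_comm, add_mul]
  refine (hS1 u hu).trans (le_trans ?_ (le_add_of_nonneg_left (by positivity)))
  rcases ((abs_nonneg _).trans (hS1 u hu)).eq_or_lt with h5 | h5
  · rw [← h5]; positivity
  have h6 : ∫ x, (f (g x) - f x) ^ 2 ∂mu (q + 3) ≤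
      lam ^ 2 * (C3 * (4 * t) ^ (3 / 4 : ℝ) * (L * S)) := by
    rw [int_mu_congr (h' := fun x => lam ^ 2 * (T (T f) (g x) - T (T f) x) ^ 2) fun x hx => by
      rw [h x hx, h (g x) (by rw [g.norm_map, hx])]; ring, integral_const_mul]
    gcongr
    refine h3 _ F.T H.T g _ _ hg fun x hx => ?_
    rw [← T_iso F, hL]
    exact T_lip_sup (H.iso g) H hS1 hx
  have h7 := (L1_le hD (mul_pos κ0 h5)).trans (add_le_add_right (mul_le_mul_of_nonneg_left h6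
    (by positivity)) _)
  have h8 : S ≤ (lam * C1 + 1) * (B * ∫ x, |f (g x) - f x| ∂mu (q + 3) +
      (4 * (lam * C1 + 1))⁻¹ * S) := by
    conv_lhs => rw [hS]
    refine csSup_le ⟨_, u, hu, rfl⟩ ?_
    rintro _ ⟨x, hx, rfl⟩
    have e1 := h1 _ _ (H.iso g) H x hx
    rw [show (T fun x => f (g x)) = fun x => T f (g x) from funext (T_iso F g), T_iso F.T] at e1
    have e2 := h2 S _ ⟨hD.abs.meas, fun x hx => by rw [abs_abs]; exact hS1 x hx⟩
      (fun x => abs_nonneg _) x hx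
    have e3 : 0 ≤ KK (fun x => |f (g x) - f x|) x :=
      integral_nonneg fun y => mul_nonneg (abs_nonneg _) (kr_nonneg _ _)
    simp only
    rw [h x hx, h (g x) (by rw [g.norm_map, hx]), ← mul_sub, abs_mul, abs_of_nonneg hl]
    calc _ ≤ lam * (C1 * KK (fun x => |f (g x) - f x|) x) := by gcongr
      _ ≤ (lam * C1 + 1) * KK (fun x => |f (g x) - f x|) x := by nlinarith
      _ ≤ _ := by gcongr
  have h9 : (4 * t) ^ (3 / 4 : ℝ) ≤ 4 * t ^ (3 / 4 : ℝ) := by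
    rw [mul_rpow (by norm_num) (norm_nonneg _)]
    gcongr
    exact rpow_le_self_of_one_le (by norm_num) (by norm_num)
  have h10 : (lam * C1 + 1) * (B * (κ * S * om (q + 2 + 1) + (κ * S)⁻¹ *
      (lam ^ 2 * (C3 * (4 * t) ^ (3 / 4 : ℝ) * (L * S)))) + (4 * (lam * C1 + 1))⁻¹ * S) =
      S / 2 + (lam * C1 + 1) * B * (κ⁻¹ * (lam ^ 2 * C3 * L)) * (4 * t) ^ (3 / 4 : ℝ) := by
    have e : (lam * C1 + 1) * B * om (q + 3) * κ = 1 / 4 := by rw [hκ]; field_simp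
    have e' : (lam * C1 + 1) * (4 * (lam * C1 + 1))⁻¹ = 1 / 4 := by field_simp
    have e'' : (κ * S)⁻¹ * S = κ⁻¹ := by field_simp
    calc _ = ((lam * C1 + 1) * B * om (q + 3) * κ) * S + (lam * C1 + 1) * B * (((κ * S)⁻¹ * S) *
        (lam ^ 2 * C3 * L)) * (4 * t) ^ (3 / 4 : ℝ) +
        ((lam * C1 + 1) * (4 * (lam * C1 + 1))⁻¹) * S := by ring
      _ = _ := by rw [e, e', e'']; ring
  have h11 : S ≤ S / 2 + (lam * C1 + 1) * B * (κ⁻¹ * (lam ^ 2 * C3 * L)) *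
      (4 * t ^ (3 / 4 : ℝ)) := by
    refine h8.trans (le_trans ?_ (h10.le.trans (by gcongr)))
    gcongr
  linarith

theorem equi (q : ℕ) (A Λ : ℝ) {ε : ℝ} (hε : 0 < ε) : ∃ δ : ℝ, 0 < δ ∧
    ∀ (b c : V (q + 3) → ℝ) (c2 : ℝ), Adm b → Adm c → BM A b → BM A c → |c2| ≤ Λ →
      (∀ u, ‖u‖ = 1 → b u = c2 * T c u) → ∀ u v, ‖u‖ = 1 → ‖v‖ = 1 → ‖u - v‖ < δ →
        |T (T b) u - T (T b) v| ≤ ε := by
  obtain ⟨C1, C10, h1⟩ := TT_lip q A
  obtain ⟨B, B0, h2⟩ := KK_le q (show 0 < ε / (3 * ((C1 + 1) * (2 * |A| + 1))) by positivity)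
  obtain ⟨C3, C30, h3⟩ := L2_mod q A
  have o3 := om_pos (q + 3)
  obtain ⟨η, hη⟩ : ∃ η : ℝ, η = ε / (3 * ((C1 + 1) * B * om (q + 3))) := ⟨_, rfl⟩
  have η0 : 0 < η := by rw [hη]; positivity
  have hc : ContinuousAt (fun t : ℝ => (C1 + 1) * B * (η⁻¹ * (Λ ^ 2 *
      (C3 * (4 * t) ^ (3 / 4 : ℝ) * (2 * |A|))))) 0 := by
    have : ContinuousAt (fun t : ℝ => (4 * t) ^ (3 / 4 : ℝ)) 0 :=
      ContinuousAt.rpow_const (by fun_prop) (Or.inr (by norm_num))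
    fun_prop
  obtain ⟨δ, δ0, hδ⟩ := Metric.continuousAt_iff.1 hc (ε / 3) (by positivity)
  refine ⟨min δ 1, by positivity, fun b c c2 Fb Fc Hb Hc hc2 h u v hu hv huv => ?_⟩
  have hA := Hb.nonneg
  obtain ⟨g, rfl, hg⟩ := exists_rot hu hv (huv.le.trans (min_le_right _ _))
  have h4 := hδ (x := ‖u - g u‖) (by simpa using huv.trans_le (min_le_left _ _))
  simp only [mul_zero, Real.dist_eq] at h4
  rw [zero_rpow (by norm_num)] at h4
  simp only [mul_zero, zero_mul, sub_zero] at h4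
  rw [abs_of_nonneg hA] at h2 h4
  have hD := (Hb.iso g).sub Hb
  have h6 : ∫ x, (b (g x) - b x) ^ 2 ∂mu (q + 3) ≤
      Λ ^ 2 * (C3 * (4 * ‖u - g u‖) ^ (3 / 4 : ℝ) * (2 * A)) := by
    rw [int_mu_congr (h' := fun x => c2 ^ 2 * (T c (g x) - T c x) ^ 2) fun x hx => by
      rw [h x hx, h (g x) (by rw [g.norm_map, hx])]; ring, integral_const_mul]
    refine mul_le_mul (sq_le_sq' (abs_le.1 hc2).1 (abs_le.1 hc2).2) (h3 _ Fc Hc g _ _ hg
      fun x hx => ?_) (integral_nonneg fun x => sq_nonneg _) (sq_nonneg _)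
    rw [two_mul]
    exact ((Hc.iso g).sub Hc).bdd x hx
  have h7 := (L1_le hD η0).trans (add_le_add_right (mul_le_mul_of_nonneg_left h6
    (by positivity)) _)
  have e1 := h1 _ _ (Hb.iso g) Hb u hu
  rw [show (T fun x => b (g x)) = fun x => T b (g x) from funext (T_iso Fb g), T_iso Fb.T] at e1
  have e2 := h2 _ _ hD.abs (fun x => abs_nonneg _) u hu
  have e3 : 0 ≤ KK (fun x => |b (g x) - b x|) u :=
    integral_nonneg fun y => mul_nonneg (abs_nonneg _) (kr_nonneg _ _)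
  rw [abs_sub_comm]
  calc _ ≤ (C1 + 1) * KK (fun x => |b (g x) - b x|) u := by nlinarith
    _ ≤ (C1 + 1) * (B * (η * om (q + 2 + 1) + η⁻¹ * (Λ ^ 2 * (C3 * (4 * ‖u - g u‖) ^ (3 / 4 : ℝ) *
        (2 * A)))) + ε / (3 * ((C1 + 1) * (2 * A + 1))) * (2 * A + 1)) := by
        gcongr
        exact e2.trans (add_le_add (by gcongr) (mul_le_mul_of_nonneg_left (by linarith)
          (by positivity)))
    _ = ε / 3 + (C1 + 1) * B * (η⁻¹ * (Λ ^ 2 * (C3 * (4 * ‖u - g u‖) ^ (3 / 4 : ℝ) * (2 * A)))) +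
        ε / 3 := by
        have e : (C1 + 1) * B * om (q + 3) * η = ε / 3 := by rw [hη]; field_simp
        have e' : (C1 + 1) * (ε / (3 * ((C1 + 1) * (2 * A + 1))) * (2 * A + 1)) = ε / 3 := by
          field_simp
        rw [mul_add (C1 + 1), e', ← e]
        ring
    _ ≤ ε := by linarith [le_abs_self ((C1 + 1) * B * (η⁻¹ * (Λ ^ 2 *
        (C3 * (4 * ‖u - g u‖) ^ (3 / 4 : ℝ) * (2 * A)))))]

/-! continuity and positivity -/

lemma continuousOn_nrm : ContinuousOn (nrm : V n → V n) {0}ᶜ :=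
  (continuousOn_id.norm.inv₀ fun _ hx => norm_ne_zero_iff.2 hx).smul continuousOn_id

lemma Adm.contOn {f : V n → ℝ} (F : Adm f) (hc : ContinuousOn f (sphere 0 1)) :
    ContinuousOn f {0}ᶜ := by
  rw [show f = _ from funext F.eq_nrm]
  exact (continuousOn_id.norm.inv₀ fun _ hx => norm_ne_zero_iff.2 hx).mul
    (hc.comp continuousOn_nrm fun x hx => mem_sphere_zero_iff_norm.2 (norm_nrm hx))

lemma Adm.contOn_of {f : V n → ℝ} (F : Adm f) (h : ∀ ε : ℝ, 0 < ε → ∃ δ : ℝ, 0 < δ ∧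
    ∀ u v, ‖u‖ = 1 → ‖v‖ = 1 → ‖u - v‖ < δ → |f u - f v| ≤ ε) : ContinuousOn f {0}ᶜ := by
  refine F.contOn (Metric.continuousOn_iff.2 fun v hv ε hε => ?_)
  obtain ⟨δ, δ0, hδ⟩ := h (ε / 2) (half_pos hε)
  exact ⟨δ, δ0, fun u hu huv => (hδ u v (mem_sphere_zero_iff_norm.1 hu)
    (mem_sphere_zero_iff_norm.1 hv) (by rwa [← dist_eq_norm])).trans_lt (half_lt_self hε)⟩

lemma sphere_subset : sphere (0 : V n) 1 ⊆ {0}ᶜ :=
  fun _ hx => ne_zero_of_unit (mem_sphere_zero_iff_norm.1 hx)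

lemma unif_cont {f : V n → ℝ} (hc : ContinuousOn f {0}ᶜ) {ε : ℝ} (hε : 0 < ε) : ∃ δ : ℝ, 0 < δ ∧
    ∀ u v, ‖u‖ = 1 → ‖v‖ = 1 → ‖u - v‖ < δ → |f u - f v| ≤ ε := by
  obtain ⟨δ, δ0, h⟩ := Metric.uniformContinuousOn_iff.1
    ((isCompact_sphere (0 : V n) 1).uniformContinuousOn_of_continuous (hc.mono sphere_subset)) ε hε
  exact ⟨δ, δ0, fun u v hu hv huv => (h u (mem_sphere_zero_iff_norm.2 hu) v
    (mem_sphere_zero_iff_norm.2 hv) (by rwa [dist_eq_norm])).le⟩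

lemma contOn_of_holder {f : V n → ℝ} (F : Adm f) {C : ℝ}
    (h : ∀ u v, ‖u‖ = 1 → ‖v‖ = 1 → |f u - f v| ≤ C * ‖u - v‖ ^ (3 / 4 : ℝ)) :
    ContinuousOn f {0}ᶜ := by
  refine F.contOn_of fun ε hε => ?_
  have hc : ContinuousAt (fun t : ℝ => C * t ^ (3 / 4 : ℝ)) 0 :=
    continuousAt_const.mul (ContinuousAt.rpow_const continuousAt_id (Or.inr (by norm_num)))
  obtain ⟨δ, δ0, hδ⟩ := Metric.continuousAt_iff.1 hc ε hε
  refine ⟨δ, δ0, fun u v hu hv huv => (h u v hu hv).trans ?_⟩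
  have := hδ (x := ‖u - v‖) (by simpa using huv)
  rw [zero_rpow (by norm_num), mul_zero, Real.dist_eq, sub_zero] at this
  exact (le_abs_self _).trans this.le

theorem contOn_T {f : V (N + 2) → ℝ} (F : Adm f) (hc : ContinuousOn f {0}ᶜ) :
    ContinuousOn (T f) {0}ᶜ := by
  obtain ⟨A, H⟩ := F.bm
  have hA := H.nonneg
  have o := om_pos (N + 1)
  refine F.T.contOn_of fun ε hε => ?_
  obtain ⟨δ, δ0, hδ⟩ := unif_cont hc
    (show 0 < ε / ((N + 1) * A ^ N * om (N + 1) + 1) by positivity)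
  refine ⟨min (δ / 4) 1, by positivity, fun u v hu hv huv => ?_⟩
  obtain ⟨g, rfl, hg⟩ := exists_rot hu hv (huv.le.trans (min_le_right _ _))
  rw [abs_sub_comm, ← T_iso F]
  refine (T_lip_sup (H.iso g) H (fun x hx => hδ _ _ (by rw [g.norm_map, hx]) hx
    ((hg x hx).trans_lt (by linarith [huv.trans_le (min_le_left _ _)]))) hu).trans ?_
  rw [mul_div_assoc', div_le_iff₀ (by positivity)]
  nlinarith

lemma eq_zero_of_T {f : V (N + 2) → ℝ} (F : Adm f) (hc : ContinuousOn f {0}ᶜ) {u v : V (N + 2)}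
    (hu : ‖u‖ = 1) (hv : ‖v‖ = 1) (huv : ⟪v, u⟫ = 0) (h : T f u = 0) : f v = 0 := by
  by_contra h0
  obtain ⟨A, H⟩ := F.bm
  rw [T_unit f hu, R, integral_eq_zero_iff_of_nonneg (fun x => pow_nonneg (F.nn x) _)
    ((H.pow _).int_kap (ne_zero_of_unit hu))] at h
  have hO : IsOpen ({0}ᶜ ∩ f ⁻¹' {0}ᶜ : Set (V (N + 2))) :=
    hc.isOpen_inter_preimage isOpen_compl_singleton isOpen_compl_singleton
  exact (kap_open_pos hO hu hv huv ⟨ne_zero_of_unit hv, h0⟩).ne'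
    (measure_mono_null (fun x hx => pow_ne_zero _ hx.2) (ae_iff.1 h))

lemma exists_perp₂ (u x : V (q + 3)) : ∃ v : V (q + 3), ‖v‖ = 1 ∧ ⟪v, u⟫ = 0 ∧ ⟪x, v⟫ = 0 := by
  have h1 : Module.finrank ℝ (Submodule.span ℝ ({u, x} : Set (V (q + 3)))) ≤ 2 := by
    classical
    have := finrank_span_finset_le_card (R := ℝ) ({u, x} : Finset (V (q + 3)))
    rw [Set.finrank, Finset.coe_pair] at this
    exact this.trans Finset.card_le_two
  have h2 := Submodule.finrank_add_finrank_orthogonal (Submodule.span ℝ ({u, x} : Set (V (q + 3))))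
  rw [finrank_euclideanSpace, Fintype.card_fin] at h2
  obtain ⟨v, hv, h0⟩ := Submodule.exists_mem_ne_zero_of_ne_bot
    (p := (Submodule.span ℝ ({u, x} : Set (V (q + 3))))ᗮ) fun h => by
      rw [h, finrank_bot] at h2; omega
  refine ⟨nrm v, norm_nrm h0, ?_, ?_⟩
  · rw [nrm, inner_smul_left, real_inner_comm, hv u (Submodule.subset_span (by simp)), mul_zero]
  · rw [nrm, inner_smul_right, hv x (Submodule.subset_span (by simp)), mul_zero]

theorem TT_pos {f : V (q + 3) → ℝ} (F : Adm f) (hc : ContinuousOn f {0}ᶜ) (h0 : Nn f ≠ 0)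
    {u : V (q + 3)} (hu : ‖u‖ = 1) : 0 < T (T f) u := by
  refine lt_of_le_of_ne (F.T.T.nn u) fun h => h0 ?_
  rw [Nn, int_mu_congr (h' := fun _ => 0) fun x hx => ?_, integral_zero]
  obtain ⟨v, hv, h1, h2⟩ := exists_perp₂ u x
  rw [eq_zero_of_T F hc hv hx h2 (eq_zero_of_T F.T (contOn_T F hc) hu hv h1 h.symm)]
  simp

end Pool.Agent.Lib.MP_242fd5_gt.Ty
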