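import Pool.Agent.Lib.MP_242fd5_gt.Ty.C2Reg

set_option autoImplicit false

open MeasureTheory ProbabilityTheory Set Metric Filter Topology
open scoped ENNReal NNReal RealInnerProductSpace

namespace Pool.Agent.Lib.MP_242fd5_gt.Ty

variable {n N q : ℕ}

lemma add_pow_le_eta (k : ℕ) {η : ℝ} (hη : 0 < η) : ∃ C : ℝ, 0 < C ∧ ∀ x d : ℝ, 0 ≤ x → 0 ≤ d →
    (x + d) ^ k ≤ (1 + η) * x ^ k + C * d ^ k := by
  have h : ∀ᶠ t : ℝ in 𝓝[>] 0, (1 + t) ^ k < 1 + η := by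
    refine nhdsWithin_le_nhds (ContinuousAt.eventually_lt (f := fun t : ℝ => (1 + t) ^ k)
      (g := fun _ => 1 + η) (by fun_prop) (by fun_prop) (by simpa using hη))
  obtain ⟨τ, h1, h2⟩ := (h.and self_mem_nhdsWithin).exists
  have h2 : 0 < τ := h2
  refine ⟨(τ⁻¹ + 1) ^ k, by positivity, fun x d hx hd => ?_⟩
  rcases le_total d (τ * x) with h | h
  · calc (x + d) ^ k ≤ ((1 + τ) * x) ^ k := by gcongr; linarith
      _ ≤ (1 + η) * x ^ k := by rw [mul_pow]; gcongr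
      _ ≤ _ := le_add_of_nonneg_right (by positivity)
  · calc (x + d) ^ k ≤ ((τ⁻¹ + 1) * d) ^ k := by
          gcongr
          have : x ≤ τ⁻¹ * d := by rw [le_inv_mul_iff₀ h2]; exact h
          linarith
      _ ≤ _ := by rw [mul_pow]; exact le_add_of_nonneg_left (by positivity)

lemma abs_pow_sub_eta (k : ℕ) {η : ℝ} (hη : 0 < η) : ∃ C : ℝ, 0 < C ∧ ∀ a b : ℝ, 0 ≤ a → 0 ≤ b →
    |a ^ k - b ^ k| ≤ η * b ^ k + C * |a - b| ^ k := by
  obtain ⟨C, C0, hC⟩ := add_pow_le_eta k hη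
  refine ⟨C, C0, fun a b ha hb => ?_⟩
  rcases le_total b a with h | h
  · have := hC b (a - b) hb (by linarith)
    rw [add_sub_cancel] at this
    rw [abs_of_nonneg (sub_nonneg.2 (pow_le_pow_left₀ hb h k)), abs_of_nonneg (sub_nonneg.2 h)]
    linarith
  · have := hC a (b - a) ha (by linarith)
    rw [add_sub_cancel] at this
    have h2 := pow_le_pow_left₀ ha h k
    rw [abs_sub_comm, abs_of_nonneg (sub_nonneg.2 h2), abs_sub_comm, abs_of_nonneg (sub_nonneg.2 h)]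
    nlinarith

lemma pow_abs_sub_le {a b : ℝ} (ha : 0 ≤ a) (hb : 0 ≤ b) (k : ℕ) :
    |a - b| ^ (k + 1) ≤ |a ^ (k + 1) - b ^ (k + 1)| := by
  wlog h : b ≤ a generalizing a b
  · rw [abs_sub_comm, abs_sub_comm (a ^ _)]
    exact this hb ha (by linarith)
  have := pow_add_pow_le hb (sub_nonneg.2 h) (Nat.add_one_ne_zero k)
  rw [add_sub_cancel] at this
  rw [abs_of_nonneg (sub_nonneg.2 h)]
  exact le_trans (by linarith) (le_abs_self _)

lemma pow_le_trunc {a A : ℝ} (ha : 0 ≤ a) (hA : 0 < A) (k : ℕ) :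
    a ^ k ≤ min a A ^ k + A⁻¹ * a ^ (k + 1) := by
  rcases le_total a A with h | h
  · rw [min_eq_left h]
    exact le_add_of_nonneg_right (by positivity)
  · rw [min_eq_right h]
    refine le_add_of_nonneg_of_le (by positivity) ?_
    rw [le_inv_mul_iff₀ hA, pow_succ']
    gcongr

lemma int_mono {f h : V (N + 1) → ℝ} (hf : Integrable f (mu (N + 1)))
    (hh : Integrable h (mu (N + 1))) (e : ∀ x, ‖x‖ = 1 → f x ≤ h x) :
    ∫ x, f x ∂mu (N + 1) ≤ ∫ x, h x ∂mu (N + 1) :=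
  integral_mono_ae hf hh (mu_sphere.mono e)

lemma Nn_le_sum {ι : Type} (s : Finset ι) (c : ι → ℝ) {f : V (N + 1) → ℝ} {g : ι → V (N + 1) → ℝ}
    (F : Adm f) (G : ∀ i, Adm (g i))
    (e : ∀ x, ‖x‖ = 1 → f x ^ (N + 1) ≤ ∑ i ∈ s, c i * g i x ^ (N + 1)) :
    Nn f ≤ ∑ i ∈ s, c i * Nn (g i) := by
  simp only [Nn, ← integral_const_mul]
  rw [← integral_finsetSum _ fun i _ => ((G i).int_pow _).const_mul _]
  exact int_mono (F.int_pow _) (integrable_finsetSum _ fun i _ => ((G i).int_pow _).const_mul _) e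

lemma Nn_le₂ (c d : ℝ) {f g h : V (N + 1) → ℝ} (F : Adm f) (G : Adm g) (H : Adm h)
    (e : ∀ x, ‖x‖ = 1 → f x ^ (N + 1) ≤ c * g x ^ (N + 1) + d * h x ^ (N + 1)) :
    Nn f ≤ c * Nn g + d * Nn h := by
  simp only [Nn, ← integral_const_mul]
  rw [← integral_add ((G.int_pow _).const_mul _) ((H.int_pow _).const_mul _)]
  exact int_mono (F.int_pow _) (((G.int_pow _).const_mul _).add ((H.int_pow _).const_mul _)) e

lemma Adm.int_kap {f : V (N + 2) → ℝ} (F : Adm f) (k : ℕ) {u : V (N + 2)} (hu : ‖u‖ = 1) :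
    Integrable (fun x => f x ^ k) (kap (N + 2) u) := by
  obtain ⟨C, hC⟩ := F.bm
  exact (hC.pow k).int_kap (ne_zero_of_unit hu)

lemma T_le_sum {ι : Type} (s : Finset ι) (c : ι → ℝ) {f : V (N + 2) → ℝ} {g : ι → V (N + 2) → ℝ}
    (F : Adm f) (G : ∀ i, Adm (g i))
    (e : ∀ x, ‖x‖ = 1 → f x ^ (N + 1) ≤ ∑ i ∈ s, c i * g i x ^ (N + 1)) {u : V (N + 2)}
    (hu : ‖u‖ = 1) : T f u ≤ ∑ i ∈ s, c i * T (g i) u := by
  simp only [T_unit _ hu, R, ← integral_const_mul]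
  rw [← integral_finsetSum _ fun i _ => ((G i).int_kap _ hu).const_mul _]
  exact integral_mono_ae (F.int_kap _ hu) (integrable_finsetSum _ fun i _ =>
    ((G i).int_kap _ hu).const_mul _) ((kap_sphere (ne_zero_of_unit hu)).mono fun x hx => e x hx.1)

lemma T_le₂ (c d : ℝ) {f g h : V (N + 2) → ℝ} (F : Adm f) (G : Adm g) (H : Adm h)
    (e : ∀ x, ‖x‖ = 1 → f x ^ (N + 1) ≤ c * g x ^ (N + 1) + d * h x ^ (N + 1)) {u : V (N + 2)}
    (hu : ‖u‖ = 1) : T f u ≤ c * T g u + d * T h u := by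
  simp only [T_unit _ hu, R, ← integral_const_mul]
  rw [← integral_add ((G.int_kap _ hu).const_mul _) ((H.int_kap _ hu).const_mul _)]
  exact integral_mono_ae (F.int_kap _ hu) (((G.int_kap _ hu).const_mul _).add
    ((H.int_kap _ hu).const_mul _)) ((kap_sphere (ne_zero_of_unit hu)).mono fun x hx => e x hx.1)

lemma T_eq_add {f g h : V (N + 2) → ℝ} (G : Adm g) (H : Adm h)
    (e : ∀ x, f x ^ (N + 1) = g x ^ (N + 1) + h x ^ (N + 1)) (u : V (N + 2)) :
    T f u = T g u + T h u := by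
  obtain ⟨C, hC⟩ := G.bm
  obtain ⟨C', hC'⟩ := H.bm
  rcases eq_or_ne u 0 with rfl | hu
  · simp [T]
  · simp only [T_eq, e]
    rw [R_add (hC.pow _) (hC'.pow _) hu, mul_add]

lemma T_sub_eta (N : ℕ) {η : ℝ} (hη : 0 < η) : ∃ C : ℝ, 0 < C ∧ ∀ f h : V (N + 2) → ℝ, Adm f →
    Adm h → ∀ u, ‖u‖ = 1 → |T f u - T h u| ≤ η * T h u + C * T (fun x => |f x - h x|) u := by
  obtain ⟨C, C0, hC⟩ := abs_pow_sub_eta (N + 1) hη
  refine ⟨C, C0, fun f h F H u hu => abs_sub_le_iff.2 ⟨?_, ?_⟩⟩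
  · have := T_le₂ (1 + η) C F H (F.absSub H) (fun x _ => by
      linarith [hC _ _ (F.nn x) (H.nn x), le_abs_self (f x ^ (N + 1) - h x ^ (N + 1))]) hu
    linarith
  · have h1 := T_le_sum (Finset.univ : Finset (Fin 3)) ![1, η, C] (f := h)
      (g := ![f, h, fun x => |f x - h x|]) H (fun i => by
        fin_cases i
        exacts [F, H, F.absSub H]) (fun x _ => by
        simp only [Fin.sum_univ_three, Matrix.cons_val_zero, Matrix.cons_val_one,
          Matrix.cons_val]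
        linarith [hC _ _ (F.nn x) (H.nn x), neg_le_abs (f x ^ (N + 1) - h x ^ (N + 1))]) hu
    simp only [Fin.sum_univ_three, Matrix.cons_val_zero, Matrix.cons_val_one,
      Matrix.cons_val] at h1
    linarith

lemma T_add_eta (N : ℕ) {η : ℝ} (hη : 0 < η) : ∃ C : ℝ, 0 < C ∧ ∀ f h : V (N + 2) → ℝ, Adm f →
    Adm h → ∀ u, ‖u‖ = 1 → |T (fun x => f x + h x) u - (T f u + T h u)| ≤
      η * (T f u + T h u) + C * T (fun x => min (f x) (h x)) u := by
  obtain ⟨C, C0, hC⟩ := add_pow_le_eta (N + 1) hη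
  refine ⟨C, C0, fun f h F H u hu => abs_sub_le_iff.2 ⟨?_, ?_⟩⟩
  · have h1 := T_le_sum (Finset.univ : Finset (Fin 3)) ![1 + η, 1 + η, C]
      (g := ![f, h, fun x => min (f x) (h x)]) (F.add H) (fun i => by
        fin_cases i
        exacts [F, H, F.min H]) (fun x _ => by
        simp only [Fin.sum_univ_three, Matrix.cons_val_zero, Matrix.cons_val_one,
          Matrix.cons_val]
        have a0 := F.nn x
        have b0 := H.nn x
        rcases le_total (f x) (h x) with e | e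
        · rw [min_eq_left e, add_comm (f x)]
          nlinarith [hC _ _ b0 a0, pow_nonneg a0 (N + 1)]
        · rw [min_eq_right e]
          nlinarith [hC _ _ a0 b0, pow_nonneg b0 (N + 1)]) hu
    simp only [Fin.sum_univ_three, Matrix.cons_val_zero, Matrix.cons_val_one,
      Matrix.cons_val] at h1
    linarith
  · have h1 := T_le₂ 1 (-1) F (F.add H) H (fun x _ => by
      linarith [pow_add_pow_le (F.nn x) (H.nn x) (Nat.add_one_ne_zero N)]) hu
    have := F.T.nn u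
    have := H.T.nn u
    have := (F.min H).T.nn u
    nlinarith

lemma Nn_add_le {f h : V (N + 1) → ℝ} (F : Adm f) (H : Adm h) :
    Nn (fun x => f x + h x) ≤ 2 ^ N * (Nn f + Nn h) := by
  rw [mul_add]
  refine Nn_le₂ _ _ (F.add H) F H fun x _ => ?_
  rw [← mul_add]
  exact add_pow_le (F.nn x) (H.nn x) (N + 1)

lemma int_dV {f h : V (N + 1) → ℝ} (F : Adm f) (H : Adm h) :
    Integrable (fun u => |f u ^ (N + 1) - h u ^ (N + 1)|) (mu (N + 1)) :=
  ((F.int_pow _).sub (H.int_pow _)).abs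

lemma dV_le_eta (N : ℕ) {η : ℝ} (hη : 0 < η) : ∃ C : ℝ, 0 < C ∧ ∀ f h : V (N + 1) → ℝ, Adm f →
    Adm h → dV f h ≤ η * Nn h + C * dN f h := by
  obtain ⟨C, C0, hC⟩ := abs_pow_sub_eta (N + 1) hη
  refine ⟨C, C0, fun f h F H => ?_⟩
  simp only [dV, Nn, dN, ← integral_const_mul]
  rw [← integral_add ((H.int_pow _).const_mul _) (((F.absSub H).int_pow _).const_mul _)]
  exact int_mono (int_dV F H) (((H.int_pow _).const_mul _).add
    (((F.absSub H).int_pow _).const_mul _)) fun x _ => hC _ _ (F.nn x) (H.nn x)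

lemma abs_Nn_sub_le {f h : V (N + 1) → ℝ} (F : Adm f) (H : Adm h) : |Nn f - Nn h| ≤ dV f h := by
  rw [Nn, Nn, ← integral_sub (F.int_pow _) (H.int_pow _)]
  exact abs_integral_le_integral_abs

lemma dV_comm (f h : V (N + 1) → ℝ) : dV f h = dV h f := by simp only [dV, abs_sub_comm]

lemma dV_tri {f g h : V (N + 1) → ℝ} (F : Adm f) (G : Adm g) (H : Adm h) :
    dV f h ≤ dV f g + dV g h := by
  simp only [dV]
  rw [← integral_add (int_dV F G) (int_dV G H)]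
  exact int_mono (int_dV F H) ((int_dV F G).add (int_dV G H)) fun x _ => abs_sub_le _ _ _

lemma dV_max_le {f g h : V (N + 1) → ℝ} (F : Adm f) (G : Adm g) (H : Adm h) :
    dV (fun x => max (f x) (h x)) (fun x => max (g x) (h x)) ≤ dV f g := by
  refine int_mono (int_dV (F.max H) (G.max H)) (int_dV F G) fun x _ => ?_
  have e : ∀ a b : ℝ, 0 ≤ a → 0 ≤ b → max a b ^ (N + 1) = max (a ^ (N + 1)) (b ^ (N + 1)) :=
    fun a b ha hb => by
      rcases le_total a b with e | e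
      · rw [max_eq_right e, max_eq_right (pow_le_pow_left₀ ha e _)]
      · rw [max_eq_left e, max_eq_left (pow_le_pow_left₀ hb e _)]
  simp only [e _ _ (F.nn x) (H.nn x), e _ _ (G.nn x) (H.nn x)]
  exact abs_max_sub_max_le_abs _ _ _

lemma dV_smul_self {f : V (N + 1) → ℝ} (c : ℝ) (F : Adm f) :
    dV (fun x => c * f x) f = |Nn (fun x => c * f x) - Nn f| := by
  have e : ∀ x, |(c * f x) ^ (N + 1) - f x ^ (N + 1)| = |c ^ (N + 1) - 1| * f x ^ (N + 1) :=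
    fun x => by
      rw [← abs_of_nonneg (pow_nonneg (F.nn x) (N + 1)), ← abs_mul,
        abs_of_nonneg (pow_nonneg (F.nn x) (N + 1)), mul_pow, sub_mul, one_mul]
  simp only [dV, e]
  rw [integral_const_mul, Nn_smul, ← Nn, ← abs_of_nonneg F.Nn_nonneg, ← abs_mul,
    abs_of_nonneg F.Nn_nonneg, sub_mul, one_mul]

lemma dV_smul (c : ℝ) (hc : 0 ≤ c) (f h : V (N + 1) → ℝ) :
    dV (fun x => c * f x) (fun x => c * h x) = c ^ (N + 1) * dV f h := by
  simp only [dV, mul_pow, ← mul_sub, abs_mul, abs_of_nonneg (pow_nonneg hc _)]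
  exact integral_const_mul _ _

lemma tendsto_int_zero {F : ℕ → V (N + 1) → ℝ} {B : ℝ} (h : ∀ m, BM B (F m))
    (h0 : ∀ᵐ u ∂mu (N + 1), Tendsto (fun m => F m u) atTop (𝓝 0)) :
    Tendsto (fun m => ∫ u, F m u ∂mu (N + 1)) atTop (𝓝 0) := by
  simpa using tendsto_integral_of_dominated_convergence (f := fun _ => (0:ℝ)) (fun _ => B)
    (fun m => (h m).meas.aestronglyMeasurable) (integrable_const _)
    (fun m => mu_sphere.mono (h m).bdd) h0

/-- bounded sequences and null sequences -/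
structure Bd (f : ℕ → V (N + 1) → ℝ) : Prop where
  adm : ∀ m, Adm (f m)
  bd : ∃ W : ℝ, ∀ m, Nn (f m) ≤ W

structure Z (f : ℕ → V (N + 1) → ℝ) : Prop where
  adm : ∀ m, Adm (f m)
  lim : Tendsto (fun m => Nn (f m)) atTop (𝓝 0)

section
variable {f h : ℕ → V (N + 1) → ℝ}

lemma Bd.const {g : V (N + 1) → ℝ} (G : Adm g) : Bd fun _ => g := ⟨fun _ => G, _, fun _ => le_rfl⟩

lemma Bd.mono (H : Bd h) (F : ∀ m, Adm (f m)) (e : ∀ m x, ‖x‖ = 1 → f m x ≤ h m x) : Bd f :=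
  ⟨F, H.bd.imp fun _ hW m => (Nn_mono (F m) (H.adm m) (e m)).trans (hW m)⟩

lemma Bd.add (F : Bd f) (H : Bd h) : Bd fun m x => f m x + h m x := by
  obtain ⟨W, hW⟩ := F.bd
  obtain ⟨W', hW'⟩ := H.bd
  exact ⟨fun m => (F.adm m).add (H.adm m), 2 ^ N * (W + W'), fun m =>
    (Nn_add_le (F.adm m) (H.adm m)).trans (by gcongr <;> apply_assumption)⟩

lemma Bd.sub (F : Bd f) (φ : ℕ → ℕ) : Bd fun m => f (φ m) :=
  ⟨fun _ => F.adm _, F.bd.imp fun _ hW _ => hW _⟩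

lemma Bd.T {f : ℕ → V (N + 2) → ℝ} (F : Bd f) : Bd fun m => T (f m) := by
  obtain ⟨W, hW⟩ := F.bd
  obtain ⟨C, C0, hC⟩ := bus N
  exact ⟨fun m => (F.adm m).T, C * W ^ (N + 1), fun m => (hC _ (F.adm m)).trans (by
    gcongr
    exacts [(F.adm m).Nn_nonneg, hW m])⟩

lemma Z.bd (F : Z f) : Bd f := by
  obtain ⟨W, hW⟩ := F.lim.bddAbove_range
  exact ⟨F.adm, W, fun m => hW ⟨m, rfl⟩⟩

lemma Z.mono (H : Z h) (F : ∀ m, Adm (f m)) (e : ∀ m x, ‖x‖ = 1 → f m x ≤ h m x) : Z f :=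
  ⟨F, squeeze_zero (fun m => (F m).Nn_nonneg) (fun m => Nn_mono (F m) (H.adm m) (e m)) H.lim⟩

lemma Z.add (F : Z f) (H : Z h) : Z fun m x => f m x + h m x :=
  ⟨fun m => (F.adm m).add (H.adm m), squeeze_zero (fun m => ((F.adm m).add (H.adm m)).Nn_nonneg)
    (fun m => Nn_add_le (F.adm m) (H.adm m)) (by simpa using (F.lim.add H.lim).const_mul (2 ^ N))⟩

lemma Z.smul (F : Z f) {c : ℝ} (hc : 0 ≤ c) : Z fun m x => c * f m x :=
  ⟨fun m => (F.adm m).smul hc, by simpa [Nn_smul] using F.lim.const_mul (c ^ (N + 1))⟩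

lemma Z.sub (F : Z f) {φ : ℕ → ℕ} (hφ : StrictMono φ) : Z fun m => f (φ m) :=
  ⟨fun _ => F.adm _, F.lim.comp hφ.tendsto_atTop⟩

lemma Z.T {f : ℕ → V (N + 2) → ℝ} (F : Z f) : Z fun m => T (f m) := by
  obtain ⟨C, C0, hC⟩ := bus N
  exact ⟨fun m => (F.adm m).T, squeeze_zero (fun m => (F.adm m).T.Nn_nonneg)
    (fun m => hC _ (F.adm m)) (by simpa using (F.lim.pow (N + 1)).const_mul C)⟩

lemma tendsto_zero_of_eta {a : ℕ → ℝ} (a0 : ∀ m, 0 ≤ a m) (W : ℝ) (H : ∀ η : ℝ, 0 < η → η ≤ 1 →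
    ∃ b : ℕ → ℝ, Tendsto b atTop (𝓝 0) ∧ ∀ m, a m ≤ η * W + b m) : Tendsto a atTop (𝓝 0) := by
  refine tendsto_order.2 ⟨fun c hc => Eventually.of_forall fun m => hc.trans_le (a0 m),
    fun c hc => ?_⟩
  obtain ⟨b, hb, hab⟩ := H (min 1 (c / (2 * (|W| + 1)))) (by positivity) (min_le_left _ _)
  filter_upwards [(tendsto_order.1 hb).2 (c / 2) (by positivity)] with m hm
  have h1 : min 1 (c / (2 * (|W| + 1))) * W ≤ c / (2 * (|W| + 1)) * (|W| + 1) :=
    (mul_le_mul_of_nonneg_left ((le_abs_self W).trans (by linarith)) (by positivity)).trans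
      (mul_le_mul_of_nonneg_right (min_le_right _ _) (by positivity))
  have h2 : c / (2 * (|W| + 1)) * (|W| + 1) = c / 2 := by field_simp
  linarith [hab m]

lemma Z.approx {p : ℕ → V (N + 1) → ℝ} (F : ∀ m, Adm (f m)) (P : Bd p) (H : Z h)
    (e : ∀ η : ℝ, 0 < η → ∃ C : ℝ, 0 < C ∧ ∀ m x, ‖x‖ = 1 → f m x ≤ η * p m x + C * h m x) :
    Z f := by
  obtain ⟨W, hW⟩ := P.bd
  refine ⟨F, tendsto_zero_of_eta (fun m => (F m).Nn_nonneg) (2 ^ N * W) fun η h0 h1 => ?_⟩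
  obtain ⟨C, C0, hC⟩ := e η h0
  refine ⟨fun m => 2 ^ N * Nn fun x => C * h m x, by
    simpa using (H.smul C0.le).lim.const_mul (2 ^ N), fun m => ?_⟩
  have A1 := (P.adm m).smul h0.le
  have A2 := (H.adm m).smul C0.le
  refine (Nn_mono (F m) (A1.add A2) (hC m)).trans ((Nn_add_le A1 A2).trans ?_)
  have : Nn (fun x => η * p m x) ≤ η * W := by
    rw [Nn_smul]
    exact mul_le_mul (pow_le_of_le_one h0.le h1 (Nat.add_one_ne_zero N)) (hW m)
      (P.adm m).Nn_nonneg h0.le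
  have h2 : (0:ℝ) < 2 ^ N := by positivity
  nlinarith

lemma Z.clT {f h : ℕ → V (N + 2) → ℝ} (F : ∀ m, Adm (f m)) (H : Bd h)
    (D : Z fun m x => |f m x - h m x|) : Z fun m x => |Ty.T (f m) x - Ty.T (h m) x| :=
  Z.approx (fun m => (F m).T.absSub (H.adm m).T) H.T D.T fun _ hη =>
    (T_sub_eta N hη).imp fun _ hC => ⟨hC.1, fun m => hC.2 _ _ (F m) (H.adm m)⟩

lemma Z.dV (F : ∀ m, Adm (f m)) (H : Bd h) (D : Z fun m x => |f m x - h m x|) :
    Tendsto (fun m => dV (f m) (h m)) atTop (𝓝 0) := by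
  obtain ⟨W, hW⟩ := H.bd
  refine tendsto_zero_of_eta (fun m => dV_nonneg _ _) W fun η h0 _ => ?_
  obtain ⟨C, C0, hC⟩ := dV_le_eta N h0
  refine ⟨fun m => C * Nn fun x => |f m x - h m x|, by simpa using D.lim.const_mul C, fun m => ?_⟩
  exact (hC _ _ (F m) (H.adm m)).trans (add_le_add (by gcongr; exact hW m) le_rfl)

end

end Pool.Agent.Lib.MP_242fd5_gt.Ty
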