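import Pool.Agent.Lib.MP_242fd5_gt.Ty.D1Calc

set_option autoImplicit false

open MeasureTheory ProbabilityTheory Set Metric Filter Topology
open scoped ENNReal NNReal RealInnerProductSpace

namespace Pool.Agent.Lib.MP_242fd5_gt.Ty

variable {n N q : ℕ}

lemma exists_net (n : ℕ) {δ : ℝ} (hδ : 0 < δ) : ∃ P : Set (V n), P.Finite ∧ (∀ p ∈ P, ‖p‖ = 1) ∧
    ∀ u, ‖u‖ = 1 → ∃ p ∈ P, ‖u - p‖ < δ := by
  obtain ⟨P, hP, Pf, hc⟩ := finite_cover_balls_of_compact (isCompact_sphere (0 : V n) 1) hδ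
  refine ⟨P, Pf, fun p hp => by simpa using hP hp, fun u hu => ?_⟩
  simpa [dist_eq_norm] using hc (show u ∈ sphere (0 : V n) 1 by simpa using hu)

lemma disc (k : ℕ → V n → ℝ) {B δ η : ℝ} (hδ : 0 < δ) (hη : 0 < η)
    (hb : ∀ m u, ‖u‖ = 1 → |k m u| ≤ B)
    (he : ∀ m u v, ‖u‖ = 1 → ‖v‖ = 1 → ‖u - v‖ < δ → |k m u - k m v| ≤ η) :
    ∃ t : Set ℕ, t.Finite ∧ ∀ m, ∃ m' ∈ t, ∀ u, ‖u‖ = 1 → |k m u - k m' u| ≤ 3 * η := by
  obtain ⟨P, Pf, hP, hc⟩ := exists_net n hδ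
  have := Pf.fintype
  have hb' : TotallyBounded (range fun m (p : P) => k m p) :=
    (isCompact_closedBall (0 : P → ℝ) |B|).totallyBounded.subset (by
      rintro _ ⟨m, rfl⟩
      rw [mem_closedBall_zero_iff, pi_norm_le_iff_of_nonneg (abs_nonneg _)]
      exact fun p => (hb m p (hP p p.2)).trans (le_abs_self _))
  obtain ⟨t, ht, tf, htc⟩ := finite_approx_of_totallyBounded hb' η hη
  choose! s hs using fun y (hy : y ∈ t) => ht hy
  refine ⟨s '' t, tf.image _, fun m => ?_⟩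
  obtain ⟨y, hy, hm⟩ := mem_iUnion₂.1 (htc ⟨m, rfl⟩)
  refine ⟨s y, ⟨y, hy, rfl⟩, fun u hu => ?_⟩
  obtain ⟨p, hp, hup⟩ := hc u hu
  have h1 := (dist_pi_lt_iff hη).1 hm ⟨p, hp⟩
  rw [← hs y hy, Real.dist_eq] at h1
  have h2 := abs_le.1 (he m u p hu (hP p hp) hup)
  have h3 := abs_le.1 (he (s y) u p hu (hP p hp) hup)
  have h4 := abs_lt.1 h1
  exact abs_le.2 ⟨by linarith, by linarith⟩

section
variable {α : Type} [MeasurableSpace α] {μ : Measure α} {F : ℕ → α → ℝ}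

lemma ae_of_L1 (hF : ∀ m, Integrable (F m) μ) {y : α →₁[μ] ℝ} {ψ : ℕ → ℕ}
    (h : Tendsto (fun m => (hF (ψ m)).toL1 _) atTop (𝓝 y)) : ∃ φ : ℕ → ℕ, StrictMono φ ∧
      ∀ᵐ u ∂μ, Tendsto (fun m => F (ψ (φ m)) u) atTop (𝓝 (y u)) := by
  obtain ⟨φ, hφ, h2⟩ := (tendstoInMeasure_of_tendsto_Lp h).exists_seq_tendsto_ae
  refine ⟨φ, hφ, ?_⟩
  filter_upwards [h2, ae_all_iff.2 fun m => (hF m).coeFn_toL1] with u h3 h4
  simpa only [h4] using h3

lemma exists_ae_of_net (hF : ∀ m, Integrable (F m) μ) (h : ∀ ε : ℝ, 0 < ε → ∃ t : Set ℕ,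
    t.Finite ∧ ∀ m, ∃ m' ∈ t, ∫ u, |F m u - F m' u| ∂μ < ε) : ∃ φ : ℕ → ℕ, StrictMono φ ∧
      ∃ G : α → ℝ, Measurable G ∧ ∀ᵐ u ∂μ, Tendsto (fun m => F (φ m) u) atTop (𝓝 (G u)) := by
  have hb : TotallyBounded (range fun m => (hF m).toL1 _) := by
    refine Metric.totallyBounded_iff.2 fun ε hε => ?_
    obtain ⟨t, tf, ht⟩ := h ε hε
    refine ⟨_, tf.image fun m => (hF m).toL1 _, ?_⟩
    rintro _ ⟨m, rfl⟩
    obtain ⟨m', h1, h2⟩ := ht m
    refine mem_iUnion₂.2 ⟨_, ⟨m', h1, rfl⟩, ?_⟩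
    rw [mem_ball, L1.dist_eq_integral_dist]
    refine lt_of_eq_of_lt (integral_congr_ae ?_) h2
    filter_upwards [(hF m).coeFn_toL1, (hF m').coeFn_toL1] with u h3 h4
    rw [h3, h4, Real.dist_eq]
  obtain ⟨y, -, ψ, hψ, h2⟩ := (hb.closure.isCompact_of_isClosed isClosed_closure).tendsto_subseq
    fun m => subset_closure (mem_range_self m)
  obtain ⟨φ, hφ, h3⟩ := ae_of_L1 hF h2
  exact ⟨ψ ∘ φ, hψ.comp hφ, y, (Lp.stronglyMeasurable y).measurable, h3⟩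

lemma exists_ae_zero (hF : ∀ m, Integrable (F m) μ)
    (h : Tendsto (fun m => ∫ u, |F m u| ∂μ) atTop (𝓝 0)) : ∃ φ : ℕ → ℕ, StrictMono φ ∧
      ∀ᵐ u ∂μ, Tendsto (fun m => F (φ m) u) atTop (𝓝 0) := by
  obtain ⟨φ, hφ, h3⟩ := ae_of_L1 hF (y := 0) (ψ := id) (by
    refine tendsto_zero_iff_norm_tendsto_zero.2 (h.congr fun m => ?_)
    rw [L1.norm_eq_integral_norm]
    refine integral_congr_ae ?_
    filter_upwards [(hF m).coeFn_toL1] with u h3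
    rw [id, h3, Real.norm_eq_abs])
  refine ⟨φ, hφ, ?_⟩
  filter_upwards [h3, Lp.coeFn_zero ℝ 1 μ] with u h4 h5
  rwa [h5] at h4

lemma fatou {a : ℕ → α → ℝ≥0∞} {G : α → ℝ≥0∞} (ha : ∀ m, Measurable (a m))
    (h : ∀ᵐ u ∂μ, Tendsto (fun m => a m u) atTop (𝓝 (G u))) {b : ℕ → ℝ≥0∞} {β : ℝ≥0∞}
    (hb : Tendsto b atTop (𝓝 β)) (e : ∀ m, ∫⁻ u, a m u ∂μ ≤ b m) : ∫⁻ u, G u ∂μ ≤ β := by
  rw [lintegral_congr_ae (h.mono fun u hu => hu.liminf_eq.symm), ← hb.liminf_eq]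
  exact (lintegral_liminf_le ha).trans (liminf_le_liminf (Eventually.of_forall e))

end

lemma int_tail {f : V (N + 2) → ℝ} (F : Adm f) {A : ℝ} (hA : 0 < A) :
    ∫ u, |T f u - R (fun x => min (f x) A ^ (N + 1)) u| ∂mu (N + 2) ≤ om (N + 1) * (A⁻¹ * Nn f) := by
  obtain ⟨C, hC⟩ := F.bm
  have h1 : BM C fun x => min (f x) A := ⟨F.meas.min measurable_const, fun x hx => by
    rw [abs_of_nonneg (le_min (F.nn x) hA.le)]
    exact (min_le_left _ _).trans ((le_abs_self _).trans (hC.bdd x hx))⟩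
  have h2 := (hC.pow (N + 2)).const_mul A⁻¹
  rw [Nn, ← integral_const_mul A⁻¹, ← int_R h2]
  refine integral_mono_of_nonneg (ae_of_all _ fun u => abs_nonneg _) h2.R.int_mu
    (mu_sphere.mono fun u hu => ?_)
  have h0 := ne_zero_of_unit hu
  simp only
  rw [T_unit f hu, ← R_sub (hC.pow _) (h1.pow _) h0]
  refine (abs_R_le _ _).trans (R_mono ((hC.pow _).sub (h1.pow _)).abs h2 (fun x _ => ?_) h0)
  rw [abs_of_nonneg (sub_nonneg.2 (pow_le_pow_left₀ (le_min (F.nn x) hA.le) (min_le_left _ _) _))]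
  linarith [pow_le_trunc (F.nn x) hA (N + 1)]

lemma abs_tri (a b c d : ℝ) : |a - b| ≤ |a - c| + |b - d| + |c - d| := by
  linarith [abs_sub_le a c b, abs_sub_le c d b, abs_sub_comm d b]

theorem cpt {f : ℕ → V (q + 3) → ℝ} (F : Bd f) : ∃ φ : ℕ → ℕ, StrictMono φ ∧
    ∃ G : V (q + 3) → ℝ, Measurable G ∧
      ∀ᵐ u ∂mu (q + 3), Tendsto (fun m => T (f (φ m)) u) atTop (𝓝 (G u)) := by
  have I : ∀ m, Integrable (T (f m)) (mu (q + 3)) := fun m => by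
    simpa using (F.adm m).T.int_pow 1
  refine exists_ae_of_net (F := fun m => T (f m)) I fun ε hε => ?_
  obtain ⟨W, hW⟩ := F.bd
  have W0 : 0 ≤ W := (F.adm 0).Nn_nonneg.trans (hW 0)
  have o2 := om_pos (q + 2)
  have o3 := om_pos (q + 3)
  have c0 := cK_pos q
  obtain ⟨A, hA⟩ : ∃ A : ℝ, A = 4 * om (q + 2) * (W + 1) / ε := ⟨_, rfl⟩
  have A0 : 0 < A := by rw [hA]; positivity
  obtain ⟨η, hη⟩ : ∃ η : ℝ, η = ε / (8 * om (q + 3)) := ⟨_, rfl⟩
  have η0 : 0 < η := by rw [hη]; positivity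
  obtain ⟨σ, hσ⟩ : ∃ σ : ℝ, σ = ε * η / (8 * (cK q * 3 * (2 * A ^ (q + 2) * om (q + 3)))) :=
    ⟨_, rfl⟩
  have σ0 : 0 < σ := by rw [hσ]; positivity
  have H : ∀ m, BM (A ^ (q + 2)) fun x => min (f m x) A ^ (q + 2) := fun m =>
    BM.pow ⟨(F.adm m).meas.min measurable_const, fun x _ => by
      rw [abs_of_nonneg (le_min ((F.adm m).nn x) A0.le)]
      exact min_le_right _ _⟩ _
  obtain ⟨C, C0, hC⟩ := KK_holder q
  obtain ⟨B, B0, hB⟩ := KK_le q one_pos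
  have hc : ContinuousAt (fun t : ℝ => C * A ^ (q + 2) * t ^ (3 / 4 : ℝ)) 0 := by
    have : ContinuousAt (fun t : ℝ => t ^ (3 / 4 : ℝ)) 0 :=
      ContinuousAt.rpow_const (by fun_prop) (Or.inr (by norm_num))
    fun_prop
  obtain ⟨δ, δ0, hδ⟩ := Metric.continuousAt_iff.1 hc σ σ0
  obtain ⟨t, tf, ht⟩ := disc (fun m => KK fun x => min (f m x) A ^ (q + 2))
    (B := B * (A ^ (q + 2) * om (q + 3)) + 1 * A ^ (q + 2)) δ0 σ0 (fun m u hu => by
      have h0 : ∀ x, 0 ≤ min (f m x) A ^ (q + 2) := fun x =>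
        pow_nonneg (le_min ((F.adm m).nn x) A0.le) _
      rw [abs_of_nonneg (a := KK _ u) (integral_nonneg fun x => mul_nonneg (h0 x) (kr_nonneg _ _))]
      refine (hB _ _ (H m) h0 u hu).trans ?_
      gcongr
      exact (le_abs_self _).trans (H m).abs_int_le) fun m u v hu hv huv => by
      have := hδ (x := ‖u - v‖) (by simpa using huv)
      rw [Real.zero_rpow (by norm_num), mul_zero, Real.dist_eq, sub_zero] at this
      exact (hC _ _ (H m) u v hu hv).trans ((le_abs_self _).trans this.le)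
  refine ⟨t, tf, fun m => (ht m).imp fun m' hm => ⟨hm.1, ?_⟩⟩
  have D := (H m).sub (H m')
  have h1 : ∀ m, ∫ u, |T (f m) u - R (fun x => min (f m x) A ^ (q + 2)) u| ∂mu (q + 3) ≤ ε / 4 :=
    fun m => (int_tail (F.adm m) A0).trans (by
      calc _ ≤ om (q + 2) * (A⁻¹ * (W + 1)) := by gcongr; linarith [hW m]
        _ = _ := by rw [hA]; field_simp)
  have h2 := L1_le D.R η0
  have h3 := sq_R_le D (S := 3 * σ) fun u hu => by rw [KK_sub (H m) (H m') hu]; exact hm.2 u hu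
  have h4 := (le_abs_self _).trans D.abs.abs_int_le
  have h5 : η⁻¹ * (cK q * (3 * σ) * ((A ^ (q + 2) + A ^ (q + 2)) * om (q + 2 + 1))) = ε / 8 := by
    rw [hσ]; field_simp; ring
  have h6 : η * om (q + 2 + 1) = ε / 8 := by rw [hη]; field_simp
  have h7 : ∫ u, |R (fun x => min (f m x) A ^ (q + 2) - min (f m' x) A ^ (q + 2)) u| ∂mu (q + 3) ≤
      ε / 4 := by
    refine h2.trans ?_
    have := mul_le_mul_of_nonneg_left (h3.trans (mul_le_mul_of_nonneg_left h4 (by positivity)))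
      (inv_nonneg.2 η0.le)
    linarith
  have J : ∀ m, Integrable (fun u => |T (f m) u - R (fun x => min (f m x) A ^ (q + 2)) u|)
      (mu (q + 3)) := fun m => ((I m).sub (H m).R.int_mu).abs
  have h8 := int_mono ((I m).sub (I m')).abs (((J m).add (J m')).add D.R.int_mu.abs) fun u hu => by
    simp only [Pi.add_apply, Pi.sub_apply]
    rw [R_sub (H m) (H m') (ne_zero_of_unit hu)]
    exact abs_tri _ _ _ _
  rw [integral_add' ((J m).add (J m')) D.R.int_mu.abs, integral_add' (J m) (J m')] at h8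
  simp only [Pi.sub_apply] at h8
  linarith [h1 m, h1 m']

lemma pow_le_truncE (a : ℝ≥0∞) {A : ℝ≥0∞} (h0 : A ≠ 0) (h1 : A ≠ ∞) (k : ℕ) :
    a ^ k ≤ min a A ^ k + A⁻¹ * a ^ (k + 1) := by
  rcases le_total a A with h | h
  · rw [min_eq_left h]
    exact le_self_add
  · refine le_add_left ?_
    calc a ^ k = A⁻¹ * (A * a ^ k) := by rw [← mul_assoc, ENNReal.inv_mul_cancel h0 h1, one_mul]
      _ ≤ _ := by rw [pow_succ']; gcongr

lemma Ne_le_of_lim {a : ℕ → V (N + 1) → ℝ≥0∞} {F : V (N + 1) → ℝ≥0∞} (ha : ∀ m, Measurable (a m))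
    {W : ℝ≥0∞} (hb : ∀ m, Ne (a m) ≤ W)
    (h1 : ∀ᵐ u ∂mu (N + 1), Tendsto (fun m => a m u) atTop (𝓝 (F u))) : Ne F ≤ W :=
  fatou (fun m => (ha m).pow_const _) (h1.mono fun _ hu => ENNReal.Tendsto.pow hu)
    tendsto_const_nhds hb

theorem closed_graph {a : ℕ → V (N + 2) → ℝ≥0∞} {F G : V (N + 2) → ℝ≥0∞}
    (ha : ∀ m, Measurable (a m)) (hF : Measurable F) (hG : Measurable G) {W : ℝ≥0∞} (hW : W ≠ ∞)
    (hb : ∀ m, Ne (a m) ≤ W) (h1 : ∀ᵐ u ∂mu (N + 2), Tendsto (fun m => a m u) atTop (𝓝 (F u)))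
    (h2 : ∀ᵐ u ∂mu (N + 2), Tendsto (fun m => Te (a m) u) atTop (𝓝 (G u))) :
    ∀ᵐ u ∂mu (N + 2), G u = Te F u := by
  have e : ∀ b : V (N + 2) → ℝ≥0∞, Measurable b → ∫⁻ u, Te b u ∂mu (N + 2) =
      ENNReal.ofReal (om (N + 1)) * ∫⁻ u, b u ^ (N + 1) ∂mu (N + 2) := fun b hb =>
    lint_Re (h := fun u => b u ^ (N + 1)) (hb.pow_const _)
  have tr : ∀ (b : V (N + 2) → ℝ≥0∞) (A : ℝ≥0∞), Measurable b → Ne b ≤ W → A ≠ 0 → A ≠ ∞ →
      ∫⁻ u, b u ^ (N + 1) ∂mu (N + 2) ≤ ∫⁻ u, min (b u) A ^ (N + 1) ∂mu (N + 2) + A⁻¹ * W :=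
    fun b A hb hN h0 h1 => by
      refine (lintegral_mono fun u => pow_le_truncE (b u) h0 h1 (N + 1)).trans ?_
      rw [lintegral_add_left (by fun_prop), lintegral_const_mul _ (by fun_prop)]
      exact add_le_add le_rfl (mul_le_mul_right hN _)
  have hfin : ∫⁻ u, F u ^ (N + 1) ∂mu (N + 2) ≠ ∞ := by
    refine ne_top_of_le_ne_top ?_ ((tr F 1 hF (Ne_le_of_lim ha hb h1) one_ne_zero
      ENNReal.one_ne_top).trans (add_le_add (lintegral_mono (g := fun _ => 1) fun u =>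
        pow_le_one₀ zero_le (min_le_right _ _)) le_rfl))
    simp [hW]
  refine EventuallyEq.symm (ae_eq_of_ae_le_of_lintegral_le ?_ ?_ hG.aemeasurable ?_)
  · filter_upwards [h2, ae_kap h1] with u h3 h4
    exact fatou (fun m => (ha m).pow_const _) (h4.mono fun _ hu => ENNReal.Tendsto.pow hu) h3
      fun _ => le_rfl
  · rw [e F hF]
    exact ENNReal.mul_ne_top ENNReal.ofReal_ne_top hfin
  · have key : ∀ A : ℕ, ∫⁻ u, G u ∂mu (N + 2) ≤ ENNReal.ofReal (om (N + 1)) *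
        (∫⁻ u, F u ^ (N + 1) ∂mu (N + 2) + ((A + 1 : ℕ) : ℝ≥0∞)⁻¹ * W) := fun A => by
      have h3 : Tendsto (fun m => ∫⁻ u, min (a m u) (A + 1 : ℕ) ^ (N + 1) ∂mu (N + 2)) atTop
          (𝓝 (∫⁻ u, min (F u) (A + 1 : ℕ) ^ (N + 1) ∂mu (N + 2))) :=
        tendsto_lintegral_of_dominated_convergence (fun _ => ((A + 1 : ℕ) : ℝ≥0∞) ^ (N + 1))
          (fun m => by have := ha m; fun_prop)
          (fun m => ae_of_all _ fun u => pow_le_pow_left' (min_le_right _ _) _)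
          (by simp [ENNReal.mul_eq_top])
          (h1.mono fun _ hu => ENNReal.Tendsto.pow (hu.min tendsto_const_nhds))
      refine (fatou (fun m => measurable_Te (ha m)) h2 (ENNReal.Tendsto.const_mul
        (h3.add_const (((A + 1 : ℕ) : ℝ≥0∞)⁻¹ * W)) (Or.inr ENNReal.ofReal_ne_top)) fun m => ?_).trans
        (mul_le_mul_right (add_le_add (lintegral_mono fun u =>
          pow_le_pow_left' (min_le_left _ _) _) le_rfl) _)
      rw [e _ (ha m)]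
      exact mul_le_mul_right (tr _ _ (ha m) (hb m) (by simp) (by simp)) _
    rw [e F hF]
    refine ge_of_tendsto' (x := atTop) (ENNReal.Tendsto.const_mul ?_ (Or.inr ENNReal.ofReal_ne_top)) key
    simpa using (ENNReal.Tendsto.mul_const (ENNReal.tendsto_inv_nat_nhds_zero.comp
      (tendsto_add_atTop_nat 1)) (Or.inr hW)).const_add (∫⁻ u, F u ^ (N + 1) ∂mu (N + 2))

end Pool.Agent.Lib.MP_242fd5_gt.Ty
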