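import Pool.Agent.Lib.MP_242fd5_gt.Ty.M6a
import Pool.Agent.Lib.MP_242fd5_gt.M4g
import Pool.Agent.Lib.MP_242fd5_gt.M5Ell

set_option autoImplicit false

/-! Hoelder continuous fixed points of the twice iterated operator are ellipsoids. -/

open MeasureTheory ProbabilityTheory Set Metric Filter Topology
open scoped ENNReal NNReal RealInnerProductSpace

namespace Pool.Agent.Lib.MP_242fd5_gt.Ty

variable {n q : ℕ}

/-- Hoelder continuity of order three quarters on the unit sphere -/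
def Hol (f : V n → ℝ) : Prop :=
  ∃ C : ℝ, ∀ u v : V n, ‖u‖ = 1 → ‖v‖ = 1 → |f u - f v| ≤ C * ‖u - v‖ ^ (3 / 4 : ℝ)

/-- interior of the star body -/
def inn (f : V n → ℝ) : Set (V n) := {x | x = 0 ∨ 1 < f x}

variable {f : V n → ℝ}

lemma Hol.iso (h : Hol f) (g : V n ≃ₗᵢ[ℝ] V n) : Hol fun x => f (g x) := by
  obtain ⟨C, hC⟩ := h
  refine ⟨C, fun u v hu hv => ?_⟩
  have := hC (g u) (g v) (by simpa) (by simpa)
  rwa [← map_sub, g.norm_map] at this

lemma Hol.sphere (h : Hol f) : ContinuousOn f {u | ‖u‖ = 1} := by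
  obtain ⟨C, hC⟩ := h
  intro u hu
  rw [ContinuousWithinAt, tendsto_iff_dist_tendsto_zero]
  have h1 : ContinuousAt (fun v : V n => C * ‖v - u‖ ^ (3 / 4 : ℝ)) u :=
    continuousAt_const.mul (ContinuousAt.rpow_const (by fun_prop) (Or.inr (by norm_num)))
  have h2 := h1.tendsto.mono_left (nhdsWithin_le_nhds (s := {u : V n | ‖u‖ = 1}))
  rw [sub_self, norm_zero, Real.zero_rpow (by norm_num), mul_zero] at h2
  refine squeeze_zero' (Eventually.of_forall fun _ => dist_nonneg) ?_ h2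
  filter_upwards [self_mem_nhdsWithin] with v hv using hC v u hv hu

lemma Hol.continuousOn (h : Hol f) (H : Adm f) : ContinuousOn f {0}ᶜ := by
  have h0 : ContinuousOn (fun x : V n => ‖x‖⁻¹) {0}ᶜ :=
    continuous_norm.continuousOn.inv₀ fun x hx => norm_ne_zero_iff.2 hx
  have h1 : ContinuousOn (nrm : V n → V n) {0}ᶜ := h0.smul continuousOn_id
  exact (h0.mul (h.sphere.comp h1 fun x hx => norm_nrm hx)).congr fun x _ => H.eq_nrm x

lemma one_lt_iff (H : Adm f) {x : V n} (hx : x ≠ 0) : 1 < f x ↔ ‖x‖ < f (nrm x) := by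
  rw [H.eq_nrm x, lt_inv_mul_iff₀ (norm_pos_iff.2 hx), mul_one]

lemma one_le_iff (H : Adm f) {x : V n} (hx : x ≠ 0) : 1 ≤ f x ↔ ‖x‖ ≤ f (nrm x) := by
  rw [H.eq_nrm x, le_inv_mul_iff₀ (norm_pos_iff.2 hx), mul_one]

lemma isOpen_inn (H : Adm f) (hc : ContinuousOn f {0}ᶜ) {m : ℝ} (hm0 : 0 < m)
    (hm : ∀ u, ‖u‖ = 1 → m ≤ f u) : IsOpen (inn f) := by
  have : inn f = ball 0 m ∪ {0}ᶜ ∩ f ⁻¹' Ioi 1 := by
    ext x
    by_cases hx : x = 0
    · simp [inn, hx, hm0]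
    · simp only [inn, mem_ofPred_eq, hx, false_or, mem_union, mem_ball_zero_iff, mem_inter_iff,
        mem_compl_iff, mem_singleton_iff, not_false_eq_true, mem_preimage, mem_Ioi, true_and]
      exact ⟨Or.inr, fun h => h.elim
        (fun h => (one_lt_iff H hx).2 (h.trans_le (hm _ (norm_nrm hx)))) id⟩
  rw [this]
  exact isOpen_ball.union (hc.isOpen_inter_preimage isOpen_compl_singleton isOpen_Ioi)

lemma isClosed_star (hc : ContinuousOn f {0}ᶜ) : IsClosed (star f) := by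
  have : (star f)ᶜ = {0}ᶜ ∩ f ⁻¹' Iio 1 := by
    ext x; simp [star]
  rw [← isOpen_compl_iff, this]
  exact hc.isOpen_inter_preimage isOpen_compl_singleton isOpen_Iio

lemma shell (H : Adm f) (h : Hol f) {m : ℝ} (hm0 : 0 < m) (hm : ∀ u, ‖u‖ = 1 → m ≤ f u) :
    ∃ C1 d0 : ℝ, 0 < C1 ∧ 0 < d0 ∧ ∀ d, 0 < d → d < d0 → ∀ (u : V n) (r : ℝ) (x : V n), ‖u‖ = 1 →
      0 ≤ r → ‖x - r • u‖ ≤ 3 * d → (r ≤ f u - C1 * d ^ (3 / 4 : ℝ) → x ∈ inn f) ∧
        (f u + C1 * d ^ (3 / 4 : ℝ) ≤ r → x ∉ inn f) := by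
  obtain ⟨C, hC⟩ := h
  refine ⟨|C| * (12 / m) ^ (3 / 4 : ℝ) + 4, min 1 (m / 6), by positivity, by positivity,
    fun d d0 d1 u r x hu hr hx => ?_⟩
  rw [lt_min_iff] at d1
  have p0 : 0 < d ^ (3 / 4 : ℝ) := by positivity
  have p1 : d ≤ d ^ (3 / 4 : ℝ) := Real.self_le_rpow_of_le_one d0.le d1.1.le (by norm_num)
  have p2 : 0 ≤ |C| * (12 / m) ^ (3 / 4 : ℝ) * d ^ (3 / 4 : ℝ) := by positivity
  have n1 : ‖r • u‖ = r := by rw [norm_smul, hu, mul_one, Real.norm_of_nonneg hr]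
  have n2 : |‖x‖ - r| ≤ 3 * d := by
    have := abs_norm_sub_norm_le x (r • u)
    rw [n1] at this; exact this.trans hx
  have n3 := abs_le.1 n2
  have key : x ≠ 0 → m / 2 ≤ r →
      |f u - f (nrm x)| ≤ |C| * (12 / m) ^ (3 / 4 : ℝ) * d ^ (3 / 4 : ℝ) := by
    intro x0 hr2
    have e : r • (u - nrm x) = (‖x‖ - r) • nrm x - (x - r • u) := by
      rw [sub_smul, norm_smul_nrm]; module
    have n4 : r * ‖u - nrm x‖ ≤ 6 * d := by
      have := norm_sub_le ((‖x‖ - r) • nrm x) (x - r • u)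
      rw [← e, norm_smul, norm_smul, norm_nrm x0, mul_one, Real.norm_of_nonneg hr,
        Real.norm_eq_abs] at this
      linarith
    have n5 : ‖u - nrm x‖ ≤ 12 / m * d := by
      rw [div_mul_eq_mul_div, le_div_iff₀ hm0]
      nlinarith [norm_nonneg (u - nrm x)]
    refine (hC u _ hu (norm_nrm x0)).trans ?_
    rw [mul_assoc, ← Real.mul_rpow (by positivity) d0.le]
    exact mul_le_mul (le_abs_self _) (Real.rpow_le_rpow (norm_nonneg _) n5 (by norm_num))
      (by positivity) (abs_nonneg _)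
  constructor
  · intro h1
    by_cases x0 : x = 0
    · exact Or.inl x0
    refine Or.inr ((one_lt_iff H x0).2 ?_)
    rcases le_total r (m / 2) with h2 | h2
    · linarith [hm _ (norm_nrm x0), n3.2]
    · linarith [(abs_le.1 (key x0 h2)).2, n3.2]
  · intro h1 h2
    have h3 := hm u hu
    have x0 : x ≠ 0 := by
      rintro rfl
      rw [norm_zero] at n3
      linarith [n3.1]
    have h4 := (one_lt_iff H x0).1 (h2.resolve_left x0)
    linarith [(abs_le.1 (key x0 (by linarith))).1, n3.1]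

lemma norm_pt_sub (s : ℝ) (x : V (n + 1)) : ‖pt s (tl x) - x‖ = |s - x 0| := by
  nth_rewrite 2 [← pt_tl x]
  rw [← pt_sub, sub_self, norm_pt_axis]

lemma axis_refl {f : V (q + 3) → ℝ} (H : Adm f) (hp : ∀ u, ‖u‖ = 1 → 0 < f u) (h : Hol f)
    {lam : ℝ} (hl : 0 < lam) (hfix : ∀ u, ‖u‖ = 1 → f u = lam * T (T f) u) :
    ∃ L : V (q + 2) →ₗ[ℝ] ℝ, ∀ x : V (q + 3), f (pt (2 * L (tl x) - x 0) (tl x)) = f x := by
  have hc := h.continuousOn H
  have e1 : ‖pt 1 (0 : V (q + 2))‖ = 1 := by rw [norm_pt_axis, abs_one]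
  have hK : IsCompact {u : V (q + 3) | ‖u‖ = 1} := by
    rw [show {u : V (q + 3) | ‖u‖ = 1} = sphere 0 1 by ext u; simp]
    exact isCompact_sphere _ _
  obtain ⟨u0, hu0, hmin⟩ := hK.exists_isMinOn ⟨_, e1⟩ h.sphere
  have hm0 := hp u0 hu0
  have hm : ∀ u, ‖u‖ = 1 → f u0 ≤ f u := fun u hu => hmin hu
  obtain ⟨M, hM⟩ := H.bdd
  obtain ⟨C1, d0, c1, hd0, hsh⟩ := shell H h hm0 hm
  have small : ∀ ε : ℝ, 0 < ε → ∃ d1, 0 < d1 ∧ d1 ≤ d0 ∧ ∀ d, 0 < d → d < d1 →
      C1 * d ^ (3 / 4 : ℝ) ≤ ε := by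
    intro ε hε
    refine ⟨min d0 ((ε / C1) ^ (4 / 3 : ℝ)), by positivity, min_le_left _ _, fun d h0 h1 => ?_⟩
    have := Real.rpow_le_rpow h0.le (h1.le.trans (min_le_right _ _))
      (show (0:ℝ) ≤ 3 / 4 by norm_num)
    rw [← Real.rpow_mul (by positivity), show (4 / 3 * (3 / 4) : ℝ) = 1 by norm_num,
      Real.rpow_one, le_div_iff₀ c1] at this
    linarith
  set U : Set (ℝ × V (q + 2)) := (fun p => pt p.1 p.2) ⁻¹' inn f with hUd
  have hU : IsOpen U := (isOpen_inn H hc hm0 hm).preimage continuous_pt₂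
  have hb : Bornology.IsBounded U := by
    refine (isBounded_iff_forall_norm_le).2 ⟨|M|, fun p hp => ?_⟩
    have h1 : ‖pt p.1 p.2‖ ≤ |M| := by
      by_cases h0 : pt p.1 p.2 = 0
      · rw [h0, norm_zero]; exact abs_nonneg _
      · exact ((one_lt_iff H h0).1 (hp.resolve_left h0)).le.trans
          ((hM _ (norm_nrm h0)).trans (le_abs_self _))
    have h2 := norm_sq_pt p.1 p.2
    refine le_trans ?_ h1
    rw [Prod.norm_def, max_le_iff, Real.norm_eq_abs]
    constructor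
    · exact abs_le_of_sq_le_sq' (by rw [sq_abs]; nlinarith [sq_nonneg ‖p.2‖]) (norm_nonneg _) |>.2
    · exact abs_le_of_sq_le_sq' (by nlinarith [sq_nonneg p.1]) (norm_nonneg _) |>.2
  have hax : ∀ ε, 0 < ε → ∃ r, 0 < r ∧ ∀ y : V (q + 2), ‖y‖ < r →
      (∀ s, |s| ≤ f (pt 1 0) - ε → (s, y) ∈ U) ∧ (∀ s, (s, y) ∈ U → |s| < f (pt 1 0) + ε) := by
    intro ε hε
    obtain ⟨d1, a0, a1, a2⟩ := small ε hε
    have a3 := a2 (d1 / 2) (by positivity) (by linarith)
    refine ⟨d1, a0, fun y hy => ?_⟩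
    have hs : ∀ s : ℝ, ∃ u : V (q + 3), ‖u‖ = 1 ∧ f u = f (pt 1 0) ∧
        ‖pt s y - |s| • u‖ ≤ 3 * (d1 / 2) := by
      intro s
      have b : ‖pt s y - pt s 0‖ ≤ 3 * (d1 / 2) := by
        rw [← pt_sub, sub_self, sub_zero, norm_pt_zero]; linarith
      have b2 : pt s (0 : V (q + 2)) = s • pt 1 0 := by rw [← pt_smul]; simp
      rcases abs_cases s with h1 | h1
      · exact ⟨_, e1, rfl, by rw [h1.1, ← b2]; exact b⟩
      · refine ⟨-pt 1 0, by rw [norm_neg, e1], ?_, by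
          rw [h1.1, smul_neg, neg_smul, neg_neg, ← b2]; exact b⟩
        rw [hfix _ (by rw [norm_neg, e1]), T_neg, ← hfix _ e1]
    constructor
    · intro s h1
      obtain ⟨u, b1, b2, b3⟩ := hs s
      exact (hsh (d1 / 2) (by positivity) (by linarith) u _ _ b1 (abs_nonneg s) b3).1 (by linarith)
    · intro s h1
      obtain ⟨u, b1, b2, b3⟩ := hs s
      by_contra h2
      exact (hsh (d1 / 2) (by positivity) (by linarith) u _ _ b1 (abs_nonneg s) b3).2
        (by linarith) h1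
  have hS : M4.Stat U := by
    obtain ⟨K, K0, hK⟩ := shell_second H hl hfix
    obtain ⟨c, c0, ct, hcG⟩ := chartG (q + 2)
    obtain ⟨d1, a0, a1, a2⟩ := small 1 one_pos
    refine ⟨(c⁻¹ * ENNReal.ofReal (K * C1 ^ 2)).toNNReal, d1, a0, fun d h0 h1 F F' A A' hm => ?_⟩
    have sh : ∀ G, M4.Adm U d G → ∀ u : V (q + 3), ‖u‖ = 1 →
        Sh (f u) (C1 * d ^ (3 / 4 : ℝ)) fun r => G ((r • u) 0, tl (r • u)) := by
      intro G ⟨g1, g2, g3, g4⟩ u hu
      refine ⟨g1.comp (by fun_prop), fun r => g2 _, fun r r0 hr => g3 _ fun s hs => ?_,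
        fun r hr => g4 _ fun s hs => ?_⟩
      · exact (hsh d h0 (by linarith) u r _ hu r0.le (by rw [norm_pt_sub]; exact hs)).1 hr
      · have : 0 < C1 * d ^ (3 / 4 : ℝ) := by positivity
        exact (hsh d h0 (by linarith) u r _ hu (by linarith [hp u hu])
          (by rw [norm_pt_sub]; exact hs)).2 hr
    have m1 : Measurable fun x : V (q + 3) => F (x 0, tl x) := A.1.comp mp_split.measurable
    have m2 : Measurable fun x : V (q + 3) => F' (x 0, tl x) := A'.1.comp mp_split.measurable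
    obtain ⟨k1, k2⟩ := hK _ (by positivity) (a2 d h0 h1) _ _ m1 m2 (sh F A) (sh F' A')
      (by rw [mp_split.lintegral_comp A.1, mp_split.lintegral_comp A'.1, hm])
    rw [hcG _ m2] at k1
    rw [hcG _ m1, hcG _ m2] at k2
    simp only [pt_zero, tl_pt] at k1 k2
    refine ⟨fun h => k1 (by rw [show (∫⁻ a : V (q + 2), (∫⁻ y : V (q + 2), F' (⟪a, y⟫, y)) ^
      (q + 2 + 1)) = ∞ from h, ENNReal.mul_top c0]), ?_⟩
    rw [ENNReal.coe_toNNReal (ENNReal.mul_ne_top (ENNReal.inv_ne_top.2 c0) ENNReal.ofReal_ne_top),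
      ← ENNReal.mul_le_mul_iff_right c0 ct, mul_add, ← mul_assoc, ← mul_assoc,
      ENNReal.mul_inv_cancel c0 ct, one_mul, ← ENNReal.ofReal_mul (by positivity)]
    have e : K * (C1 * d ^ (3 / 4 : ℝ)) ^ 2 = K * C1 ^ 2 * d ^ (3 / 2 : ℝ) := by
      rw [mul_pow, ← Real.rpow_natCast (d ^ (3 / 4 : ℝ)), ← Real.rpow_mul h0.le]
      norm_num [mul_assoc]
    rw [← e]
    exact k2
  obtain ⟨L, -, hL⟩ := M4.msyCore (by omega) hU hb (hp _ e1) hax hS
  have hcl : closure U ⊆ (fun p : ℝ × V (q + 2) => pt p.1 p.2) ⁻¹' star f :=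
    closure_minimal (fun p hp => hp.imp id le_of_lt) ((isClosed_star hc).preimage continuous_pt₂)
  have le : ∀ x : V (q + 3), f x ≤ f (pt (2 * L (tl x) - x 0) (tl x)) := by
    intro x
    by_contra hlt
    rw [not_le] at hlt
    obtain ⟨t, t1, t2⟩ := exists_between hlt
    have t0 : 0 < t := (H.nn _).trans_lt t1
    have x1 : 1 < f (t • x) := by rw [H.hom t t0, lt_inv_mul_iff₀ t0, mul_one]; exact t2
    have x2 := hcl (hL ((t • x) 0, tl (t • x)) (Or.inr (by simpa only [pt_tl] using x1)))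
    have x3 : pt (2 * L (tl (t • x)) - (t • x) 0) (tl (t • x)) =
        t • pt (2 * L (tl x) - x 0) (tl x) := by
      rw [← pt_smul, tl_smul, map_smul, smul_eq_mul, PiLp.smul_apply, smul_eq_mul]
      congr 1; ring
    simp only [mem_preimage, x3] at x2
    rcases x2 with x2 | x2
    · have x4 := (smul_eq_zero.1 x2).resolve_left t0.ne'
      have x5 : tl x = 0 := congrArg tl x4
      have x6 : 2 * L (tl x) - x 0 = 0 := congrArg (fun z : V (q + 3) => z 0) x4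
      rw [x5, map_zero, mul_zero, zero_sub, neg_eq_zero] at x6
      rw [← pt_tl x, x5, x6, pt_zero_zero, H.zero] at t2
      linarith
    · rw [H.hom t t0, le_inv_mul_iff₀ t0, mul_one] at x2
      linarith
  refine ⟨L, fun x => le_antisymm ?_ (le x)⟩
  simpa using le (pt (2 * L (tl x) - x 0) (tl x))

/-- A positive Hoelder continuous solution of `f = lam T T f` is an ellipsoid. -/
theorem msy {f : V (q + 3) → ℝ} (H : Adm f) (hp : ∀ u, ‖u‖ = 1 → 0 < f u) (h : Hol f)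
    {lam : ℝ} (hl : 0 < lam) (hfix : ∀ u, ‖u‖ = 1 → f u = lam * T (T f) u) :
    ∃ g : V (q + 3) ≃L[ℝ] V (q + 3), ∀ x, x ≠ 0 → f x = rho g x := by
  refine M4.ell_of_refl f (h.continuousOn H) (fun x hx => ?_) H.hom fun e he => ?_
  · rw [H.eq_nrm]
    exact mul_pos (inv_pos.2 (norm_pos_iff.2 hx)) (hp _ (norm_nrm hx))
  obtain ⟨g, hg⟩ := exists_iso_axis e
  have e0 := norm_pos_iff.2 he
  obtain ⟨L, hL⟩ := axis_refl (f := fun x => f (g x)) (H.comp g.toContinuousLinearEquiv)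
    (fun u hu => hp _ (by simpa)) (h.iso g) hl (fun u hu => by
      rw [hfix _ (by simpa), funext (T_iso H g), T_iso H.T g])
  let φ : V (q + 3) →ₗ[ℝ] ℝ :=
    { toFun := fun x => (2 * g.symm x 0 - 2 * L (tl (g.symm x))) / ‖e‖
      map_add' := fun x y => by
        rw [map_add, tl_add, map_add, PiLp.add_apply]; ring
      map_smul' := fun c x => by
        rw [map_smul, tl_smul, map_smul, PiLp.smul_apply]
        simp only [smul_eq_mul, RingHom.id_apply]; ring }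
  have hφ : ∀ x, φ x = (2 * g.symm x 0 - 2 * L (tl (g.symm x))) / ‖e‖ := fun _ => rfl
  refine ⟨φ, ?_, fun x => ?_⟩
  · have : g.symm e = pt ‖e‖ 0 := by rw [LinearIsometryEquiv.symm_apply_eq, hg]
    rw [hφ, this, pt_zero, tl_pt, map_zero]; field_simp; ring
  · have h1 := hL (g.symm x)
    rw [g.apply_symm_apply] at h1
    rw [← h1]
    congr 1
    apply g.symm.injective
    rw [g.symm_apply_apply, map_sub, map_smul, show g.symm e = pt ‖e‖ 0 by
      rw [LinearIsometryEquiv.symm_apply_eq, hg], ← pt_smul, smul_zero]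
    nth_rewrite 1 [← pt_tl (g.symm x)]
    rw [← pt_sub, sub_zero, hφ, div_mul_cancel₀ _ e0.ne']
    congr 1; ring

end Pool.Agent.Lib.MP_242fd5_gt.Ty
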