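import Pool.Agent.Lib.MP_242fd5_gt.Ty.D2Cpt
import Pool.Agent.Lib.MP_242fd5_gt.Ty.M6b

set_option autoImplicit false

open MeasureTheory ProbabilityTheory Set Metric Filter Topology
open scoped ENNReal NNReal RealInnerProductSpace

namespace Pool.Agent.Lib.MP_242fd5_gt.Ty

variable {n N q : ℕ}

noncomputable def lam0 (q : ℕ) : ℝ := (om (q + 2) ^ (q + 3))⁻¹

/-- the normalised second iterate -/
noncomputable def S (f : V (q + 3) → ℝ) (x : V (q + 3)) : ℝ := lam0 q * T (T f) x

lemma lam0_pos (q : ℕ) : 0 < lam0 q := inv_pos.2 (pow_pos (om_pos _) _)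

lemma Adm.S {f : V (q + 3) → ℝ} (F : Adm f) : Adm (S f) := F.T.T.smul (lam0_pos q).le

lemma S_rho' (g : V (q + 3) ≃L[ℝ] V (q + 3)) (x : V (q + 3)) :
    S (rho g) x = jac g ^ (q + 1) * rho g x := by
  have := om_pos (q + 2)
  rw [S, TT_rho, lam0]
  field_simp

lemma S_rho {g : V (q + 3) ≃L[ℝ] V (q + 3)} (hg : jac g = 1) (x : V (q + 3)) :
    S (rho g) x = rho g x := by rw [S_rho', hg, one_pow, one_mul]

lemma S_comp {f : V (q + 3) → ℝ} (F : Adm f) {g : V (q + 3) ≃L[ℝ] V (q + 3)} (hg : jac g = 1)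
    (x : V (q + 3)) : S (fun x => f (g x)) x = S f (g x) := by rw [S, TT_comp F hg, S]

lemma TT_congr_ae {f h : V (q + 3) → ℝ} (F : Adm f) (H : Adm h) (e : ∀ᵐ x ∂mu (q + 3), f x = h x)
    {u : V (q + 3)} (hu : ‖u‖ = 1) : T (T f) u = T (T h) u := by
  obtain ⟨A, hA⟩ := F.bm
  obtain ⟨B, hB⟩ := H.bm
  obtain ⟨C, -, hC⟩ := TT_lip q (max A B)
  have := hC f h (hA.mono (le_max_left _ _)) (hB.mono (le_max_right _ _)) u hu
  rw [KK, integral_congr_ae (g := fun _ => (0:ℝ)) (e.mono fun x hx => by simp [hx])] at this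
  simpa [sub_eq_zero] using this

lemma Te_congr_ae {a b : V (N + 2) → ℝ≥0∞} (e : ∀ᵐ x ∂mu (N + 2), a x = b x) :
    ∀ᵐ u ∂mu (N + 2), Te a u = Te b u :=
  (ae_kap e).mono fun _ hu => lintegral_congr_ae (hu.mono fun _ hv => by simp only [hv])

lemma Adm.ofReal_TT {f : V (N + 2) → ℝ} (F : Adm f) {u : V (N + 2)} (hu : ‖u‖ = 1) :
    ENNReal.ofReal (Ty.T (Ty.T f) u) = Te (Te fun x => ENNReal.ofReal (f x)) u := by
  rw [F.T.ofReal_T hu]
  exact lintegral_congr_ae ((kap_sphere (ne_zero_of_unit hu)).mono fun v hv => by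
    simp only [F.ofReal_T hv.1])

theorem fix_ell {f : V (q + 3) → ℝ} (F : Adm f) (h0 : Nn f ≠ 0)
    (h : ∀ u, ‖u‖ = 1 → f u = S f u) : ∃ g, jac g = 1 ∧ f = rho g := by
  have hol := holder F (lam0_pos q).le h
  obtain ⟨g, hg⟩ := msy F (fun u hu => by
    obtain ⟨C, hC⟩ := hol
    rw [h u hu]
    exact mul_pos (lam0_pos q) (TT_pos F (contOn_of_holder F hC) h0 hu)) hol (lam0_pos q) h
  obtain rfl : f = rho g := F.ext (adm_rho g) fun x hx => hg x (ne_zero_of_unit hx)
  refine ⟨g, ?_, rfl⟩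
  have hu : ‖(pt 1 0 : V (q + 3))‖ = 1 := by rw [norm_pt_axis, abs_one]
  have := h _ hu
  rw [S_rho', eq_comm, mul_eq_right₀ (rho_pos g (ne_zero_of_unit hu)).ne'] at this
  exact (pow_eq_one_iff_of_nonneg (jac_pos g).le (Nat.add_one_ne_zero q)).1 this

theorem fix_ell_ae {f : V (q + 3) → ℝ} (F : Adm f) (h0 : Nn f ≠ 0)
    (h : ∀ᵐ u ∂mu (q + 3), f u = S f u) : ∃ g, jac g = 1 ∧ S f = rho g :=
  fix_ell F.S (by rwa [← Nn_congr h]) fun u hu => by
    rw [S, S, TT_congr_ae F F.S h hu]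

theorem regularise {F : V (q + 3) → ℝ≥0∞} (hF : Measurable F) {W : ℝ}
    (hW : Ne F ≤ ENNReal.ofReal W) (h0 : Ne F ≠ 0)
    (h : ∀ᵐ u ∂mu (q + 3), F u = ENNReal.ofReal (lam0 q) * Te (Te F) u) :
    ∃ g, jac g = 1 ∧ ∀ᵐ u ∂mu (q + 3), F u = ENNReal.ofReal (rho g u) := by
  obtain ⟨y, y0, hy⟩ := deGiorgi q W (lam0 q)
  have hfin : Ne F ≠ ∞ := ne_top_of_le_ne_top ENNReal.ofReal_ne_top hW
  have hs : ∀ k : ℕ, MeasurableSet {x | ex k < F x} := fun k => measurableSet_lt measurable_const hF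
  have h1 : Tendsto (fun k : ℕ => ∫⁻ u, {x | ex k < F x}.indicator (fun u => F u ^ (q + 3)) u
      ∂mu (q + 3)) atTop (𝓝 (∫⁻ _, 0 ∂mu (q + 3))) := by
    refine tendsto_lintegral_of_dominated_convergence (fun u => F u ^ (q + 3))
      (fun k => (hF.pow_const _).indicator (hs k))
      (fun k => ae_of_all _ fun u => indicator_le_self _ _ u) hfin ?_
    filter_upwards [ae_lt_top (hF.pow_const _) hfin] with u hu
    obtain ⟨c, -, hc⟩ := exists_ex (x := F u) fun e => by simp [e] at hu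
    refine tendsto_const_nhds.congr' ?_
    filter_upwards [tendsto_natCast_atTop_atTop.eventually_ge_atTop c] with k hk
    rw [indicator_of_notMem (show u ∉ {x | ex k < F x} from not_lt.2 (hc.trans (ex_mono hk)))]
  rw [lintegral_zero] at h1
  obtain ⟨k, hk⟩ := (h1.eventually (gt_mem_nhds (ENNReal.ofReal_pos.2 y0))).exists
  rw [lintegral_indicator (hs k)] at hk
  obtain ⟨C, hC⟩ := hy k 0 k.cast_nonneg le_rfl
  have h2 := hC (fun _ => F) (fun _ => hF) (fun _ => hW) (fun _ => Or.inl (h.mono fun _ e => e.le))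
    fun _ => by simpa using hk.le
  have B : BM |C| fun x => min (F x).toReal |C| := ⟨by fun_prop, fun x _ => by
    rw [abs_of_nonneg (le_min ENNReal.toReal_nonneg (abs_nonneg _))]
    exact min_le_right _ _⟩
  have A := adm_ext B fun x => le_min ENNReal.toReal_nonneg (abs_nonneg _)
  set f : V (q + 3) → ℝ := fun x => ‖x‖⁻¹ * min (F (nrm x)).toReal |C| with hf
  have h3 : ∀ᵐ u ∂mu (q + 3), F u = ENNReal.ofReal (f u) := by
    filter_upwards [h2, mu_sphere] with u h4 h5
    rw [hf]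
    simp only [h5, nrm_unit h5, inv_one, one_mul]
    rw [min_eq_left (ENNReal.toReal_le_of_le_ofReal (abs_nonneg _) (h4.trans
      (ENNReal.ofReal_le_ofReal (le_abs_self _)))),
      ENNReal.ofReal_toReal (ne_top_of_le_ne_top ENNReal.ofReal_ne_top h4)]
  have h4 : ∀ᵐ u ∂mu (q + 3), f u = S f u := by
    filter_upwards [h, h3, Te_congr_ae (Te_congr_ae h3), mu_sphere] with u e1 e2 e3 hu
    rw [e2, e3, ← A.ofReal_TT hu, ← ENNReal.ofReal_mul (lam0_pos q).le] at e1
    exact (ENNReal.ofReal_eq_ofReal_iff (A.nn u) (A.S.nn u)).1 e1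
  obtain ⟨g, hg, h5⟩ := fix_ell_ae A (fun e => h0 (by
    rw [← ENNReal.ofReal_zero, ← e, A.ofReal_Nn]
    exact lintegral_congr_ae (h3.mono fun u hu => by simp only [hu]))) h4
  refine ⟨g, hg, ?_⟩
  filter_upwards [h3, h4] with u e1 e2
  rw [e1, e2, h5]

theorem ext_lim {f : ℕ → V (q + 3) → ℝ} (F : Bd f) (D : Z fun m x => |f m x - S (f m) x|)
    {δ A : ℝ} (hδ : 0 < δ) (hA : 0 < A) (h : ∀ m, δ ≤ Nn fun x => min (f m x) (A * ‖x‖⁻¹)) :
    ∃ φ : ℕ → ℕ, StrictMono φ ∧ ∃ g, jac g = 1 ∧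
      ∀ᵐ u ∂mu (q + 3), Tendsto (fun m => f (φ m) u) atTop (𝓝 (rho g u)) := by
  obtain ⟨φ1, s1, G1, m1, h1⟩ := cpt F
  obtain ⟨φ2, s2, G2, m2, h2⟩ := cpt (F.T.sub φ1)
  obtain ⟨φ3, s3, h3⟩ := exists_ae_zero (fun m => (D.adm (φ1 (φ2 m))).int_pow (q + 3))
    ((D.sub (s1.comp s2)).lim.congr fun m => by simp [Nn])
  refine ⟨fun m => φ1 (φ2 (φ3 m)), s1.comp (s2.comp s3), ?_⟩
  have F' := F.sub fun m => φ1 (φ2 (φ3 m))
  have e1 := h1.mono fun u hu => hu.comp (s2.comp s3).tendsto_atTop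
  have e2 := h2.mono fun u hu => hu.comp s3.tendsto_atTop
  have e3 : ∀ᵐ u ∂mu (q + 3), Tendsto (fun m => f (φ1 (φ2 (φ3 m))) u) atTop
      (𝓝 (lam0 q * G2 u)) := by
    filter_upwards [e2, h3] with u a b
    have b' : Tendsto (fun m => f (φ1 (φ2 (φ3 m))) u - S (f (φ1 (φ2 (φ3 m)))) u) atTop (𝓝 0) := by
      have := ((Real.continuous_rpow_const (q := ((q + 3 : ℕ) : ℝ)⁻¹) (by positivity)).tendsto 0).comp b
      rw [Real.zero_rpow (by positivity)] at this
      refine tendsto_zero_iff_abs_tendsto_zero _ |>.2 (this.congr fun m => ?_)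
      exact Real.pow_rpow_inv_natCast (abs_nonneg _) (by omega)
    simpa [S] using b'.add (a.const_mul (lam0 q))
  obtain ⟨W, hW⟩ := F'.bd
  obtain ⟨W', hW'⟩ := F'.T.bd
  have o := fun {a : ℕ → ℝ} {b : ℝ} (h : Tendsto a atTop (𝓝 b)) =>
    (ENNReal.continuous_ofReal.tendsto b).comp h
  have b1 : ∀ m, Ne (fun x => ENNReal.ofReal (f (φ1 (φ2 (φ3 m))) x)) ≤ ENNReal.ofReal W := fun m =>
    (F'.adm m).ofReal_Nn.ge.trans (ENNReal.ofReal_le_ofReal (hW m))
  have c1 := closed_graph (F := fun u => ENNReal.ofReal (lam0 q * G2 u))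
    (G := fun u => ENNReal.ofReal (G1 u)) (fun m => (F'.adm m).meas.ennreal_ofReal) (by fun_prop)
    (by fun_prop) ENNReal.ofReal_ne_top b1 (e3.mono fun u hu => o hu) (by
      filter_upwards [e1, mu_sphere] with u a hu
      exact (o a).congr fun m => (F'.adm m).ofReal_T hu)
  have c2 := closed_graph (F := fun u => ENNReal.ofReal (G1 u))
    (G := fun u => ENNReal.ofReal (G2 u)) (fun m => (F'.T.adm m).meas.ennreal_ofReal) (by fun_prop)
    (by fun_prop) ENNReal.ofReal_ne_top (fun m => (F'.T.adm m).ofReal_Nn.ge.trans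
      (ENNReal.ofReal_le_ofReal (hW' m))) (e1.mono fun u hu => o hu) (by
      filter_upwards [e2, mu_sphere] with u a hu
      exact (o a).congr fun m => (F'.T.adm m).ofReal_T hu)
  have nn : ∀ᵐ u ∂mu (q + 3), 0 ≤ lam0 q * G2 u :=
    e3.mono fun u hu => ge_of_tendsto' hu fun m => (F'.adm m).nn u
  obtain ⟨g, hg, h5⟩ := regularise (F := fun u => ENNReal.ofReal (lam0 q * G2 u)) (by fun_prop)
    (Ne_le_of_lim (fun m => (F'.adm m).meas.ennreal_ofReal) b1 (e3.mono fun u hu => o hu))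
    (fun e => by
      have z : ∀ᵐ u ∂mu (q + 3), lam0 q * G2 u = 0 := by
        filter_upwards [(lintegral_eq_zero_iff (by fun_prop)).1 e, nn] with u a b
        exact le_antisymm (by simpa using a) b
      have A1 := fun m => (F'.adm m).min (adm_inv_norm.smul hA.le)
      have := tendsto_int_zero (B := A ^ (q + 3)) (fun m => ((A1 m).bm' (C := A) fun x hx =>
        (min_le_right _ _).trans (by simp [hx])).pow (q + 3)) (by
          filter_upwards [e3, z] with u a b
          rw [b] at a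
          have := (a.min (tendsto_const_nhds (x := A * ‖u‖⁻¹))).pow (q + 3)
          rwa [min_eq_left (by positivity), zero_pow (by omega)] at this)
      exact absurd (ge_of_tendsto' this fun m => h _) (not_le.2 hδ)) (by
      filter_upwards [c2, Te_congr_ae c1] with u a b
      rw [ENNReal.ofReal_mul (lam0_pos q).le, a, b])
  refine ⟨g, hg, ?_⟩
  filter_upwards [e3, h5, nn] with u a b c
  rwa [(ENNReal.ofReal_eq_ofReal_iff c ((adm_rho g).nn u)).1 b] at a

theorem ext_split {f : ℕ → V (q + 3) → ℝ} (F : Bd f) (D : Z fun m x => |f m x - S (f m) x|)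
    {g : V (q + 3) ≃L[ℝ] V (q + 3)} (hg : jac g = 1)
    (h : ∀ᵐ u ∂mu (q + 3), Tendsto (fun m => f m u) atTop (𝓝 (rho g u))) :
    ∃ w : ℕ → V (q + 3) → ℝ, (∀ m, Adm (w m)) ∧ (Z fun m x => |w m x - S (w m) x|) ∧
      Tendsto (fun m => Nn (f m) - Nn (w m)) atTop (𝓝 (om (q + 3))) ∧
      Tendsto (fun m => dV (f m) fun x => max (w m x) (rho g x)) atTop (𝓝 0) := by
  have P := adm_rho g
  have P2 := P.smul (c := 2) zero_le_two
  set w : ℕ → V (q + 3) → ℝ := fun m x => if 2 * rho g x < f m x then f m x else 0 with hw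
  set b : ℕ → V (q + 3) → ℝ := fun m x => if 2 * rho g x < f m x then 0 else f m x with hb
  have W : Bd w := F.mono (fun m => (F.adm m).above P2) fun m x _ => by
    simp only [hw]; split_ifs; exacts [le_rfl, (F.adm m).nn x]
  have B : Bd b := F.mono (fun m => (F.adm m).below P2) fun m x _ => by
    simp only [hb]; split_ifs; exacts [(F.adm m).nn x, le_rfl]
  have ev : ∀ᵐ u ∂mu (q + 3), ∀ᶠ m in atTop, ¬2 * rho g u < f m u := by
    filter_upwards [h, mu_sphere] with u a hu
    have := rho_pos g (ne_zero_of_unit hu)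
    exact (a.eventually (gt_mem_nhds (show rho g u < 2 * rho g u by linarith))).mono fun m hm =>
      not_lt.2 hm.le
  obtain ⟨C, hC⟩ := P.bm
  have z1 : Z fun m x => |b m x - rho g x| := by
    refine ⟨fun m => (B.adm m).absSub P, tendsto_int_zero (B := C ^ (q + 3)) (fun m =>
      (((B.adm m).absSub P).bm' fun x hx => le_trans ?_ (hC.bdd x hx)).pow _) ?_⟩
    · have := P.nn x
      have := (F.adm m).nn x
      simp only [hb]
      split_ifs with e
      · simp
      · exact abs_le.2 ⟨by rw [abs_of_nonneg (P.nn x)]; linarith,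
          by rw [abs_of_nonneg (P.nn x)]; linarith⟩
    · filter_upwards [h, ev] with u a e
      have := (a.sub_const (rho g u)).abs.pow (q + 3)
      rw [sub_self, abs_zero, zero_pow (by omega)] at this
      exact this.congr' (e.mono fun m hm => by simp only [hb, if_neg hm])
  have z2 := Z.clT B.adm (Bd.const P) z1
  have z3 := (Z.clT B.T.adm (Bd.const P.T) z2).smul (lam0_pos q).le
  have z4 : Tendsto (fun m => ∫ u, w m u ^ (q + 2) ∂mu (q + 3)) atTop (𝓝 0) := by
    obtain ⟨K, hK⟩ := W.bd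
    refine tendsto_zero_of_eta (fun m => integral_nonneg fun u => pow_nonneg ((W.adm m).nn u) _) K
      fun η h0 _ => ?_
    have H : ∀ m, BM (η⁻¹ ^ (q + 2)) fun x => min (w m x) η⁻¹ ^ (q + 2) := fun m =>
      BM.pow ⟨(W.adm m).meas.min measurable_const, fun x _ => by
        rw [abs_of_nonneg (le_min ((W.adm m).nn x) (by positivity))]
        exact min_le_right _ _⟩ _
    refine ⟨_, tendsto_int_zero H (ev.mono fun u e => tendsto_const_nhds.congr' (e.mono fun m hm =>
      by simp only [hw, if_neg hm]; rw [min_eq_left (by positivity), zero_pow (by omega)])),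
      fun m => ?_⟩
    have := int_mono ((W.adm m).int_pow _) ((H m).int_mu.add (((W.adm m).int_pow _).const_mul _))
      fun x _ => pow_le_trunc ((W.adm m).nn x) (inv_pos.2 h0) (q + 2)
    rw [integral_add' (H m).int_mu (((W.adm m).int_pow _).const_mul _), integral_const_mul,
      inv_inv] at this
    nlinarith [hK m, show Nn (w m) = ∫ u, w m u ^ (q + 2 + 1) ∂mu (q + 2 + 1) from rfl]
  have z5 : Z fun m x => min (T (w m) x) (T (rho g) x) := by
    obtain ⟨K, hK⟩ := P.T.bm
    refine ⟨fun m => (W.T.adm m).min P.T, squeeze_zero (fun m => ((W.T.adm m).min P.T).Nn_nonneg)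
      (fun m => ?_) (by simpa using (z4.const_mul (om (q + 2))).const_mul (K ^ (q + 2)))⟩
    obtain ⟨L, hL⟩ := (W.adm m).bm
    rw [← int_R (hL.pow _), ← integral_const_mul]
    refine int_mono (((W.T.adm m).min P.T).int_pow _) ((hL.pow _).R.int_mu.const_mul _)
      fun x hx => ?_
    have := ((W.T.adm m).min P.T).nn x
    rw [pow_succ, ← T_unit _ hx]
    exact mul_le_mul (pow_le_pow_left₀ this ((min_le_right _ _).trans
      ((le_abs_self _).trans (hK.bdd x hx))) _) (min_le_left _ _) this (pow_nonneg hK.nonneg _)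
  have z6 : Z fun m x => min (T (w m) x) (T (b m) x) :=
    (z5.add z2).mono (fun m => (W.T.adm m).min (B.T.adm m)) fun m x _ => by
      have := abs_min_sub_min_le_max (T (w m) x) (T (b m) x) (T (w m) x) (T (rho g) x)
      rw [sub_self, abs_zero, max_eq_right (abs_nonneg _)] at this
      linarith [le_abs_self (min (T (w m) x) (T (b m) x) - min (T (w m) x) (T (rho g) x))]
  have eT : ∀ m, T (f m) = fun x => T (w m) x + T (b m) x := fun m => funext fun u =>
    T_eq_add (W.adm m) (B.adm m) (fun x => by simp only [hw, hb]; split_ifs <;> simp) u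
  have z7 := (Z.approx (fun m => (F.T.T.adm m).absSub ((W.T.T.adm m).add (B.T.T.adm m)))
    (W.T.T.add B.T.T) z6.T fun η hη => (T_add_eta (q + 1) hη).imp fun _ hC => ⟨hC.1, fun m => by
      rw [eT m]; exact hC.2 _ _ (W.T.adm m) (B.T.adm m)⟩).smul (lam0_pos q).le
  have v := Z.dV B.adm (Bd.const P) z1
  refine ⟨w, W.adm, (((D.add z1).add z3).add z7).mono (fun m => (W.adm m).absSub (W.adm m).S)
    fun m x _ => ?_, ?_, squeeze_zero (fun m => dV_nonneg _ _) (fun m => ?_) v⟩
  · have e : f m x = w m x + b m x := by simp only [hw, hb]; split_ifs <;> simp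
    have e2 := S_rho hg x
    have l0 := (lam0_pos q).le
    rw [← abs_of_nonneg l0, ← abs_mul, ← abs_mul]
    simp only [S] at e2 ⊢
    rw [show w m x - lam0 q * T (T (w m)) x = (f m x - lam0 q * T (T (f m)) x) +
      -(b m x - rho g x) + lam0 q * (T (T (b m)) x - T (T (rho g)) x) +
      lam0 q * (T (T (f m)) x - (T (T (w m)) x + T (T (b m)) x)) by rw [e]; linarith]
    refine (abs_add_le _ _).trans (add_le_add ((abs_add_three _ _ _).trans ?_) le_rfl)
    rw [abs_neg]
  · have e : ∀ m, Nn (f m) - Nn (w m) = Nn (b m) := fun m => by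
      simp only [Nn]
      rw [← integral_sub ((F.adm m).int_pow _) ((W.adm m).int_pow _)]
      exact integral_congr_ae (ae_of_all _ fun x => by simp only [hw, hb]; split_ifs <;> simp)
    simp only [e]
    refine tendsto_sub_nhds_zero_iff.1 (squeeze_zero_norm (fun m => ?_) v)
    have := abs_Nn_sub_le (B.adm m) P
    rwa [Nn_rho, hg, one_mul] at this
  · refine int_mono (int_dV (F.adm m) ((W.adm m).max P)) (int_dV (B.adm m) P) fun x _ => ?_
    have := P.nn x
    simp only [hw, hb]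
    split_ifs with e
    · rw [max_eq_left (by linarith), sub_self, abs_zero]
      exact abs_nonneg _
    · rw [max_eq_right this]

end Pool.Agent.Lib.MP_242fd5_gt.Ty
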