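import Pool.Agent.Lib.MP_242fd5_gt.Ty.D3Ext
import Pool.Agent.Lib.MP_242fd5_gt.Ty.B2Inv

set_option autoImplicit false

open MeasureTheory ProbabilityTheory Set Metric Filter Topology
open scoped ENNReal NNReal RealInnerProductSpace

namespace Pool.Agent.Lib.MP_242fd5_gt.Ty

variable {n N q : ℕ}

lemma dN_S_comp {f : V (q + 3) → ℝ} (F : Adm f) {g : V (q + 3) ≃L[ℝ] V (q + 3)} (hg : jac g = 1) :
    dN (fun x => f (g x)) (S fun x => f (g x)) = dN f (S f) := by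
  rw [show (S fun x => f (g x)) = fun x => S f (g x) from funext (S_comp F hg), dN_comp F F.S, hg,
    inv_one, one_mul]

theorem ext_quant (q : ℕ) (W : ℝ) {c ε : ℝ} (hc : 0 < c) (hε : 0 < ε) : ∃ δ : ℝ, 0 < δ ∧
    ∀ f : V (q + 3) → ℝ, Adm f → c ≤ Nn f → Nn f ≤ W → dN f (S f) ≤ δ → ∃ g, jac g = 1 ∧ ∃ w,
      Adm w ∧ dN w (S w) ≤ ε ∧ |Nn f - Nn w - om (q + 3)| ≤ ε ∧
        dV f (fun x => max (w x) (rho g x)) ≤ ε := by
  by_contra hn
  have hn' := fun m : ℕ => not_forall.1 fun h => hn ⟨c / 2 ^ (q + 3) * (1 / ((m : ℝ) + 1)),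
    by positivity, h⟩
  simp only [Classical.not_imp] at hn'
  choose f F h1 h2 h3 h4 using hn'
  obtain ⟨B, B0, hB⟩ := bus (q + 1)
  have l0 := lam0_pos q
  obtain ⟨δ, δ0, A, A0, hA⟩ := inv_bus q W (show 0 < min 1 (c / 2 ^ (q + 3) /
    (lam0 q ^ (q + 3) * B)) by positivity)
  have h5 : ∀ m, ∃ g : V (q + 3) ≃L[ℝ] V (q + 3), jac g = 1 ∧
      δ ≤ Nn fun x => min (f m (g x)) (A * ‖x‖⁻¹) := fun m => hA _ (F m) (h2 m) (by
    rcases le_total 1 (Nn (T (f m))) with e | e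
    · exact (min_le_left _ _).trans e
    refine (min_le_right _ _).trans ?_
    have a1 := (Nn_mono (F m) ((F m).S.add ((F m).absSub (F m).S)) fun x _ => by
      linarith [le_abs_self (f m x - S (f m) x)]).trans (Nn_add_le (F m).S ((F m).absSub (F m).S))
    have a2 : dN (f m) (S (f m)) ≤ c / 2 ^ (q + 3) := (h3 m).trans (mul_le_of_le_one_right
      (by positivity) (by rw [div_le_one (by positivity)]; simp))
    have a3 : Nn (S (f m)) ≤ lam0 q ^ (q + 3) * B * Nn (T (f m)) := by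
      rw [show S (f m) = fun x => lam0 q * T (T (f m)) x from rfl, Nn_smul, mul_assoc]
      exact mul_le_mul_of_nonneg_left ((hB _ (F m).T).trans (mul_le_mul_of_nonneg_left
        (pow_le_of_le_one (F m).T.Nn_nonneg e (by omega)) B0.le)) (by positivity)
    rw [div_le_iff₀' (by positivity)]
    refine le_trans ?_ a3
    rw [← dN_eq] at a1
    have a4 : c = 2 ^ (q + 2) * (2 * (c / 2 ^ (q + 3))) := by field_simp; ring
    have a5 := le_of_mul_le_mul_left (a4.ge.trans ((h1 m).trans a1)) (by positivity)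
    linarith)
  choose g hg hg2 using h5
  have F' : Bd fun m x => f m (g m x) := ⟨fun m => (F m).comp _, W, fun m => by
    rw [Nn_comp (F m), hg, inv_one, one_mul]; exact h2 m⟩
  have D' : Z fun m x => |f m (g m x) - S (fun x => f m (g m x)) x| :=
    ⟨fun m => (F'.adm m).absSub (F'.adm m).S, squeeze_zero (fun m => dN_nonneg _ _)
      (fun m => (dN_S_comp (F m) (hg m)).le.trans (h3 m))
      (by simpa using tendsto_one_div_add_atTop_nhds_zero_nat.const_mul (c / 2 ^ (q + 3)))⟩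
  obtain ⟨φ, hφ, e, he, h6⟩ := ext_lim F' D' δ0 A0 hg2
  obtain ⟨w, W1, z1, z2, z3⟩ := ext_split (F'.sub φ) (D'.sub hφ) he h6
  obtain ⟨m, ⟨a1, a2⟩, a3⟩ := (((z1.lim.eventually (ge_mem_nhds hε)).and
    (Metric.tendsto_nhds.1 z2 ε hε)).and (z3.eventually (ge_mem_nhds hε))).exists
  have j1 : jac (g (φ m)).symm = 1 := by rw [jac_symm, hg, inv_one]
  refine h4 (φ m) ⟨e.trans (g (φ m)), by rw [jac_trans, he, hg, one_mul], _,
    (W1 m).comp (g (φ m)).symm, (dN_S_comp (W1 m) j1).le.trans a1, ?_, ?_⟩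
  · rw [Nn_comp (F _), hg, Real.dist_eq] at a2
    rw [Nn_comp (W1 m), j1]
    simpa using a2.le
  · have := dV_comp (F'.adm (φ m)) ((W1 m).max (adm_rho e)) (g (φ m)).symm
    simp only [j1, inv_one, one_mul, ContinuousLinearEquiv.apply_symm_apply, rho_comp,
      ContinuousLinearEquiv.symm_symm] at this
    exact this.le.trans a3

theorem struct (q j : ℕ) : ∀ ε : ℝ, 0 < ε → ∃ δ : ℝ, 0 < δ ∧ ∀ f : V (q + 3) → ℝ, Adm f →
    Nn f ≤ j * (om (q + 3) / 2) → dN f (S f) ≤ δ → ∃ (k : ℕ)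
      (g : Fin k → V (q + 3) ≃L[ℝ] V (q + 3)), (∀ i, jac (g i) = 1) ∧
        |Nn f - k * om (q + 3)| ≤ ε ∧ dV f (mx g) ≤ ε := by
  have z : ∀ (ε : ℝ) (f : V (q + 3) → ℝ), Adm f → Nn f ≤ ε → ∃ (k : ℕ)
      (g : Fin k → V (q + 3) ≃L[ℝ] V (q + 3)), (∀ i, jac (g i) = 1) ∧
        |Nn f - k * om (q + 3)| ≤ ε ∧ dV f (mx g) ≤ ε := fun ε f F h =>
    ⟨0, Fin.elim0, fun i => i.elim0, by simpa [abs_of_nonneg F.Nn_nonneg] using h, by
      refine le_trans (le_of_eq (integral_congr_ae (ae_of_all _ fun x => ?_))) h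
      simp [mx_zero, abs_of_nonneg (F.nn x)]⟩
  have o := om_pos (q + 3)
  induction j with
  | zero => exact fun ε hε => ⟨1, one_pos, fun f F h _ => z ε f F (h.trans (by simpa using hε.le))⟩
  | succ j ih =>
    intro ε hε
    obtain ⟨δ1, δ10, h1⟩ := ih (ε / 2) (by positivity)
    obtain ⟨δ, δ0, h2⟩ := ext_quant q ((j + 1 : ℕ) * (om (q + 3) / 2)) hε
      (show 0 < min δ1 (min (ε / 2) (om (q + 3) / 2)) by positivity)
    refine ⟨δ, δ0, fun f F h3 h4 => ?_⟩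
    rcases le_total (Nn f) ε with e | e
    · exact z ε f F e
    obtain ⟨g, hg, w, W, a1, a2, a3⟩ := h2 f F e h3 h4
    simp only [le_min_iff] at a1 a2 a3
    push_cast at h3
    obtain ⟨k, g', b1, b2, b3⟩ := h1 w W (by linarith [abs_le.1 a2.2.2]) a1.1
    refine ⟨k + 1, Fin.cons g g', fun i => by cases i using Fin.cases <;> simp [*], ?_, ?_⟩
    · push_cast
      exact abs_le.2 ⟨by linarith [abs_le.1 a2.2.1, abs_le.1 b2],
        by linarith [abs_le.1 a2.2.1, abs_le.1 b2]⟩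
    · rw [show mx (Fin.cons g g' : Fin (k + 1) → _) = _ from funext (mx_cons g g')]
      linarith [dV_tri F (W.max (adm_rho g)) ((adm_mx g').max (adm_rho g)),
        dV_max_le W (adm_mx g') (adm_rho g), a3.2.1]

lemma deficit_pt {a b : ℝ} (ha : 0 ≤ a) (hb : 0 ≤ b) (k : ℕ) :
    |a - b| ^ (k + 2) ≤ (k + 1) * a ^ (k + 2) + b ^ (k + 2) - (k + 2) * (a ^ (k + 1) * b) := by
  induction k with
  | zero => rw [zero_add, sq_abs]; push_cast; nlinarith
  | succ k ih =>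
    have e : ((k + 1 : ℕ) + 1 : ℝ) * a ^ (k + 1 + 2) + b ^ (k + 1 + 2) -
        ((k + 1 : ℕ) + 2) * (a ^ (k + 1 + 1) * b) = b * ((k + 1) * a ^ (k + 2) + b ^ (k + 2) -
          (k + 2) * (a ^ (k + 1) * b)) + (k + 2) * (a ^ (k + 1) * |a - b| ^ 2) := by
      rw [sq_abs]; push_cast; ring
    rw [e]
    have h0 := abs_nonneg (a - b)
    rcases le_total a b with h | h
    · refine le_add_of_le_of_nonneg ?_ (by positivity)
      rw [pow_succ' _ (k + 2)]
      exact mul_le_mul (abs_le.2 ⟨by linarith, by linarith⟩) ih (by positivity) hb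
    · refine le_add_of_nonneg_of_le (mul_nonneg hb ((by positivity : 0 ≤ |a - b| ^ (k + 2)).trans ih))
        (le_trans ?_ (le_mul_of_one_le_left (by positivity) (by linarith [k.cast_nonneg (α := ℝ)])))
      rw [pow_add _ (k + 1)]
      gcongr
      exact abs_le.2 ⟨by linarith, by linarith⟩

lemma energy {f : V (N + 2) → ℝ} (F : Adm f) :
    ∫ u, f u ^ (N + 1) * T (T f) u ∂mu (N + 2) = Nn (T f) := by
  obtain ⟨C, hC⟩ := F.bm
  rw [int_mu_congr (h' := fun u => f u ^ (N + 1) * R (fun v => T f v ^ (N + 1)) u)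
    fun u hu => by rw [T_unit _ hu], R_symm (hC.pow _) (hC.T.pow _)]
  exact int_mu_congr fun u hu => by rw [← T_unit _ hu, ← pow_succ]

lemma deficit {f : V (N + 2) → ℝ} (F : Adm f) {t : ℝ} (ht : 0 ≤ t) :
    dN f (fun x => t * T (T f) x) ≤
      (N + 1) * Nn f + t ^ (N + 2) * Nn (T (T f)) - (N + 2) * (t * Nn (T f)) := by
  obtain ⟨C, hC⟩ := F.bm
  have G := F.T.T.smul ht
  have I : Integrable (fun u => f u ^ (N + 1) * (t * T (T f) u)) (mu (N + 2)) :=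
    ((hC.pow _).mul (hC.T.T.const_mul t)).int_mu
  have := int_mono ((F.absSub G).int_pow _) ((((F.int_pow _).const_mul _).add (G.int_pow _)).sub
    (I.const_mul _)) fun x _ => deficit_pt (F.nn x) (G.nn x) N
  rw [integral_sub' (((F.int_pow _).const_mul _).add (G.int_pow _)) (I.const_mul _),
    integral_add' ((F.int_pow _).const_mul _) (G.int_pow _), integral_const_mul,
    integral_const_mul] at this
  rw [← Nn_smul, ← energy F, ← integral_const_mul t]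
  simp only [mul_left_comm t]
  exact this

lemma Phi_nonneg {f : V (N + 2) → ℝ} (F : Adm f) : 0 ≤ Phi f :=
  div_nonneg F.T.Nn_nonneg (pow_nonneg F.Nn_nonneg _)

lemma Nn_pos_of_Phi {f : V (N + 2) → ℝ} (F : Adm f) (h : 0 < Phi f) : 0 < Nn f :=
  F.Nn_nonneg.lt_of_ne fun e => by simp [Phi, ← e] at h

lemma Nn_T_eq {f : V (N + 2) → ℝ} (h : 0 < Nn f) : Nn (T f) = Phi f * Nn f ^ (N + 1) := by
  rw [Phi]; field_simp

theorem Phi_mono {f : V (N + 2) → ℝ} (F : Adm f) : Phi f ≤ Phi (T f) := by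
  rcases (Phi_nonneg F).eq_or_lt with e | e
  · exact e.ge.trans (Phi_nonneg F.T)
  have v := Nn_pos_of_Phi F e
  have a : 0 < Nn (T f) := by rw [Nn_T_eq v]; positivity
  have := (dN_nonneg _ _).trans (deficit F (t := Nn f / Nn (T f)) (by positivity))
  rw [div_mul_cancel₀ _ a.ne', div_pow] at this
  have h : Nn f ≤ Nn f ^ (N + 2) / Nn (T f) ^ (N + 2) * Nn (T (T f)) := by linarith
  rw [div_mul_eq_mul_div, le_div_iff₀ (by positivity)] at h
  rw [Phi, Phi, div_le_div_iff₀ (by positivity) (by positivity)]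
  refine le_of_mul_le_mul_left (le_of_eq_of_le ?_ (h.trans_eq ?_)) v <;> ring

lemma T_smul' (t : ℝ) (f : V (N + 1) → ℝ) : T (fun x => t * f x) = fun x => t ^ N * T f x :=
  funext (T_smul t f)

lemma Phi_smul {t : ℝ} (ht : 0 < t) (f : V (N + 1) → ℝ) : Phi (fun x => t * f x) = Phi f := by
  rw [Phi, T_smul', Nn_smul, Nn_smul, mul_pow, ← pow_mul, ← pow_mul, mul_comm N,
    mul_div_mul_left _ _ (by positivity), Phi]

lemma exists_scale {f : V (N + 1) → ℝ} (h : 0 < Nn f) {v : ℝ} (hv : 0 < v) :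
    ∃ t : ℝ, 0 < t ∧ Nn (fun x => t * f x) = v :=
  ⟨(v / Nn f) ^ ((N + 1 : ℕ) : ℝ)⁻¹, by positivity, by
    rw [Nn_smul, Real.rpow_inv_natCast_pow (by positivity) (by omega)]; field_simp⟩

noncomputable def ph (q : ℕ) (v : ℝ) : ℝ := om (q + 2) ^ (q + 3) / v ^ (q + 1)

lemma lev_eq (q k : ℕ) : lev (q + 2) k = ph q (k * om (q + 3)) := by
  rw [lev, PhiB, ph, div_div, mul_pow, mul_comm]; rfl

lemma exists_ph (q : ℕ) {φ : ℝ} (h : 0 < φ) : ∃ v, 0 < v ∧ ph q v = φ := by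
  have := om_pos (q + 2)
  exact ⟨(om (q + 2) ^ (q + 3) / φ) ^ ((q + 1 : ℕ) : ℝ)⁻¹, by positivity, by
    rw [ph, Real.rpow_inv_natCast_pow (by positivity) (by omega)]; field_simp⟩

lemma us_energy (q : ℕ) {v ε : ℝ} (hv : 0 < v) (hε : 0 < ε) : ∃ η : ℝ, 0 < η ∧
    ∀ f : V (q + 3) → ℝ, Adm f → Nn f = v → |Phi f - ph q v| < η → |Phi (T f) - ph q v| < η →
      |Nn (S f) - v| ≤ ε ∧ dN f (S f) ≤ ε := by
  have o := om_pos (q + 2)
  have e1 : lam0 q * (ph q v * v ^ (q + 2)) = v := by rw [lam0, ph]; field_simp; ring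
  have e2 : lam0 q ^ (q + 3) * (ph q v * (ph q v * v ^ (q + 2)) ^ (q + 2)) = v := by
    rw [pow_succ' (lam0 q), mul_mul_mul_comm, ← mul_pow, e1, mul_assoc, e1]
  have hc : ContinuousAt (fun p : ℝ × ℝ => (lam0 q ^ (q + 3) * (p.2 * (p.1 * v ^ (q + 2)) ^ (q + 2)),
      ((q + 1 : ℕ) + 1) * v + lam0 q ^ (q + 3) * (p.2 * (p.1 * v ^ (q + 2)) ^ (q + 2)) -
        ((q + 1 : ℕ) + 2) * (lam0 q * (p.1 * v ^ (q + 2))))) (ph q v, ph q v) := by fun_prop
  obtain ⟨η, η0, hη⟩ := Metric.continuousAt_iff.1 hc ε hε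
  have p0 : 0 < ph q v := by rw [ph]; positivity
  refine ⟨min η (ph q v), by positivity, fun f F h1 h2 h3 => ?_⟩
  rw [lt_min_iff] at h2 h3
  have h4 := hη (x := (Phi f, Phi (T f))) (by rw [Prod.dist_eq]; exact max_lt h2.1 h3.1)
  simp only [Prod.dist_eq, max_lt_iff, Real.dist_eq, e1, e2] at h4
  have a1 : 0 < Phi f := by linarith [(abs_lt.1 h2.2).1]
  have a2 : Nn (T f) = Phi f * v ^ (q + 2) := by rw [Nn_T_eq (h1 ▸ hv), h1]
  have a3 := Nn_T_eq (f := T f) (by rw [a2]; positivity)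
  have a4 := deficit F (lam0_pos q).le
  rw [a3, a2, h1] at a4
  refine ⟨?_, a4.trans (by linarith [(abs_lt.1 h4.2).2])⟩
  rw [show S f = fun x => lam0 q * T (T f) x from rfl, Nn_smul, a3, a2]
  exact h4.1.le

theorem us (q : ℕ) {v ε : ℝ} (hv : 0 < v) (hε : 0 < ε) : ∃ η : ℝ, 0 < η ∧
    ∀ f : V (q + 3) → ℝ, Adm f → Nn f = v → |Phi f - ph q v| < η → |Phi (T f) - ph q v| < η →
      |Nn (S f) - v| ≤ ε ∧ dV f (S f) ≤ ε ∧ ∃ (k : ℕ) (g : Fin k → V (q + 3) ≃L[ℝ] V (q + 3)),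
        (∀ i, jac (g i) = 1) ∧ |v - k * om (q + 3)| ≤ ε ∧ dV f (mx g) ≤ ε := by
  have o := om_pos (q + 3)
  obtain ⟨j, hj⟩ := exists_nat_ge (v / (om (q + 3) / 2))
  rw [div_le_iff₀ (by positivity)] at hj
  obtain ⟨δ, δ0, h1⟩ := struct q j ε hε
  obtain ⟨C, C0, hC⟩ := dV_le_eta (q + 2) (show 0 < ε / (2 * v) by positivity)
  obtain ⟨η, η0, h2⟩ := us_energy q hv (show 0 < min ε (min δ (ε / (2 * C))) by positivity)
  refine ⟨η, η0, fun f F a1 a2 a3 => ?_⟩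
  obtain ⟨b1, b2⟩ := h2 f F a1 a2 a3
  simp only [le_min_iff] at b1 b2
  refine ⟨b1.1, ?_, a1 ▸ h1 f F (a1 ▸ hj) b2.2.1⟩
  have b3 := hC _ _ F.S F
  have b4 : dN (S f) f = dN f (S f) := by simp only [dN, abs_sub_comm]
  have b5 : C * dN f (S f) ≤ C * (ε / (2 * C)) := by gcongr; exact b2.2.2
  have b6 : C * (ε / (2 * C)) = ε / 2 := by field_simp
  have b7 : ε / (2 * v) * v = ε / 2 := by field_simp
  rw [dV_comm, b4, a1] at b3
  linarith

theorem usk (q : ℕ) {k : ℕ} (hk : 1 ≤ k) {ε : ℝ} (hε : 0 < ε) : ∃ η : ℝ, 0 < η ∧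
    ∀ f : V (q + 3) → ℝ, Adm f → Nn f = k * om (q + 3) → |Phi f - lev (q + 2) k| < η →
      |Phi (T f) - lev (q + 2) k| < η → |Nn (S f) - k * om (q + 3)| ≤ ε ∧ dV f (S f) ≤ ε ∧
        ∃ g : Fin k → V (q + 3) ≃L[ℝ] V (q + 3), (∀ i, jac (g i) = 1) ∧ dV f (mx g) ≤ ε := by
  have o := om_pos (q + 3)
  obtain ⟨η, η0, h⟩ := us q (show 0 < k * om (q + 3) by positivity)
    (show 0 < min ε (om (q + 3) / 2) by positivity)
  refine ⟨η, η0, fun f F a1 a2 a3 => ?_⟩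
  rw [lev_eq] at a2 a3
  obtain ⟨b1, b2, k', g, b3, b4, b5⟩ := h f F a1 a2 a3
  simp only [le_min_iff] at b1 b2 b4 b5
  obtain rfl : k = k' := by
    have := abs_le.1 b4.2
    have h1 : (k : ℝ) < k' + 1 := by nlinarith
    have h2 : (k' : ℝ) < k + 1 := by nlinarith
    norm_cast at h1 h2
    omega
  exact ⟨b1.1, b2.1, g, b3, b5.1⟩

theorem quant {φ : ℝ} (hφ : 0 < φ) (h : ∀ η : ℝ, 0 < η → ∃ f : V (q + 3) → ℝ, Adm f ∧
    |Phi f - φ| < η ∧ |Phi (T f) - φ| < η) : ∃ k : ℕ, 1 ≤ k ∧ φ = lev (q + 2) k := by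
  obtain ⟨v, v0, rfl⟩ := exists_ph q hφ
  have o := om_pos (q + 3)
  have : v / om (q + 3) ∈ closure (range ((↑) : ℕ → ℝ)) := by
    refine Metric.mem_closure_iff.2 fun ε hε => ?_
    obtain ⟨η, η0, h1⟩ := us q v0 (show 0 < ε / 2 * om (q + 3) by positivity)
    obtain ⟨f, F, a1, a2⟩ := h (min η (ph q v)) (by positivity)
    rw [lt_min_iff] at a1 a2
    obtain ⟨t, t0, ht⟩ := exists_scale (Nn_pos_of_Phi F (by linarith [(abs_lt.1 a1.2).1])) v0
    obtain ⟨-, -, k, -, -, b, -⟩ := h1 _ (F.smul t0.le) ht (by rw [Phi_smul t0]; exact a1.1)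
      (by rw [T_smul', Phi_smul (by positivity)]; exact a2.1)
    refine ⟨k, ⟨k, rfl⟩, ?_⟩
    rw [Real.dist_eq, show v / om (q + 3) - k = (v - k * om (q + 3)) / om (q + 3) by field_simp,
      abs_div, abs_of_pos o, div_lt_iff₀ o]
    nlinarith
  rw [Nat.isClosedEmbedding_coe_real.isClosed_range.closure_eq] at this
  obtain ⟨k, hk⟩ := this
  rw [eq_div_iff o.ne'] at hk
  refine ⟨k, Nat.pos_of_ne_zero fun e => ?_, by rw [lev_eq, hk]⟩
  simp [← hk, e] at v0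

lemma quant_seq {a : ℕ → V (q + 3) → ℝ} (A : ∀ m, Adm (a m)) {φ : ℝ} (hφ : 0 < φ)
    (h1 : Tendsto (fun m => Phi (a m)) atTop (𝓝 φ))
    (h2 : Tendsto (fun m => Phi (T (a m))) atTop (𝓝 φ)) : ∃ k : ℕ, 1 ≤ k ∧ φ = lev (q + 2) k :=
  quant hφ fun η hη => by
    obtain ⟨m, h⟩ := ((Metric.tendsto_nhds.1 h1 η hη).and (Metric.tendsto_nhds.1 h2 η hη)).exists
    exact ⟨a m, A m, h⟩

theorem sharp {f : V (q + 3) → ℝ} (F : Adm f) : Phi f ≤ PhiB (q + 2) := by
  by_contra hn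
  rw [not_le] at hn
  have A : ∀ m, Adm (T^[m] f) := fun m => by
    induction m with
    | zero => exact F
    | succ m ih => rw [Function.iterate_succ_apply']; exact ih.T
  obtain ⟨C, C0, hC⟩ := bus (q + 1)
  have mono : Monotone fun m => Phi (T^[m] f) := monotone_nat_of_le_succ fun m => by
    rw [Function.iterate_succ_apply']; exact Phi_mono (A m)
  have bdd : BddAbove (range fun m => Phi (T^[m] f)) := ⟨C, by
    rintro _ ⟨m, rfl⟩
    exact div_le_of_le_mul₀ (pow_nonneg (A m).Nn_nonneg _) C0.le (hC _ (A m))⟩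
  have h1 := tendsto_atTop_ciSup mono bdd
  have h2 := hn.trans_le (le_ciSup bdd 0)
  obtain ⟨k, k1, hk⟩ := quant_seq A ((PhiB_pos _).trans h2) h1 (by
    simpa only [Function.comp_def, Function.iterate_succ_apply'] using
      h1.comp (tendsto_add_atTop_nat 1))
  rw [hk] at h2
  exact h2.not_ge (div_le_self (PhiB_pos _).le (one_le_pow₀ (by exact_mod_cast k1)))

theorem eq_case {f : V (q + 3) → ℝ} (F : Adm f) (hc : ContinuousOn f {0}ᶜ) (h0 : 0 < Phi f)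
    (h : Phi (T f) ≤ Phi f) : ∃ g, f = rho g := by
  obtain ⟨v, v0, hv⟩ := exists_ph q h0
  obtain ⟨t, t0, ht⟩ := exists_scale (Nn_pos_of_Phi F h0) v0
  have G := F.smul t0.le
  have c1 : ContinuousOn (fun x => t * f x) {0}ᶜ := continuousOn_const.mul hc
  have h1 : dN (fun x => t * f x) (S fun x => t * f x) = 0 :=
    le_antisymm (le_of_forall_pos_le_add fun ε hε => by
      obtain ⟨η, η0, h2⟩ := us_energy q v0 hε
      rw [zero_add]
      exact (h2 _ G ht (by rwa [Phi_smul t0, hv, sub_self, abs_zero]) (by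
        rwa [T_smul', Phi_smul (by positivity), hv, le_antisymm h (Phi_mono F), sub_self,
          abs_zero])).2) (dN_nonneg _ _)
  have h2 := (integral_eq_zero_iff_of_nonneg (fun x => pow_nonneg (abs_nonneg _) _)
    ((G.absSub G.S).int_pow _)).1 h1
  obtain ⟨g, -, hg⟩ := fix_ell G (by rw [ht]; exact v0.ne') fun u hu => eq_of_ae_eq c1
    (continuousOn_const.mul (contOn_T G.T (contOn_T G c1)))
    (h2.mono fun x hx => by simpa [sub_eq_zero, S] using hx) hu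
  refine ⟨g.trans (hom _ t⁻¹ (inv_pos.2 t0).ne'), funext fun x => ?_⟩
  rw [rho_hom (inv_pos.2 t0), ← hg]
  field_simp

lemma exists_seq_zero {β : Type} [Nonempty β] {d : ℕ → β → ℝ} (d0 : ∀ m b, 0 ≤ d m b)
    (h : ∀ ε : ℝ, 0 < ε → ∀ᶠ m in atTop, ∃ b, d m b ≤ ε) :
    ∃ b : ℕ → β, Tendsto (fun m => d m (b m)) atTop (𝓝 0) := by
  choose b hb using fun m : ℕ => exists_lt_of_ciInf_lt (f := d m)
    (lt_add_of_pos_right _ (show 0 < 1 / ((m : ℝ) + 1) by positivity))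
  refine ⟨b, tendsto_order.2 ⟨fun c hc => Eventually.of_forall fun m => hc.trans_le (d0 _ _),
    fun c hc => ?_⟩⟩
  filter_upwards [h (c / 2) (by positivity), tendsto_one_div_add_atTop_nhds_zero_nat.eventually
    (gt_mem_nhds (show 0 < c / 2 by positivity))] with m ⟨y, h1⟩ h2
  linarith [hb m, ciInf_le (f := d m) ⟨0, by rintro _ ⟨z, rfl⟩; exact d0 _ _⟩ y]

/-- classification of backward orbits -/
theorem orbit_type {f : ℕ → V (q + 3) → ℝ} (F : ∀ m, Adm (f m)) (h : ∀ m, T (f (m + 1)) = f m) :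
    Tendsto (fun m => Phi (f m)) atTop (𝓝 0) ∨ ∃ k : ℕ, 1 ≤ k ∧
      Tendsto (fun m => Phi (f m)) atTop (𝓝 (lev (q + 2) k)) ∧
      ∃ (t : ℕ → ℝ) (g : ℕ → Fin k → V (q + 3) ≃L[ℝ] V (q + 3)), (∀ m, 0 < t m) ∧
        (∀ m, Nn (fun x => t m * f m x) = k * om (q + 3)) ∧ (∀ m i, jac (g m i) = 1) ∧
        Tendsto (fun m => dV (fun x => t m * f m x) (mx (g m))) atTop (𝓝 0) := by
  have anti : Antitone fun m => Phi (f m) := antitone_nat_of_succ_le fun m => by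
    rw [← h m]; exact Phi_mono (F _)
  have bdd : BddBelow (range fun m => Phi (f m)) := ⟨0, by
    rintro _ ⟨m, rfl⟩; exact Phi_nonneg (F m)⟩
  have h1 := tendsto_atTop_ciInf anti bdd
  rcases (le_ciInf fun m => Phi_nonneg (F m)).eq_or_lt with e | e
  · exact Or.inl (e ▸ h1)
  have h2 : Tendsto (fun m => Phi (T (f m))) atTop (𝓝 (⨅ m, Phi (f m))) :=
    (tendsto_add_atTop_iff_nat 1).1 (by simpa only [h] using h1)
  obtain ⟨k, k1, hk⟩ := quant_seq F e h1 h2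
  have o := om_pos (q + 3)
  choose t t0 ht using fun m => exists_scale (Nn_pos_of_Phi (F m) (e.trans_le (ciInf_le bdd m)))
    (show 0 < k * om (q + 3) by positivity)
  rw [hk] at h1 h2
  have : Nonempty {g : Fin k → V (q + 3) ≃L[ℝ] V (q + 3) // ∀ i, jac (g i) = 1} :=
    ⟨⟨fun _ => .refl _ _, fun _ => jac_refl⟩⟩
  obtain ⟨g, hg⟩ := exists_seq_zero (d := fun m (g : {g : Fin k → V (q + 3) ≃L[ℝ] V (q + 3) //
      ∀ i, jac (g i) = 1}) => dV (fun x => t m * f m x) (mx g.1)) (fun _ _ => dV_nonneg _ _)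
    fun ε hε => by
      obtain ⟨η, η0, h3⟩ := usk q k1 hε
      filter_upwards [Metric.tendsto_nhds.1 h1 η η0, Metric.tendsto_nhds.1 h2 η η0] with m a1 a2
      obtain ⟨-, -, g, b1, b2⟩ := h3 _ ((F m).smul (t0 m).le) (ht m) (by rwa [Phi_smul (t0 m)])
        (by rwa [T_smul', Phi_smul (pow_pos (t0 m) _)])
      exact ⟨⟨g, b1⟩, b2⟩
  exact Or.inr ⟨k, k1, h1, t, fun m => (g m).1, t0, ht, fun m => (g m).2, hg⟩

end Pool.Agent.Lib.MP_242fd5_gt.Ty
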