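import Pool.Agent.Lib.MP_242fd5_gt.Ty.A6Adm

set_option autoImplicit false

/-! Injectivity of the spherical Radon transform on even functions. -/

open MeasureTheory ProbabilityTheory Set Metric Filter Topology
open scoped ENNReal RealInnerProductSpace

namespace Pool.Agent.Lib.MP_242fd5_gt.Ty

variable {n q : ℕ}

lemma exists_series : ∃ c : ℕ → ℝ, (∀ j, 0 < c j) ∧ ∀ t : ℝ, |t| < 1 →
    HasSum (fun j => c j * t ^ j) (√(1 - t))⁻¹ := by
  refine ⟨fun j => Ring.choose ((1 / 2 : ℝ) + j - 1) j, fun j => ?_, fun t ht => ?_⟩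
  · have h1 : Ring.choose ((1 / 2 : ℝ) + j - 1) j = Ring.multichoose (1 / 2 : ℝ) j := by
      unfold Ring.choose; congr 1; ring
    have h2 := Ring.factorial_nsmul_multichoose_eq_ascPochhammer (1 / 2 : ℝ) j
    rw [Polynomial.ascPochhammer_smeval_eq_eval, nsmul_eq_mul] at h2
    have h3 := ascPochhammer_pos j (1 / 2 : ℝ) (by norm_num)
    rw [← h2] at h3
    simp only [h1]
    exact pos_of_mul_pos_right h3 (Nat.cast_nonneg _)
  · have := (Real.one_div_one_sub_rpow_hasFPowerSeriesOnBall_zero (1 / 2)).hasSum (y := t) (by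
      rw [Metric.mem_eball, edist_zero_right, ← ofReal_norm, ENNReal.ofReal_lt_one]; exact ht)
    simp only [FormalMultilinearSeries.ofScalars_apply_eq, smul_eq_mul, zero_add] at this
    rwa [Real.sqrt_eq_rpow, ← one_div]

lemma kr_eq {u x : V n} (hu : ‖u‖ = 1) (hx : ‖x‖ = 1) : kr u x = (√(1 - ⟪x, u⟫ ^ 2))⁻¹ := by
  unfold kr
  congr 1
  rw [← Real.sqrt_sq (norm_nonneg _), norm_sub_sq_real, real_inner_smul_right, norm_smul, hu, hx,
    Real.norm_eq_abs, mul_one, sq_abs]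
  congr 1; ring

lemma ae_inner_lt {u : V (n + 2)} (hu : ‖u‖ = 1) :
    ∀ᵐ x ∂mu (n + 2), ‖x‖ = 1 ∧ |⟪x, u⟫ ^ 2| < 1 := by
  obtain ⟨g, hg⟩ := exists_iso_unit hu
  have e1 : pt 0 (pt 1 (0 : V n)) ≠ 0 := by
    rw [← norm_ne_zero_iff, norm_pt_zero, norm_pt_axis]; simp
  have e2 : ⟪g (pt 0 (pt 1 0)), u⟫ = 0 := by rw [← hg, g.inner_map_map, inner_pt]; simp
  filter_upwards [mu_sphere, mu_ae_inner (η := g (pt 0 (pt 1 0))) (by simpa using e1)] with x hx h
  refine ⟨hx, ?_⟩
  have h0 : x - ⟪x, u⟫ • u ≠ 0 := fun h0 => h (by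
    rw [sub_eq_zero.1 h0, real_inner_smul_right, e2, mul_zero])
  have h1 := pow_pos (norm_pos_iff.2 h0) 2
  rw [norm_sub_sq_real, real_inner_smul_right, norm_smul, hu, hx, Real.norm_eq_abs, mul_one,
    sq_abs] at h1
  rw [abs_of_nonneg (sq_nonneg _)]
  linarith

lemma bm_inner_pow {u : V n} (hu : ‖u‖ = 1) (m : ℕ) : BM 1 fun x => ⟪x, u⟫ ^ m :=
  ⟨by fun_prop, fun x hx => by
    rw [abs_pow]
    refine pow_le_one₀ (abs_nonneg _) ?_
    simpa [hu, hx] using abs_real_inner_le_norm x u⟩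

lemma bm_mono (m : ℕ) (w : Fin m → Fin n) : BM 1 fun x : V n => ∏ i, x (w i) :=
  ⟨by fun_prop, fun x hx => by
    rw [Finset.abs_prod]
    exact Finset.prod_le_one (fun _ _ => abs_nonneg _) fun i _ => hx ▸ PiLp.norm_apply_le x (w i)⟩

lemma int_inner_pow {C : ℝ} {h : V (n + 1) → ℝ} (H : BM C h) (m : ℕ) (u : V (n + 1)) :
    ∫ x, ⟪x, u⟫ ^ m * h x ∂mu (n + 1) =
      ∑ w : Fin m → Fin (n + 1), (∏ i, u (w i)) * ∫ x, (∏ i, x (w i)) * h x ∂mu (n + 1) := by
  simp_rw [← integral_const_mul]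
  rw [← integral_finsetSum _ fun w _ => (((bm_mono m w).mul H).int_mu.const_mul _)]
  refine integral_congr_ae (Eventually.of_forall fun x => ?_)
  simp only [PiLp.inner_apply, RCLike.inner_apply, conj_trivial, Fintype.sum_pow, Finset.sum_mul,
    Finset.prod_mul_distrib, mul_assoc]

lemma moments_zero {C : ℝ} {h : V (q + 3) → ℝ} (H : BM C h) (he : ∀ x, ‖x‖ = 1 → h (-x) = h x)
    (hR : ∀ u, ‖u‖ = 1 → R h u = 0) (m : ℕ) (w : Fin m → Fin (q + 3)) :
    ∫ x, (∏ i, x (w i)) * h x ∂mu (q + 3) = 0 := by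
  rcases Nat.even_or_odd' m with ⟨j, rfl | rfl⟩
  swap
  · have := int_mu_iso (LinearIsometryEquiv.neg ℝ) fun x : V (q + 3) => (∏ i, x (w i)) * h x
    rw [int_mu_congr (h' := fun x => -((∏ i, x (w i)) * h x)) fun x hx => by
      simp [he x hx, Finset.prod_neg, pow_succ], integral_neg] at this
    linarith
  obtain ⟨c, c0, hc⟩ := exists_series
  have C0 := H.nonneg
  have A : ∀ {D : ℝ} {g : V (q + 3) → ℝ}, BM D g → ∀ u : V (q + 3), ‖u‖ = 1 →
      HasSum (fun j => c j * ∫ x, ⟪x, u⟫ ^ (2 * j) * g x ∂mu (q + 3))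
        (∫ x, g x * kr u x ∂mu (q + 3)) := by
    intro D g G u hu
    simp_rw [← integral_const_mul]
    have hs : ∀ᵐ x ∂mu (q + 3), HasSum (fun j => c j * (⟪x, u⟫ ^ 2) ^ j) (kr u x) := by
      filter_upwards [ae_inner_lt hu] with x hx
      rw [kr_eq hu hx.1]; exact hc _ hx.2
    refine hasSum_integral_of_dominated_convergence (fun j x => c j * (⟪x, u⟫ ^ 2) ^ j * D)
      (fun j => (((bm_inner_pow hu _).mul G).const_mul _).meas.aestronglyMeasurable)
      (fun j => ?_) ?_ ?_ ?_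
    · filter_upwards [mu_sphere] with x hx
      rw [Real.norm_eq_abs, abs_mul, abs_mul, abs_of_pos (c0 j), pow_mul,
        abs_of_nonneg (by positivity), mul_assoc]
      have := c0 j
      gcongr
      exact G.bdd x hx
    · filter_upwards [hs] with x hx using (hx.mul_right D).summable
    · refine ((int_kr hu).mul_const D).congr ?_
      filter_upwards [hs] with x hx using (hx.mul_right D).tsum_eq.symm
    · filter_upwards [hs] with x hx
      have e : (fun j => c j * (⟪x, u⟫ ^ (2 * j) * g x)) =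
          fun j => g x * (c j * (⟪x, u⟫ ^ 2) ^ j) := funext fun j => by rw [pow_mul]; ring
      rw [e]
      exact hx.mul_left (g x)
  have k0 := cK_pos q
  have h0 : ∀ u : V (q + 3), ‖u‖ = 1 → ∫ x, h x * kr u x ∂mu (q + 3) = 0 := by
    intro u hu
    have := RR H hu
    rw [R_congr (h' := fun _ => 0) hR (ne_zero_of_unit hu), R_const _ (ne_zero_of_unit hu),
      mul_zero] at this
    exact (mul_eq_zero.1 this.symm).resolve_left k0.ne'
  have h1 : ∀ u : V (q + 3), ‖u‖ = 1 →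
      ∫ x, 1 * kr u x ∂mu (q + 3) = om (q + 2) * (om (q + 2) * 1) / cK q := by
    intro u hu
    have := RR (BM.const (n := q + 3) 1) hu
    rw [R_congr (h' := fun _ => om (q + 2) * 1) (fun x hx => R_const _ (ne_zero_of_unit hx))
      (ne_zero_of_unit hu), R_const _ (ne_zero_of_unit hu)] at this
    rw [this]; field_simp
  have B : HasSum (fun j => ∫ u, h u * (c j * ∫ x, ⟪x, u⟫ ^ (2 * j) * h x ∂mu (q + 3))
      ∂mu (q + 3)) (∫ _u, (0:ℝ) ∂mu (q + 3)) := by
    refine hasSum_integral_of_dominated_convergence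
      (fun j u => C * C * (c j * ∫ x, ⟪x, u⟫ ^ (2 * j) * 1 ∂mu (q + 3))) (fun j => ?_)
      (fun j => ?_) ?_ ?_ ?_
    · simp_rw [int_inner_pow H]
      have := H.meas
      exact Measurable.aestronglyMeasurable (by fun_prop)
    · filter_upwards [mu_sphere] with u hu
      have b1 : |∫ x, ⟪x, u⟫ ^ (2 * j) * h x ∂mu (q + 3)| ≤
          C * ∫ x, ⟪x, u⟫ ^ (2 * j) * 1 ∂mu (q + 3) := by
        rw [← integral_const_mul]
        refine abs_integral_le_integral_abs.trans (int_mu_mono ((bm_inner_pow hu _).mul H).abs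
          (((bm_inner_pow hu _).mul (BM.const 1)).const_mul C) fun x hx => ?_)
        rw [abs_mul, pow_mul, abs_of_nonneg (by positivity), mul_one, mul_comm]
        exact mul_le_mul_of_nonneg_right (H.bdd x hx) (by positivity)
      rw [Real.norm_eq_abs, abs_mul, abs_mul, abs_of_pos (c0 j)]
      have := c0 j
      calc _ ≤ C * (c j * (C * ∫ x, ⟪x, u⟫ ^ (2 * j) * 1 ∂mu (q + 3))) := by
            gcongr; exact H.bdd u hu
        _ = _ := by ring
    · filter_upwards [mu_sphere] with u hu using ((A (BM.const 1) u hu).mul_left _).summable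
    · refine (integrable_const (C * C * (om (q + 2) * (om (q + 2) * 1) / cK q))).congr ?_
      filter_upwards [mu_sphere] with u hu
      rw [((A (BM.const 1) u hu).mul_left _).tsum_eq, h1 u hu]
    · filter_upwards [mu_sphere] with u hu
      have := (A H u hu).mul_left (h u)
      rwa [h0 u hu, mul_zero] at this
  have E : ∀ j, ∫ u, h u * (c j * ∫ x, ⟪x, u⟫ ^ (2 * j) * h x ∂mu (q + 3)) ∂mu (q + 3) =
      c j * ∑ w : Fin (2 * j) → Fin (q + 3), (∫ x, (∏ i, x (w i)) * h x ∂mu (q + 3)) ^ 2 := by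
    intro j
    simp_rw [int_inner_pow H, sq]
    simp_rw [← integral_mul_const (μ := mu (q + 3)) (∫ x, _ * h x ∂mu (q + 3))]
    rw [← integral_finsetSum _ fun w _ => (((bm_mono _ w).mul H).int_mu.mul_const _),
      ← integral_const_mul]
    refine integral_congr_ae (Eventually.of_forall fun x => ?_)
    simp only [Finset.mul_sum]
    exact Finset.sum_congr rfl fun w _ => by ring
  simp_rw [E, integral_zero] at B
  have B2 := congrFun ((hasSum_zero_iff_of_nonneg fun j => mul_nonneg (c0 j).le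
    (Finset.sum_nonneg fun w _ => sq_nonneg _)).1 B) j
  have B3 := (mul_eq_zero.1 B2).resolve_left (c0 j).ne'
  exact pow_eq_zero_iff two_ne_zero |>.1
    ((Finset.sum_eq_zero_iff_of_nonneg fun w _ => sq_nonneg _).1 B3 w (Finset.mem_univ _))

lemma ae_zero_of_moments {C : ℝ} {h : V (n + 1) → ℝ} (H : BM C h)
    (hm : ∀ (m : ℕ) (w : Fin m → Fin (n + 1)), ∫ x, (∏ i, x (w i)) * h x ∂mu (n + 1) = 0) :
    ∀ᵐ x ∂mu (n + 1), h x = 0 := by
  have hK : IsCompact {u : V (n + 1) | ‖u‖ = 1} := by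
    rw [show {u : V (n + 1) | ‖u‖ = 1} = sphere 0 1 by ext u; simp]
    exact isCompact_sphere _ _
  have bm : ∀ g : C(V (n + 1), ℝ), ∃ D, BM D g := fun g => by
    obtain ⟨D, hD⟩ := hK.exists_bound_of_continuousOn g.continuous.continuousOn
    exact ⟨D, g.continuous.measurable, hD⟩
  let e : Fin (n + 1) → C(V (n + 1), ℝ) := fun i => ⟨fun x => x i, by fun_prop⟩
  have h1 : ∀ g ∈ Submonoid.closure (range e), ∃ (m : ℕ) (w : Fin m → Fin (n + 1)),
      ∀ x : V (n + 1), g x = ∏ i, x (w i) := by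
    intro g hg
    induction hg using Submonoid.closure_induction_left with
    | one => exact ⟨0, Fin.elim0, fun x => by simp⟩
    | mul_left a ha b hb ih =>
      obtain ⟨i, rfl⟩ := ha
      obtain ⟨m, w, hw⟩ := ih
      exact ⟨m + 1, Fin.cons i w, fun x => by simp [Fin.prod_univ_succ, hw, e]⟩
  have h2 : ∀ g ∈ Algebra.adjoin ℝ (range e), ∫ x, g x * h x ∂mu (n + 1) = 0 := by
    intro g hg
    rw [← Subalgebra.mem_toSubmodule, Algebra.adjoin_eq_span] at hg
    induction hg using Submodule.span_induction with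
    | mem g hg =>
      obtain ⟨m, w, hw⟩ := h1 g hg
      simp_rw [hw]; exact hm m w
    | zero => simp
    | add a b _ _ ha hb =>
      obtain ⟨D, hD⟩ := bm a
      obtain ⟨D', hD'⟩ := bm b
      simp only [ContinuousMap.add_apply, add_mul]
      rw [integral_add (hD.mul H).int_mu (hD'.mul H).int_mu, ha, hb, add_zero]
    | smul c a _ ha =>
      simp only [ContinuousMap.smul_apply, smul_eq_mul, mul_assoc]
      rw [integral_const_mul, ha, mul_zero]
  have hs : (Algebra.adjoin ℝ (range e)).SeparatesPoints := by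
    intro x y hxy
    obtain ⟨i, hi⟩ : ∃ i, x i ≠ y i := by
      by_contra hh
      push Not at hh
      exact hxy (by ext i; exact hh i)
    exact ⟨e i, ⟨e i, Algebra.subset_adjoin ⟨i, rfl⟩, rfl⟩, hi⟩
  refine ae_eq_zero_of_integral_contDiff_smul_eq_zero H.int_mu.locallyIntegrable fun g hg _ => ?_
  have C0 := H.nonneg
  have o0 := om_pos (n + 1)
  rw [← abs_nonpos_iff]
  refine le_of_forall_pos_le_add fun ε hε => ?_
  obtain ⟨p, hp, hp2⟩ :=
    ContinuousMap.exists_mem_subalgebra_near_continuous_of_isCompact_of_separatesPoints hs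
      ⟨g, hg.continuous⟩ hK (ε := ε / ((C + 1) * om (n + 1))) (by positivity)
  obtain ⟨D, hD⟩ := bm p
  obtain ⟨D', hD'⟩ : ∃ D, BM D g := bm ⟨g, hg.continuous⟩
  have b1 : BM (ε / ((C + 1) * om (n + 1))) fun x => p x - g x :=
    ⟨(hD.sub hD').meas, fun x hx => (hp2 x hx).le⟩
  have b2 := (b1.mul H).abs_int_le
  simp only [sub_mul] at b2
  rw [integral_sub (hD.mul H).int_mu (hD'.mul H).int_mu, h2 p hp, zero_sub, abs_neg] at b2
  refine b2.trans ?_
  rw [zero_add, div_mul_eq_mul_div, div_mul_eq_mul_div, div_le_iff₀ (by positivity)]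
  nlinarith [mul_pos hε o0]

/-- the spherical Radon transform is injective on bounded even functions -/
theorem R_inj {C : ℝ} {h : V (q + 3) → ℝ} (H : BM C h) (he : ∀ x, ‖x‖ = 1 → h (-x) = h x)
    (hR : ∀ u, ‖u‖ = 1 → R h u = 0) : ∀ᵐ x ∂mu (q + 3), h x = 0 :=
  ae_zero_of_moments H (moments_zero H he hR)

/-- the intersection body operator is injective on even functions -/
theorem T_inj_ae {f g : V (q + 3) → ℝ} (F : Adm f) (G : Adm g)
    (hf : ∀ x, ‖x‖ = 1 → f (-x) = f x) (hg : ∀ x, ‖x‖ = 1 → g (-x) = g x)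
    (hT : ∀ u, ‖u‖ = 1 → T f u = T g u) : ∀ᵐ x ∂mu (q + 3), f x = g x := by
  obtain ⟨C, hC⟩ := F.bm
  obtain ⟨D, hD⟩ := G.bm
  have := R_inj ((hC.pow (q + 2)).sub (hD.pow (q + 2)))
    (fun x hx => by simp only [hf x hx, hg x hx]) fun u hu => by
      rw [R_sub (hC.pow _) (hD.pow _) (ne_zero_of_unit hu), ← T_unit f hu, ← T_unit g hu,
        hT u hu, sub_self]
  filter_upwards [this] with x hx
  exact (pow_left_inj₀ (F.nn x) (G.nn x) (by omega)).1 (sub_eq_zero.1 hx)

theorem T_inj {f g : V (q + 3) → ℝ} (F : Adm f) (G : Adm g) (cf : ContinuousOn f {0}ᶜ)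
    (cg : ContinuousOn g {0}ᶜ) (hf : ∀ x, ‖x‖ = 1 → f (-x) = f x)
    (hg : ∀ x, ‖x‖ = 1 → g (-x) = g x) (hT : ∀ u, ‖u‖ = 1 → T f u = T g u) : f = g :=
  F.ext G fun _ hx => eq_of_ae_eq cf cg (T_inj_ae F G hf hg hT) hx

end Pool.Agent.Lib.MP_242fd5_gt.Ty
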