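import Pool.Agent.Lib.MP_242fd5_gt.Ty.D4Str
import Pool.Agent.Lib.MP_242fd5_gt.Ty.S6Inj
import Pool.Agent.Lib.MP_242fd5_gt.TypeDefs

set_option autoImplicit false

open MeasureTheory ProbabilityTheory Set Metric Filter Topology
open scoped ENNReal NNReal RealInnerProductSpace symmDiff

namespace Pool.Agent.Lib.MP_242fd5_gt.Ty

variable {n N q : ℕ}

/-- radial functions of star bodies -/
structure SB (f : V n → ℝ) : Prop where
  adm : Adm f
  cont : ContinuousOn f {0}ᶜ
  pos : ∀ u, ‖u‖ = 1 → 0 < f u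

lemma SB.T {f : V (q + 3) → ℝ} (F : SB f) : SB (T f) :=
  ⟨F.adm.T, contOn_T F.adm F.cont, fun u hu => (F.adm.T.nn u).lt_of_ne fun e => by
    obtain ⟨w, hw, h3, -⟩ := exists_perp₂ u u
    exact (F.pos w hw).ne' (eq_zero_of_T F.adm F.cont hu hw h3 e.symm)⟩

lemma sb_rho (g : V n ≃L[ℝ] V n) : SB (rho g) :=
  ⟨adm_rho g, continuousOn_rho g, fun _ hu => rho_pos g (ne_zero_of_unit hu)⟩

lemma star_eq_starSet {f : V (N + 1) → ℝ} (F : Adm f) : star f = starSet f := by
  ext x
  constructor
  · intro h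
    rcases eq_or_ne x 0 with rfl | hx
    · exact ⟨pt 1 0, by simp [norm_pt_axis], 0, le_rfl, F.nn _, by simp⟩
    · exact ⟨nrm x, by simp [norm_nrm hx], ‖x‖, norm_nonneg _,
        (one_le_iff F hx).1 (h.resolve_left hx), (norm_smul_nrm x).symm⟩
  · rintro ⟨u, -, c, c0, h, rfl⟩
    rcases c0.eq_or_lt with rfl | c0
    · exact Or.inl (zero_smul _ _)
    · exact Or.inr (by rw [F.hom c c0, le_inv_mul_iff₀ c0, mul_one]; exact h)

lemma SB.star {f : V (N + 1) → ℝ} (F : SB f) : IsStarBody (star f) := by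
  rw [star_eq_starSet F.adm]
  exact isStarBody_starSet (fun u hu => F.pos u (by simpa using hu)) (F.cont.mono sphere_subset)

lemma rad_unit (L : Set (V n)) {u : V n} (hu : ‖u‖ = 1) : rad L u = radial L u := by
  rw [rad, hu, nrm_unit hu, inv_one, one_mul]

lemma sb_rad {L : Set (V (N + 1))} (h : IsStarBody L) : SB (rad L) := by
  obtain ⟨-, -, h3, h4⟩ := h
  have c : ContinuousOn (rad L) {0}ᶜ :=
    (continuousOn_id.norm.inv₀ fun _ hx => norm_ne_zero_iff.2 hx).mul
      (h4.comp continuousOn_nrm fun x hx => mem_sphere_zero_iff_norm.2 (norm_nrm hx))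
  obtain ⟨C, hC⟩ := (isCompact_sphere (0 : V (N + 1)) 1).bddAbove_image h4
  refine ⟨⟨measurable_of_continuousOn_compl_singleton 0 c, fun x => ?_, fun t ht x => ?_, C,
    fun u hu => ?_⟩, c, fun u hu => ?_⟩
  · rcases eq_or_ne x 0 with rfl | hx
    · simp [rad]
    · exact mul_nonneg (by positivity) (h3 _ (by simp [norm_nrm hx])).le
  · rw [rad, rad, nrm_smul ht, norm_smul, Real.norm_of_nonneg ht.le, mul_inv, mul_assoc]
  · exact (rad_unit L hu).trans_le (hC ⟨u, by simpa using hu, rfl⟩)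
  · exact (h3 u (by simpa using hu)).trans_eq (rad_unit L hu).symm

lemma star_rad {L : Set (V (N + 1))} (h : IsStarBody L) : star (rad L) = L := by
  have F := sb_rad h
  obtain ⟨h1, h2, h3, -⟩ := h
  obtain ⟨B, hB⟩ := h1.isBounded.exists_norm_le
  have bd : ∀ u : V (N + 1), ‖u‖ = 1 → BddAbove {c : ℝ | 0 ≤ c ∧ c • u ∈ L} := fun u hu =>
    ⟨B, fun c hc => by simpa [norm_smul, hu, abs_of_nonneg hc.1] using hB _ hc.2⟩
  have top : ∀ u : V (N + 1), ‖u‖ = 1 → radial L u • u ∈ L := fun u hu => by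
    refine (IsClosed.csSup_mem (s := {c : ℝ | 0 ≤ c ∧ c • u ∈ L}) ?_ ?_ (bd u hu)).2
    · exact isClosed_Ici.inter (h1.isClosed.preimage (by fun_prop))
    · refine nonempty_iff_ne_empty.2 fun e => ?_
      have := h3 u (by simpa using hu)
      rw [radial, e, Real.sSup_empty] at this
      exact this.false
  ext x
  rcases eq_or_ne x 0 with rfl | hx
  · exact iff_of_true (Or.inl rfl) (h2.mem ⟨_, top (pt 1 0) (by simp [norm_pt_axis])⟩)
  have hu := norm_nrm hx
  have e : x ∈ star (rad L) ↔ ‖x‖ ≤ radial L (nrm x) := by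
    rw [← rad_unit L hu, ← one_le_iff F.adm hx]
    exact or_iff_right hx
  rw [e]
  refine ⟨fun h => ?_, fun h => le_csSup (bd _ hu) ⟨norm_nonneg _, by rwa [norm_smul_nrm]⟩⟩
  have p := h3 _ (mem_sphere_zero_iff_norm.2 hu)
  have := h2.smul_mem (top _ hu) (t := ‖x‖ / radial L (nrm x)) (by positivity)
    ((div_le_one p).2 h)
  rwa [smul_smul, div_mul_cancel₀ _ p.ne', norm_smul_nrm] at this

lemma rad_star {f : V (N + 1) → ℝ} (F : SB f) : rad (star f) = f :=
  (sb_rad F.star).adm.ext F.adm fun u hu => by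
    rw [rad_unit _ hu, star_eq_starSet F.adm,
      radial_starSet (fun u hu => F.pos u (by simpa using hu)) (by simpa using hu)]

lemma sectionVol_eq {L : Set (V (N + 1))} (hL : MeasurableSet L) {u : V (N + 1)} (hu : ‖u‖ = 1) :
    sectionVol L u = (sec (L.indicator 1) u).toReal := by
  obtain ⟨g, rfl⟩ := exists_iso_unit hu
  let j : V N →ₗᵢ[ℝ] (ℝ ∙ g (pt 1 0))ᗮ :=
    { toFun := fun y => ⟨g (pt 0 y), Submodule.mem_orthogonal_singleton_iff_inner_left.2 (by
        rw [g.inner_map_map, inner_pt]; simp)⟩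
      map_add' := fun y z => Subtype.ext (by
        simp only [Submodule.coe_add]; rw [← map_add, ← pt_add, add_zero])
      map_smul' := fun c y => Subtype.ext (by
        simp only [Submodule.coe_smul, RingHom.id_apply]; rw [← map_smul, ← pt_smul, mul_zero])
      norm_map' := fun y => (g.norm_map _).trans (norm_pt_zero y) }
  have hj : Function.Surjective j := fun x => ⟨tl (g.symm x), Subtype.ext (by
    have h := Submodule.mem_orthogonal_singleton_iff_inner_left.1 x.2
    rw [← g.apply_symm_apply x, g.inner_map_map, inner_split] at h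
    have h0 : g.symm x 0 = 0 := by simpa using h
    change g (pt 0 (tl (g.symm x))) = x
    rw [← h0, pt_tl, g.apply_symm_apply])⟩
  have m : MeasurableSet {x : (ℝ ∙ g (pt 1 0))ᗮ | (x : V (N + 1)) ∈ L} :=
    hL.preimage measurable_subtype_coe
  have m2 : MeasurableSet {y : V N | g (pt 0 y) ∈ L} := hL.preimage (g.continuous.comp
    (continuous_pt₂.comp (continuous_const.prodMk continuous_id))).measurable
  rw [sectionVol, ← (LinearIsometryEquiv.ofSurjective j hj).measurePreserving.measure_preimage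
    m.nullMeasurableSet, sec_of_iso (measurable_one.indicator hL) g one_ne_zero]
  simp only [abs_one, inv_one, ENNReal.ofReal_one, one_mul]
  exact congrArg _ (lintegral_indicator_one m2).symm

lemma interBody_star {f : V (N + 2) → ℝ} (F : Adm f) : interBody (star f) = star (T f) := by
  rw [interBody_eq, star_eq_starSet F.T]
  refine starSet_congr fun u hu => ?_
  have hu : ‖u‖ = 1 := by simpa using hu
  rw [sectionVol_eq F.measurableSet_star hu, F.sec_star (ne_zero_of_unit hu),
    ENNReal.toReal_ofReal (F.T.nn u)]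

lemma ratio_star {f : V (N + 2) → ℝ} (F : Adm f) : busemannRatio (star f) = Phi f := by
  rw [busemannRatio, interBody_star F, F.T.vol_star, F.vol_star,
    ENNReal.toReal_ofReal F.T.Nn_nonneg, ENNReal.toReal_ofReal F.Nn_nonneg]
  rfl

lemma rad_inter {L : Set (V (q + 3))} (h : IsStarBody L) : rad (interBody L) = T (rad L) := by
  conv_lhs => rw [← star_rad h, interBody_star (sb_rad h).adm, rad_star (sb_rad h).T]

lemma star_inter {L : Set (V (q + 3))} (h : IsStarBody L) : IsStarBody (interBody L) := by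
  rw [← star_rad h, interBody_star (sb_rad h).adm]
  exact (sb_rad h).T.star

lemma ratio_rad {L : Set (V (q + 3))} (h : IsStarBody L) : busemannRatio L = Phi (rad L) := by
  rw [← ratio_star (sb_rad h).adm, star_rad h]

lemma ratio_ball (q k : ℕ) : busemannRatio (closedBall (0 : V (q + 3)) 1) / (k : ℝ) ^ (q + 3 - 2) =
    lev (q + 2) k := by
  have : closedBall (0 : V (q + 3)) 1 = star (rho (.refl _ _)) := by simp [star_rho, ell]
  rw [this, ratio_star (adm_rho _), Phi_rho]
  rfl

lemma inter_inj {K L : Set (V (q + 3))} (hK : IsStarBody K) (hL : IsStarBody L)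
    (h : interBody (interBody K) = interBody (interBody L)) : interBody K = interBody L := by
  have h1 := congrArg rad h
  rw [rad_inter (star_inter hK), rad_inter (star_inter hL), rad_inter hK, rad_inter hL] at h1
  rw [← star_rad (star_inter hK), ← star_rad (star_inter hL), rad_inter hK, rad_inter hL,
    T_inj (sb_rad hK).T.adm (sb_rad hL).T.adm (sb_rad hK).T.cont (sb_rad hL).T.cont
      (fun x _ => T_neg _ x) (fun x _ => T_neg _ x) fun u _ => congrFun h1 u]

lemma iter_inj (j : ℕ) : ∀ {K L : Set (V (q + 3))}, IsStarBody K → IsStarBody L →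
    interBody^[j] (interBody K) = interBody^[j] (interBody L) → interBody K = interBody L := by
  induction j with
  | zero => exact fun _ _ h => h
  | succ j ih => exact fun hK hL h => inter_inj hK hL (ih (star_inter hK) (star_inter hL) h)

theorem exists_backward {L : Set (V (q + 3))} (h : HasPropertyP L) : ∃ M, IsBackwardOrbit L M := by
  choose K h1 h2 using fun m => h (m + 1) (Nat.le_add_left _ _)
  exact ⟨fun m => interBody (K m), h2 0, fun m => ⟨star_inter (h1 m),
    iter_inj m (star_inter (h1 _)) (h1 m) ((h2 (m + 1)).trans (h2 m).symm)⟩⟩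

theorem backward_unique {L : Set (V (q + 3))} {M M' : ℕ → Set (V (q + 3))}
    (h : IsBackwardOrbit L M) (h' : IsBackwardOrbit L M') : M = M' := by
  funext m
  induction m with
  | zero => exact h.1.trans h'.1.symm
  | succ m ih =>
    rw [← (h.2 _).2, ← (h'.2 _).2]
    exact inter_inj (h.2 _).1 (h'.2 _).1 (by rw [(h.2 _).2, (h.2 _).2, (h'.2 _).2, (h'.2 _).2, ih])

lemma orbit_rad {L : Set (V (q + 3))} {M : ℕ → Set (V (q + 3))} (h : IsBackwardOrbit L M) (m : ℕ) :
    T (rad (M (m + 1))) = rad (M m) := by rw [← rad_inter (h.2 _).1, (h.2 _).2]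

lemma orbit_star {f : ℕ → V (q + 3) → ℝ} (F : ∀ m, SB (f m)) (h : ∀ m, T (f (m + 1)) = f m) :
    IsBackwardOrbit (star (f 0)) fun m => star (f m) :=
  ⟨rfl, fun m => ⟨(F m).star, by rw [interBody_star (F _).adm, h]⟩⟩

lemma lev_pos (q : ℕ) {k : ℕ} (hk : 1 ≤ k) : 0 < lev (q + 2) k :=
  div_pos (PhiB_pos _) (by positivity)

lemma lev_le_iff (q : ℕ) {j k : ℕ} (hj : 1 ≤ j) (hk : 1 ≤ k) :
    lev (q + 2) j ≤ lev (q + 2) k ↔ k ≤ j := by
  rw [lev, lev, div_le_div_iff_of_pos_left (PhiB_pos _) (by positivity) (by positivity),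
    pow_le_pow_iff_left₀ (by positivity) (by positivity) (by omega), Nat.cast_le]

theorem orbit_split {L : Set (V (q + 3))} {M : ℕ → Set (V (q + 3))} (h : IsBackwardOrbit L M) :
    (∃ j : ℕ, 1 ≤ j ∧ SplitsInto M j) ∨ Tendsto (fun m => busemannRatio (M m)) atTop (𝓝 0) := by
  have F := fun m => (sb_rad (h.2 m).1).adm
  rcases orbit_type F (orbit_rad h) with e | ⟨k, k1, h1, t, g, t0, h2, h3, h4⟩
  · exact Or.inr (by simpa only [fun m => ratio_rad (h.2 m).1] using e)
  refine Or.inl ⟨k, k1, by simpa only [fun m => ratio_rad (h.2 m).1, ratio_ball] using h1,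
    fun m i => ell ((g m i).trans (hom _ (t m)⁻¹ (inv_pos.2 (t0 m)).ne')), fun m i =>
      ⟨⟨_, rfl⟩, ?_⟩, ?_⟩
  · have a := h2 m
    have := (t0 m).ne'
    rw [Nn_smul] at a
    beta_reduce
    rw [← star_rho, (adm_rho _).vol_star, ← star_rad (h.2 m).1, (F m).vol_star,
      funext (rho_hom (inv_pos.2 (t0 m)) _), Nn_smul, Nn_rho, h3, ← ENNReal.ofReal_natCast,
      ← ENNReal.ofReal_mul (by positivity), (eq_inv_mul_iff_mul_eq₀ (by positivity)).2 a]
    congr 1
    rw [inv_pow]
    ring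
  · have o := om_pos (q + 3)
    refine (by simpa using h4.div_const (k * om (q + 3)) :
      Tendsto (fun m => dV (fun x => t m * rad (M m) x) (mx (g m)) / (k * om (q + 3))) atTop
        (𝓝 0)).congr fun m => ?_
    have p := t0 m
    have e : mx (g m) = fun x => t m * mx (fun i => (g m i).trans
        (hom _ (t m)⁻¹ (inv_pos.2 (t0 m)).ne')) x := funext fun x => by
      simp only [mx, rho_hom (inv_pos.2 p), Real.mul_iSup_of_nonneg p.le, mul_inv_cancel_left₀ p.ne']
    rw [← star_mx k1, ← h2 m, e, dV_smul _ p.le, Nn_smul, mul_div_mul_left _ _ (by positivity)]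
    conv_rhs => rw [← star_rad (h.2 m).1, vol_symmDiff (F m) (adm_mx _), (F m).vol_star,
      ENNReal.toReal_ofReal (dV_nonneg _ _), ENNReal.toReal_ofReal (F m).Nn_nonneg]

theorem type_unique {L : Set (V (q + 3))} {k k' : ℕ∞} (h : HasType L k) (h' : HasType L k') :
    k = k' := by
  obtain ⟨M, hM, h⟩ := h
  obtain ⟨M', hM', h'⟩ := h'
  obtain rfl := backward_unique hM hM'
  rcases h with ⟨j, j1, rfl, h, -⟩ | ⟨rfl, h⟩ <;> rcases h' with ⟨j', j1', rfl, h', -⟩ | ⟨rfl, h'⟩
  · have := tendsto_nhds_unique h h'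
    rw [ratio_ball, ratio_ball] at this
    rw [le_antisymm ((lev_le_iff q j1' j1).1 this.ge) ((lev_le_iff q j1 j1').1 this.le)]
  · exact absurd ((ratio_ball q j).symm.trans (tendsto_nhds_unique h h')) (lev_pos q j1).ne'
  · exact absurd ((ratio_ball q j').symm.trans (tendsto_nhds_unique h' h)) (lev_pos q j1').ne'
  · rfl

theorem type_exists {L : Set (V (q + 3))} (h : HasPropertyP L) : ∃ k, HasType L k := by
  obtain ⟨M, hM⟩ := exists_backward h
  rcases orbit_split hM with ⟨j, j1, h⟩ | h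
  exacts [⟨j, M, hM, Or.inl ⟨j, j1, rfl, h⟩⟩, ⟨⊤, M, hM, Or.inr ⟨rfl, h⟩⟩]

lemma type_P {L : Set (V n)} {k : ℕ∞} (h : HasType L k) :
    (IsStarBody L ∧ HasPropertyP L) ∧ 1 ≤ k := by
  obtain ⟨M, ⟨rfl, hM⟩, h⟩ := h
  refine ⟨⟨(hM 0).1, hasPropertyP_of_chain M (fun m => (hM m).1) (fun m => (hM m).2) 0⟩, ?_⟩
  rcases h with ⟨j, j1, rfl, -⟩ | ⟨rfl, -⟩
  exacts [by exact_mod_cast j1, le_top]

theorem type_one_iff {L : Set (V (q + 3))} : HasType L 1 ↔ IsEllipsoid L := by
  have o := om_pos (q + 2)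
  constructor
  · rintro ⟨M, hM, ⟨j, -, hj, h, -⟩ | ⟨h, -⟩⟩
    · obtain rfl : 1 = j := by exact_mod_cast hj
      have F := fun m => sb_rad (hM.2 m).1
      have e : lev (q + 2) 1 = PhiB (q + 2) := by simp [lev]
      simp only [fun m => ratio_rad (hM.2 m).1, ratio_ball, e] at h
      have anti : Antitone fun m => Phi (rad (M m)) := antitone_nat_of_succ_le fun m => by
        rw [← orbit_rad hM m]; exact Phi_mono (F _).adm
      have h1 := anti.le_of_tendsto h 1
      obtain ⟨g, hg⟩ := eq_case (F 1).adm (F 1).cont ((PhiB_pos _).trans_le h1)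
        ((sharp (F 1).adm.T).trans h1)
      have p : 0 < jac g * om (q + 2) := mul_pos (jac_pos g) o
      refine ⟨(dual g).trans (hom _ _ p.ne'), ?_⟩
      rw [← hM.1, ← star_rad (hM.2 0).1, ← orbit_rad hM 0, hg, funext (T_rho g),
        ← funext (rho_hom p _), star_rho, ell]
    · exact absurd h (by simp)
  · rintro ⟨g, rfl⟩
    have h : ∀ g : V (q + 3) ≃L[ℝ] V (q + 3), ∃ h, T (rho h) = rho g := fun g => by
      have := jac_pos g
      have p : 0 < (jac g / om (q + 2)) ^ ((q + 2 : ℕ) : ℝ)⁻¹ := by positivity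
      refine ⟨(dual g).trans (hom _ _ p.ne'), funext fun x => ?_⟩
      rw [funext (rho_hom p _), T_smul, T_rho, dual_dual, jac_dual,
        Real.rpow_inv_natCast_pow (by positivity) (by omega)]
      field_simp
    choose s hs using h
    refine ⟨fun m => star (rho (s^[m] g)), ?_, Or.inl ⟨1, le_rfl, rfl, ?_,
      fun m _ => star (rho (s^[m] g)), fun m _ => ⟨⟨_, star_rho _⟩, by simp⟩, ?_⟩⟩
    · rw [← ell, ← star_rho]
      exact orbit_star (f := fun m => rho (s^[m] g)) (fun m => sb_rho _) fun m => by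
        rw [Function.iterate_succ_apply', hs]
    · simp only [ratio_star (adm_rho _), Phi_rho, ratio_ball]
      simp [lev]
    · simp [iUnion_const]

theorem type_of_window {k : ℕ} (hk : 2 ≤ k) {f : ℕ → V (q + 3) → ℝ} {c : ℝ}
    (hc : c < lev (q + 2) (k - 1)) (F : ∀ m, SB (f m)) (h : ∀ m, T (f (m + 1)) = f m)
    (h1 : ∀ m, lev (q + 2) k ≤ Phi (f m)) (h2 : ∀ m, Phi (f m) ≤ c) : HasType (star (f 0)) k := by
  have hM := orbit_star F h
  have e := fun m => ratio_star (F m).adm
  refine ⟨_, hM, Or.inl ?_⟩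
  rcases orbit_split hM with ⟨j, j1, h3⟩ | h3
  · have h4 := h3.1
    simp only [e, ratio_ball] at h4
    have a := (lev_le_iff q (by omega) j1).1 (ge_of_tendsto' h4 h1)
    have b := (lev_le_iff q (k := j) (j := k - 1) (by omega) j1).not.1
      ((le_of_tendsto' h4 h2).trans_lt hc).not_ge
    obtain rfl : j = k := by omega
    exact ⟨j, j1, rfl, h3⟩
  · simp only [e] at h3
    exact absurd (ge_of_tendsto' h3 h1) (lev_pos q (by omega)).not_ge

end Pool.Agent.Lib.MP_242fd5_gt.Ty
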