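import Pool.Agent.Lib.MP_242fd5_gt.Ty.D4Str

set_option autoImplicit false

open MeasureTheory ProbabilityTheory Set Metric Filter Topology
open scoped ENNReal NNReal RealInnerProductSpace

namespace Pool.Agent.Lib.MP_242fd5_gt.Ty

variable {n N q : ℕ}

theorem dg_fin (q : ℕ) (W lam : ℝ) : ∃ y : ℝ, 0 < y ∧ ∀ B L : ℝ, 1 ≤ B → 1 ≤ L → ∃ C : ℝ,
    ∀ (r : ℕ) (x : ℕ → V (q + 3) → ℝ), (∀ s, Adm (x s)) → (∀ s, ContinuousOn (x s) {0}ᶜ) →
      (∀ s ≤ r, Nn (x s) ≤ W) → (∀ s < r, ∀ u, ‖u‖ = 1 → x (s + 1) u ≤ lam * T (T (x s)) u) →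
      (∀ u, ‖u‖ = 1 → x 0 u ≤ B * L ^ r) →
      (∀ s ≤ r, Nn (fun u => if B * L ^ (r - s) * ‖u‖⁻¹ < x s u then x s u else 0) ≤ y) →
      BM C (x r) := by
  obtain ⟨y, y0, hy⟩ := deGiorgi q |W| lam
  refine ⟨y, y0, fun B L hB hL => ?_⟩
  obtain ⟨C, hC⟩ := hy (Real.log B) (Real.log L) (Real.log_nonneg hB) (Real.log_nonneg hL)
  have e : ∀ j : ℕ, ex (Real.log B + j * Real.log L) = ENNReal.ofReal (B * L ^ j) := fun j => by
    rw [ex, Real.exp_add, Real.exp_nat_mul, Real.exp_log (by linarith), Real.exp_log (by linarith)]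
  refine ⟨|C|, fun r x A hc h1 h2 h3 h4 => (A r).bm' fun u hu => ?_⟩
  have m : ∀ s, Measurable fun u => ENNReal.ofReal (x s u) := fun s => (A s).meas.ennreal_ofReal
  have := hC (fun j => if j ≤ r then fun u => ENNReal.ofReal (x (r - j) u) else fun _ => 0)
    (fun j => by split_ifs; exacts [m _, measurable_const]) (fun j => by
      split_ifs
      · exact (A _).ofReal_Nn.ge.trans (ENNReal.ofReal_le_ofReal
          ((h1 _ (Nat.sub_le _ _)).trans (le_abs_self _)))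
      · simp [Ne]) (fun j => by
      rcases lt_trichotomy j r with h | rfl | h
      · refine Or.inl (mu_sphere.mono fun u hu => ?_)
        rw [if_pos h.le, if_pos (Nat.succ_le_of_lt h), ← (A _).ofReal_TT hu,
          ← ENNReal.ofReal_mul' ((A _).T.T.nn u), show r - j = r - (j + 1) + 1 by omega]
        exact ENNReal.ofReal_le_ofReal (h2 _ (by omega) u hu)
      · refine Or.inr (mu_sphere.mono fun u hu => ?_)
        rw [if_pos le_rfl, e, Nat.sub_self]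
        exact ENNReal.ofReal_le_ofReal (h3 u hu)
      · exact Or.inr (ae_of_all _ fun u => by simp [h.not_ge])) fun j => by
      split_ifs with h
      · have h5 := h4 (r - j) (Nat.sub_le _ _)
        rw [show r - (r - j) = j by omega] at h5
        refine le_trans ?_ (ENNReal.ofReal_le_ofReal h5)
        rw [((A _).above (adm_inv_norm.smul (by positivity))).ofReal_Nn,
          ← lintegral_indicator (measurableSet_lt measurable_const (m _))]
        refine lintegral_mono_ae (mu_sphere.mono fun u hu => ?_)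
        by_cases h6 : u ∈ {z | ex (Real.log B + j * Real.log L) < ENNReal.ofReal (x (r - j) z)}
        · rw [indicator_of_mem h6]
          rw [mem_ofPred_eq, e, ENNReal.ofReal_lt_ofReal_iff_of_nonneg (by positivity)] at h6
          simp only [hu, inv_one, mul_one, if_pos h6, le_refl]
        · rw [indicator_of_notMem h6]
          exact zero_le
      · simp
  simp only [zero_le, if_true, Nat.sub_zero] at this
  exact le_of_ae_le (hc r) continuousOn_const (this.mono fun u hu =>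
    (ENNReal.ofReal_le_ofReal_iff (abs_nonneg _)).1
      (hu.trans (ENNReal.ofReal_le_ofReal (le_abs_self _)))) hu

/-- uniform convergence on the sphere -/
def UL (U : Filter ℕ) (z : ℕ → V n → ℝ) (a : V n → ℝ) : Prop :=
  ∀ ε : ℝ, 0 < ε → ∀ᶠ I in U, ∀ u, ‖u‖ = 1 → |z I u - a u| ≤ ε

lemma tendsto_of_mul {U : Filter ℕ} {s : ℕ → ℝ} {a K : ℝ} (hK : 0 ≤ K)
    (h : ∀ ε : ℝ, 0 < ε → ∀ᶠ I in U, |s I - a| ≤ K * ε) : Tendsto s U (𝓝 a) :=
  Metric.tendsto_nhds.2 fun ε hε => (h (ε / (K + 1)) (by positivity)).mono fun I hI => by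
    rw [Real.dist_eq]
    refine hI.trans_lt ?_
    rw [← mul_div_assoc, div_lt_iff₀ (by positivity)]
    nlinarith

lemma UL.pt {U : Filter ℕ} {z : ℕ → V n → ℝ} {a : V n → ℝ} (h : UL U z a) {u : V n}
    (hu : ‖u‖ = 1) : Tendsto (fun I => z I u) U (𝓝 (a u)) :=
  tendsto_of_mul zero_le_one fun ε hε => (h ε hε).mono fun I hI => by rw [one_mul]; exact hI u hu

lemma UL.T {U : Filter ℕ} {z : ℕ → V (N + 2) → ℝ} {a : V (N + 2) → ℝ} (h : UL U z a) {C : ℝ}
    (hz : ∀ᶠ I in U, BM C (z I)) (ha : BM C a) : UL U (fun I => T (z I)) (T a) := fun ε hε => by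
  have := ha.nonneg
  have := om_pos (N + 1)
  filter_upwards [h (ε / ((N + 1) * C ^ N * om (N + 1) + 1)) (by positivity), hz] with I h1 h2 u hu
  refine (T_lip_sup h2 ha h1 hu).trans ?_
  rw [← mul_div_assoc, div_le_iff₀ (by positivity)]
  nlinarith

lemma UL.Nn {U : Filter ℕ} {z : ℕ → V (N + 1) → ℝ} {a : V (N + 1) → ℝ} (h : UL U z a) {C : ℝ}
    (hz : ∀ᶠ I in U, BM C (z I)) (ha : BM C a) : Tendsto (fun I => Nn (z I)) U (𝓝 (Nn a)) := by
  have := ha.nonneg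
  have := om_pos (N + 1)
  refine tendsto_of_mul (K := (N + 1) * C ^ N * om (N + 1)) (by positivity) fun ε hε => ?_
  filter_upwards [h ε hε, hz] with I h1 h2
  rw [Ty.Nn, Ty.Nn, ← integral_sub (h2.pow _).int_mu (ha.pow _).int_mu, mul_right_comm]
  refine BM.abs_int_le ⟨((h2.pow _).sub (ha.pow _)).meas, fun u hu =>
    (abs_pow_sub_le (h2.bdd u hu) (ha.bdd u hu) N).trans ?_⟩
  gcongr
  exact h1 u hu

lemma ulim (U : Ultrafilter ℕ) {s : ℕ → ℝ} {C : ℝ} (h : ∀ᶠ I in U, |s I| ≤ C) :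
    ∃ a, Tendsto s U (𝓝 a) :=
  ((isCompact_Icc (a := -C) (b := C)).ultrafilter_le_nhds' (U.map s)
    (h.mono fun _ hI => abs_le.1 hI)).imp fun _ ha => ha.2

lemma ulim_fun (U : Ultrafilter ℕ) {z : ℕ → V (N + 1) → ℝ} {C : ℝ}
    (hz : ∀ᶠ I in U, Adm (z I) ∧ BM C (z I)) (he : ∀ ε : ℝ, 0 < ε → ∃ δ : ℝ, 0 < δ ∧
      ∀ᶠ I in U, ∀ u v, ‖u‖ = 1 → ‖v‖ = 1 → ‖u - v‖ < δ → |z I u - z I v| ≤ ε) :
    ∃ a, Adm a ∧ BM C a ∧ ContinuousOn a {0}ᶜ ∧ UL U z a := by
  choose! b hb using fun (u : V (N + 1)) (hu : ‖u‖ = 1) => ulim U (hz.mono fun I h => h.2.bdd u hu)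
  have e : ∀ ε δ : ℝ, (∀ᶠ I in U, ∀ u v, ‖u‖ = 1 → ‖v‖ = 1 → ‖u - v‖ < δ → |z I u - z I v| ≤ ε) →
      ∀ u v, ‖u‖ = 1 → ‖v‖ = 1 → ‖u - v‖ < δ → |b u - b v| ≤ ε := fun ε δ h u v hu hv huv =>
    le_of_tendsto ((hb u hu).sub (hb v hv)).abs (h.mono fun I hI => hI u v hu hv huv)
  have c1 : ContinuousOn b (sphere 0 1) := Metric.continuousOn_iff.2 fun v hv ε hε => by
    obtain ⟨δ, δ0, hδ⟩ := he (ε / 2) (half_pos hε)
    exact ⟨δ, δ0, fun u hu huv => (e _ _ hδ u v (mem_sphere_zero_iff_norm.1 hu)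
      (mem_sphere_zero_iff_norm.1 hv) (by rwa [← dist_eq_norm])).trans_lt (half_lt_self hε)⟩
  have c2 : ContinuousOn (fun x : V (N + 1) => ‖x‖⁻¹ * b (nrm x)) {0}ᶜ :=
    (continuousOn_id.norm.inv₀ fun _ hx => norm_ne_zero_iff.2 hx).mul
      (c1.comp continuousOn_nrm fun x hx => mem_sphere_zero_iff_norm.2 (norm_nrm hx))
  have m := measurable_of_continuousOn_compl_singleton 0 c2
  have bd : ∀ u, ‖u‖ = 1 → |b u| ≤ C := fun u hu =>
    le_of_tendsto (hb u hu).abs (hz.mono fun I h => h.2.bdd u hu)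
  refine ⟨_, ⟨m, fun x => ?_, fun t ht x => ?_, C, fun u hu => ?_⟩, ⟨m, fun u hu => ?_⟩, c2,
    fun ε hε => ?_⟩
  · rcases eq_or_ne x 0 with rfl | hx
    · simp
    · exact mul_nonneg (by positivity) (ge_of_tendsto (hb _ (norm_nrm hx))
        (hz.mono fun I h => h.1.nn _))
  · rw [nrm_smul ht, norm_smul, Real.norm_of_nonneg ht.le, mul_inv, mul_assoc]
  · simpa [hu, nrm_unit hu] using (le_abs_self _).trans (bd u hu)
  · simpa [hu, nrm_unit hu] using bd u hu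
  · obtain ⟨δ, δ0, hδ⟩ := he (ε / 3) (by positivity)
    obtain ⟨P, Pf, hP, hc⟩ := exists_net (N + 1) δ0
    filter_upwards [hδ, (eventually_all_finite Pf).2 fun p hp =>
      Metric.tendsto_nhds.1 (hb p (hP p hp)) (ε / 3) (by positivity)] with I h1 h2 u hu
    obtain ⟨p, hp, hup⟩ := hc u hu
    simp only [hu, nrm_unit hu, inv_one, one_mul]
    linarith [abs_tri (z I u) (b u) (z I p) (b p), h1 u p hu (hP p hp) hup,
      e _ _ hδ u p hu (hP p hp) hup, (Real.dist_eq _ _).ge.trans (h2 p hp).le]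

lemma exact_orbit {a : ℕ → V (q + 3) → ℝ} {c : ℕ → ℝ} (hc : ∀ j, 0 < c j)
    (h : ∀ j, a j = fun x => c j * T (T (a (j + 1))) x) : ∃ f : ℕ → V (q + 3) → ℝ,
      (∀ m, T (f (m + 1)) = f m) ∧ ∀ m, ∃ t : ℝ, 0 < t ∧ ∃ j,
        (f m = fun x => t * a j x) ∨ f m = fun x => t * T (a j) x := by
  set s : ℕ → ℝ := fun j => Nat.rec 1
    (fun j s => (s * c j) ^ ((((q + 2) * (q + 2) : ℕ) : ℝ)⁻¹)) j with hs
  have s0 : ∀ j, 0 < s j := fun j => by
    induction j with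
    | zero => exact one_pos
    | succ j ih => exact Real.rpow_pos_of_pos (mul_pos ih (hc j)) _
  have s1 : ∀ j, (s (j + 1) ^ (q + 2)) ^ (q + 2) = s j * c j := fun j => by
    rw [← pow_mul]
    exact Real.rpow_inv_natCast_pow (mul_pos (s0 j) (hc j)).le (by positivity)
  refine ⟨fun m => if Even m then fun x => s (m / 2) * a (m / 2) x else
    T fun x => s (m / 2 + 1) * a (m / 2 + 1) x, fun m => ?_, fun m => ?_⟩
  · beta_reduce
    rcases Nat.even_or_odd' m with ⟨j, rfl | rfl⟩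
    · rw [if_neg (by simp), if_pos (by simp), show (2 * j + 1) / 2 = j by omega,
        show 2 * j / 2 = j by omega, T_smul', T_smul', s1]
      funext x
      rw [h j, mul_assoc]
    · rw [if_pos ⟨j + 1, by omega⟩, if_neg (by simp), show (2 * j + 1 + 1) / 2 = j + 1 by omega,
        show (2 * j + 1) / 2 = j by omega]
  · by_cases e : Even m
    · exact ⟨_, s0 _, _, Or.inl (if_pos e)⟩
    · exact ⟨_, pow_pos (s0 (m / 2 + 1)) (q + 2), m / 2 + 1, Or.inr ((if_neg e).trans (T_smul' _ _))⟩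

theorem lim_orbit {v lo hi Λ : ℝ} (hv : 0 < v) (C : ℕ → ℝ) (y : ℕ → ℕ → V (q + 3) → ℝ)
    (h : ∀ j, ∀ᶠ I in atTop, Adm (y I j) ∧ BM (C j) (y I j) ∧ Nn (y I j) = v ∧ lo ≤ Phi (y I j) ∧
      Phi (T (y I j)) ≤ hi ∧ ∃ c, 0 ≤ c ∧ c ≤ Λ ∧ y I j = fun x => c * S (y I (j + 1)) x) :
    ∃ f : ℕ → V (q + 3) → ℝ, ∀ m, Adm (f m) ∧ ContinuousOn (f m) {0}ᶜ ∧
      (∀ u, ‖u‖ = 1 → 0 < f m u) ∧ T (f (m + 1)) = f m ∧ lo ≤ Phi (f m) ∧ Phi (f m) ≤ hi := by
  replace h := fun j => Nat.hyperfilter_le_atTop (h j)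
  set U := hyperfilter ℕ
  have l0 := lam0_pos q
  have h1 : ∀ j, ∃ a, Adm a ∧ BM (C j) a ∧ ContinuousOn a {0}ᶜ ∧ UL U (fun I => y I j) a :=
    fun j => ulim_fun U (mem_of_superset (h j) fun I hI => ⟨hI.1, hI.2.1⟩) fun ε hε => by
      obtain ⟨δ, δ0, hδ⟩ := equi q (max (C (j + 1)) (C (j + 2) ^ (q + 2) * om (q + 2)))
        (|Λ| * lam0 q) (show 0 < ε / (|Λ| * lam0 q + 1) by positivity)
      refine ⟨δ, δ0, ?_⟩
      filter_upwards [h j, h (j + 1), h (j + 2)] with I ⟨_, _, _, _, _, c, c0, c1, e⟩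
        ⟨A1, B1, _, _, _, d, d0, d1, e'⟩ ⟨A2, B2, _⟩ u w hu hw huw
      have := hδ _ _ (d * lam0 q) A1 A2.T (B1.mono (le_max_left _ _)) (B2.T.mono (le_max_right _ _))
        (by rw [abs_of_nonneg (by positivity)]; gcongr; exact d1.trans (le_abs_self _))
        (fun u _ => by rw [e', mul_assoc]; rfl) u w hu hw huw
      rw [e]
      simp only [S]
      rw [← mul_sub, ← mul_sub, ← mul_assoc, abs_mul, abs_of_nonneg (by positivity)]
      refine (mul_le_mul (show c * lam0 q ≤ |Λ| * lam0 q + 1 by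
        nlinarith [le_abs_self Λ]) this (abs_nonneg _) (by positivity)).trans_eq ?_
      field_simp
  choose a A B ct ul using h1
  have b : ∀ j, ∀ᶠ I in U, BM (C j) (y I j) := fun j => mem_of_superset (h j) fun I hI => hI.2.1
  have u1 := fun j => (ul j).T (b j) (B j)
  have b1 := fun j => (b j).mono fun I hI => hI.T
  have u2 := fun j => (u1 j).T (b1 j) (B j).T
  have n0 : ∀ j, Nn (a j) = v := fun j => tendsto_nhds_unique ((ul j).Nn (b j) (B j))
    (tendsto_const_nhds.congr' (mem_of_superset (h j) fun I hI => hI.2.2.1.symm))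
  have p2 : ∀ j u, ‖u‖ = 1 → 0 < T (T (a j)) u := fun j u hu =>
    TT_pos (A j) (ct j) (by rw [n0]; exact hv.ne') hu
  have n1 : ∀ j, Nn (T (a j)) ≠ 0 := fun j e => by
    obtain ⟨K, -, hK⟩ := bus (q + 1)
    have h1 := hK _ (A j).T
    rw [e, zero_pow (by omega), mul_zero] at h1
    have h2 := (integral_eq_zero_iff_of_nonneg (fun x => pow_nonneg ((A j).T.T.nn x) _)
      ((A j).T.T.int_pow _)).1 (le_antisymm h1 (A j).T.T.Nn_nonneg)
    have : NeZero (mu (q + 3)) := ⟨fun e => by simpa [e, (om_pos _).not_ge] using mu_univ (q + 3)⟩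
    obtain ⟨u, h3, hu⟩ := (h2.and mu_sphere).exists
    exact (pow_pos (p2 j u hu) _).ne' h3
  have h2 : ∀ j, ∃ c, 0 < c ∧ a j = fun x => c * T (T (a (j + 1))) x := fun j => by
    have h3 : ∀ᶠ I in U, ∃ c, 0 ≤ c ∧ c ≤ Λ ∧ y I j = fun x => c * S (y I (j + 1)) x :=
      mem_of_superset (h j) fun I hI => hI.2.2.2.2.2
    obtain ⟨c, hc⟩ := h3.choice
    obtain ⟨d, hd⟩ := ulim U (s := c) (C := Λ) (hc.mono fun I hI => by
      rw [abs_of_nonneg hI.1]; exact hI.2.1)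
    have d0 : 0 ≤ d := ge_of_tendsto hd (hc.mono fun I hI => hI.1)
    have e : a j = fun x => d * lam0 q * T (T (a (j + 1))) x :=
      (A j).ext ((A _).T.T.smul (by positivity)) fun u hu => tendsto_nhds_unique ((ul j).pt hu)
        (((hd.mul_const _).mul ((u2 _).pt hu)).congr' (hc.mono fun I hI => by
          simp only [hI.2.2, S, mul_assoc]))
    refine ⟨d * lam0 q, mul_pos (d0.lt_of_ne ?_) l0, e⟩
    rintro rfl
    have := n0 j
    rw [e, Nn_smul, zero_mul, zero_pow (by omega), zero_mul] at this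
    exact hv.ne this
  choose c c0 hc using h2
  have q1 : ∀ j, lo ≤ Phi (a j) := fun j => ge_of_tendsto (((u1 j).Nn (b1 j) (B j).T).div
    (((ul j).Nn (b j) (B j)).pow (q + 2)) (by rw [n0]; positivity))
    (mem_of_superset (h j) fun I hI => hI.2.2.2.1)
  have q2 : ∀ j, Phi (T (a j)) ≤ hi := fun j => le_of_tendsto (((u2 j).Nn
    ((b1 j).mono fun I hI => hI.T) (B j).T.T).div (((u1 j).Nn (b1 j) (B j).T).pow (q + 2))
      (pow_ne_zero _ (n1 j))) (mem_of_superset (h j) fun I hI => hI.2.2.2.2.1)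
  have p0 : ∀ j u, ‖u‖ = 1 → 0 < a j u := fun j u hu => by
    rw [hc j]; exact mul_pos (c0 j) (p2 _ u hu)
  obtain ⟨f, f1, f2⟩ := exact_orbit c0 hc
  refine ⟨f, fun m => ?_⟩
  obtain ⟨t, t0, j, e | e⟩ := f2 m
  · exact ⟨e ▸ (A j).smul t0.le, e ▸ continuousOn_const.mul (ct j),
      fun u hu => by rw [e]; exact mul_pos t0 (p0 j u hu), f1 m, by rw [e, Phi_smul t0]; exact q1 j,
      by rw [e, Phi_smul t0]; exact (Phi_mono (A j)).trans (q2 j)⟩
  · refine ⟨e ▸ (A j).T.smul t0.le, e ▸ continuousOn_const.mul (contOn_T (A j) (ct j)),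
      fun u hu => ?_, f1 m, by rw [e, Phi_smul t0]; exact (q1 j).trans (Phi_mono (A j)),
      by rw [e, Phi_smul t0]; exact q2 j⟩
    rw [e]
    refine mul_pos t0 (((A j).T.nn u).lt_of_ne fun e2 => ?_)
    obtain ⟨w, hw, h3, -⟩ := exists_perp₂ u u
    exact (p0 j w hw).ne' (eq_zero_of_T (A j) (ct j) hu hw h3 e2.symm)

end Pool.Agent.Lib.MP_242fd5_gt.Ty
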