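import Pool.Agent.Lib.MP_242fd5_gt.Ty.S7d
import Pool.Agent.Lib.MP_242fd5_gt.Ty.L1Lim

set_option autoImplicit false

open MeasureTheory ProbabilityTheory Set Metric Filter Topology Real
open scoped ENNReal NNReal RealInnerProductSpace

namespace Pool.Agent.Lib.MP_242fd5_gt.Ty

variable {n N q : ℕ}

lemma exists_chain {α : Type} (P : ℕ → α → Prop) (Rl : ℕ → α → α → Prop) {x0 : α} (h0 : P 0 x0)
    (step : ∀ s x, P s x → ∃ y, P (s + 1) y ∧ Rl s x y) :
    ∃ h : ℕ → α, h 0 = x0 ∧ ∀ s, P s (h s) ∧ Rl s (h s) (h (s + 1)) := by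
  choose F hF using step
  let H : ∀ s, {x // P s x} := fun s =>
    Nat.rec ⟨x0, h0⟩ (fun s x => ⟨F s x.1 x.2, (hF s x.1 x.2).1⟩) s
  exact ⟨fun s => (H s).1, rfl, fun s => ⟨(H s).2, (hF s (H s).1 (H s).2).2⟩⟩

/-- forward iterates -/
noncomputable def itr (f : V (q + 3) → ℝ) : ℕ → V (q + 3) → ℝ
  | 0 => f
  | s + 1 => T (itr f s)

lemma adm_itr {f : V (q + 3) → ℝ} (F : Adm f) : ∀ s, Adm (itr f s)
  | 0 => F
  | s + 1 => (adm_itr F s).T

lemma mono_itr {f : V (q + 3) → ℝ} (F : Adm f) : Monotone fun s => Phi (itr f s) :=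
  monotone_nat_of_le_succ fun s => Phi_mono (adm_itr F s)

lemma le_itr {f : V (q + 3) → ℝ} (F : Adm f) (s : ℕ) : Phi f ≤ Phi (itr f s) := by
  have := mono_itr F (Nat.zero_le s)
  simp only [itr] at this
  exact this

lemma itr_le {f h : V (q + 3) → ℝ} (F : Adm f) (H : Adm h) {c : ℝ} (hc : 0 ≤ c)
    (e : ∀ u, f u ≤ c * h u) : ∀ s u, itr f s u ≤ c ^ (q + 2) ^ s * itr h s u
  | 0, u => by simpa [itr] using e u
  | s + 1, u => by
    have := T_mono (adm_itr F s) ((adm_itr H s).smul (pow_nonneg hc _))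
      (fun v _ => itr_le F H hc e s v) u
    rwa [T_smul, ← pow_mul, ← pow_succ] at this

lemma cont_of_exp {φ : ℝ → ℝ} (m : ℕ) (h : ∀ a b, φ a ≤ exp |a - b| ^ m * φ b) : Continuous φ := by
  refine continuous_iff_continuousAt.2 fun b => ?_
  have c1 : Continuous fun a : ℝ => (exp |b - a| ^ m)⁻¹ * φ b :=
    (Continuous.inv₀ (by fun_prop) fun a => by positivity).mul continuous_const
  have c2 : Continuous fun a : ℝ => exp |a - b| ^ m * φ b := by fun_prop
  refine tendsto_of_tendsto_of_tendsto_of_le_of_le (by simpa using c1.tendsto b)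
    (by simpa using c2.tendsto b) (fun a => ?_) fun a => h a b
  exact (inv_mul_le_iff₀ (by positivity)).2 (h b a)

lemma cont_Nn_itr (k s : ℕ) : Continuous fun a => Nn (itr (fA k (EA (q + 1) a)) s) := by
  refine cont_of_exp ((q + 2) ^ s * (q + 3)) fun a b => ?_
  rw [pow_mul, ← Nn_smul]
  refine Nn_mono (adm_itr (adm_fA _ _) s) ((adm_itr (adm_fA _ _) s).smul (by positivity))
    fun u _ => itr_le (adm_fA _ _) (adm_fA _ _) (exp_pos _).le (fun u => ?_) s u
  exact (cmp_EA a b).symm.fA_le (exp_pos _).le k u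

lemma cont_Phi_itr {k : ℕ} (hk : 2 ≤ k) (s : ℕ) :
    Continuous fun a => Phi (itr (fA k (EA (q + 1) a)) s) := by
  refine (cont_Nn_itr k (s + 1)).div ((cont_Nn_itr k s).pow _) fun a => (pow_pos ?_ _).ne'
  exact Nn_pos_of_Phi (adm_itr (adm_fA _ _) s) ((lev_pos' (by omega)).trans
    ((lev_lt_fA hk _).trans_le (le_itr (adm_fA _ _) s)))

lemma forward {k : ℕ} (hk : 2 ≤ k) {f : V (q + 3) → ℝ} (F : Adm f) (h : lev (q + 2) k < Phi f)
    {c : ℝ} (hc : c < lev (q + 2) (k - 1)) : ∀ᶠ s in atTop, c < Phi (itr f s) := by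
  have hb : BddAbove (range fun s => Phi (itr f s)) :=
    ⟨PhiB (q + 2), by rintro _ ⟨s, rfl⟩; exact sharp (adm_itr F s)⟩
  have h1 := tendsto_atTop_ciSup (mono_itr F) hb
  have h2 : lev (q + 2) k < ⨆ s, Phi (itr f s) := h.trans_le (le_ciSup hb 0)
  obtain ⟨j, hj, e⟩ := quant_seq (adm_itr F) ((lev_pos' (by omega)).trans h2) h1
    ((tendsto_add_atTop_iff_nat 1).2 h1)
  refine h1.eventually (lt_mem_nhds (hc.trans_le ?_))
  rw [e] at h2 ⊢
  refine lev_anti hj ?_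
  by_contra hh
  exact absurd (lev_anti (N := q + 2) (by omega : 0 < k) (by omega : k ≤ j)) (not_le.2 h2)

lemma Nn_S_ge {k : ℕ} (hk : 0 < k) {x : V (q + 3) → ℝ} (X : Adm x) (hN : Nn x = k * om (q + 3))
    (h : lev (q + 2) k ≤ Phi x) : k * om (q + 3) ≤ Nn (S x) := by
  have hk0 : (0:ℝ) < k := by exact_mod_cast hk
  have ho := om_pos (q + 3)
  have ho' := om_pos (q + 2)
  have hl := lev_pos' (N := q + 2) hk
  have hl0 := lam0_pos q
  have h2 := h.trans (Phi_mono X)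
  have e1 : lam0 q * lev (q + 2) k * (k * om (q + 3)) ^ (q + 1) = 1 := by
    rw [lam0, lev, PhiB, show q + 2 - 1 = q + 1 from rfl, mul_pow]
    field_simp
  have e2 : Nn (S x) = lam0 q ^ (q + 3) * (Phi (T x) * (Phi x * Nn x ^ (q + 2)) ^ (q + 2)) := by
    rw [← Nn_T_eq (by rw [hN]; positivity), ← Nn_T_eq (Nn_pos_of_Phi X.T (hl.trans_le h2))]
    exact Nn_smul _ _
  rw [e2, hN]
  calc k * om (q + 3) = (lam0 q * lev (q + 2) k * (k * om (q + 3)) ^ (q + 1)) ^ (q + 3) *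
        (k * om (q + 3)) := by rw [e1, one_pow, one_mul]
    _ = lam0 q ^ (q + 3) * (lev (q + 2) k *
        (lev (q + 2) k * (k * om (q + 3)) ^ (q + 2)) ^ (q + 2)) := by
        generalize (k:ℝ) * om (q + 3) = v
        ring
    _ ≤ _ := by have := Phi_nonneg X.T; gcongr

/-- a normalised even iterate -/
structure Nrm (k : ℕ) (f : V (q + 3) → ℝ) (s : ℕ) (x : V (q + 3) → ℝ) : Prop where
  adm : Adm x
  cont : ContinuousOn x {0}ᶜ
  inv : QInv k x
  mass : Nn x = k * om (q + 3)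
  eq : ∃ t : ℝ, 0 < t ∧ x = fun u => t * itr f (2 * s) u

lemma Nrm.phi {k s : ℕ} {f x : V (q + 3) → ℝ} (H : Nrm k f s x) : Phi x = Phi (itr f (2 * s)) := by
  obtain ⟨t, ht, e⟩ := H.eq
  rw [e, Phi_smul ht]

lemma Nrm.phiT {k s : ℕ} {f x : V (q + 3) → ℝ} (H : Nrm k f s x) :
    Phi (T x) = Phi (itr f (2 * s + 1)) := by
  obtain ⟨t, ht, e⟩ := H.eq
  rw [e, T_smul', Phi_smul (pow_pos ht _)]
  rfl

lemma norm_orbit {k : ℕ} (hk : 2 ≤ k) (a : ℝ) : ∃ X : ℕ → V (q + 3) → ℝ,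
    X 0 = fA k (EA (q + 1) a) ∧ ∀ s, Nrm k (fA k (EA (q + 1) a)) s (X s) ∧
      ∃ c : ℝ, 0 ≤ c ∧ c ≤ 1 ∧ X (s + 1) = fun u => c * S (X s) u := by
  have hk0 : (0:ℝ) < k := by exact_mod_cast (by omega : 0 < k)
  have hv := mul_pos hk0 (om_pos (q + 3))
  refine exists_chain (Nrm k (fA k (EA (q + 1) a)))
    (fun _ x y => ∃ c : ℝ, 0 ≤ c ∧ c ≤ 1 ∧ y = fun u => c * S x u)
    ⟨adm_fA _ _, contOn_fA _ _, qinv_fA (by omega) (EA_pi a), by rw [Nn_fA, jac_EA, one_mul],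
      1, one_pos, funext fun u => by simp [itr]⟩ fun s x H => ?_
  have h1 := Nn_S_ge (by omega) H.adm H.mass (by
    rw [H.phi]; exact (lev_lt_fA hk _).le.trans (le_itr (adm_fA _ _) _))
  obtain ⟨c, hc, e⟩ := exists_scale (hv.trans_le h1) hv
  refine ⟨_, ⟨H.adm.S.smul hc.le, continuousOn_const.mul (continuousOn_const.mul
    (contOn_T H.adm.T (contOn_T H.adm H.cont))), (((H.inv.T H.adm).T H.adm.T).smul _).smul _,
    e, ?_⟩, c, hc.le, ?_, rfl⟩
  · obtain ⟨t, ht, e⟩ := H.eq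
    have := lam0_pos q
    refine ⟨c * (lam0 q * (t ^ (q + 2)) ^ (q + 2)), by positivity, funext fun u => ?_⟩
    rw [e, S, T_smul', T_smul, show 2 * (s + 1) = 2 * s + 1 + 1 from rfl, itr, itr]
    ring
  · rw [Nn_smul] at e
    by_contra h
    have h2 : 1 < c ^ (q + 2 + 1) := one_lt_pow₀ (not_le.1 h) (by omega)
    nlinarith

lemma dust_fA {A : ℝ} (hA : 1 ≤ A) (k : ℕ) (g : V (N + 2) ≃L[ℝ] V (N + 2)) :
    dust A k g (fA k g) = 0 := by
  have : (fun x => if A * sm k g x < fA k g x then fA k g x else 0) = fun _ => 0 :=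
    funext fun x => if_neg (not_lt.2 ((fA_le_sm k g x).trans
      (le_mul_of_one_le_left ((adm_sm k g).nn x) hA)))
  rw [dust, this]
  simp [Nn]

lemma Phi_comp {f : V (N + 2) → ℝ} (F : Adm f) {g : V (N + 2) ≃L[ℝ] V (N + 2)} (hg : jac g = 1) :
    Phi (fun x => f (g x)) = Phi f := by
  have e : T (fun x => f (g x)) = fun x => T f (dual g x) :=
    funext fun x => by rw [T_comp F, hg, inv_one, one_mul]
  rw [Phi, Phi, e, Nn_comp F.T, Nn_comp F, jac_dual, hg]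
  simp

lemma Phi_T_comp {f : V (N + 2) → ℝ} (F : Adm f) {g : V (N + 2) ≃L[ℝ] V (N + 2)}
    (hg : jac g = 1) : Phi (T fun x => f (g x)) = Phi (T f) := by
  have e : T (fun x => f (g x)) = fun x => T f (dual g x) :=
    funext fun x => by rw [T_comp F, hg, inv_one, one_mul]
  rw [e, Phi_comp F.T (by rw [jac_dual, hg, inv_one])]

lemma cmp_chain {C : ℝ} (hC : 0 ≤ C) {g : ℕ → V n ≃L[ℝ] V n} {R : ℕ}
    (h : ∀ s, s < R → Cmp C (g s) (g (s + 1))) (s : ℕ) :
    ∀ r, s + r ≤ R → Cmp (C ^ r) (g s) (g (s + r))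
  | 0, _ => Cmp.refl (by simp) _
  | r + 1, hr => by
    rw [pow_succ]
    exact (cmp_chain hC h s r (by omega)).trans (pow_nonneg hC _) hC (h (s + r) (by omega))

/-- every finite type `k ≥ 2` occurs -/
theorem exists_orbit (q : ℕ) {k : ℕ} (hk : 2 ≤ k) : ∃ (f : ℕ → V (q + 3) → ℝ) (c : ℝ),
    c < lev (q + 2) (k - 1) ∧ ∀ m, Adm (f m) ∧ ContinuousOn (f m) {0}ᶜ ∧
      (∀ u, ‖u‖ = 1 → 0 < f m u) ∧ T (f (m + 1)) = f m ∧ lev (q + 2) k ≤ Phi (f m) ∧
        Phi (f m) ≤ c := by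
  have hk' : 0 < k := by omega
  have hk1 : (1:ℝ) ≤ k := by exact_mod_cast hk'
  have ho := om_pos (q + 3)
  obtain ⟨C, hC1, ε0, hε0, trk⟩ := track (q + 1) hk'
  have hC0 : 0 ≤ C := by linarith
  obtain ⟨y1, hy1, A, hA, iter⟩ := dust_iter q k hC0 (by positivity : 0 ≤ 2 * C)
  obtain ⟨y, hy, dg⟩ := dg_fin q (k * om (q + 3)) (lam0 q)
  obtain ⟨ε, hε, hεa, hεb, hεc⟩ : ∃ ε : ℝ, 0 < ε ∧ 2 * ε ≤ ε0 ∧ 8 * ε ≤ y1 ∧ 8 * ε ≤ y :=
    ⟨min (ε0 / 2) (min (y1 / 8) (y / 8)), by positivity,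
      by linarith [min_le_left (ε0 / 2) (min (y1 / 8) (y / 8))],
      by linarith [min_le_right (ε0 / 2) (min (y1 / 8) (y / 8)), min_le_left (y1 / 8) (y / 8)],
      by linarith [min_le_right (ε0 / 2) (min (y1 / 8) (y / 8)), min_le_right (y1 / 8) (y / 8)]⟩
  obtain ⟨η0, hη0, str⟩ := usk q hk' hε
  have hgap := lev_lt (q := q) (by omega : 0 < k - 1) (by omega : k - 1 < k)
  obtain ⟨η, hη, hηa, hηb⟩ : ∃ η : ℝ, 0 < η ∧ η < η0 ∧ lev (q + 2) k + η < lev (q + 2) (k - 1) := by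
    refine ⟨min (η0 / 2) ((lev (q + 2) (k - 1) - lev (q + 2) k) / 2),
      lt_min (by linarith) (by linarith), ?_, ?_⟩
    · linarith [min_le_left (η0 / 2) ((lev (q + 2) (k - 1) - lev (q + 2) k) / 2)]
    · linarith [min_le_right (η0 / 2) ((lev (q + 2) (k - 1) - lev (q + 2) k) / 2)]
  obtain ⟨d, hd, dc⟩ := dec q hk' (half_pos hη)
  obtain ⟨r0, hr0⟩ : ∃ r0 : ℕ, 8 * ε / 2 ^ r0 ≤ d := by
    obtain ⟨r, hr⟩ := pow_unbounded_of_one_lt (8 * ε / d) one_lt_two
    refine ⟨r, ?_⟩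
    rw [div_le_iff₀ (by positivity), mul_comm d, ← div_le_iff₀ hd]
    exact hr.le
  obtain ⟨Cd, hCd, dcd⟩ := dc (A r0) (hA r0)
  obtain ⟨s0, hs0, hsin⟩ := exists_sin (k := k)
  obtain ⟨C', hC', hall⟩ : ∃ C' : ℝ, 1 ≤ C' ∧ ∀ g : V (q + 3) ≃L[ℝ] V (q + 3), ¬ NC Cd k g →
      ∀ u, sm k g u ≤ k * (C' * rho g u) := by
    refine ⟨1 + Cd / s0 + 2 * (Cd / s0) ^ 2, by
      rw [add_assoc]; exact le_add_of_nonneg_right (by positivity), fun g hg u => ?_⟩
    simp only [NC, not_forall, not_not] at hg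
    obtain ⟨i, h0, hi, H⟩ := hg
    have := Finset.sum_le_card_nsmul (Finset.range k) (fun l => rho (gi g (th k l)) u) _
      fun l _ => (cmp_all hCd H hs0 (hsin i h0 hi) (th k l)).rho_le u
    rwa [Finset.card_range, nsmul_eq_mul] at this
  obtain ⟨a0, ha0⟩ := nc_EA (q + 1) k (C ^ 3)
  obtain ⟨J0, hJ0⟩ := eventually_atTop.1 (forward hk (adm_fA k (EA (q + 1) a0))
    (lev_lt_fA hk _) hηb)
  have shoot : ∀ R, J0 ≤ R → ∃ a, a0 ≤ a ∧
      Phi (itr (fA k (EA (q + 1) a)) (2 * R)) = lev (q + 2) k + η := by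
    intro R hR
    obtain ⟨CR, -, dcR⟩ := dc (A R) (hA R)
    obtain ⟨a1, ha1⟩ := nc_EA (q + 1) k CR
    obtain ⟨X, hX0, hX⟩ := norm_orbit (q := q) hk (max a0 a1)
    have h1 := iter 0 X (fun _ => EA (q + 1) (max a0 a1)) 0 R hy1.le (fun j => (hX j).1.adm)
      (fun j => (hX j).2) (fun _ _ => ⟨jac_EA _, Cmp.refl hC1 _⟩)
      (by rw [hX0, dust_fA (by linarith)])
    rw [zero_add, zero_div] at h1
    have h2 := dcR _ _ (hX R).1.adm (hX R).1.mass (hX R).1.inv (jac_EA _)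
      (ha1 _ (le_max_right _ _)) (h1.trans hd.le)
    rw [(hX R).1.phi] at h2
    obtain ⟨a, ha, e⟩ := intermediate_value_Icc' (le_max_left a0 a1)
      (cont_Phi_itr (q := q) hk (2 * R)).continuousOn
      (⟨by linarith, (hJ0 _ (by omega)).le⟩ : lev (q + 2) k + η ∈ Icc _ _)
    exact ⟨a, ha.1, e⟩
  have hB : ∀ j : ℕ, 1 ≤ 2 * C * (k * C') * C ^ (j + 1) := fun j =>
    one_le_mul_of_one_le_of_one_le (one_le_mul_of_one_le_of_one_le (by linarith)
      (one_le_mul_of_one_le_of_one_le hk1 hC')) (one_le_pow₀ hC1)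
  choose Cj hCj using fun j => dg _ C (hB j) hC1
  have key : ∀ R, ∃ Y : ℕ → V (q + 3) → ℝ, J0 ≤ R → r0 ≤ R → ∀ j, j + 2 ≤ R →
      Adm (Y j) ∧ BM (Cj j) (Y j) ∧ Nn (Y j) = k * om (q + 3) ∧ lev (q + 2) k ≤ Phi (Y j) ∧
        Phi (T (Y j)) ≤ lev (q + 2) k + η ∧
          ∃ c, 0 ≤ c ∧ c ≤ 1 ∧ Y j = fun x => c * S (Y (j + 1)) x := by
    intro R
    by_cases hR : J0 ≤ R ∧ r0 ≤ R
    swap
    · exact ⟨fun _ _ => 0, fun h1 h2 => absurd ⟨h1, h2⟩ hR⟩
    obtain ⟨a, ha, hc⟩ := shoot R hR.1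
    obtain ⟨X, hX0, hX⟩ := norm_orbit (q := q) hk a
    have F := adm_fA k (EA (q + 1) a)
    have XA : ∀ s, Adm (X s) := fun s => (hX s).1.adm
    have lo : ∀ s, lev (q + 2) k ≤ Phi (X s) := fun s => by
      rw [(hX s).1.phi]; exact (lev_lt_fA hk _).le.trans (le_itr F _)
    have hi : ∀ s, s < R → Phi (T (X s)) ≤ lev (q + 2) k + η := fun s hs => by
      rw [(hX s).1.phiT, ← hc]; exact mono_itr F (by omega)
    obtain ⟨g, hg0, hg⟩ := exists_chain
      (fun s h => s ≤ R → Trk C k (X s) h ∧ dust (2 * C) k h (X s) ≤ 8 * ε)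
      (fun s h h' => s < R → Cmp C h h') (x0 := EA (q + 1) a) (fun _ => by
        rw [hX0, dust_fA (by linarith)]
        refine ⟨⟨jac_EA a, ha0 a ha, ?_⟩, by positivity⟩
        have e : ins (fA k (EA (q + 1) a)) (EA (q + 1) a) = Nn (rho (EA (q + 1) a)) := by
          unfold ins
          congr 1
          refine funext fun u => min_eq_right ?_
          have := le_fA hk' (EA (q + 1) a) u
          rwa [rho_gi, show th k 0 = 0 by simp [th], rot_zero] at this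
        rw [e, Nn_rho, jac_EA]
        linarith) fun s h H => by
      by_cases hs : s < R
      swap
      · exact ⟨h, fun h1 => absurd h1 hs, fun h1 => absurd h1 hs⟩
      have l1 := lo s
      have l2 := Phi_mono (XA s)
      have l3 := hi s hs
      obtain ⟨e1, e2, G, hG, e3⟩ := str (X s) (XA s) (hX s).1.mass
        (abs_lt.2 ⟨by linarith, by linarith⟩) (abs_lt.2 ⟨by linarith, by linarith⟩)
      have e4 : dV (X s) (X (s + 1)) ≤ 2 * ε := by
        obtain ⟨c, -, -, e⟩ := (hX s).2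
        have h1 := dV_smul_self c (XA s).S
        rw [← e, (hX (s + 1)).1.mass, abs_sub_comm] at h1
        have h2 := dV_tri (XA s) (XA s).S (XA (s + 1))
        rw [dV_comm (S (X s)), h1] at h2
        linarith
      obtain ⟨h', t1, t2, t3⟩ := trk (2 * ε) _ _ G h hεa (XA s) (XA (s + 1)) (hX s).1.inv
        (hX s).1.mass hG (by linarith) e4 (H hs.le).1
      exact ⟨h', fun _ => ⟨t1, by linarith⟩, fun _ => t2⟩
    have gj : ∀ s, s ≤ R → jac (g s) = 1 := fun s hs => ((hg s).1 hs).1.jac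
    have hnc : ¬ NC Cd k (g R) := fun H => by
      have h1 := iter (8 * ε) X g (R - r0) r0 hεb XA (fun j => (hX j).2)
        (fun j hj => ⟨gj j (by omega), (hg j).2 (by omega)⟩) ((hg _).1 (by omega)).2
      rw [Nat.sub_add_cancel hR.2] at h1
      have h2 := dcd _ _ (XA R) (hX R).1.mass (hX R).1.inv (gj R le_rfl) H (h1.trans hr0)
      rw [(hX R).1.phi, hc] at h2
      linarith
    have hsm : ∀ s, s ≤ R → ∀ u, sm k (g s) (g R u) ≤ k * C' * C ^ (R - s) * ‖u‖⁻¹ := by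
      intro s hs u
      have h1 := cmp_chain hC0 (fun s hs => (hg s).2 hs) s (R - s) (by omega)
      rw [Nat.add_sub_cancel' hs] at h1
      have h2 := hall _ hnc (g R u)
      rw [rho, ContinuousLinearEquiv.symm_apply_apply] at h2
      calc _ ≤ C ^ (R - s) * sm k (g R) (g R u) := h1.symm.sm_le k _
        _ ≤ C ^ (R - s) * (k * (C' * ‖u‖⁻¹)) := by gcongr
        _ = _ := by ring
    have W := gj R le_rfl
    have YA : ∀ s, Adm fun u => X s (g R u) := fun s => (XA s).comp _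
    have YN : ∀ s, Nn (fun u => X s (g R u)) = k * om (q + 3) := fun s => by
      rw [Nn_comp (XA s), W, inv_one, one_mul, (hX s).1.mass]
    have YS : ∀ s, ∃ c, 0 ≤ c ∧ c ≤ 1 ∧
        (fun u => X (s + 1) (g R u)) = fun x => c * S (fun u => X s (g R u)) x := fun s => by
      obtain ⟨c, c0, c1, e⟩ := (hX s).2
      exact ⟨c, c0, c1, funext fun x => by rw [S_comp (XA s) W, e]⟩
    refine ⟨fun j u => X (R - 1 - j) (g R u), fun _ _ j hj => ⟨YA _, ?_, YN _, ?_, ?_, ?_⟩⟩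
    · refine hCj j (R - 1 - j) (fun s u => X s (g R u)) YA (fun s => ?_) (fun s _ => (YN s).le)
        (fun s _ u _ => ?_) (fun u hu => ?_) fun s hs => ?_
      · exact (hX s).1.cont.comp (g R).continuous.continuousOn fun u hu => by simpa using hu
      · obtain ⟨c, c0, c1, e⟩ := YS s
        exact (congrFun e u).trans_le (mul_le_of_le_one_left ((YA s).S.nn u) c1)
      · have h1 := hsm 0 (Nat.zero_le _) u
        rw [hg0, hu, inv_one, mul_one, Nat.sub_zero] at h1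
        rw [hX0, mul_assoc, ← pow_add, show j + 1 + (R - 1 - j) = R by omega, mul_assoc]
        refine (fA_le_sm _ _ _).trans (h1.trans (le_mul_of_one_le_left (by positivity) ?_))
        linarith
      · have hs' : s ≤ R := by omega
        have hab := (XA s).above ((adm_sm k (g s)).smul (by positivity : 0 ≤ 2 * C))
        have h1 := Nn_comp hab (g R)
        rw [W, inv_one, one_mul] at h1
        refine le_trans ?_ ((h1.trans_le ((hg s).1 hs').2).trans hεc)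
        refine Nn_mono ((YA s).above (adm_inv_norm.smul (by positivity))) (hab.comp _)
          fun u _ => ?_
        have h2 := mul_le_mul_of_nonneg_left (hsm s hs' u) (by positivity : 0 ≤ 2 * C)
        have h3 : 2 * C * (k * C') * C ^ (j + 1) * C ^ (R - 1 - j - s) * ‖u‖⁻¹ =
            2 * C * (k * C' * C ^ (R - s) * ‖u‖⁻¹) := by
          rw [show R - s = j + 1 + (R - 1 - j - s) by omega, pow_add C (j + 1)]; ring
        rw [h3]
        split_ifs with e1 e2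
        · exact le_rfl
        · exact absurd (h2.trans_lt e1) e2
        · exact (XA s).nn _
        · exact le_rfl
    · rw [Phi_comp (XA _) W]; exact lo _
    · rw [Phi_T_comp (XA _) W]; exact hi _ (by omega)
    · have := YS (R - 1 - (j + 1))
      rwa [show R - 1 - (j + 1) + 1 = R - 1 - j by omega] at this
  choose Y hY using key
  obtain ⟨f, hf⟩ := lim_orbit (by positivity : 0 < k * om (q + 3)) Cj Y fun j => by
    filter_upwards [eventually_ge_atTop J0, eventually_ge_atTop r0, eventually_ge_atTop (j + 2)]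
      with R h1 h2 h3 using hY R h1 h2 j h3
  exact ⟨f, _, hηb, hf⟩

end Pool.Agent.Lib.MP_242fd5_gt.Ty
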