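import Pool.Agent.Lib.MP_242fd5_gt.Ty.S8a
import Pool.Agent.Lib.MP_242fd5_gt.ZBMain

set_option autoImplicit false

/-! A backward orbit of bodies of revolution along which the Busemann ratio tends to zero. -/

namespace Pool.Agent.Lib.MP_242fd5_gt.Z

open MeasureTheory Set Real Filter Topology Metric
open scoped ENNReal

variable {p : ℕ}

lemma lint_ex_abs {a : ℝ} (ha : 0 < a) : ∫⁻ t, ex (-(a * |t|)) ≠ ∞ := by
  have h1 : ∀ t, ex (-(a * |t|)) ≤ (Iic (0:ℝ)).indicator (fun t => ex (a * t)) t +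
      (Ioi (0:ℝ)).indicator (fun t => ex (-(a * t))) t := by
    intro t
    rcases le_or_gt t 0 with h | h
    · rw [indicator_of_mem (show t ∈ Iic (0:ℝ) from h), abs_of_nonpos h, mul_neg, neg_neg]
      exact le_self_add
    · rw [indicator_of_mem (show t ∈ Ioi (0:ℝ) from h), abs_of_pos h]
      exact le_add_self
  refine ne_top_of_le_ne_top ?_ (lintegral_mono h1)
  rw [lintegral_add_left (Measurable.indicator (by fun_prop) measurableSet_Iic),
    lintegral_indicator measurableSet_Iic, lintegral_indicator measurableSet_Ioi, lint_ex_Iic ha,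
    lint_ex_Ioi ha]
  exact ENNReal.add_ne_top.2 ⟨ENNReal.ofReal_ne_top, ENNReal.ofReal_ne_top⟩

lemma lint_K_theta (hp : 2 ≤ p) {θ : ℝ} (h : |θ| ≤ 3 / 4) : ∫⁻ w, K p w * ex (θ * w) ≠ ∞ := by
  have h0 : 0 < 1 + θ := by linarith [(abs_le.1 h).1]
  have h1 : ∀ w, K p w * ex (θ * w) ≤ 2 * ex (-((1 + θ) * |w|)) + k1 p w := by
    intro w
    rcases le_total w 0 with hw | hw
    · have e : ex w * ex (θ * w) = ex (-((1 + θ) * |w|)) := by
        rw [← ex_add, abs_of_nonpos hw]; congr 1; ring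
      have e2 : ex (-((1 + θ) * |w|)) ≤ 1 := ex_le_one (neg_nonpos.2 (by positivity))
      calc K p w * ex (θ * w) = kb p 1 w * ex (-((1 + θ) * |w|)) := by rw [K, ← e]; ring
        _ ≤ (2 + k1 p w) * ex (-((1 + θ) * |w|)) := by gcongr; exact kb_le p hp w
        _ ≤ _ := by rw [add_mul]; gcongr; exact mul_le_of_le_one_right' e2
    · rw [K_of_nonneg p hw, zero_mul]; exact zero_le
  refine ne_top_of_le_ne_top ?_ (lintegral_mono h1)
  rw [lintegral_add_right _ (measurable_k1 p), lintegral_const_mul _ (by fun_prop)]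
  exact ENNReal.add_ne_top.2 ⟨ENNReal.mul_ne_top (by simp) (lint_ex_abs h0), (lint_k1 p).ne⟩

lemma lint_K_ne_zero (p : ℕ) : ∫⁻ w, K p w ≠ 0 := by
  refine ne_of_gt ?_
  rw [lintegral_pos_iff_support (measurable_K p)]
  refine lt_of_lt_of_le ?_ (measure_mono (show Iio 0 ⊆ _ from fun t ht => (K_pos p ht).ne'))
  simp

lemma vol_body (q : ℕ) {w : ℝ → ℝ≥0∞} {α β : ℝ≥0∞} (h : Reg (q + 2) w α β) :
    volume (body (q + 2) (prof (q + 2) w)) = k0 (q + 1) * ENNReal.ofReal ((q + 3) / (q + 4)) *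
      N (q + 2) w := by
  obtain ⟨c1, c2, -⟩ := h.prof
  have hm := h.cont.measurable
  let ξ : V (q + 4) := EuclideanSpace.single 1 1
  have x1 : ‖ξ‖ = 1 := by simp [ξ]
  have x0 : ξ 0 = 0 := by simp [ξ]
  obtain ⟨e, he⟩ := exists_iso (q + 2) ξ x1
  have hL : MeasurableSet {x : (ℝ ∙ ξ)ᗮ | (x : V (q + 4)) ∈ body (q + 3) (prof (q + 2) w)} := by
    refine MeasurableSet.preimage (t := body (q + 3) (prof (q + 2) w)) ?_
      continuous_subtype_val.measurable
    rw [body_eq _ c2]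
    have := c1.measurable
    exact measurableSet_le (by fun_prop) (by fun_prop)
  have h1 : e ⁻¹' {x : (ℝ ∙ ξ)ᗮ | (x : V (q + 4)) ∈ body (q + 3) (prof (q + 2) w)} =
      body (q + 2) (prof (q + 2) w) := by
    ext y
    have hy : ‖(e y : V (q + 4))‖ = ‖y‖ := e.norm_map y
    rw [body_eq _ c2, body_eq _ c2]
    simp only [mem_preimage, mem_ofPred_eq, he, hy, x0]
    simp
  rw [← h1, e.measurePreserving.measure_preimage hL.nullMeasurableSet,
    section_body (q + 1) c1 c2 ξ x1, subst (q + 2) one_pos le_rfl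
      (f := fun t => (ex (-t) * w t) ^ (q + 3)) (by fun_prop) fun t y hy hy2 => ?_]
  · rw [k0, mul_assoc _ (ENNReal.ofReal _) (ENNReal.ofReal (_ / _)),
      ← ENNReal.ofReal_mul (by positivity), mul_assoc _ _ (N _ _)]
    congr 2
    · congr 1; push_cast; field_simp; ring
    · refine lintegral_congr fun t => ?_
      rw [zero_div, kb_zero, mul_one, mul_pow, ex_pow, ← mul_assoc, ← ex_add]
      rw [show (((q + 2 : ℕ) : ℝ) + 1) * t + ((q + 3 : ℕ) : ℝ) * -t = 0 by push_cast; ring,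
        ex_zero, one_mul]
  · have : y = 1 := by
      rw [zero_mul] at hy2
      exact (pow_left_inj₀ hy.le zero_le_one two_ne_zero).1 (by linarith)
    subst this
    rw [x0, div_one, div_one, one_pow, ENNReal.ofReal_one, one_mul,
      show (1 - (0:ℝ) ^ 2) = 1 by norm_num, one_mul, h.prof_exp,
      mul_div_cancel_right₀ _ (Real.sqrt_pos.2 (by positivity)).ne',
      ENNReal.ofReal_pow ENNReal.toReal_nonneg,
      ENNReal.ofReal_toReal (ENNReal.mul_ne_top (ex_ne_top _) (h.fin t))]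

theorem orbit_inf (q : ℕ) : ∃ (W : ℕ → ℝ → ℝ≥0∞) (A B : ℝ), 0 < A ∧ 0 < B ∧ ∀ m,
    Nice (q + 2) (W m) ∧ (W m = fun s => k0 q * T (q + 2) (W (m + 1)) s) ∧
      ENNReal.ofReal (A * m) ≤ N (q + 2) (W m) ∧ N (q + 2) (W m) ≤ ENNReal.ofReal (B * (m + 1)) := by
  have hp : 2 ≤ q + 2 := by omega
  set κ := ∫⁻ w, K (q + 2) w with hκ
  have κ0 : κ ≠ 0 := lint_K_ne_zero _
  have κ1 : κ ≠ ∞ := (lint_K _ hp).ne
  set ν : Measure ℝ := volume.withDensity fun w => κ⁻¹ * K (q + 2) w with hν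
  have hl : ∀ f : ℝ → ℝ≥0∞, Measurable f → ∫⁻ w, f w ∂ν = κ⁻¹ * ∫⁻ w, K (q + 2) w * f w := by
    intro f hf
    rw [hν, lintegral_withDensity_eq_lintegral_mul _ (by fun_prop) hf,
      ← lintegral_const_mul _ (by fun_prop)]
    exact lintegral_congr fun w => mul_assoc _ _ _
  have : IsProbabilityMeasure ν := ⟨by
    rw [← lintegral_one, hl _ measurable_const]
    simp only [mul_one]
    exact ENNReal.inv_mul_cancel κ0 κ1⟩
  obtain ⟨u, b, c, b0, c0, hu⟩ := S8.kpp (ν := ν) hp fun θ h => by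
    refine ⟨Measurable.aestronglyMeasurable (by fun_prop), ?_⟩
    rw [hasFiniteIntegral_iff_ofReal (Eventually.of_forall fun w => (exp_pos _).le),
      hl _ (by fun_prop)]
    exact (ENNReal.mul_ne_top (ENNReal.inv_ne_top.2 κ0) (lint_K_theta hp h)).lt_top
  have k1 := k0_ne_zero q
  have k2 := k0_ne_top q
  set γ : ℝ≥0∞ := (k0 q * κ)⁻¹ ^ (1 / ((q:ℝ) + 1)) with hγ
  have i0 : (k0 q * κ)⁻¹ ≠ 0 := ENNReal.inv_ne_zero.2 (ENNReal.mul_ne_top k2 κ1)
  have i1 : (k0 q * κ)⁻¹ ≠ ∞ := ENNReal.inv_ne_top.2 (mul_ne_zero k1 κ0)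
  have γ0 : γ ≠ 0 := (ENNReal.rpow_pos (pos_iff_ne_zero.2 i0) i1).ne'
  have γ1 : γ ≠ ∞ := ENNReal.rpow_ne_top_of_nonneg (by positivity) i1
  have γp : γ ^ (q + 1) * (k0 q * κ) = 1 := by
    rw [hγ, pow_eq_rpow, ← ENNReal.rpow_mul, Nat.cast_add_one, one_div_mul_cancel (by positivity),
      ENNReal.rpow_one, ENNReal.inv_mul_cancel (mul_ne_zero k1 κ0) (ENNReal.mul_ne_top k2 κ1)]
  have um : ∀ m, Measurable fun s => ENNReal.ofReal (u m s) := fun m => (hu m).1.1.ennreal_ofReal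
  have wm : ∀ m, Measurable fun s => γ * ENNReal.ofReal (u m s) := fun m => (um m).const_mul _
  have eq : ∀ m, (fun s => γ * ENNReal.ofReal (u m s)) =
      fun s => k0 q * T (q + 2) (fun s => γ * ENNReal.ofReal (u (m + 1) s)) s := by
    intro m
    funext s
    have h1 : ENNReal.ofReal (u m s) =
        κ⁻¹ * T (q + 2) (fun s => ENNReal.ofReal (u (m + 1) s)) s := by
      rw [(hu m).2.1, S8.Sr, ofReal_integral_eq_lintegral_ofReal ((hu _).1.int s)
        (Eventually.of_forall fun w => pow_nonneg ((hu _).1.2 _).1 _), T_alt, ← hl _ (by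
          have := (hu (m + 1)).1.1; fun_prop)]
      exact lintegral_congr fun w => ENNReal.ofReal_pow ((hu _).1.2 _).1 _
    rw [T_smul (um _), h1]
    calc _ = γ ^ (q + 1) * (k0 q * κ) * (γ * (κ⁻¹ * T (q + 2)
          (fun s => ENNReal.ofReal (u (m + 1) s)) s)) := by rw [γp, one_mul]
      _ = κ * κ⁻¹ * (k0 q * (γ ^ (q + 2) * T (q + 2)
          (fun s => ENNReal.ofReal (u (m + 1) s)) s)) := by ring
      _ = _ := by rw [ENNReal.mul_inv_cancel κ0 κ1, one_mul]
  have u1 : ∀ m s, ENNReal.ofReal (u m s) ≤ 1 := fun m s =>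
    ENNReal.ofReal_le_one.2 ((hu m).1.2 s).2
  have u2 : ∀ m s, ENNReal.ofReal (u m s) ≤ ex (b * (m + 1) - 3 / 4 * |s|) := fun m s =>
    ENNReal.ofReal_le_ofReal ((hu m).2.2.1 s)
  have lo : ∀ m : ℕ, ENNReal.ofReal ((γ.toReal / 2) ^ (q + 3) * (2 * c) * m) ≤
      N (q + 2) fun s => γ * ENNReal.ofReal (u m s) := by
    intro m
    calc _ = ∫⁻ s, (Icc (-(c * m)) (c * m)).indicator
          (fun _ => ENNReal.ofReal ((γ.toReal / 2) ^ (q + 3))) s := by
          rw [lintegral_indicator_const measurableSet_Icc, Real.volume_Icc,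
            ← ENNReal.ofReal_mul (by positivity)]
          congr 1; ring
      _ ≤ _ := by
          refine lintegral_mono fun s => indicator_le (g := fun s =>
            (γ * ENNReal.ofReal (u m s)) ^ (q + 3)) (fun s hs => ?_) s
          rw [ENNReal.ofReal_pow (by positivity), div_eq_mul_one_div,
            ENNReal.ofReal_mul ENNReal.toReal_nonneg, ENNReal.ofReal_toReal γ1]
          gcongr
          exact (hu m).2.2.2 s (abs_le.2 hs)
  have g0 : 0 < γ.toReal := ENNReal.toReal_pos γ0 γ1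
  have left : ∀ m, ∃ C : ℝ≥0∞, C ≠ ∞ ∧ ∀ s, γ * ENNReal.ofReal (u m s) ≤ C * ex s := by
    intro m
    set D := γ ^ (q + 2) * ex (2 * (b * ((m + 1 : ℕ) + 1))) with hD
    have D1 : D ≠ ∞ := ENNReal.mul_ne_top (ENNReal.pow_ne_top γ1) (ex_ne_top _)
    have h1 : ∀ t, ex t * (γ * ENNReal.ofReal (u (m + 1) t)) ^ (q + 2) ≤
        D * ex (-(1 / 2 * |t|)) := by
      intro t
      have h2 : ENNReal.ofReal (u (m + 1) t) ^ (q + 2) ≤
          ex (b * ((m + 1 : ℕ) + 1) - 3 / 4 * |t|) ^ 2 :=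
        (pow_le_pow_right_of_le_one' (u1 _ _) hp).trans (pow_le_pow_left' (u2 _ _) 2)
      rw [mul_pow, mul_left_comm, hD, mul_assoc]
      refine mul_le_mul_right ((mul_le_mul_right h2 _).trans ?_) _
      rw [ex_pow, ← ex_add, ← ex_add]
      exact ex_mono (by push_cast; linarith [le_abs_self t])
    set I := ∫⁻ t, ex (-(1 / 2 * |t|)) with hI
    have I1 : I ≠ ∞ := lint_ex_abs (by norm_num)
    refine ⟨k0 q * (ck (q + 2) * (D * (1 + I))), ENNReal.mul_ne_top k2 (ENNReal.mul_ne_top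
      (ck_ne_top _) (ENNReal.mul_ne_top D1 (by simpa using I1))), fun s => ?_⟩
    rw [congrFun (eq m) s, mul_assoc, mul_comm _ (ex s)]
    refine mul_le_mul_right (T_left hp (wm _) (fun t => (h1 t).trans ?_) ?_ s) _
    · exact mul_le_mul_right ((ex_le_one (neg_nonpos.2 (by positivity))).trans le_self_add) _
    · refine (lintegral_mono h1).trans ?_
      rw [lintegral_const_mul _ (by fun_prop)]
      exact mul_le_mul_right le_add_self _
  set I := ∫⁻ t, ex (-(3 / 4 * |t|)) with hI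
  have I1 : I ≠ ∞ := lint_ex_abs (by norm_num)
  refine ⟨fun m s => γ * ENNReal.ofReal (u m s), (γ.toReal / 2) ^ (q + 3) * (2 * c),
    γ.toReal ^ (q + 3) * (8 / 3 * b + 2 * I.toReal), by positivity, by positivity,
    fun m => ⟨⟨wm m, fun s => ?_, ?_⟩, eq m, lo m, ?_⟩⟩
  · obtain ⟨a, ha⟩ := T_pos_left (p := q + 2) (wm (m + 2)) (ne_of_gt (lt_of_lt_of_le
      (ENNReal.ofReal_pos.2 (by positivity)) (lo (m + 2))))
    refine lt_of_lt_of_eq ?_ (congrFun (eq m) s).symm
    refine ENNReal.mul_pos k1 (T_pos (wm _) (a := a) (fun t ht => ?_) s).ne'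
    rw [congrFun (eq (m + 1)) t]
    exact ENNReal.mul_pos k1 (ha t ht).ne'
  · obtain ⟨C, C1, hC⟩ := left m
    obtain ⟨C', C1', hC'⟩ := left (m + 1)
    refine ⟨C + k0 q * (cB (q + 2) * C' ^ (q + 2)), ENNReal.add_ne_top.2 ⟨C1, ENNReal.mul_ne_top k2
      (ENNReal.mul_ne_top (cB_ne_top hp) (ENNReal.pow_ne_top C1'))⟩, fun s => ⟨(hC s).trans
        (mul_le_mul_left le_self_add _), ?_⟩⟩
    refine (congrFun (eq m) s).le.trans ((mul_le_mul_right (T_right hC' s) _).trans ?_)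
    rw [mul_pow, ex_pow, mul_neg, ← mul_assoc, ← mul_assoc, mul_assoc (k0 q)]
    exact mul_le_mul_left le_add_self _
  · set Z : ℝ := 4 / 3 * (b * (m + 1)) with hZ
    have Z0 : 0 ≤ Z := by positivity
    have h1 : ∀ s, ENNReal.ofReal (u m s) ^ (q + 2 + 1) ≤ (Icc (-Z) Z).indicator 1 s +
        (ex (-(3 / 4 * |s + Z|)) + ex (-(3 / 4 * |s + -Z|))) := by
      intro s
      refine (pow_le_of_le_one zero_le (u1 m s) (by omega)).trans ?_
      rcases le_total s (-Z) with h | h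
      · refine le_add_left (le_add_right ((u2 m s).trans (ex_mono ?_)))
        rw [abs_of_nonpos (by linarith), abs_of_nonpos (by linarith)]; linarith
      rcases le_total s Z with h' | h'
      · rw [indicator_of_mem (show s ∈ Icc (-Z) Z from ⟨h, h'⟩)]
        exact le_add_right (u1 m s)
      · refine le_add_left (le_add_left ((u2 m s).trans (ex_mono ?_)))
        rw [abs_of_nonneg (by linarith), abs_of_nonneg (by linarith)]; linarith
    rw [N_smul (um m), mul_assoc, ENNReal.ofReal_mul (by positivity), ENNReal.ofReal_pow g0.le,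
      ENNReal.ofReal_toReal γ1]
    refine mul_le_mul_right ((lintegral_mono h1).trans ?_) _
    rw [lintegral_add_left (measurable_one.indicator measurableSet_Icc),
      lintegral_indicator_one measurableSet_Icc, lintegral_add_left (by fun_prop),
      lintegral_add_right_eq_self (fun t => ex (-(3 / 4 * |t|))),
      lintegral_add_right_eq_self (fun t => ex (-(3 / 4 * |t|))), Real.volume_Icc, ← hI,
      ← ENNReal.ofReal_toReal I1, ← ENNReal.ofReal_add ENNReal.toReal_nonneg ENNReal.toReal_nonneg,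
      ← ENNReal.ofReal_add (by linarith) (by positivity), ENNReal.toReal_ofReal
        ENNReal.toReal_nonneg]
    refine ENNReal.ofReal_le_ofReal ?_
    nlinarith [mul_nonneg I.toReal_nonneg (Nat.cast_nonneg (α := ℝ) m)]

/-- There is a backward orbit of star bodies along which the Busemann ratio tends to zero. -/
theorem type_inf (q : ℕ) : ∃ M : ℕ → Set (V (q + 3)),
    (∀ m, IsStarBody (M m) ∧ interBody (M (m + 1)) = M m) ∧
    Tendsto (fun m => (volume (M m)).toReal / (volume (M (m + 1))).toReal ^ (q + 2)) atTop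
      (𝓝 0) := by
  have hp : 2 ≤ q + 2 := by omega
  obtain ⟨W, A, B, A0, B0, hW⟩ := orbit_inf q
  have r1 : ∀ m, ∃ α β, Reg (q + 2) (W m) α β := fun m =>
    (class_P q (fun U => ∃ m, U = W m) (by rintro _ ⟨m, rfl⟩; exact (hW m).1)
      (by rintro _ ⟨m, rfl⟩; exact ⟨_, ⟨m + 1, rfl⟩, (hW m).2.1⟩) ⟨m, rfl⟩).1
  refine ⟨fun m => body (q + 2) (prof (q + 2) (W m)), fun m => ?_, ?_⟩
  · obtain ⟨α, β, hr⟩ := r1 m
    obtain ⟨α', β', hr'⟩ := r1 (m + 1)
    refine ⟨isStarBody_body _ hr.prof.1 hr.prof.2.1, ?_⟩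
    rw [inter_body q hr' ((hW (m + 1)).1.reg hp (k0_ne_zero q) (k0_ne_top q) hr'.a0 hr'.a1
      hr'.bot), ← (hW m).2.1]
  set κ := k0 (q + 1) * ENNReal.ofReal ((q + 3) / (q + 4)) with hκ
  have κ0 : 0 < κ.toReal := ENNReal.toReal_pos (mul_ne_zero (k0_ne_zero _)
    (ENNReal.ofReal_pos.2 (by positivity)).ne') (ENNReal.mul_ne_top (k0_ne_top _)
    ENNReal.ofReal_ne_top)
  have hv : ∀ m : ℕ, κ.toReal * A * m ≤ (volume (body (q + 2) (prof (q + 2) (W m)))).toReal ∧
      (volume (body (q + 2) (prof (q + 2) (W m)))).toReal ≤ κ.toReal * B * (m + 1) := by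
    intro m
    obtain ⟨α, β, hr⟩ := r1 m
    rw [vol_body q hr, ← hκ, ENNReal.toReal_mul (a := κ), mul_assoc κ.toReal, mul_assoc κ.toReal]
    constructor
    · exact mul_le_mul_of_nonneg_left ((ENNReal.ofReal_le_iff_le_toReal
        (ne_top_of_le_ne_top ENNReal.ofReal_ne_top (hW m).2.2.2)).1 (hW m).2.2.1) κ0.le
    · exact mul_le_mul_of_nonneg_left
        (ENNReal.toReal_le_of_le_ofReal (by positivity) (hW m).2.2.2) κ0.le
  have ht := (tendsto_one_div_add_atTop_nhds_zero_nat (𝕜 := ℝ)).const_mul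
    (κ.toReal * B / (κ.toReal * A) ^ (q + 2))
  rw [mul_zero] at ht
  refine squeeze_zero (fun m => by positivity) (fun m => ?_) ht
  have h1 := (hv (m + 1)).1
  push_cast at h1
  have m1 : (1:ℝ) ≤ m + 1 := by linarith [Nat.cast_nonneg (α := ℝ) m]
  calc _ ≤ κ.toReal * B * (m + 1) / ((κ.toReal * A) ^ (q + 2) * (m + 1) ^ 2) := by
        refine div_le_div₀ (by positivity) (hv m).2 (by positivity) ?_
        refine le_trans ?_ (pow_le_pow_left₀ (by positivity) h1 _)
        rw [mul_pow _ ((m:ℝ) + 1)]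
        exact mul_le_mul_of_nonneg_left (pow_le_pow_right₀ m1 hp) (by positivity)
    _ = _ := by field_simp

end Pool.Agent.Lib.MP_242fd5_gt.Z
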