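import Pool.Agent.Lib.MP_242fd5_gt.Ty.G1Bridge
import Pool.Agent.Lib.MP_242fd5_gt.Ty.S7e
import Pool.Agent.Lib.MP_242fd5_gt.Ty.S8b

set_option autoImplicit false

open MeasureTheory Set Metric Filter Topology

namespace Pool.Agent.Lib.MP_242fd5_gt.Ty

theorem type_occurs (q : ℕ) (k : ℕ∞) (hk : 1 ≤ k) : ∃ L : Set (V (q + 3)), HasType L k := by
  induction k using ENat.recTopCoe with
  | top =>
    obtain ⟨M, h1, h2⟩ := Z.type_inf q
    refine ⟨M 0, M, ⟨rfl, h1⟩, Or.inr ⟨rfl, (tendsto_add_atTop_iff_nat 1).1 (h2.congr fun m => ?_)⟩⟩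
    rw [busemannRatio, (h1 m).2]
    rfl
  | coe k =>
    rcases (show 1 ≤ k by exact_mod_cast hk).eq_or_lt with rfl | h
    · exact ⟨_, type_one_iff.2 ⟨.refl _ _, rfl⟩⟩
    · obtain ⟨f, c, hc, hf⟩ := exists_orbit q h
      exact ⟨_, type_of_window h hc (fun m => ⟨(hf m).1, (hf m).2.1, (hf m).2.2.1⟩)
        (fun m => (hf m).2.2.2.1) (fun m => (hf m).2.2.2.2.1) fun m => (hf m).2.2.2.2.2⟩

theorem types (q : ℕ) : ∃ τ : {L : Set (V (q + 3)) // IsStarBody L ∧ HasPropertyP L} → ℕ∞,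
    (∀ L k, HasType L.1 k ↔ τ L = k) ∧ range τ = {k | 1 ≤ k} ∧
      ∀ L, τ L = 1 ↔ IsEllipsoid L.1 := by
  choose τ hτ using fun L : {L : Set (V (q + 3)) // IsStarBody L ∧ HasPropertyP L} =>
    type_exists L.2.2
  have h : ∀ L k, HasType L.1 k ↔ τ L = k := fun L k =>
    ⟨type_unique (hτ L), fun e => e ▸ hτ L⟩
  refine ⟨τ, h, subset_antisymm ?_ fun k hk => ?_, fun L => (h L 1).symm.trans type_one_iff⟩
  · rintro _ ⟨L, rfl⟩
    exact (type_P (hτ L)).2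
  · obtain ⟨L, hL⟩ := type_occurs q k hk
    exact ⟨⟨L, (type_P hL).1⟩, (h _ k).1 hL⟩

end Pool.Agent.Lib.MP_242fd5_gt.Ty
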