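import Pool.Agent.Lib.MP_242fd5_gt.Ty.A6Adm

set_option autoImplicit false

/-! Second order estimate for densities that differ from a critical body in a thin shell. -/

open MeasureTheory ProbabilityTheory Set Metric Filter Topology
open scoped ENNReal RealInnerProductSpace

namespace Pool.Agent.Lib.MP_242fd5_gt.Ty

/-- radial profiles that jump from one to zero in a shell -/
structure Sh (ρ τ : ℝ) (φ : ℝ → ℝ≥0∞) : Prop where
  meas : Measurable φ
  le : ∀ r, φ r ≤ 2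
  one : ∀ r, 0 < r → r ≤ ρ - τ → φ r = 1
  zero : ∀ r, ρ + τ ≤ r → φ r = 0

/-- radial moment -/
noncomputable def Ik (k : ℕ) (φ : ℝ → ℝ≥0∞) : ℝ≥0∞ :=
  ∫⁻ r in Ioi (0:ℝ), ENNReal.ofReal ((k + 1) * r ^ k) * φ r

variable {ρ τ : ℝ} {φ φ' : ℝ → ℝ≥0∞}

lemma Sh.ne_top (H : Sh ρ τ φ) (r : ℝ) : φ r ≠ ∞ := ne_top_of_le_ne_top (by simp) (H.le r)

lemma Sh.real_le (H : Sh ρ τ φ) (r : ℝ) : (φ r).toReal ≤ 2 := by
  simpa using ENNReal.toReal_mono (by simp) (H.le r)

lemma Sh.integrable (H : Sh ρ τ φ) {g : ℝ → ℝ} (hg : Continuous g) :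
    IntegrableOn (fun r => g r * (φ r).toReal) (Ioi 0) := by
  have h1 : IntegrableOn (fun r => g r * (φ r).toReal) (Icc 0 (ρ + τ)) :=
    Integrable.mul_bdd (c := 2) hg.integrableOn_Icc
      H.meas.ennreal_toReal.aestronglyMeasurable (Eventually.of_forall fun r => by
        rw [Real.norm_of_nonneg ENNReal.toReal_nonneg]; exact H.real_le r)
  refine h1.of_forall_sdiff_eq_zero measurableSet_Ioi fun r hr => ?_
  rw [H.zero r (by
    by_contra h
    exact hr.2 ⟨hr.1.le, (not_le.1 h).le⟩)]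
  simp

lemma Sh.Ik_eq (H : Sh ρ τ φ) (k : ℕ) :
    Ik k φ = ENNReal.ofReal (∫ r in Ioi (0:ℝ), (k + 1) * r ^ k * (φ r).toReal) := by
  rw [ofReal_integral_eq_lintegral_ofReal (H.integrable (by fun_prop))
    ((ae_restrict_iff' measurableSet_Ioi).2 (Eventually.of_forall fun r hr => by
      have : 0 < r := hr
      positivity))]
  refine setLIntegral_congr_fun measurableSet_Ioi fun r hr => ?_
  have : 0 < r := hr
  rw [ENNReal.ofReal_mul (p := (k + 1) * r ^ k) (by positivity), ENNReal.ofReal_toReal (H.ne_top r)]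

lemma Sh.Ik_ne_top (H : Sh ρ τ φ) (k : ℕ) : Ik k φ ≠ ∞ := by
  rw [H.Ik_eq]; exact ENNReal.ofReal_ne_top

lemma Sh.Ik_real (H : Sh ρ τ φ) (k : ℕ) :
    (Ik k φ).toReal = ∫ r in Ioi (0:ℝ), (k + 1) * r ^ k * (φ r).toReal := by
  rw [H.Ik_eq, ENNReal.toReal_ofReal]
  exact setIntegral_nonneg measurableSet_Ioi fun r hr => by
    have : 0 < r := hr
    positivity

lemma Sh.diff (H : Sh ρ τ φ) (H' : Sh ρ τ φ') (hτ : 0 ≤ τ) {g : ℝ → ℝ} (hg : Continuous g) {B : ℝ}
    (hB0 : 0 ≤ B) (hB : ∀ r, 0 < r → |ρ - r| ≤ τ → |g r| ≤ B) :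
    |(∫ r in Ioi (0:ℝ), g r * (φ r).toReal) - ∫ r in Ioi (0:ℝ), g r * (φ' r).toReal| ≤
      B * 2 * (2 * τ) := by
  rw [← integral_sub (H.integrable hg) (H'.integrable hg)]
  have hi : Integrable ((Ioo (ρ - τ) (ρ + τ)).indicator fun _ => B * 2) :=
    (integrable_indicator_iff measurableSet_Ioo).2 (integrableOn_const (by simp))
  calc _ ≤ ∫ r in Ioi (0:ℝ), (Ioo (ρ - τ) (ρ + τ)).indicator (fun _ => B * 2) r := by
        rw [← Real.norm_eq_abs]
        refine norm_integral_le_of_norm_le hi.integrableOn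
          ((ae_restrict_iff' measurableSet_Ioi).2 (Eventually.of_forall fun r hr => ?_))
        by_cases h : r ∈ Ioo (ρ - τ) (ρ + τ)
        · rw [indicator_of_mem h, ← mul_sub, Real.norm_eq_abs, abs_mul]
          refine mul_le_mul (hB r hr (by rw [abs_le]; constructor <;> linarith [h.1, h.2])) ?_
            (abs_nonneg _) hB0
          rw [abs_le]
          constructor <;> linarith [H.real_le r, H'.real_le r, (φ r).toReal_nonneg,
            (φ' r).toReal_nonneg]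
        · rw [indicator_of_notMem h]
          rcases not_and_or.1 h with h | h
          · rw [H.one r hr (not_lt.1 h), H'.one r hr (not_lt.1 h)]; simp
          · rw [H.zero r (not_lt.1 h), H'.zero r (not_lt.1 h)]; simp
    _ ≤ ∫ r, (Ioo (ρ - τ) (ρ + τ)).indicator (fun _ => B * 2) r :=
        setIntegral_le_integral hi (Eventually.of_forall fun r =>
          indicator_nonneg (fun _ _ => by positivity) r)
    _ = B * 2 * (2 * τ) := by
        rw [integral_indicator_const _ measurableSet_Ioo, Real.volume_real_Ioo_of_le (by linarith),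
          smul_eq_mul]
        ring

lemma sh_ind (hτ : 0 < τ) : Sh ρ τ ((Iio ρ).indicator 1) :=
  ⟨measurable_one.indicator measurableSet_Iio,
    fun r => (indicator_le_self _ _ r).trans (by simp),
    fun r _ h => indicator_of_mem (show r ∈ Iio ρ by rw [mem_Iio]; linarith) _,
    fun r h => indicator_of_notMem (show r ∉ Iio ρ by rw [mem_Iio]; linarith) _⟩

lemma Sh.first (H : Sh ρ τ φ) (hτ : 0 < τ) (h1 : τ ≤ 1) {M : ℝ} (h0 : 0 ≤ ρ) (hM : ρ ≤ M) (k : ℕ) :
    |(Ik k φ).toReal - ρ ^ (k + 1)| ≤ (k + 1) * (M + 1) ^ k * 4 * τ := by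
  have e : ρ ^ (k + 1) = (Ik k ((Iio ρ).indicator 1)).toReal := by
    unfold Ik; rw [lint_pow_Iio k h0, ENNReal.toReal_ofReal (by positivity)]
  have hM0 : 0 ≤ M := h0.trans hM
  rw [e, H.Ik_real, (sh_ind hτ).Ik_real]
  refine (H.diff (sh_ind hτ) hτ.le (by fun_prop) (B := (k + 1) * (M + 1) ^ k) (by positivity)
    fun r hr h => ?_).trans (le_of_eq (by ring))
  rw [abs_of_nonneg (by positivity)]
  have : r ≤ M + 1 := by linarith [(abs_le.1 h).1]
  gcongr

lemma Sh.second (H : Sh ρ τ φ) (H' : Sh ρ τ φ') (hτ : 0 < τ) (h1 : τ ≤ 1) {M : ℝ} (h0 : 0 ≤ ρ)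
    (hM : ρ ≤ M) (k : ℕ) :
    (k + 2) * (ρ * ((Ik k φ).toReal - (Ik k φ').toReal)) -
      (k + 1) * ((Ik (k + 1) φ).toReal - (Ik (k + 1) φ').toReal) ≤
      (k + 2) * (k + 1) * (M + 1) ^ k * 4 * τ ^ 2 := by
  have hM0 : 0 ≤ M := h0.trans hM
  have e : ∀ ψ, Sh ρ τ ψ → (k + 2) * (ρ * (Ik k ψ).toReal) - (k + 1) * (Ik (k + 1) ψ).toReal =
      ∫ r in Ioi (0:ℝ), (k + 2) * (k + 1) * r ^ k * (ρ - r) * (ψ r).toReal := by
    intro ψ G
    rw [G.Ik_real, G.Ik_real, ← integral_const_mul, ← integral_const_mul, ← integral_const_mul,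
      ← integral_sub (((G.integrable (by fun_prop)).const_mul _).const_mul _)
        ((G.integrable (by fun_prop)).const_mul _)]
    refine integral_congr_ae (Eventually.of_forall fun r => ?_)
    push_cast; ring
  have := H.diff H' hτ.le (g := fun r => (k + 2) * (k + 1) * r ^ k * (ρ - r)) (by fun_prop)
    (B := (k + 2) * (k + 1) * (M + 1) ^ k * τ) (by positivity) fun r hr h => by
      rw [abs_mul, abs_of_nonneg (by positivity)]
      have : r ≤ M + 1 := by linarith [(abs_le.1 h).1]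
      gcongr
  rw [← e φ H, ← e φ' H'] at this
  have h2 := (abs_le.1 this).2
  linarith

lemma taylor_two {x x' s B δ : ℝ} (k : ℕ) (hx : 0 ≤ x) (hx' : 0 ≤ x') (hs : 0 ≤ s) (hxB : x ≤ B)
    (hsB : s ≤ B) (hδ : |x - s| ≤ δ) :
    x ^ (k + 2) - x' ^ (k + 2) ≤
      (k + 2) * (s ^ (k + 1) * (x - x')) + (k + 2) * (k + 1) * B ^ k * δ ^ 2 := by
  have h1 := pow_add_mul_le_add_pow hs (b := x' - s) (by linarith) (k + 2)
  have h2 := pow_add_mul_le_add_pow hx (b := s - x) (by linarith) (k + 2)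
  have h3 := abs_pow_sub_pow_le x s (k + 1)
  rw [add_sub_cancel] at h1 h2
  simp only [abs_of_nonneg hx, abs_of_nonneg hs, Nat.cast_add,
    Nat.cast_ofNat, Nat.cast_one, Nat.add_one_sub_one] at h1 h2 h3
  have hδ0 : 0 ≤ δ := (abs_nonneg _).trans hδ
  have hB : 0 ≤ B := hx.trans hxB
  have h4 : (x ^ (k + 1) - s ^ (k + 1)) * (x - s) ≤ (k + 1) * B ^ k * δ ^ 2 := by
    refine (le_abs_self _).trans ?_
    rw [abs_mul]
    have h5 : max x s ^ k ≤ B ^ k := pow_le_pow_left₀ (le_max_of_le_left hx) (max_le hxB hsB) k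
    calc _ ≤ δ * (k + 1) * B ^ k * δ :=
          mul_le_mul (h3.trans (by gcongr)) hδ (abs_nonneg _) (by positivity)
      _ = _ := by ring
  have h6 := mul_le_mul_of_nonneg_left h4 (show (0:ℝ) ≤ k + 2 by positivity)
  linarith

variable {q : ℕ}

/-- radial moments of a density -/
noncomputable def mom (k : ℕ) (F : V (q + 3) → ℝ≥0∞) (u : V (q + 3)) : ℝ :=
  (Ik k fun r => F (r • u)).toReal

lemma measurable_Ik (k : ℕ) {F : V (q + 3) → ℝ≥0∞} (hF : Measurable F) :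
    Measurable fun u : V (q + 3) => Ik k fun r => F (r • u) :=
  Measurable.lintegral_prod_right
    (f := fun (u : V (q + 3)) (r : ℝ) => ENNReal.ofReal ((k + 1) * r ^ k) * F (r • u)) (by
      unfold Function.uncurry; fun_prop)

theorem shell_second {f : V (q + 3) → ℝ} (H : Adm f) {lam : ℝ} (hl : 0 < lam)
    (hfix : ∀ u, ‖u‖ = 1 → f u = lam * T (T f) u) :
    ∃ K : ℝ, 0 ≤ K ∧ ∀ τ, 0 < τ → τ ≤ 1 → ∀ F F' : V (q + 3) → ℝ≥0∞, Measurable F →
      Measurable F' → (∀ u, ‖u‖ = 1 → Sh (f u) τ fun r => F (r • u)) →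
      (∀ u, ‖u‖ = 1 → Sh (f u) τ fun r => F' (r • u)) → ∫⁻ x, F x = ∫⁻ x, F' x →
      ∫⁻ u, sec F' u ^ (q + 3) ∂mu (q + 3) ≠ ∞ ∧ ∫⁻ u, sec F u ^ (q + 3) ∂mu (q + 3) ≤
        ∫⁻ u, sec F' u ^ (q + 3) ∂mu (q + 3) + ENNReal.ofReal (K * τ ^ 2) := by
  obtain ⟨M, hM⟩ := H.bm
  have hM0 := hM.nonneg
  have hfM : ∀ u, ‖u‖ = 1 → f u ≤ M := fun u hu => (le_abs_self _).trans (hM.bdd u hu)
  set c : ℕ → ℝ := fun k => (k + 1) * (M + 1) ^ k * 4 with hc
  have c0 : ∀ k, 0 ≤ c k := fun k => by simp only [hc]; positivity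
  have o2 := om_pos (q + 2)
  have o3 := om_pos (q + 3)
  set B : ℝ := (M ^ (q + 2) + c (q + 1)) * om (q + 2) with hB
  have B0 : 0 ≤ B := by have := c0 (q + 1); positivity
  set K1 : ℝ := (((q + 1 : ℕ) : ℝ) + 2) * (((q + 1 : ℕ) : ℝ) + 1) * B ^ (q + 1) *
    (c (q + 1) * om (q + 2)) ^ 2 with hK1
  set K2 : ℝ := (((q + 1 : ℕ) : ℝ) + 2) * (((q + 1 : ℕ) : ℝ) + 1) * (M + 1) ^ (q + 1) * 4 with hK2
  refine ⟨(K1 + K2 / lam) * om (q + 3), by positivity, fun τ t0 t1 F F' hF hF' S S' hm => ?_⟩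
  have first : ∀ (G : V (q + 3) → ℝ≥0∞), (∀ u, ‖u‖ = 1 → Sh (f u) τ fun r => G (r • u)) →
      ∀ k u, ‖u‖ = 1 → |mom k G u - f u ^ (k + 1)| ≤ c k * τ := fun G SG k u hu =>
    (SG u hu).first t0 t1 (H.nn u) (hfM u hu) k
  have bm : ∀ (G : V (q + 3) → ℝ≥0∞), Measurable G →
      (∀ u, ‖u‖ = 1 → Sh (f u) τ fun r => G (r • u)) →
      ∀ k, BM (M ^ (k + 1) + c k) (mom k G) := fun G hG SG k =>
    ⟨(measurable_Ik k hG).ennreal_toReal, fun u hu => by
      have h1 := (abs_le.1 (first G SG k u hu)).2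
      have h2 : f u ^ (k + 1) ≤ M ^ (k + 1) := pow_le_pow_left₀ (H.nn u) (hfM u hu) _
      have h3 : c k * τ ≤ c k := mul_le_of_le_one_right (c0 k) t1
      rw [abs_of_nonneg (show 0 ≤ mom k G u from ENNReal.toReal_nonneg)]
      linarith⟩
  have nn : ∀ (G : V (q + 3) → ℝ≥0∞) k u, 0 ≤ mom k G u := fun _ _ _ => ENNReal.toReal_nonneg
  have hG : ∀ (G : V (q + 3) → ℝ≥0∞), Measurable G →
      (∀ u, ‖u‖ = 1 → Sh (f u) τ fun r => G (r • u)) →
      ∫⁻ u, sec G u ^ (q + 3) ∂mu (q + 3) =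
        ENNReal.ofReal (∫ u, R (mom (q + 1) G) u ^ (q + 3) ∂mu (q + 3)) := by
    intro G hG SG
    rw [ofReal_int_mu ((bm G hG SG (q + 1)).R.pow (q + 3))
      fun u => pow_nonneg (R_nonneg (nn G _) u) _]
    refine lintegral_congr_ae ?_
    filter_upwards [mu_sphere] with u hu
    rw [ENNReal.ofReal_pow (R_nonneg (nn G _) u),
      ofReal_R (bm G hG SG (q + 1)) (nn G _) (ne_zero_of_unit hu), polar_sec hG hu]
    congr 1
    refine lintegral_congr_ae ?_
    filter_upwards [kap_sphere (ne_zero_of_unit hu)] with v hv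
    exact (ENNReal.ofReal_toReal ((SG v hv.1).Ik_ne_top (q + 1))).symm
  have hV : ∀ (G : V (q + 3) → ℝ≥0∞), Measurable G →
      (∀ u, ‖u‖ = 1 → Sh (f u) τ fun r => G (r • u)) →
      ∫⁻ x, G x = ENNReal.ofReal (∫ u, mom (q + 2) G u ∂mu (q + 3)) := by
    intro G hG SG
    rw [ofReal_int_mu (bm G hG SG (q + 2)) (nn G _), polar_vol hG]
    refine lintegral_congr_ae ?_
    filter_upwards [mu_sphere] with u hu
    exact (ENNReal.ofReal_toReal ((SG u hu).Ik_ne_top (q + 2))).symm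
  rw [hV F hF S, hV F' hF' S', ENNReal.ofReal_eq_ofReal_iff (integral_nonneg (nn F _))
    (integral_nonneg (nn F' _))] at hm
  rw [hG F hF S, hG F' hF' S']
  refine ⟨ENNReal.ofReal_ne_top, le_trans (ENNReal.ofReal_le_ofReal ?_) ENNReal.ofReal_add_le⟩
  have b1 := bm F hF S (q + 1)
  have b1' := bm F' hF' S' (q + 1)
  have b2 := bm F hF S (q + 2)
  have b2' := bm F' hF' S' (q + 2)
  have bT := (hM.T (N := q + 1)).pow (q + 2)
  have bp := hM.pow (q + 2)
  have step1 : ∫ u, (R (mom (q + 1) F) u ^ (q + 3) - R (mom (q + 1) F') u ^ (q + 3)) ∂mu (q + 3) ≤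
      ∫ u, ((((q + 1 : ℕ) : ℝ) + 2) * (T f u ^ (q + 2) *
        R (fun v => mom (q + 1) F v - mom (q + 1) F' v) u) + K1 * τ ^ 2) ∂mu (q + 3) := by
    refine int_mu_mono ((b1.R.pow _).sub (b1'.R.pow _))
      (((bT.mul (b1.sub b1').R).const_mul _).add (BM.const _)) fun u hu => ?_
    have u0 := ne_zero_of_unit hu
    have d1 : |R (mom (q + 1) F) u - T f u| ≤ c (q + 1) * om (q + 2) * τ := by
      rw [T_unit f hu, ← R_sub b1 bp u0]
      refine (abs_R_le _ _).trans ((R_mono (b1.sub bp).abs (BM.const (c (q + 1) * τ))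
        (first F S (q + 1)) u0).trans (le_of_eq ?_))
      rw [R_const _ u0]; ring
    have d2 : T f u ≤ B := by
      refine ((le_abs_self _).trans ((hM.T (N := q + 1)).bdd u hu)).trans ?_
      rw [hB]; gcongr; linarith [c0 (q + 1)]
    have := taylor_two (q + 1) (R_nonneg (nn F (q + 1)) u) (R_nonneg (nn F' (q + 1)) u)
      (H.T.nn u) ((le_abs_self _).trans (b1.R.bdd u hu)) d2 d1
    rw [R_sub b1 b1' u0]
    refine this.trans (le_of_eq ?_)
    rw [hK1]; ring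
  have step2 : ∫ u, T f u ^ (q + 2) * R (fun v => mom (q + 1) F v - mom (q + 1) F' v) u
      ∂mu (q + 3) = lam⁻¹ * ∫ u, f u * (mom (q + 1) F u - mom (q + 1) F' u) ∂mu (q + 3) := by
    rw [R_symm bT (b1.sub b1'), ← integral_const_mul]
    refine int_mu_congr fun u hu => ?_
    rw [hfix u hu, T_unit (T f) hu]
    field_simp
  have step3 : ∫ u, ((((q + 1 : ℕ) : ℝ) + 2) * (f u * (mom (q + 1) F u - mom (q + 1) F' u)) -
      (((q + 1 : ℕ) : ℝ) + 1) * (mom (q + 2) F u - mom (q + 2) F' u)) ∂mu (q + 3) ≤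
      ∫ _u, K2 * τ ^ 2 ∂mu (q + 3) :=
    int_mu_mono (((hM.mul (b1.sub b1')).const_mul _).sub ((b2.sub b2').const_mul _)) (BM.const _)
      fun u hu => (S u hu).second (S' u hu) t0 t1 (H.nn u) (hfM u hu) (q + 1)
  rw [integral_sub ((hM.mul (b1.sub b1')).const_mul _).int_mu ((b2.sub b2').const_mul _).int_mu,
    integral_const_mul, integral_const_mul, integral_sub b2.int_mu b2'.int_mu, hm, sub_self,
    mul_zero, sub_zero, integral_const, mu_real_univ, smul_eq_mul] at step3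
  rw [integral_sub (b1.R.pow _).int_mu (b1'.R.pow _).int_mu,
    integral_add ((bT.mul (b1.sub b1').R).const_mul _).int_mu (BM.const _).int_mu,
    integral_const_mul, step2, integral_const, mu_real_univ, smul_eq_mul] at step1
  have step4 := mul_le_mul_of_nonneg_left step3 (inv_pos.2 hl).le
  rw [div_eq_mul_inv]
  linarith

end Pool.Agent.Lib.MP_242fd5_gt.Ty
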