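import Pool.Agent.Lib.MP_242fd5_gt.Ty.S7a

set_option autoImplicit false

open MeasureTheory ProbabilityTheory Set Metric Filter Topology Real
open scoped ENNReal NNReal RealInnerProductSpace

namespace Pool.Agent.Lib.MP_242fd5_gt.Ty

variable {n N q : ℕ}

/-- the angles of the symmetry -/
noncomputable def th (k i : ℕ) : ℝ := i * (π / k)

def QInv (k : ℕ) (a : V (N + 2) → ℝ) : Prop := ∀ x, a (rot (π / k) x) = a x

lemma QInv.th {k : ℕ} {a : V (N + 2) → ℝ} (H : QInv k a) (i : ℕ) (x : V (N + 2)) :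
    a (rot (th k i) x) = a x := by
  induction i with
  | zero => simp [Ty.th, rot_zero]
  | succ i ih =>
    rw [← ih, ← H (rot (Ty.th k i) x), rot_add]
    congr 2
    simp only [Ty.th]; push_cast; ring_nf

lemma QInv.T {k : ℕ} {a : V (N + 2) → ℝ} (H : QInv k a) (A : Adm a) : QInv k (T a) := by
  intro x
  rw [← T_iso A]
  congr 1
  exact funext H

lemma QInv.smul {k : ℕ} {a : V (N + 2) → ℝ} (H : QInv k a) (c : ℝ) :
    QInv k fun x => c * a x := fun x => by simp only [H x]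

/-- no rotated copy is comparable -/
def NC (C : ℝ) (k : ℕ) (g : V (N + 2) ≃L[ℝ] V (N + 2)) : Prop :=
  ∀ i, 0 < i → i < k → ¬ Cmp C g (gi g (th k i))

lemma NC.pair {C : ℝ} {k : ℕ} {g : V (N + 2) ≃L[ℝ] V (N + 2)} (H : NC C k g) {i l : ℕ} (hi : i < k)
    (hl : l < k) (hne : i ≠ l) : ¬ Cmp C (gi g (th k i)) (gi g (th k l)) := by
  have key : ∀ i l : ℕ, i < l → l < k → ¬ Cmp C (gi g (th k i)) (gi g (th k l)) := by
    intro i l hil hl h
    refine H (l - i) (by omega) (by omega) ?_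
    have := h.gi_sub
    rwa [show th k l - th k i = th k (l - i) by
      simp only [th]; rw [Nat.cast_sub hil.le]; ring] at this
  rcases lt_or_gt_of_ne hne with h | h
  · exact key i l h hl
  · exact fun H' => key l i h hi H'.symm

/-- sum of the radial functions of the rotated ellipsoids -/
noncomputable def sm (k : ℕ) (g : V (N + 2) ≃L[ℝ] V (N + 2)) (x : V (N + 2)) : ℝ :=
  ∑ i ∈ Finset.range k, rho (gi g (th k i)) x

lemma adm_sm (k : ℕ) (g : V (N + 2) ≃L[ℝ] V (N + 2)) : Adm (sm k g) :=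
  Adm.sum _ fun _ => adm_rho _

lemma le_sm {k i : ℕ} (hi : i < k) (g : V (N + 2) ≃L[ℝ] V (N + 2)) (x : V (N + 2)) :
    rho (gi g (th k i)) x ≤ sm k g x :=
  Finset.single_le_sum (f := fun i => rho (gi g (th k i)) x) (fun _ _ => (adm_rho _).nn x)
    (Finset.mem_range.2 hi)

lemma Cmp.sm_le {C : ℝ} {g h : V (N + 2) ≃L[ℝ] V (N + 2)} (H : Cmp C g h) (k : ℕ)
    (x : V (N + 2)) : sm k h x ≤ C * sm k g x := by
  rw [sm, sm, Finset.mul_sum]
  exact Finset.sum_le_sum fun i _ => (H.gi _).rho_le x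

/-- the starting function of the shooting argument -/
noncomputable def fA (k : ℕ) (g : V (N + 2) ≃L[ℝ] V (N + 2)) (x : V (N + 2)) : ℝ :=
  (∑ i ∈ Finset.range k, rho (gi g (th k i)) x ^ (N + 2)) ^ (((N + 2 : ℕ) : ℝ)⁻¹)

lemma fA_sum_nonneg (k : ℕ) (g : V (N + 2) ≃L[ℝ] V (N + 2)) (x : V (N + 2)) :
    0 ≤ ∑ i ∈ Finset.range k, rho (gi g (th k i)) x ^ (N + 2) :=
  Finset.sum_nonneg fun _ _ => pow_nonneg ((adm_rho _).nn x) _

lemma fA_nonneg (k : ℕ) (g : V (N + 2) ≃L[ℝ] V (N + 2)) (x : V (N + 2)) : 0 ≤ fA k g x :=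
  rpow_nonneg (fA_sum_nonneg k g x) _

lemma fA_pow (k : ℕ) (g : V (N + 2) ≃L[ℝ] V (N + 2)) (x : V (N + 2)) :
    fA k g x ^ (N + 2) = ∑ i ∈ Finset.range k, rho (gi g (th k i)) x ^ (N + 2) :=
  rpow_inv_natCast_pow (fA_sum_nonneg k g x) (by omega)

lemma sum_pow_le {ι : Type} (s : Finset ι) {x : ι → ℝ} (hx : ∀ i, 0 ≤ x i) (m : ℕ) :
    ∑ i ∈ s, x i ^ (m + 1) ≤ (∑ i ∈ s, x i) ^ (m + 1) := by
  rw [pow_succ' (∑ i ∈ s, x i), Finset.sum_mul]
  refine Finset.sum_le_sum fun i hi => ?_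
  rw [pow_succ']
  have := hx i
  gcongr
  exact Finset.single_le_sum (fun j _ => hx j) hi

lemma fA_le_sm (k : ℕ) (g : V (N + 2) ≃L[ℝ] V (N + 2)) (x : V (N + 2)) : fA k g x ≤ sm k g x := by
  refine le_of_pow_le_pow_left₀ (n := N + 2) (by omega) ((adm_sm k g).nn x) ?_
  rw [fA_pow]
  exact sum_pow_le _ (fun _ => (adm_rho _).nn x) _

lemma le_fA {k i : ℕ} (hi : i < k) (g : V (N + 2) ≃L[ℝ] V (N + 2)) (x : V (N + 2)) :
    rho (gi g (th k i)) x ≤ fA k g x := by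
  refine le_of_pow_le_pow_left₀ (n := N + 2) (by omega) (fA_nonneg k g x) ?_
  rw [fA_pow]
  exact Finset.single_le_sum (f := fun i => rho (gi g (th k i)) x ^ (N + 2))
    (fun _ _ => pow_nonneg ((adm_rho _).nn x) _) (Finset.mem_range.2 hi)

lemma adm_fA (k : ℕ) (g : V (N + 2) ≃L[ℝ] V (N + 2)) : Adm (fA k g) where
  meas := by
    refine Measurable.pow_const (Finset.measurable_sum _ fun i _ => ?_) _
    exact (adm_rho _).meas.pow_const _
  nn := fA_nonneg k g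
  hom t ht x := by
    refine (pow_left_inj₀ (n := N + 2) (fA_nonneg k g _)
      (mul_nonneg (by positivity) (fA_nonneg k g x)) (by omega)).1 ?_
    rw [mul_pow, fA_pow, fA_pow, Finset.mul_sum]
    refine Finset.sum_congr rfl fun i _ => ?_
    rw [(adm_rho _).hom t ht, mul_pow]
  bdd := by
    obtain ⟨C, hC⟩ := (adm_sm k g).bdd
    exact ⟨C, fun x hx => (fA_le_sm k g x).trans (hC x hx)⟩

lemma Nn_fA (k : ℕ) (g : V (N + 2) ≃L[ℝ] V (N + 2)) : Nn (fA k g) = k * (jac g * om (N + 2)) := by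
  unfold Nn
  simp_rw [fA_pow]
  rw [integral_finsetSum _ fun i _ => (adm_rho _).int_pow _]
  have h : ∀ i, ∫ a, rho (gi g (th k i)) a ^ (N + 1 + 1) ∂mu (N + 1 + 1) = jac g * om (N + 2) :=
    fun i => (Nn_rho (gi g (th k i))).trans (by rw [jac_gi])
  simp [h]

lemma qinv_fA {k : ℕ} (hk : 0 < k) {g : V (N + 2) ≃L[ℝ] V (N + 2)}
    (hg : ∀ x, rho g (rot π x) = rho g x) : QInv k (fA k g) := by
  intro x
  unfold fA
  congr 1
  have hk0 : (k:ℝ) ≠ 0 := by exact_mod_cast hk.ne'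
  have h1 : ∀ i, rho (gi g (th k i)) (rot (π / k) x) = rho (gi g (th k (i + 1))) x := fun i => by
    rw [rho_gi, rho_gi, rot_add]
    congr 2
    simp only [th]; push_cast; ring_nf
  have h2 : rho (gi g (th k k)) x = rho (gi g (th k 0)) x := by
    rw [rho_gi, rho_gi, show th k k = π by simp only [th]; field_simp, hg,
      show th k 0 = 0 by simp [th], rot_zero]
  simp_rw [h1]
  have h3 := Finset.sum_range_succ' (fun i => rho (gi g (th k i)) x ^ (N + 2)) k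
  rw [Finset.sum_range_succ, h2] at h3
  linarith

lemma holder_sum {ι : Type} (s : Finset ι) {w r : ι → ℝ} {f : ℝ} (hw : ∀ i, 0 ≤ w i)
    (hr : ∀ i, 0 ≤ r i) (hf : 0 < f) (m : ℕ) (h1 : ∑ i ∈ s, w i ^ (m + 2) = 1)
    (h2 : f ^ (m + 2) = ∑ i ∈ s, r i ^ (m + 2)) : ∑ i ∈ s, w i * r i ^ (m + 1) ≤ f ^ (m + 1) := by
  have h3 : ∑ i ∈ s, ((m:ℝ) + 1 + 1) * (w i * (r i / f) ^ (m + 1)) ≤
      ∑ i ∈ s, (w i ^ (m + 2) + (m + 1) * (r i / f) ^ (m + 2)) := by
    refine Finset.sum_le_sum fun i _ => ?_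
    have := deficit_pt (div_nonneg (hr i) hf.le) (hw i) m
    have := pow_nonneg (abs_nonneg (r i / f - w i)) (m + 2)
    linarith
  simp_rw [div_pow, mul_div_assoc'] at h3
  rw [Finset.sum_add_distrib, h1, ← Finset.sum_div, ← Finset.sum_div, ← Finset.mul_sum,
    ← Finset.mul_sum, ← h2, mul_div_assoc ((m:ℝ) + 1), div_self (by positivity),
    div_le_iff₀ (by positivity)] at h3
  refine le_of_mul_le_mul_left (h3.trans (le_of_eq (by ring))) (by positivity)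

lemma T_sum_le {ι : Type} (s : Finset ι) {r : ι → V (N + 2) → ℝ} (hr : ∀ i, Adm (r i)) (w : ι → ℝ)
    {u : V (N + 2)} (hu : ‖u‖ = 1) :
    (∃ C, BM C fun v => ∑ i ∈ s, w i * r i v ^ (N + 1)) ∧
      R (fun v => ∑ i ∈ s, w i * r i v ^ (N + 1)) u = ∑ i ∈ s, w i * T (r i) u := by
  classical
  induction s using Finset.induction_on with
  | empty => exact ⟨⟨_, by simpa using BM.const (n := N + 2) 0⟩, by simp [R]⟩
  | insert j s hj ih =>
    obtain ⟨⟨C, hC⟩, e⟩ := ih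
    obtain ⟨D, hD⟩ := (hr j).bm
    have h1 := (hD.pow (N + 1)).const_mul (w j)
    simp_rw [Finset.sum_insert hj]
    refine ⟨⟨_, h1.add hC⟩, ?_⟩
    rw [R_add h1 hC (ne_zero_of_unit hu), e, R_const_mul, T_unit _ hu]

lemma T_rho_pos (g : V (N + 2) ≃L[ℝ] V (N + 2)) {u : V (N + 2)} (hu : u ≠ 0) :
    0 < T (rho g) u := by
  rw [T_rho]
  exact mul_pos (mul_pos (jac_pos g) (om_pos _)) (rho_pos _ hu)

lemma T_fA_gt {k : ℕ} (hk : 2 ≤ k) (g : V (q + 3) ≃L[ℝ] V (q + 3)) {u : V (q + 3)} (hu : ‖u‖ = 1) :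
    ∑ i ∈ Finset.range k, T (rho (gi g (th k i))) u ^ (q + 3) < T (fA k g) u ^ (q + 3) := by
  set τ : ℕ → ℝ := fun i => T (rho (gi g (th k i))) u with hτ
  have hτ0 : ∀ i, 0 < τ i := fun i => T_rho_pos _ (ne_zero_of_unit hu)
  have hne : (Finset.range k).Nonempty := ⟨0, Finset.mem_range.2 (by omega)⟩
  have hS : 0 < ∑ i ∈ Finset.range k, τ i ^ (q + 3) :=
    Finset.sum_pos (fun i _ => pow_pos (hτ0 i) _) hne
  obtain ⟨h, h0, hh⟩ : ∃ h : ℝ, 0 < h ∧ h ^ (q + 3) = ∑ i ∈ Finset.range k, τ i ^ (q + 3) :=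
    ⟨_, rpow_pos_of_pos hS _, rpow_inv_natCast_pow hS.le (by omega)⟩
  have hw : ∀ i, 0 < τ i / h := fun i => div_pos (hτ0 i) h0
  have h1 : ∑ i ∈ Finset.range k, (τ i / h) ^ (q + 3) = 1 := by
    simp_rw [div_pow]
    rw [← Finset.sum_div, hh, div_self hS.ne']
  have h2 : ∀ i ∈ Finset.range k, (τ i / h) ^ (q + 3) < τ i / h * (τ i / h) := by
    intro i hi
    have h3 : (τ i / h) ^ (q + 3) < 1 := by
      rw [← h1]
      refine Finset.single_lt_sum (f := fun i => (τ i / h) ^ (q + 3))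
        (j := if i = 0 then 1 else 0) (by split_ifs <;> omega) hi
        (Finset.mem_range.2 (by split_ifs <;> omega)) (pow_pos (hw _) _)
        fun l _ _ => (pow_pos (hw l) _).le
    have h4 : τ i / h < 1 := by
      by_contra hc
      exact absurd (one_le_pow₀ (not_lt.1 hc)) (not_le.2 h3)
    rw [← sq]
    exact pow_lt_pow_right_of_lt_one₀ (hw i) h4 (by omega)
  have h3 := Finset.sum_lt_sum_of_nonempty hne h2
  rw [h1] at h3
  obtain ⟨⟨C, hC⟩, e⟩ := T_sum_le (Finset.range k) (fun i => adm_rho (gi g (th k i)))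
    (fun i => τ i / h) hu
  obtain ⟨D, hD⟩ := (adm_fA k g).bm
  have h4 := R_mono hC (hD.pow (q + 2)) (fun v hv => holder_sum _ (fun i => (hw i).le)
    (fun i => (adm_rho _).nn v) ((rho_pos _ (ne_zero_of_unit hv)).trans_le
      (le_fA (i := 0) (by omega) g v)) (q + 1) h1 (fA_pow k g v)) (ne_zero_of_unit hu)
  rw [e, ← T_unit _ hu] at h4
  rw [← hh]
  refine pow_lt_pow_left₀ (lt_of_lt_of_le ?_ h4) h0.le (by omega)
  calc h = h * 1 := (mul_one h).symm
    _ < h * ∑ i ∈ Finset.range k, τ i / h * (τ i / h) := by gcongr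
    _ = _ := by
      rw [Finset.mul_sum]
      refine Finset.sum_congr rfl fun i _ => ?_
      change _ = τ i / h * τ i
      field_simp

lemma Nn_T_rho (g : V (q + 3) ≃L[ℝ] V (q + 3)) :
    Nn (T (rho g)) = PhiB (q + 2) * (jac g * om (q + 3)) ^ (q + 2) := by
  have h := Phi_rho g
  rw [Phi, Nn_rho, div_eq_iff (pow_pos (mul_pos (jac_pos g) (om_pos _)) _).ne'] at h
  exact h

lemma lev_mul {k : ℕ} (hk : 0 < k) (v : ℝ) :
    lev (q + 2) k * (k * v) ^ (q + 2) = k * (PhiB (q + 2) * v ^ (q + 2)) := by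
  have : (k:ℝ) ≠ 0 := by exact_mod_cast hk.ne'
  rw [lev, show q + 2 - 1 = q + 1 from rfl, mul_pow, pow_succ (k:ℝ) (q + 1)]
  field_simp

lemma lev_pos' {k : ℕ} (hk : 0 < k) : 0 < lev N k := by
  have := PhiB_pos N
  rw [lev]; positivity

lemma lev_anti {j k : ℕ} (hj : 0 < j) (h : j ≤ k) : lev N k ≤ lev N j := by
  have := PhiB_pos N
  have h0 : (0:ℝ) < j := by exact_mod_cast hj
  have h1 : (j:ℝ) ≤ k := by exact_mod_cast h
  rw [lev, lev]; gcongr

lemma lev_lt {j k : ℕ} (hj : 0 < j) (h : j < k) : lev (q + 2) k < lev (q + 2) j := by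
  have := PhiB_pos (q + 2)
  have h0 : (0:ℝ) < j := by exact_mod_cast hj
  have h1 : (j:ℝ) < k := by exact_mod_cast h
  rw [lev, lev]
  exact div_lt_div_of_pos_left this (by positivity) (pow_lt_pow_left₀ h1 h0.le (by omega))

lemma lev_lt_fA {k : ℕ} (hk : 2 ≤ k) (g : V (q + 3) ≃L[ℝ] V (q + 3)) :
    lev (q + 2) k < Phi (fA k g) := by
  have hk0 : (0:ℝ) < k := by exact_mod_cast (by omega : 0 < k)
  rw [Phi, Nn_fA, lt_div_iff₀ (pow_pos (mul_pos hk0 (mul_pos (jac_pos g) (om_pos _))) _),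
    lev_mul (by omega)]
  have h1 : k * (PhiB (q + 2) * (jac g * om (q + 3)) ^ (q + 2)) =
      ∫ u, ∑ i ∈ Finset.range k, T (rho (gi g (th k i))) u ^ (q + 3) ∂mu (q + 3) := by
    have h : ∀ i, ∫ u, T (rho (gi g (th k i))) u ^ (q + 3) ∂mu (q + 3) =
        PhiB (q + 2) * (jac g * om (q + 3)) ^ (q + 2) := fun i =>
      (Nn_T_rho (gi g (th k i))).trans (by rw [jac_gi])
    rw [integral_finsetSum _ fun i _ => (adm_rho _).T.int_pow _]
    simp_rw [h]
    simp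
  have i1 : Integrable (fun u => ∑ i ∈ Finset.range k, T (rho (gi g (th k i))) u ^ (q + 3))
      (mu (q + 3)) := integrable_finsetSum _ fun i _ => (adm_rho _).T.int_pow _
  have i2 := (adm_fA k g).T.int_pow (q + 3)
  have h2 : ∀ᵐ u ∂mu (q + 3), ∑ i ∈ Finset.range k, T (rho (gi g (th k i))) u ^ (q + 3) <
      T (fA k g) u ^ (q + 3) := mu_sphere.mono fun u hu => T_fA_gt hk g hu
  refine h1.trans_lt (lt_of_le_of_ne (integral_mono_ae i1 i2 (h2.mono fun _ h => h.le)) fun e => ?_)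
  have h3 := (integral_eq_iff_of_ae_le i1 i2 (h2.mono fun _ h => h.le)).1 e
  have h4 : ∀ᵐ _u ∂mu (q + 3), False := (h2.and h3).mono fun u h => h.1.ne h.2
  rw [eventually_false_iff_eq_bot, ae_eq_bot] at h4
  have := mu_real_univ (q + 3)
  rw [h4] at this
  simp only [measureReal_zero_apply] at this
  exact (om_pos _).ne this

/-! ### the long ellipsoids -/

noncomputable def dgv (d : Fin n → ℝ) (hd : ∀ i, d i ≠ 0) : V n ≃L[ℝ] V n :=
  LinearEquiv.toContinuousLinearEquiv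
    { toFun := fun x => WithLp.toLp 2 fun i => d i * x i
      invFun := fun x => WithLp.toLp 2 fun i => (d i)⁻¹ * x i
      map_add' := fun x y => by ext i; simp [mul_add]
      map_smul' := fun c x => by ext i; simp [mul_left_comm]
      left_inv := fun x => by ext i; simp [hd i]
      right_inv := fun x => by ext i; simp [hd i] }

lemma dgv_symm (d : Fin n → ℝ) (hd : ∀ i, d i ≠ 0) (x : V n) :
    (dgv d hd).symm x = WithLp.toLp 2 fun i => (d i)⁻¹ * x i := rfl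

lemma jac_dgv (d : Fin n → ℝ) (hd : ∀ i, d i ≠ 0) : jac (dgv d hd) = |∏ i, d i| := by
  unfold jac
  rw [← LinearMap.det_toMatrix (EuclideanSpace.basisFun (Fin n) ℝ).toBasis, ← Matrix.det_diagonal]
  congr 2
  ext i j
  rw [LinearMap.toMatrix_apply]
  change d i * (EuclideanSpace.basisFun (Fin n) ℝ j) i = _
  by_cases h : i = j <;> simp [Matrix.diagonal, h]

noncomputable def dA (N : ℕ) (a : ℝ) : Fin (N + 2) → ℝ :=
  Fin.cons (exp (-a)) (Fin.cons (exp a) fun _ => 1)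

lemma dA_pos (a : ℝ) (i : Fin (N + 2)) : 0 < dA N a i := by
  refine Fin.cases ?_ (fun j => Fin.cases ?_ (fun l => ?_) j) i
  · exact exp_pos _
  · exact exp_pos _
  · exact one_pos

noncomputable def EA (N : ℕ) (a : ℝ) : V (N + 2) ≃L[ℝ] V (N + 2) :=
  dgv (dA N a) fun i => (dA_pos a i).ne'

lemma jac_EA (a : ℝ) : jac (EA N a) = 1 := by
  rw [EA, jac_dgv, abs_of_pos (Finset.prod_pos fun i _ => dA_pos a i)]
  simp [dA, Fin.prod_univ_succ, ← exp_add]

lemma EA_pi (a : ℝ) (x : V (N + 2)) : rho (EA N a) (rot π x) = rho (EA N a) x := by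
  unfold rho
  rw [EA, dgv_symm, dgv_symm, EuclideanSpace.norm_eq, EuclideanSpace.norm_eq]
  congr 2
  refine Finset.sum_congr rfl fun i _ => ?_
  refine Fin.cases ?_ (fun j => Fin.cases ?_ (fun l => ?_) j) i <;> simp [rot_apply]

lemma nc_EA (N k : ℕ) (C : ℝ) : ∃ a0 : ℝ, ∀ a : ℝ, a0 ≤ a → NC C k (EA N a) := by
  obtain ⟨s, hs, h⟩ := exists_sin (k := k)
  refine ⟨|C / s|, fun a ha i h0 hk H => ?_⟩
  have h1 := J_bound H hs (h i h0 hk) (pt 0 (pt 1 0))
  have h2 : (EA N a).symm (pt 0 (pt 1 0)) = (exp a)⁻¹ • pt 0 (pt 1 0) := by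
    rw [EA, dgv_symm]
    ext i
    refine Fin.cases ?_ (fun j => Fin.cases ?_ (fun l => ?_) j) i <;> simp [dA]
  have h3 := PiLp.norm_apply_le ((EA N a).symm (Jm (pt 0 (pt 1 0)))) 0
  rw [h2, norm_smul, norm_pt_zero, norm_pt_axis, abs_one, mul_one,
    Real.norm_of_nonneg (by positivity)] at h1
  have h4 : (EA N a).symm (Jm (pt 0 (pt 1 0))) 0 = -(exp (-a))⁻¹ := by
    rw [EA, dgv_symm]; simp [dA, Jm]
  rw [h4, norm_neg, Real.norm_of_nonneg (by positivity)] at h3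
  have h5 := h3.trans h1
  rw [exp_neg, inv_inv, ← div_eq_mul_inv, le_div_iff₀ (by positivity)] at h5
  have h7 := add_one_le_exp a
  have h8 := le_abs_self (C / s)
  have h9 := abs_nonneg (C / s)
  nlinarith

lemma cmp_EA (a b : ℝ) : Cmp (exp |a - b|) (EA N a) (EA N b) := by
  have key : ∀ (a b : ℝ) (x : V (N + 2)),
      ‖(EA N a).symm x‖ ≤ exp |a - b| * ‖(EA N b).symm x‖ := by
    intro a b x
    rw [← Real.norm_of_nonneg (exp_pos |a - b|).le, ← norm_smul, EA, EA, dgv_symm, dgv_symm,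
      EuclideanSpace.norm_eq, EuclideanSpace.norm_eq]
    refine Real.sqrt_le_sqrt (Finset.sum_le_sum fun i _ => ?_)
    have h : (dA N a i)⁻¹ ≤ exp |a - b| * (dA N b i)⁻¹ := by
      refine Fin.cases ?_ (fun j => Fin.cases ?_ (fun l => ?_) j) i
      · change (exp (-a))⁻¹ ≤ _ * (exp (-b))⁻¹
        rw [← exp_neg, ← exp_neg, ← exp_add, exp_le_exp]
        linarith [le_abs_self (a - b)]
      · change (exp a)⁻¹ ≤ _ * (exp b)⁻¹
        rw [← exp_neg, ← exp_neg, ← exp_add, exp_le_exp]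
        linarith [neg_abs_le (a - b)]
      · change (1:ℝ)⁻¹ ≤ _ * (1:ℝ)⁻¹
        rw [inv_one, mul_one]
        exact one_le_exp (abs_nonneg _)
    have h1 := dA_pos a i
    have h2 := dA_pos b i
    change ‖(dA N a i)⁻¹ * x i‖ ^ 2 ≤ ‖exp |a - b| * ((dA N b i)⁻¹ * x i)‖ ^ 2
    rw [← mul_assoc, norm_mul, norm_mul, Real.norm_of_nonneg (by positivity),
      Real.norm_of_nonneg (by positivity : 0 ≤ exp |a - b| * (dA N b i)⁻¹)]
    gcongr
  exact fun x => ⟨key a b x, by rw [abs_sub_comm]; exact key b a x⟩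

lemma Cmp.fA_le {C : ℝ} (hC : 0 ≤ C) {g h : V (N + 2) ≃L[ℝ] V (N + 2)} (H : Cmp C g h) (k : ℕ)
    (x : V (N + 2)) : fA k h x ≤ C * fA k g x := by
  refine le_of_pow_le_pow_left₀ (n := N + 2) (by omega) (mul_nonneg hC (fA_nonneg k g x)) ?_
  rw [mul_pow, fA_pow, fA_pow, Finset.mul_sum]
  refine Finset.sum_le_sum fun i _ => ?_
  rw [← mul_pow]
  exact pow_le_pow_left₀ ((adm_rho _).nn x) ((H.gi _).rho_le x) _

lemma contOn_fA (k : ℕ) (g : V (N + 2) ≃L[ℝ] V (N + 2)) : ContinuousOn (fA k g) {0}ᶜ :=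
  (continuousOn_finsetSum _ fun _ _ => (continuousOn_rho _).pow _).rpow_const
    fun _ _ => Or.inr (by positivity)

end Pool.Agent.Lib.MP_242fd5_gt.Ty
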