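import Pool.Agent.Lib.MP_242fd5_gt.Ty.S7b

set_option autoImplicit false

open MeasureTheory ProbabilityTheory Set Metric Filter Topology Real
open scoped ENNReal NNReal RealInnerProductSpace

namespace Pool.Agent.Lib.MP_242fd5_gt.Ty

variable {n N q : ℕ}

lemma exists_small {M ε : ℝ} (hM : 0 ≤ M) (hε : 0 < ε) : ∃ κ : ℝ, 0 < κ ∧ κ ≤ 1 ∧ M * κ ≤ ε := by
  refine ⟨min 1 (ε / (M + 1)), by positivity, min_le_left _ _, ?_⟩
  calc M * min 1 (ε / (M + 1)) ≤ (M + 1) * (ε / (M + 1)) := by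
        gcongr
        · linarith
        · exact min_le_right _ _
    _ = ε := by field_simp

lemma exists_pow_le {M ε : ℝ} (hε : 0 < ε) (m : ℕ) :
    ∃ δ : ℝ, 0 < δ ∧ (1 + δ) ^ m * M ≤ M + ε := by
  have h1 : Tendsto (fun δ : ℝ => (1 + δ) ^ m * M) (𝓝[>] 0) (𝓝 M) := by
    have : Continuous fun δ : ℝ => (1 + δ) ^ m * M := by fun_prop
    simpa using (this.tendsto 0).mono_left nhdsWithin_le_nhds
  obtain ⟨δ, h, h0⟩ := ((h1.eventually (ge_mem_nhds (by linarith : M < M + ε))).and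
    self_mem_nhdsWithin).exists
  exact ⟨δ, h0, h⟩

lemma sum_le_max_add {k : ℕ} (hk : 0 < k) {x : ℕ → ℝ} (hx : ∀ i, 0 ≤ x i) : ∃ j, j < k ∧
    ∑ i ∈ Finset.range k, x i ≤ x j + ∑ p ∈ (Finset.range k).offDiag, min (x p.1) (x p.2) := by
  obtain ⟨j, hj, hm⟩ := Finset.exists_max_image (Finset.range k) x ⟨0, Finset.mem_range.2 hk⟩
  refine ⟨j, Finset.mem_range.1 hj, ?_⟩
  rw [← Finset.add_sum_erase _ _ hj]
  gcongr
  calc ∑ i ∈ (Finset.range k).erase j, x i
      = ∑ p ∈ ((Finset.range k).erase j).image (fun i => (i, j)), min (x p.1) (x p.2) := by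
        rw [Finset.sum_image fun a _ b _ h => (Prod.ext_iff.1 h).1]
        exact Finset.sum_congr rfl fun i hi =>
          (min_eq_left (hm i (Finset.mem_of_mem_erase hi))).symm
    _ ≤ _ := by
        refine Finset.sum_le_sum_of_subset_of_nonneg (fun p hp => ?_)
          fun p _ _ => le_min (hx _) (hx _)
        obtain ⟨i, hi, rfl⟩ := Finset.mem_image.1 hp
        exact Finset.mem_offDiag.2 ⟨Finset.mem_of_mem_erase hi, hj, Finset.ne_of_mem_erase hi⟩

lemma card_offDiag_le (k : ℕ) : (((Finset.range k).offDiag.card : ℕ) : ℝ) ≤ k * k := by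
  rw [Finset.offDiag_card, Finset.card_range]
  exact_mod_cast Nat.sub_le _ _

lemma T_le_add_sum {ι : Type} (s : Finset ι) {a b : V (N + 2) → ℝ} {r : ι → V (N + 2) → ℝ} (ha : Adm a)
    (hb : Adm b) (hr : ∀ i, Adm (r i))
    (h : ∀ v, ‖v‖ = 1 → a v ^ (N + 1) ≤ b v ^ (N + 1) + ∑ i ∈ s, r i v ^ (N + 1))
    {u : V (N + 2)} (hu : ‖u‖ = 1) : T a u ≤ T b u + ∑ i ∈ s, T (r i) u := by
  obtain ⟨⟨C, hC⟩, e⟩ := T_sum_le s hr (fun _ => 1) hu
  simp only [one_mul] at hC e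
  obtain ⟨A, hA⟩ := ha.bm
  obtain ⟨B, hB⟩ := hb.bm
  rw [← e, T_unit a hu, T_unit b hu, ← R_add (hB.pow _) hC (ne_zero_of_unit hu)]
  exact R_mono (hA.pow _) ((hB.pow _).add hC) h (ne_zero_of_unit hu)

lemma small_ov {κ v : ℝ} (hκ : 0 < κ) (hv : 0 < v) : ∃ C : ℝ, 0 ≤ C ∧
    ∀ g h : V (N + 1) ≃L[ℝ] V (N + 1), jac g = v → jac h = v → ¬ Cmp C g h →
      ov g h ≤ κ ∧ ov (dual g) (dual h) ≤ κ := by
  have ho := om_pos N
  refine ⟨2 * om N * v / κ + 2 * om N * v⁻¹ / κ, by positivity, fun g h hg hh H => ⟨?_, ?_⟩⟩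
  · by_contra hc
    exact H ((cmp_of_ov hκ hg hh (not_le.1 hc).le).mono (le_add_of_nonneg_right (by positivity)))
  · by_contra hc
    have := (cmp_of_ov hκ (by rw [jac_dual, hg]) (by rw [jac_dual, hh])
      (not_le.1 hc).le).dual (by positivity)
    rw [dual_dual, dual_dual] at this
    exact H (this.mono (le_add_of_nonneg_left (by positivity)))

/-- the mass of `a` far above the rotated ellipsoids -/
noncomputable def dust (A : ℝ) (k : ℕ) (g : V (N + 2) ≃L[ℝ] V (N + 2)) (a : V (N + 2) → ℝ) : ℝ :=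
  Nn fun x => if A * sm k g x < a x then a x else 0

lemma exists_sm_le {k : ℕ} (hk : 0 < k) (g : V (N + 2) ≃L[ℝ] V (N + 2)) (x : V (N + 2)) :
    ∃ i, i < k ∧ sm k g x ≤ k * rho (gi g (th k i)) x := by
  obtain ⟨j, hj, hm⟩ := Finset.exists_max_image (Finset.range k)
    (fun i => rho (gi g (th k i)) x) ⟨0, Finset.mem_range.2 hk⟩
  refine ⟨j, Finset.mem_range.1 hj, ?_⟩
  have := Finset.sum_le_card_nsmul _ _ _ hm
  rwa [Finset.card_range, nsmul_eq_mul] at this

lemma int_min_pow (c : ℝ) (g h : V (N + 1) ≃L[ℝ] V (N + 1)) :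
    ∫ u, (c * min (rho g u) (rho h u)) ^ (N + 1) ∂mu (N + 1) = c ^ (N + 1) * ov g h :=
  Nn_smul c _

lemma adm_min (g h : V n ≃L[ℝ] V n) {c : ℝ} (hc : 0 ≤ c) :
    Adm fun x => c * min (rho g x) (rho h x) := ((adm_rho g).min (adm_rho h)).smul hc

lemma sharp' {f : V (q + 3) → ℝ} (F : Adm f) : Nn (T f) ≤ PhiB (q + 2) * Nn f ^ (q + 2) := by
  rcases F.Nn_nonneg.eq_or_lt with h | h
  · obtain ⟨C, -, hC⟩ := bus (q + 1)
    have := hC f F
    rw [← h] at this ⊢
    simpa using this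
  · rw [Nn_T_eq h]
    exact mul_le_mul_of_nonneg_right (sharp F) (by positivity)

theorem dec0 (q : ℕ) {k : ℕ} (hk : 0 < k)
    {η : ℝ} (hη : 0 < η) : ∃ d : ℝ, 0 < d ∧ ∀ A : ℝ, 0 ≤ A → ∃ C : ℝ, 0 ≤ C ∧
      ∀ (a : V (q + 3) → ℝ) (g : V (q + 3) ≃L[ℝ] V (q + 3)), Adm a → Nn a = k * om (q + 3) →
        QInv k a → jac g = 1 → NC C k g → dust A k g a ≤ d →
          Nn (T a) ≤ k * (PhiB (q + 2) * om (q + 3) ^ (q + 2)) + η := by
  have hB := fun (f : V (q + 3) → ℝ) (F : Adm f) => sharp' F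
  have hP := PhiB_pos (q + 2)
  have ho := om_pos (q + 3)
  have ho' := om_pos (q + 2)
  have hk0 : (0:ℝ) < k := by exact_mod_cast hk
  obtain ⟨δ, hδ, hδ'⟩ := exists_pow_le (M := k * (PhiB (q + 2) * om (q + 3) ^ (q + 2)))
    (ε := η / 3) (by positivity) (q + 3)
  obtain ⟨C1, hC1, h1⟩ := add_pow_le_eta (q + 3) hδ
  obtain ⟨d, hd, hd1, hd'⟩ := exists_small (M := C1 * 2 ^ (q + 2) * PhiB (q + 2)) (ε := η / 3)
    (by positivity) (by positivity)
  refine ⟨d, hd, fun A hA => ?_⟩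
  set B : ℝ := A * k with hBdef
  have hB0 : 0 ≤ B := by positivity
  set B' : ℝ := B ^ (q + 2) * om (q + 2) with hB'
  have hB'0 : 0 ≤ B' := by positivity
  obtain ⟨κ1, hκ1, -, e1⟩ := exists_small (M := k * k * B ^ (q + 3)) (ε := δ * (k * om (q + 3)))
    (by positivity) (by positivity)
  obtain ⟨κ2, hκ2, -, e2⟩ := exists_small
    (M := C1 * 2 ^ (q + 2) * ((k * k) ^ (q + 2) * (k * k * B' ^ (q + 3)))) (ε := η / 3)
    (by positivity) (by positivity)
  obtain ⟨C, hC, hov⟩ := small_ov (N := q + 2) (lt_min hκ1 hκ2) one_pos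
  refine ⟨C, hC, fun a g ha hN hQ hgv hNC hdust => ?_⟩
  set ρ : ℕ → V (q + 3) → ℝ := fun i => rho (gi g (th k i)) with hρ
  set b : ℕ → V (q + 3) → ℝ := fun i x => if B * ρ i x < a x then 0 else a x with hb
  have hbA : ∀ i, Adm (b i) := fun i => ha.below ((adm_rho _).smul hB0)
  have hba : ∀ i x, b i x ≤ a x := fun i x => by
    simp only [hb]; split_ifs
    · exact ha.nn x
    · exact le_rfl
  have hbρ : ∀ i x, b i x ≤ B * ρ i x := fun i x => by
    simp only [hb]; split_ifs with h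
    · exact mul_nonneg hB0 ((adm_rho _).nn x)
    · exact not_lt.1 h
  set w : V (q + 3) → ℝ := fun x => if A * sm k g x < a x then a x else 0 with hw
  have hwA : Adm w := ha.above ((adm_sm k g).smul hA)
  have hpair : ∀ p ∈ (Finset.range k).offDiag,
      ov (gi g (th k p.1)) (gi g (th k p.2)) ≤ min κ1 κ2 ∧
        ov (dual (gi g (th k p.1))) (dual (gi g (th k p.2))) ≤ min κ1 κ2 := fun p hp => by
    obtain ⟨p1, p2, p3⟩ := Finset.mem_offDiag.1 hp
    exact hov _ _ (by rw [jac_gi, hgv]) (by rw [jac_gi, hgv])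
      (hNC.pair (Finset.mem_range.1 p1) (Finset.mem_range.1 p2) p3)
  -- equal masses
  have hm : ∀ i, Nn (b i) = Nn (b 0) := fun i => by
    have := Nn_comp (hbA 0) (rot (th k i)).toContinuousLinearEquiv
    rw [jac_iso, inv_one, one_mul] at this
    rw [← this]
    congr 1
    funext x
    change b i x = b 0 (rot (th k i) x)
    have e : ρ 0 (rot (th k i) x) = ρ i x := by
      simp only [hρ, rho_gi, rot_add]
      simp [th]
    simp only [hb, e, hQ.th]
  have hmass : Nn (b 0) ≤ (1 + δ) * om (q + 3) := by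
    have i1 : ∀ p : ℕ × ℕ, Integrable (fun u => (B * min (ρ p.1 u) (ρ p.2 u)) ^ (q + 3))
        (mu (q + 3)) := fun p => (adm_min _ _ hB0).int_pow _
    have h2 : ∫ u, ∑ i ∈ Finset.range k, b i u ^ (q + 3) ∂mu (q + 3) ≤
        ∫ u, (a u ^ (q + 3) + ∑ p ∈ (Finset.range k).offDiag,
          (B * min (ρ p.1 u) (ρ p.2 u)) ^ (q + 3)) ∂mu (q + 3) := by
      refine integral_mono (integrable_finsetSum _ fun i _ => (hbA i).int_pow _)
        ((ha.int_pow _).add (integrable_finsetSum _ fun p _ => i1 p)) fun u => ?_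
      obtain ⟨j, -, hj⟩ := sum_le_max_add hk (x := fun i => b i u ^ (q + 3))
        fun i => pow_nonneg ((hbA i).nn u) _
      refine hj.trans (add_le_add (pow_le_pow_left₀ ((hbA j).nn u) (hba j u) _)
        (Finset.sum_le_sum fun p _ => ?_))
      rw [mul_min_of_nonneg _ _ hB0]
      rcases le_total (B * ρ p.1 u) (B * ρ p.2 u) with h | h
      · rw [min_eq_left h]
        exact (min_le_left _ _).trans (pow_le_pow_left₀ ((hbA _).nn u) (hbρ _ u) _)
      · rw [min_eq_right h]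
        exact (min_le_right _ _).trans (pow_le_pow_left₀ ((hbA _).nn u) (hbρ _ u) _)
    rw [integral_finsetSum _ fun i _ => (hbA i).int_pow _,
      integral_add (ha.int_pow _) (integrable_finsetSum _ fun p _ => i1 p),
      integral_finsetSum _ fun p _ => i1 p] at h2
    have h3 : ∑ i ∈ Finset.range k, ∫ u, b i u ^ (q + 3) ∂mu (q + 3) = k * Nn (b 0) := by
      rw [Finset.sum_congr rfl fun i _ => show ∫ u, b i u ^ (q + 3) ∂mu (q + 3) = _ from hm i]
      simp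
    have h4 := Finset.sum_le_card_nsmul (Finset.range k).offDiag
      (fun p => ∫ u, (B * min (ρ p.1 u) (ρ p.2 u)) ^ (q + 3) ∂mu (q + 3)) (B ^ (q + 3) * κ1)
      fun p hp => (int_min_pow B _ _).trans_le
        (by gcongr; exact (hpair p hp).1.trans (min_le_left _ _))
    rw [nsmul_eq_mul] at h4
    have h5 := mul_le_mul_of_nonneg_right (card_offDiag_le k)
      (by positivity : 0 ≤ B ^ (q + 3) * κ1)
    have h6 : ∫ u, a u ^ (q + 3) ∂mu (q + 3) = k * om (q + 3) := hN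
    refine le_of_mul_le_mul_left ?_ hk0
    linarith
  -- the transform
  have hT : ∀ u, ‖u‖ = 1 → T a u ≤ T w u + ∑ i ∈ Finset.range k, T (b i) u := fun u hu => by
    refine T_le_add_sum _ ha hwA hbA (fun x _ => ?_) hu
    have hs : 0 ≤ ∑ i ∈ Finset.range k, b i x ^ (q + 1 + 1) :=
      Finset.sum_nonneg fun i _ => pow_nonneg ((hbA i).nn x) _
    by_cases h : A * sm k g x < a x
    · simp only [hw, if_pos h]; linarith
    · obtain ⟨i, hi, h2⟩ := exists_sm_le hk g x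
      have h3 : b i x = a x := by
        simp only [hb]
        rw [if_neg]
        refine not_lt.2 ((not_lt.1 h).trans ?_)
        rw [hBdef, mul_assoc]
        exact mul_le_mul_of_nonneg_left h2 hA
      have h4 := Finset.single_le_sum (f := fun i => b i x ^ (q + 1 + 1))
        (fun i _ => pow_nonneg ((hbA i).nn x) _) (Finset.mem_range.2 hi)
      have h5 := pow_nonneg (hwA.nn x) (q + 1 + 1)
      rw [h3] at h4
      linarith
  set σ : ℕ → V (q + 3) → ℝ := fun i => rho (dual (gi g (th k i))) with hσ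
  have hTb : ∀ i u, T (b i) u ≤ B' * σ i u := fun i u => by
    have := T_mono (hbA i) ((adm_rho _).smul hB0) (fun x _ => hbρ i x) u
    rw [T_smul, T_rho, jac_gi, hgv] at this
    exact this.trans (le_of_eq (by rw [hB']; ring))
  have i2 : ∀ p : ℕ × ℕ, Integrable (fun u => (B' * min (σ p.1 u) (σ p.2 u)) ^ (q + 3))
      (mu (q + 3)) := fun p => (adm_min _ _ hB'0).int_pow _
  have i3 : Integrable (fun u => ∑ i ∈ Finset.range k, T (b i) u ^ (q + 3)) (mu (q + 3)) :=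
    integrable_finsetSum _ fun i _ => (hbA i).T.int_pow _
  have i4 : Integrable (fun u => ∑ p ∈ (Finset.range k).offDiag,
      (B' * min (σ p.1 u) (σ p.2 u)) ^ (q + 3)) (mu (q + 3)) := integrable_finsetSum _ fun p _ => i2 p
  have i5 := hwA.T.int_pow (q + 3)
  have i6 : Integrable (fun u => ((k:ℝ) * k) ^ (q + 2) * ∑ p ∈ (Finset.range k).offDiag,
      (B' * min (σ p.1 u) (σ p.2 u)) ^ (q + 3) + T w u ^ (q + 3)) (mu (q + 3)) :=
    (i4.const_mul _).add i5
  have h2 : Nn (T a) ≤ ∫ u, ((1 + δ) * ∑ i ∈ Finset.range k, T (b i) u ^ (q + 3) +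
      C1 * 2 ^ (q + 2) * ((k * k) ^ (q + 2) * ∑ p ∈ (Finset.range k).offDiag,
        (B' * min (σ p.1 u) (σ p.2 u)) ^ (q + 3) + T w u ^ (q + 3))) ∂mu (q + 3) := by
    refine integral_mono_ae (ha.T.int_pow _)
      ((i3.const_mul _).add (i6.const_mul _)) (mu_sphere.mono fun u hu => ?_)
    obtain ⟨j, hj, h3⟩ := sum_le_max_add hk (x := fun i => T (b i) u) fun i => (hbA i).T.nn u
    have hnn : ∀ p : ℕ × ℕ, 0 ≤ B' * min (σ p.1 u) (σ p.2 u) := fun p => (adm_min _ _ hB'0).nn u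
    set r := ∑ p ∈ (Finset.range k).offDiag, B' * min (σ p.1 u) (σ p.2 u) with hr
    have hr0 : 0 ≤ r := Finset.sum_nonneg fun p _ => hnn p
    have h4 : ∑ p ∈ (Finset.range k).offDiag, min (T (b p.1) u) (T (b p.2) u) ≤ r :=
      Finset.sum_le_sum fun p _ => by
        rw [mul_min_of_nonneg _ _ hB'0]; exact min_le_min (hTb _ u) (hTb _ u)
    have h5 : T a u ≤ T (b j) u + (r + T w u) := by linarith [hT u hu]
    have h6 := h1 _ _ ((hbA j).T.nn u) (add_nonneg hr0 (hwA.T.nn u))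
    have h7 := add_pow_le hr0 (hwA.T.nn u) (q + 3)
    have h8 : r ^ (q + 3) ≤ (k * k) ^ (q + 2) * ∑ p ∈ (Finset.range k).offDiag,
        (B' * min (σ p.1 u) (σ p.2 u)) ^ (q + 3) := by
      refine (pow_sum_le_card_mul_sum_pow (fun p _ => hnn p) (q + 2)).trans ?_
      gcongr
      · exact Finset.sum_nonneg fun p _ => pow_nonneg (hnn p) _
      · exact card_offDiag_le k
    have h9 := Finset.single_le_sum (f := fun i => T (b i) u ^ (q + 3))
      (fun i _ => pow_nonneg ((hbA i).T.nn u) _) (Finset.mem_range.2 hj)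
    refine (pow_le_pow_left₀ (ha.T.nn u) h5 _).trans (h6.trans (add_le_add (by gcongr) ?_))
    rw [mul_assoc]
    gcongr
    exact h7.trans (by rw [show q + 3 - 1 = q + 2 from rfl]; gcongr)
  rw [integral_add (i3.const_mul _) (i6.const_mul _), integral_const_mul,
    integral_const_mul, integral_add (i4.const_mul _) i5, integral_const_mul,
    integral_finsetSum _ fun i _ => (hbA i).T.int_pow _, integral_finsetSum _ fun p _ => i2 p] at h2
  have h3 := Finset.sum_le_card_nsmul (Finset.range k)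
    (fun i => ∫ u, T (b i) u ^ (q + 3) ∂mu (q + 3))
    (PhiB (q + 2) * ((1 + δ) * om (q + 3)) ^ (q + 2)) fun i _ => (hB _ (hbA i)).trans (by
      rw [hm i]; gcongr; exact (hbA 0).Nn_nonneg)
  rw [Finset.card_range, nsmul_eq_mul] at h3
  have h4 := Finset.sum_le_card_nsmul (Finset.range k).offDiag
    (fun p => ∫ u, (B' * min (σ p.1 u) (σ p.2 u)) ^ (q + 3) ∂mu (q + 3)) (B' ^ (q + 3) * κ2)
    fun p hp => (int_min_pow B' _ _).trans_le
      (by gcongr; exact (hpair p hp).2.trans (min_le_right _ _))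
  rw [nsmul_eq_mul] at h4
  have h5 := h4.trans (mul_le_mul_of_nonneg_right (card_offDiag_le k)
    (by positivity : 0 ≤ B' ^ (q + 3) * κ2))
  have h6 : ∫ u, T w u ^ (q + 3) ∂mu (q + 3) ≤ PhiB (q + 2) * d := by
    refine (hB w hwA).trans (mul_le_mul_of_nonneg_left ?_ hP.le)
    exact (pow_le_pow_left₀ hwA.Nn_nonneg hdust _).trans (pow_le_of_le_one hd.le hd1 (by omega))
  refine h2.trans ?_
  calc _ ≤ (1 + δ) * (k * (PhiB (q + 2) * ((1 + δ) * om (q + 3)) ^ (q + 2))) +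
        C1 * 2 ^ (q + 2) * ((k * k) ^ (q + 2) * (k * k * (B' ^ (q + 3) * κ2)) +
          PhiB (q + 2) * d) := by gcongr
    _ = (1 + δ) ^ (q + 3) * (k * (PhiB (q + 2) * om (q + 3) ^ (q + 2))) +
        C1 * 2 ^ (q + 2) * ((k * k) ^ (q + 2) * (k * k * B' ^ (q + 3))) * κ2 +
          C1 * 2 ^ (q + 2) * PhiB (q + 2) * d := by
        rw [mul_pow (1 + δ)]; ring
    _ ≤ _ := by linarith

theorem dec (q : ℕ) {k : ℕ} (hk : 0 < k)
    {η : ℝ} (hη : 0 < η) : ∃ d : ℝ, 0 < d ∧ ∀ A : ℝ, 0 ≤ A → ∃ C : ℝ, 0 ≤ C ∧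
      ∀ (a : V (q + 3) → ℝ) (g : V (q + 3) ≃L[ℝ] V (q + 3)), Adm a → Nn a = k * om (q + 3) →
        QInv k a → jac g = 1 → NC C k g → dust A k g a ≤ d → Phi a ≤ lev (q + 2) k + η := by
  have hk0 : (0:ℝ) < k := by exact_mod_cast hk
  have hM : 0 < (k * om (q + 3)) ^ (q + 2) := pow_pos (mul_pos hk0 (om_pos _)) _
  obtain ⟨d, hd, h⟩ := dec0 q hk (mul_pos hη hM)
  refine ⟨d, hd, fun A hA => ?_⟩
  obtain ⟨C, hC, h⟩ := h A hA
  refine ⟨C, hC, fun a g ha hN hQ hg hNC hdust => ?_⟩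
  rw [Phi, hN, div_le_iff₀ hM, add_mul, lev_mul hk]
  exact h a g ha hN hQ hg hNC hdust

end Pool.Agent.Lib.MP_242fd5_gt.Ty
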