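import Pool.Agent.Lib.MP_242fd5_gt.Ty.S7c

set_option autoImplicit false

open MeasureTheory ProbabilityTheory Set Metric Filter Topology Real
open scoped ENNReal NNReal RealInnerProductSpace

namespace Pool.Agent.Lib.MP_242fd5_gt.Ty

variable {n N q : ℕ}

lemma Nn_le_dV (c d : ℝ) {f g x y : V (N + 1) → ℝ} (F : Adm f) (G : Adm g) (X : Adm x) (Y : Adm y)
    (e : ∀ u, ‖u‖ = 1 → f u ^ (N + 1) ≤ c * g u ^ (N + 1) + d * |x u ^ (N + 1) - y u ^ (N + 1)|) :
    Nn f ≤ c * Nn g + d * dV x y := by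
  have h := int_mono (F.int_pow (N + 1))
    (((G.int_pow (N + 1)).const_mul c).add ((int_dV X Y).const_mul d)) e
  simp only [Pi.add_apply] at h
  rwa [integral_add ((G.int_pow (N + 1)).const_mul c) ((int_dV X Y).const_mul d),
    integral_const_mul, integral_const_mul] at h

/-- volume of the part of an ellipsoid inside a star set -/
noncomputable def ins (x : V (N + 1) → ℝ) (g : V (N + 1) ≃L[ℝ] V (N + 1)) : ℝ :=
  Nn fun u => min (x u) (rho g u)

lemma ins_le {x y : V (N + 1) → ℝ} (X : Adm x) (Y : Adm y) (g : V (N + 1) ≃L[ℝ] V (N + 1)) :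
    ins x g ≤ ins y g + dV x y := by
  have h := Nn_le_dV 1 1 (X.min (adm_rho g)) (Y.min (adm_rho g)) X Y fun u _ => by
    rw [one_mul, one_mul]
    rcases le_total (y u) (rho g u) with h | h
    · rw [min_eq_left h]
      have := pow_le_pow_left₀ (le_min (X.nn u) ((adm_rho g).nn u)) (min_le_left _ _) (N + 1)
      linarith [le_abs_self (x u ^ (N + 1) - y u ^ (N + 1))]
    · rw [min_eq_right h]
      have := pow_le_pow_left₀ (le_min (X.nn u) ((adm_rho g).nn u)) (min_le_right _ _) (N + 1)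
      linarith [abs_nonneg (x u ^ (N + 1) - y u ^ (N + 1))]
  rwa [one_mul, one_mul] at h

lemma ins_mx_le {k : ℕ} (hk : 0 < k) (F : Fin k → V (N + 1) ≃L[ℝ] V (N + 1))
    (g : V (N + 1) ≃L[ℝ] V (N + 1)) : ins (mx F) g ≤ ∑ b, ov (F b) g := by
  have h := Nn_le_sum Finset.univ (fun _ => 1) ((adm_mx F).min (adm_rho g))
    (fun b => (adm_rho (F b)).min (adm_rho g)) fun u _ => by
      obtain ⟨b, hb⟩ := exists_mx hk F u
      simp only [one_mul]
      rw [hb]
      exact Finset.single_le_sum (f := fun b => min (rho (F b) u) (rho g u) ^ (N + 1))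
        (fun b _ => pow_nonneg (le_min ((adm_rho _).nn u) ((adm_rho g).nn u)) _)
        (Finset.mem_univ b)
  simp only [one_mul] at h
  exact h

lemma ins_self {k : ℕ} (F : Fin k → V (N + 1) ≃L[ℝ] V (N + 1)) (b : Fin k) :
    ins (mx F) (F b) = jac (F b) * om (N + 1) := by
  rw [← Nn_rho, ins]
  congr 1
  exact funext fun u => min_eq_right (le_mx F b u)

lemma ins_gi {k : ℕ} {x : V (N + 2) → ℝ} (X : Adm x) (hQ : QInv k x)
    (g : V (N + 2) ≃L[ℝ] V (N + 2)) (i : ℕ) : ins x (gi g (th k i)) = ins x g := by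
  have := Nn_comp (X.min (adm_rho g)) (rot (th k i)).toContinuousLinearEquiv
  rw [jac_iso, inv_one, one_mul] at this
  rw [ins, ins, ← this]
  congr 1
  funext u
  change _ = min (x (rot (th k i) u)) (rho g (rot (th k i) u))
  rw [hQ.th, rho_gi]

lemma ov_le_of_mx {k : ℕ} (F : Fin k → V (N + 1) ≃L[ℝ] V (N + 1)) (hF : ∀ i, jac (F i) = 1)
    {a b : Fin k} (hab : a ≠ b) : ov (F a) (F b) + Nn (mx F) ≤ k * om (N + 1) := by
  have hA := (adm_rho (F a)).min (adm_rho (F b))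
  have h := int_mono ((hA.int_pow (N + 1)).add ((adm_mx F).int_pow (N + 1)))
    (integrable_finsetSum Finset.univ fun i _ => (adm_rho (F i)).int_pow (N + 1)) fun u _ => by
      obtain ⟨j, hj⟩ := exists_mx (Fin.pos a) F u
      have key : ∀ c : Fin k, c ≠ j → rho (F c) u ^ (N + 1) + rho (F j) u ^ (N + 1) ≤
          ∑ i, rho (F i) u ^ (N + 1) := fun c hc => by
        rw [← Finset.sum_pair (f := fun i => rho (F i) u ^ (N + 1)) hc]
        exact Finset.sum_le_sum_of_subset_of_nonneg (Finset.subset_univ _)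
          fun i _ _ => pow_nonneg ((adm_rho _).nn u) _
      simp only [Pi.add_apply]
      rw [hj]
      by_cases h : a = j
      · have := key b (by rw [← h]; exact hab.symm)
        have := pow_le_pow_left₀ (hA.nn u) (min_le_right _ _) (N + 1)
        linarith
      · have := key a h
        have := pow_le_pow_left₀ (hA.nn u) (min_le_left _ _) (N + 1)
        linarith
  simp only [Pi.add_apply] at h
  rw [integral_add (hA.int_pow _) ((adm_mx F).int_pow _),
    integral_finsetSum _ fun i _ => (adm_rho (F i)).int_pow (N + 1)] at h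
  have e : ∀ i, ∫ u, rho (F i) u ^ (N + 1) ∂mu (N + 1) = om (N + 1) := fun i =>
    (Nn_rho (F i)).trans (by rw [hF, one_mul])
  simp only [e, Finset.sum_const, Finset.card_univ, Fintype.card_fin, nsmul_eq_mul] at h
  exact h

lemma dust_le_dV {A : ℝ} (hA : 0 ≤ A) {k : ℕ} {g : V (N + 2) ≃L[ℝ] V (N + 2)}
    {x m : V (N + 2) → ℝ} (X : Adm x) (M : Adm m) (h : ∀ u, m u ≤ A * sm k g u) :
    dust (2 * A) k g x ≤ 2 * dV x m := by
  have := Nn_le_dV 0 2 (X.above ((adm_sm k g).smul (by positivity : 0 ≤ 2 * A))) X X M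
    fun u _ => by
      split_ifs with h1
      · have h2 : m u ≤ x u / 2 := by linarith [h u]
        have h3 := pow_le_pow_left₀ (M.nn u) h2 (N + 1 + 1)
        have h4 : (x u / 2) ^ (N + 1 + 1) ≤ x u ^ (N + 1 + 1) / 2 := by
          rw [div_pow]
          exact div_le_div_of_nonneg_left (pow_nonneg (X.nn u) _) two_pos
            (le_self_pow₀ one_le_two (by omega))
        linarith [le_abs_self (x u ^ (N + 1 + 1) - m u ^ (N + 1 + 1))]
      · rw [zero_pow (by omega), zero_mul, zero_add]; positivity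
  rwa [zero_mul, zero_add] at this

/-- the tracked ellipsoid -/
structure Trk (C : ℝ) (k : ℕ) (x : V (N + 2) → ℝ) (g : V (N + 2) ≃L[ℝ] V (N + 2)) : Prop where
  jac : jac g = 1
  nc : NC (C ^ 3) k g
  ins : 3 / 4 * om (N + 2) ≤ ins x g

theorem track (N : ℕ) {k : ℕ} (hk : 0 < k) : ∃ C : ℝ, 1 ≤ C ∧ ∃ ε0 : ℝ, 0 < ε0 ∧
    ∀ (ε : ℝ) (x y : V (N + 2) → ℝ) (F : Fin k → V (N + 2) ≃L[ℝ] V (N + 2))
      (g : V (N + 2) ≃L[ℝ] V (N + 2)), ε ≤ ε0 → Adm x → Adm y → QInv k x →
      Nn x = k * om (N + 2) → (∀ i, jac (F i) = 1) → dV x (mx F) ≤ ε → dV x y ≤ ε → Trk C k x g →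
        ∃ h, Trk C k y h ∧ Cmp C g h ∧ dust (2 * C) k h y ≤ 4 * ε := by
  have ho := om_pos (N + 2)
  have ho' := om_pos (N + 1)
  have hk0 : (0:ℝ) < k := by exact_mod_cast hk
  set κ : ℝ := om (N + 2) / (2 * k) with hκ
  have hκ0 : 0 < κ := by positivity
  set C : ℝ := 1 + 2 * om (N + 1) * 1 / κ with hC
  have hC1 : 1 ≤ C := le_add_of_nonneg_right (by positivity)
  have hC0 : 0 ≤ C := by linarith
  refine ⟨C, hC1, min (om (N + 2) / 8) ((C ^ 4)⁻¹ ^ (N + 2) * om (N + 2) / 2), by positivity,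
    fun ε x y F g hε X Y hQ hN hF h1 h2 hg => ?_⟩
  have e1 : ε ≤ om (N + 2) / 8 := hε.trans (min_le_left _ _)
  have e2 := hε.trans (min_le_right _ _)
  have pick : ∀ G, jac G = 1 → 3 / 4 * om (N + 2) ≤ ins x G → ∃ b, Cmp C (F b) G := by
    intro G hG h
    have h3 := (ins_le X (adm_mx F) G).trans (add_le_add (ins_mx_le hk F G) h1)
    by_contra hc
    have h4 : ∀ b ∈ Finset.univ, ov (F b) G ≤ κ := fun b _ => by
      by_contra h5
      exact hc ⟨b, (cmp_of_ov hκ0 (hF b) hG (not_le.1 h5).le).mono (by linarith)⟩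
    have h5 := Finset.sum_le_card_nsmul _ _ _ h4
    rw [Finset.card_univ, Fintype.card_fin, nsmul_eq_mul,
      show k * κ = om (N + 2) / 2 by rw [hκ]; field_simp] at h5
    linarith
  have far : ∀ a b, Cmp (C ^ 4) (F a) (F b) → a = b := by
    intro a b H
    by_contra hab
    have h3 := ov_le_of_mx F hF hab
    have h4 := ov_ge (one_le_pow₀ hC1) H
    have h5 := (abs_le.1 ((abs_Nn_sub_le X (adm_mx F)).trans h1)).2
    rw [hF, one_mul] at h4
    have : 0 < (C ^ 4)⁻¹ ^ (N + 2) * om (N + 2) := by positivity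
    linarith
  obtain ⟨b0, hb0⟩ := pick g hg.jac hg.ins
  have i0 : om (N + 2) - ε ≤ ins x (F b0) := by
    have := ins_le (adm_mx F) X (F b0)
    rw [ins_self, hF, one_mul, dV_comm] at this
    linarith
  have hb : ∀ i : Fin k, ∃ b, Cmp C (F b) (gi (F b0) (th k i)) := fun i =>
    pick _ (by rw [jac_gi, hF]) (by rw [ins_gi X hQ]; linarith)
  choose b hb using hb
  have hnc : NC (C ^ 3) k (F b0) := by
    intro i h0 hi H
    have h3 := hb ⟨i, hi⟩
    have h4 : b ⟨i, hi⟩ = b0 := far _ _ ((h3.trans hC0 (by positivity) H.symm).mono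
      (le_of_eq (by ring)))
    rw [h4] at h3
    exact hg.nc i h0 hi (((hb0.symm.trans hC0 hC0 h3).trans (by positivity) hC0 (hb0.gi _)).mono
      (le_of_eq (by ring)))
  have hinj : Function.Injective b := by
    intro i l h
    by_contra hne
    have h3 := hb l
    rw [← h] at h3
    refine hnc.pair i.2 l.2 (fun e => hne (Fin.ext e)) (((hb i).symm.trans hC0 hC0 h3).mono ?_)
    rw [← sq]
    exact pow_le_pow_right₀ hC1 (by omega)
  have hmx : ∀ u, mx F u ≤ C * sm k (F b0) u := fun u => by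
    refine mx_le F (mul_nonneg hC0 ((adm_sm k _).nn u)) fun c => ?_
    obtain ⟨i, rfl⟩ := Finite.injective_iff_surjective.1 hinj c
    exact ((hb i).symm.rho_le u).trans (mul_le_mul_of_nonneg_left (le_sm i.2 _ u) hC0)
  refine ⟨F b0, ⟨hF b0, hnc, ?_⟩, hb0.symm, ?_⟩
  · linarith [ins_le X Y (F b0)]
  · have h3 := dust_le_dV hC0 Y (adm_mx F) hmx
    have h4 := dV_tri Y X (adm_mx F)
    rw [dV_comm y x] at h4
    linarith

/-! ### the dust recursion -/

lemma T_sm_le (k : ℕ) {g : V (N + 2) ≃L[ℝ] V (N + 2)} (hg : jac g = 1) (u : V (N + 2)) :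
    T (sm k g) u ≤ (k ^ N * om (N + 1)) * sm k (dual g) u := by
  have ho := om_pos (N + 1)
  refine (adm_sm k g).T.le ((adm_sm k _).smul (by positivity)) (fun u hu => ?_) u
  refine (T_le_sum (Finset.range k) (fun _ => (k:ℝ) ^ N) (adm_sm k g)
    (fun i => adm_rho (gi g (th k i))) (fun x _ => ?_) hu).trans (le_of_eq ?_)
  · have := pow_sum_le_card_mul_sum_pow (s := Finset.range k)
      (f := fun i => rho (gi g (th k i)) x) (fun i _ => (adm_rho _).nn x) N
    rwa [Finset.card_range, Finset.mul_sum] at this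
  · rw [sm, Finset.mul_sum]
    refine Finset.sum_congr rfl fun i _ => ?_
    rw [T_rho, jac_gi, hg, dual_gi]; ring

lemma dust_nonneg {A : ℝ} (hA : 0 ≤ A) (k : ℕ) (g : V (N + 2) ≃L[ℝ] V (N + 2))
    {x : V (N + 2) → ℝ} (X : Adm x) : 0 ≤ dust A k g x :=
  (X.above ((adm_sm k g).smul hA)).Nn_nonneg

theorem dust_rec (q k : ℕ) {C : ℝ} (hC : 0 ≤ C) : ∃ C1 C2 : ℝ, 0 ≤ C1 ∧ 0 ≤ C2 ∧
    ∀ (A c : ℝ) (x : V (q + 3) → ℝ) (g h : V (q + 3) ≃L[ℝ] V (q + 3)), 0 ≤ A → 0 ≤ c → c ≤ 1 →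
      Adm x → jac g = 1 → Cmp C g h →
        dust (C1 * A ^ ((q + 2) * (q + 2))) k h (fun u => c * S x u) ≤
          C2 * dust A k g x ^ ((q + 2) * (q + 2)) := by
  have ho := om_pos (q + 2)
  have hl := lam0_pos q
  have hP := PhiB_pos (q + 2)
  set K : ℝ := k ^ (q + 1) * om (q + 2) with hK
  have hK0 : 0 ≤ K := by positivity
  set L : ℝ := lam0 q * 2 ^ (q + 1) with hL
  have hL0 : 0 ≤ L := by positivity
  refine ⟨2 * (L * (K ^ (q + 3) * C)), (2 * L) ^ (q + 3) * PhiB (q + 2) ^ (q + 3), by positivity,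
    by positivity, fun A c x g h hA hc hc1 X hg H => ?_⟩
  set x1 : V (q + 3) → ℝ := fun u => if A * sm k g u < x u then 0 else x u with hx1
  set x2 : V (q + 3) → ℝ := fun u => if A * sm k g u < x u then x u else 0 with hx2
  have X1 : Adm x1 := X.below ((adm_sm k g).smul hA)
  have X2 : Adm x2 := X.above ((adm_sm k g).smul hA)
  have h1 : ∀ u, T x u = T x1 u + T x2 u := T_eq_add X1 X2 fun u => by
    simp only [hx1, hx2]; split_ifs <;> simp
  have h2 : ∀ u, ‖u‖ = 1 → T (T x) u ≤ 2 ^ (q + 1) * T (T x1) u + 2 ^ (q + 1) * T (T x2) u :=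
    fun u hu => T_le₂ _ _ X.T X1.T X2.T (fun v _ => by
      rw [h1, ← mul_add]; exact add_pow_le (X1.T.nn v) (X2.T.nn v) _) hu
  have h3 : ∀ u, T x1 u ≤ (A ^ (q + 2) * K) * sm k (dual g) u := fun u => by
    refine (T_mono X1 ((adm_sm k g).smul hA) (fun v _ => ?_) u).trans ?_
    · simp only [hx1]; split_ifs with h
      · exact mul_nonneg hA ((adm_sm k g).nn v)
      · exact not_lt.1 h
    · rw [T_smul, mul_assoc]
      exact mul_le_mul_of_nonneg_left (T_sm_le k hg u) (by positivity)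
  have h4 : ∀ u, T (T x1) u ≤ (K ^ (q + 3) * C) * A ^ ((q + 2) * (q + 2)) * sm k h u := fun u => by
    refine (T_mono X1.T ((adm_sm k _).smul (by positivity)) (fun v _ => h3 v) u).trans ?_
    have e := T_sm_le k (g := dual g) (by rw [jac_dual, hg, inv_one]) u
    rw [dual_dual] at e
    rw [T_smul]
    calc _ ≤ (A ^ (q + 2) * K) ^ (q + 2) * (K * (C * sm k h u)) := by
          gcongr
          exact e.trans (mul_le_mul_of_nonneg_left (H.symm.sm_le k u) hK0)
      _ = _ := by rw [mul_pow, ← pow_mul]; ring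
  have h5 : dust (2 * (L * (K ^ (q + 3) * C)) * A ^ ((q + 2) * (q + 2))) k h (fun u => c * S x u) ≤
      Nn fun u => (2 * L) * T (T x2) u := by
    refine Nn_mono ((X.S.smul hc).above ((adm_sm k h).smul (by positivity)))
      (X2.T.T.smul (by positivity)) fun u hu => ?_
    split_ifs with e
    · have e1 : c * S x u ≤ lam0 q * T (T x) u := mul_le_of_le_one_left (X.S.nn u) hc1
      have e2 := mul_le_mul_of_nonneg_left (h2 u hu) hl.le
      have e3 := mul_le_mul_of_nonneg_left (h4 u) hL0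
      rw [hL] at e e3 ⊢
      linarith
    · exact mul_nonneg (by positivity) (X2.T.T.nn u)
  refine h5.trans ?_
  rw [Nn_smul, mul_assoc]
  gcongr
  calc Nn (T (T x2)) ≤ PhiB (q + 2) * Nn (T x2) ^ (q + 2) := sharp' X2.T
    _ ≤ PhiB (q + 2) * (PhiB (q + 2) * Nn x2 ^ (q + 2)) ^ (q + 2) := by
        gcongr
        · exact X2.T.Nn_nonneg
        · exact sharp' X2
    _ = _ := by rw [mul_pow, ← pow_mul]; unfold dust; ring

theorem dust_iter (q k : ℕ) {C A0 : ℝ} (hC : 0 ≤ C) (hA0 : 0 ≤ A0) : ∃ y1 : ℝ, 0 < y1 ∧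
    ∃ A : ℕ → ℝ, (∀ r, 0 ≤ A r) ∧ ∀ (y : ℝ) (x : ℕ → V (q + 3) → ℝ)
      (g : ℕ → V (q + 3) ≃L[ℝ] V (q + 3)) (s r : ℕ), y ≤ y1 → (∀ j, Adm (x j)) →
      (∀ j, ∃ c : ℝ, 0 ≤ c ∧ c ≤ 1 ∧ x (j + 1) = fun u => c * S (x j) u) →
      (∀ j, j < s + r → jac (g j) = 1 ∧ Cmp C (g j) (g (j + 1))) → dust A0 k (g s) (x s) ≤ y →
        dust (A r) k (g (s + r)) (x (s + r)) ≤ y / 2 ^ r := by
  obtain ⟨C1, C2, hC1, hC2, H⟩ := dust_rec q k hC
  obtain ⟨y1, hy, hy1, hy2⟩ := exists_small (ε := 1 / 2) hC2 (by norm_num)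
  let A : ℕ → ℝ := fun r => Nat.rec A0 (fun _ a => C1 * a ^ ((q + 2) * (q + 2))) r
  have hA : ∀ r, 0 ≤ A r := fun r => by
    induction r with
    | zero => exact hA0
    | succ r ih => exact mul_nonneg hC1 (pow_nonneg ih _)
  refine ⟨y1, hy, A, hA, fun y x g s r hyy X hx hg h0 => ?_⟩
  induction r with
  | zero => rw [pow_zero, div_one]; exact h0
  | succ r ih =>
    have h1 := ih fun j hj => hg j (by omega)
    obtain ⟨c, c0, c1, e⟩ := hx (s + r)
    have h2 := H (A r) c _ _ _ (hA r) c0 c1 (X (s + r)) (hg (s + r) (by omega)).1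
      (hg (s + r) (by omega)).2
    rw [← e] at h2
    refine h2.trans ?_
    have h3 := dust_nonneg (hA r) k (g (s + r)) (X (s + r))
    set z := dust (A r) k (g (s + r)) (x (s + r))
    have h4 : z ≤ y1 := h1.trans ((div_le_self ((dust_nonneg hA0 k _ (X s)).trans h0)
      (one_le_pow₀ one_le_two)).trans hyy)
    have h5 : z ^ ((q + 2) * (q + 2)) ≤ z ^ 2 :=
      pow_le_pow_of_le_one h3 (h4.trans hy1) (by nlinarith)
    calc C2 * z ^ ((q + 2) * (q + 2)) ≤ C2 * z ^ 2 := by gcongr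
      _ = C2 * z * z := by ring
      _ ≤ C2 * y1 * z := by gcongr
      _ ≤ 1 / 2 * (y / 2 ^ r) := by gcongr
      _ = _ := by rw [pow_succ]; field_simp

end Pool.Agent.Lib.MP_242fd5_gt.Ty
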