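import Mathlib

set_option autoImplicit false

/-! An entire orbit of a nonlinear convolution operator with a plateau of linearly growing width. -/

open MeasureTheory Set Filter Topology Real

namespace Pool.Agent.Lib.MP_242fd5_gt.S8

/-- measurable functions with values in the unit interval -/
def Un (f : ℝ → ℝ) : Prop := Measurable f ∧ ∀ s, 0 ≤ f s ∧ f s ≤ 1

/-- the normalised operator -/
noncomputable def Sr (ν : Measure ℝ) (p : ℕ) (f : ℝ → ℝ) (s : ℝ) : ℝ := ∫ w, f (w - s) ^ p ∂ν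

/-- exponential moments -/
noncomputable def E (ν : Measure ℝ) (θ : ℝ) : ℝ := ∫ w, exp (θ * w) ∂ν

/-- amplitudes of the linearised solutions -/
noncomputable def aa (ν : Measure ℝ) (p : ℕ) : ℕ → ℝ → ℝ
  | 0, _ => 1 / 4
  | m + 1, θ => aa ν p m (-θ) / (p * E ν θ)

/-- linearised solutions -/
noncomputable def X (ν : Measure ℝ) (p m : ℕ) (θ s : ℝ) : ℝ := aa ν p m θ * exp (θ * s)

/-- the subsolution -/
noncomputable def L (ν : Measure ℝ) (p : ℕ) (l : ℝ) (m : ℕ) (s : ℝ) : ℝ :=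
  max 0 (1 - X ν p m l s - X ν p m (-l) s)

/-- iterates started at depth `k` -/
noncomputable def W (ν : Measure ℝ) (p : ℕ) (l : ℝ) : ℕ → ℕ → ℝ → ℝ
  | 0, m => L ν p l m
  | k + 1, m => Sr ν p (W ν p l k (m + 1))

/-- the entire orbit -/
noncomputable def v (ν : Measure ℝ) (p : ℕ) (l : ℝ) (m : ℕ) (s : ℝ) : ℝ := ⨆ k, W ν p l k m s

/-- smallness far out -/
def Far (ν : Measure ℝ) (p : ℕ) (l δ : ℝ) : Prop :=
  ∃ X0, 0 < X0 ∧ ∀ m θ s, |θ| = l → X0 ≤ X ν p m θ s → v ν p l m s ≤ δ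

/-- standing assumptions -/
structure Ctx (ν : Measure ℝ) (p : ℕ) (l : ℝ) : Prop where
  hp : 2 ≤ p
  l0 : 0 < l
  l1 : l ≤ 3 / 8
  int : ∀ θ : ℝ, |θ| ≤ 3 / 4 → Integrable (fun w => exp (θ * w)) ν
  lo : ∀ θ : ℝ, |θ| ≤ 2 * l → 9 / 10 ≤ E ν θ
  hi : ∀ θ : ℝ, |θ| ≤ 2 * l → E ν θ ≤ 11 / 10

variable {ν : Measure ℝ} [IsProbabilityMeasure ν] {p : ℕ} {l θ : ℝ} {f g : ℝ → ℝ}

lemma exists_ctx (hp : 2 ≤ p) (hI : ∀ θ : ℝ, |θ| ≤ 3 / 4 → Integrable (fun w => exp (θ * w)) ν) :
    ∃ l, Ctx ν p l := by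
  have hc : ContinuousAt (E ν) 0 := by
    refine continuousAt_of_dominated (bound := fun w => exp (3 / 4 * w) + exp (-(3 / 4) * w))
      (Eventually.of_forall fun θ => Measurable.aestronglyMeasurable (by fun_prop)) ?_
      ((hI _ (by rw [abs_of_pos] <;> norm_num)).add (hI _ (by rw [abs_neg, abs_of_pos] <;> norm_num)))
      (Eventually.of_forall fun w => by fun_prop)
    filter_upwards [Ioo_mem_nhds (show -(3 / 4 : ℝ) < 0 by norm_num)
      (show (0:ℝ) < 3 / 4 by norm_num)] with θ hθ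
    refine Eventually.of_forall fun w => ?_
    rw [Real.norm_of_nonneg (exp_pos _).le]
    rcases le_total 0 w with h | h
    · linarith [exp_le_exp.2 (mul_le_mul_of_nonneg_right hθ.2.le h), exp_pos (-(3 / 4) * w)]
    · linarith [exp_le_exp.2 (mul_le_mul_of_nonpos_right hθ.1.le h), exp_pos (3 / 4 * w)]
  obtain ⟨δ, hδ, h⟩ := Metric.continuousAt_iff.1 hc (1 / 10) (by norm_num)
  have e : E ν 0 = 1 := by simp [E]
  have h2 : ∀ θ : ℝ, |θ| ≤ 2 * min (3 / 8) (δ / 4) → |E ν θ - 1| < 1 / 10 := fun θ hθ => by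
    have := @h θ (by
      rw [Real.dist_eq, sub_zero]
      linarith [min_le_right (3 / 8) (δ / 4)])
    rwa [e, Real.dist_eq] at this
  exact ⟨min (3 / 8) (δ / 4), hp, by positivity, min_le_left _ _, hI,
    fun θ hθ => by linarith [(abs_lt.1 (h2 θ hθ)).1],
    fun θ hθ => by linarith [(abs_lt.1 (h2 θ hθ)).2]⟩

lemma Un.int (H : Un f) (s : ℝ) : Integrable (fun w => f (w - s) ^ p) ν := by
  have := H.1
  refine Integrable.of_bound (Measurable.aestronglyMeasurable (by fun_prop)) 1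
    (Eventually.of_forall fun w => ?_)
  rw [Real.norm_of_nonneg (pow_nonneg (H.2 _).1 _)]
  exact pow_le_one₀ (H.2 _).1 (H.2 _).2

lemma Un.Sr_le (H : Un f) {s : ℝ} (hg : Integrable g ν) (h : ∀ w, f (w - s) ^ p ≤ g w) :
    Sr ν p f s ≤ ∫ w, g w ∂ν := integral_mono (H.int s) hg h

lemma Un.Sr (H : Un f) : Un (Sr ν p f) := by
  have := H.1
  refine ⟨?_, fun s => ⟨integral_nonneg fun w => pow_nonneg (H.2 _).1 _, ?_⟩⟩
  · exact (StronglyMeasurable.integral_prod_right' (ν := ν)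
      (f := fun z : ℝ × ℝ => f (z.2 - z.1) ^ p) (Measurable.stronglyMeasurable
        (by fun_prop))).measurable
  · simpa using H.Sr_le (p := p) (s := s) (integrable_const (μ := ν) 1)
      fun w => pow_le_one₀ (H.2 _).1 (H.2 _).2

lemma Un.Sr_mono (H : Un f) (G : Un g) (h : ∀ s, f s ≤ g s) (s : ℝ) :
    S8.Sr ν p f s ≤ S8.Sr ν p g s :=
  H.Sr_le (G.int s) fun _ => pow_le_pow_left₀ (H.2 _).1 (h _) _

namespace Ctx

variable (C : Ctx ν p l)
include C

omit [IsProbabilityMeasure ν]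

lemma p2 : (2:ℝ) ≤ p := by exact_mod_cast C.hp

lemma pE (h : |θ| = l) : 3 / 2 ≤ p * E ν θ ∧ p * E ν θ ≤ 2 * p := by
  have h1 := C.lo θ (by linarith [C.l0])
  have h2 := C.hi θ (by linarith [C.l0])
  have := C.p2
  constructor <;> nlinarith

lemma aa_bd (m : ℕ) : ∀ θ : ℝ, |θ| = l →
    1 / 4 / (2 * p) ^ m ≤ aa ν p m θ ∧ aa ν p m θ ≤ 1 / 4 * (2 / 3) ^ m := by
  induction m with
  | zero => intro θ _; simp [aa]
  | succ m ih =>
    intro θ h
    obtain ⟨h1, h2⟩ := ih (-θ) (by rwa [abs_neg])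
    obtain ⟨h3, h4⟩ := C.pE h
    have := C.p2
    have h0 : 0 ≤ aa ν p m (-θ) := le_trans (by positivity) h1
    constructor
    · rw [pow_succ, ← div_div]
      exact div_le_div₀ h0 h1 (by linarith) h4
    · calc aa ν p m (-θ) / (p * E ν θ) ≤ 1 / 4 * (2 / 3) ^ m / (3 / 2) :=
            div_le_div₀ (by positivity) h2 (by norm_num) h3
        _ = _ := by ring

lemma aa_pos (m : ℕ) (h : |θ| = l) : 0 < aa ν p m θ := by
  have := C.p2
  exact lt_of_lt_of_le (by positivity) (C.aa_bd m θ h).1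

lemma X_pos (m : ℕ) (h : |θ| = l) (s : ℝ) : 0 < X ν p m θ s := mul_pos (C.aa_pos m h) (exp_pos _)

omit C in
lemma X_shift (m : ℕ) (θ w s : ℝ) :
    X ν p (m + 1) θ (w - s) = X ν p m (-θ) s / (p * E ν θ) * exp (θ * w) := by
  unfold X
  rw [aa, mul_sub, sub_eq_add_neg, exp_add, neg_mul]; ring

lemma abs_l : |l| = l := abs_of_pos C.l0
lemma abs_nl : |-l| = l := by rw [abs_neg, C.abs_l]
lemma int1 (h : |θ| = l) : Integrable (fun w => exp (θ * w)) ν := C.int θ (by linarith [C.l1])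

lemma int_X (m : ℕ) (h : |θ| = l) (s : ℝ) : Integrable (fun w => X ν p (m + 1) θ (w - s)) ν ∧
    p * ∫ w, X ν p (m + 1) θ (w - s) ∂ν = X ν p m (-θ) s := by
  simp_rw [X_shift]
  refine ⟨(C.int1 h).const_mul _, ?_⟩
  have h1 := C.lo θ (by linarith [C.l0])
  have := C.p2
  rw [integral_const_mul]
  change p * (_ * E ν θ) = _
  field_simp

lemma un_L (m : ℕ) : Un (L ν p l m) := by
  refine ⟨by unfold L X; fun_prop, fun s => ⟨le_max_left _ _, max_le zero_le_one ?_⟩⟩
  linarith [C.X_pos m C.abs_l s, C.X_pos m C.abs_nl s]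

lemma L_le (m : ℕ) (h : |θ| = l) (s : ℝ) : L ν p l m s ≤ max 0 (1 - X ν p m θ s) := by
  refine max_le_max le_rfl ?_
  rcases (abs_eq C.l0.le).1 h with rfl | rfl <;>
    linarith [C.X_pos m C.abs_l s, C.X_pos m C.abs_nl s]

variable [IsProbabilityMeasure ν]

lemma L_sub (m : ℕ) (s : ℝ) : L ν p l m s ≤ Sr ν p (L ν p l (m + 1)) s := by
  refine max_le ((C.un_L _).Sr.2 s).1 ?_
  obtain ⟨i1, e1⟩ := C.int_X m C.abs_l s
  obtain ⟨i2, e2⟩ := C.int_X m C.abs_nl s
  rw [neg_neg] at e2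
  have : ∫ w, (1 - p * (X ν p (m + 1) l (w - s) + X ν p (m + 1) (-l) (w - s))) ∂ν ≤
      Sr ν p (L ν p l (m + 1)) s := by
    refine integral_mono ((integrable_const _).sub ((i1.add i2).const_mul _)) ((C.un_L _).int s)
      fun w => ?_
    have a1 := C.X_pos (m + 1) C.abs_l (w - s)
    have a2 := C.X_pos (m + 1) C.abs_nl (w - s)
    have := C.p2
    show _ ≤ max 0 _ ^ p
    rcases le_total 0 (1 - X ν p (m + 1) l (w - s) - X ν p (m + 1) (-l) (w - s)) with h | h
    · rw [max_eq_right h, sub_sub]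
      have := one_add_mul_le_pow (a := -(X ν p (m + 1) l (w - s) + X ν p (m + 1) (-l) (w - s)))
        (by linarith) p
      rwa [mul_neg, ← sub_eq_add_neg, ← sub_eq_add_neg] at this
    · rw [max_eq_left h]
      exact le_trans (by nlinarith) (pow_nonneg le_rfl p)
  have i3 : Integrable (fun w => X ν p (m + 1) l (w - s) + X ν p (m + 1) (-l) (w - s)) ν :=
    i1.add i2
  rw [integral_sub (integrable_const _) (i3.const_mul _), integral_const_mul,
    integral_add i1 i2, mul_add, e1, e2] at this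
  simp only [integral_const, probReal_univ, smul_eq_mul, mul_one] at this
  linarith

lemma un_W (k : ℕ) : ∀ m, Un (W ν p l k m) := by
  induction k with
  | zero => exact C.un_L
  | succ k ih => exact fun m => (ih _).Sr

lemma W_mono (m : ℕ) (s : ℝ) : Monotone fun k => W ν p l k m s := by
  refine monotone_nat_of_le_succ fun k => ?_
  induction k generalizing m s with
  | zero => exact C.L_sub m s
  | succ k ih => exact (C.un_W _ _).Sr_mono (C.un_W _ _) (ih _) s

lemma bdd (m : ℕ) (s : ℝ) : BddAbove (range fun k => W ν p l k m s) :=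
  ⟨1, by rintro _ ⟨k, rfl⟩; exact ((C.un_W k m).2 s).2⟩

lemma W_le (k m : ℕ) (s : ℝ) : W ν p l k m s ≤ v ν p l m s := le_ciSup (C.bdd m s) k

lemma tendsto_W (m : ℕ) (s : ℝ) : Tendsto (fun k => W ν p l k m s) atTop (𝓝 (v ν p l m s)) :=
  tendsto_atTop_ciSup (C.W_mono m s) (C.bdd m s)

lemma un_v (m : ℕ) : Un (v ν p l m) :=
  ⟨Measurable.iSup fun k => (C.un_W k m).1, fun s =>
    ⟨((C.un_W 0 m).2 s).1.trans (C.W_le 0 m s), ciSup_le fun k => ((C.un_W k m).2 s).2⟩⟩

lemma v_eq (m : ℕ) (s : ℝ) : v ν p l m s = Sr ν p (v ν p l (m + 1)) s := by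
  refine tendsto_nhds_unique ((C.tendsto_W m s).comp (tendsto_add_atTop_nat 1)) ?_
  refine tendsto_integral_of_dominated_convergence (fun _ => 1)
    (fun k => ((C.un_W k _).int s).aestronglyMeasurable) (integrable_const _)
    (fun k => Eventually.of_forall fun w => ?_)
    (Eventually.of_forall fun w => (C.tendsto_W _ _).pow p)
  rw [Real.norm_of_nonneg (pow_nonneg ((C.un_W k _).2 _).1 _)]
  exact pow_le_one₀ ((C.un_W k _).2 _).1 ((C.un_W k _).2 _).2

lemma barrier (B : ℕ → ℝ → ℝ → ℝ) (h0 : ∀ m θ s, |θ| = l → L ν p l m s ≤ B m θ s)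
    (h1 : ∀ m θ f, |θ| = l → Un f → (∀ s, f s ≤ v ν p l (m + 1) s) →
      (∀ s, f s ≤ B (m + 1) θ s) → ∀ s, Sr ν p f s ≤ B m (-θ) s) (m : ℕ) (h : |θ| = l) (s : ℝ) :
    v ν p l m s ≤ B m θ s := by
  refine ciSup_le fun k => ?_
  induction k generalizing m θ s with
  | zero => exact h0 m θ s h
  | succ k ih =>
    have h2 : |-θ| = l := by rwa [abs_neg]
    have := h1 m (-θ) _ h2 (C.un_W k _) (C.W_le k _) (ih _ h2) s
    rwa [neg_neg] at this

omit C [IsProbabilityMeasure ν] in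
lemma one_sub_pow {z : ℝ} (h0 : 0 ≤ z) (h1 : z ≤ 1) (k : ℕ) :
    (1 - z) ^ k ≤ 1 - k * z + k ^ 2 * z ^ 2 := by
  induction k with
  | zero => simp
  | succ k ih =>
    have := mul_le_mul_of_nonneg_right ih (sub_nonneg.2 h1)
    rw [pow_succ]
    push_cast
    have k0 : (0:ℝ) ≤ k := Nat.cast_nonneg k
    nlinarith [mul_nonneg (sq_nonneg (k:ℝ)) (pow_nonneg h0 3), mul_nonneg k0 (sq_nonneg z),
      sq_nonneg z]

lemma quad {q : ℝ} (q0 : 0 < q) (q1 : q ≤ 1) (m : ℕ) (h : |θ| = l) (s : ℝ) :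
    v ν p l m s ≤ 1 - q * X ν p m θ s + 4 * p * (q * X ν p m θ s) ^ 2 := by
  have hp := C.p2
  refine C.barrier (fun m θ s => 1 - q * X ν p m θ s + 4 * p * (q * X ν p m θ s) ^ 2)
    (fun m θ s h => (C.L_le m h s).trans (max_le ?_ ?_)) (fun m θ f h H _ hf s => ?_) m h s
  · nlinarith [sq_nonneg (q * X ν p m θ s - 1 / 2), sq_nonneg (q * X ν p m θ s)]
  · nlinarith [C.X_pos m h s, sq_nonneg (q * X ν p m θ s)]
  obtain ⟨i1, e1⟩ := C.int_X m h s
  have e2 : ∀ w, (q * X ν p (m + 1) θ (w - s)) ^ 2 =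
      (q * X ν p m (-θ) s / (p * E ν θ)) ^ 2 * exp (2 * θ * w) := fun w => by
    rw [X_shift, mul_assoc 2, ← Nat.cast_two (R := ℝ), exp_nat_mul]; ring
  have a2 : |2 * θ| = 2 * l := by rw [abs_mul, h, abs_two]
  have i2 : Integrable (fun w => (q * X ν p (m + 1) θ (w - s)) ^ 2) ν := by
    simp_rw [e2]; exact (C.int _ (by linarith [C.l1])).const_mul _
  refine (H.Sr_le (g := fun w => 1 - p * q * X ν p (m + 1) θ (w - s) +
    5 * p ^ 2 * (q * X ν p (m + 1) θ (w - s)) ^ 2)
    (((integrable_const _).sub (i1.const_mul _)).add (i2.const_mul _)) fun w => ?_).trans ?_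
  · have y0 : 0 < q * X ν p (m + 1) θ (w - s) := mul_pos q0 (C.X_pos _ h _)
    have y1 := hf (w - s)
    obtain ⟨f0, f1⟩ := H.2 (w - s)
    simp only [mul_assoc (p:ℝ) q] at y1 ⊢
    generalize q * X ν p (m + 1) θ (w - s) = y at y0 y1 ⊢
    set z := max 0 (y - 4 * p * y ^ 2) with hz
    have z0 : 0 ≤ z := le_max_left _ _
    have z1 : y - 4 * p * y ^ 2 ≤ z := le_max_right _ _
    have z2 : z ≤ y := max_le y0.le (by nlinarith [sq_nonneg y])
    have z3 : z ≤ 1 - f (w - s) := max_le (by linarith) (by linarith)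
    have z4 := one_sub_pow z0 (by linarith) p
    have z5 := pow_le_pow_left₀ f0 (show f (w - s) ≤ 1 - z by linarith) p
    have z6 : (p:ℝ) ^ 2 * z ^ 2 ≤ p ^ 2 * y ^ 2 := by gcongr
    nlinarith [mul_le_mul_of_nonneg_left z1 (show (0:ℝ) ≤ p by linarith)]
  · have i3 : Integrable (fun w => 1 - p * q * X ν p (m + 1) θ (w - s)) ν :=
      (integrable_const _).sub (i1.const_mul _)
    rw [integral_add i3 (i2.const_mul _),
      integral_sub (integrable_const _) (i1.const_mul _), integral_const_mul, integral_const_mul]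
    simp_rw [e2]
    rw [integral_const_mul]
    change _ + _ * (_ * E ν (2 * θ)) ≤ _
    simp only [integral_const, probReal_univ, smul_eq_mul, mul_one]
    have b1 := C.lo θ (by linarith [C.l0])
    have b2 := C.hi _ a2.le
    have b3 : 5 * (p:ℝ) ^ 2 * ((q * X ν p m (-θ) s / (p * E ν θ)) ^ 2 * E ν (2 * θ)) =
        5 * E ν (2 * θ) / E ν θ ^ 2 * (q * X ν p m (-θ) s) ^ 2 := by field_simp
    have b4 : 5 * E ν (2 * θ) / E ν θ ^ 2 ≤ 4 * p := by
      rw [div_le_iff₀ (by positivity)]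
      nlinarith [mul_le_mul b1 b1 (by norm_num) (by linarith)]
    rw [b3, mul_comm (p:ℝ) q, mul_assoc q, e1]
    gcongr

lemma far_one : Far ν p l (1 - 1 / (16 * p)) := by
  have hp := C.p2
  refine ⟨1 / (8 * p), by positivity, fun m θ s h hX => ?_⟩
  have x0 := C.X_pos m h s
  have := C.quad (q := 1 / (8 * p) / X ν p m θ s) (by positivity) ((div_le_one x0).2 hX) m h s
  rw [div_mul_cancel₀ _ x0.ne'] at this
  refine this.trans (le_of_eq ?_)
  field_simp; ring

lemma far_step {δ τ : ℝ} (δ0 : 0 ≤ δ) (δ1 : δ ≤ 1) (τ0 : 0 < τ) (H : Far ν p l δ) :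
    Far ν p l (δ ^ 2 + τ) := by
  obtain ⟨X0, x0, H⟩ := H
  have hp := C.p2
  refine ⟨X0 * (2 * p) * 2 / τ, by positivity, fun m θ s h hX => ?_⟩
  have h2 : |-θ| = l := by rwa [abs_neg]
  obtain ⟨e1, e2⟩ := C.pE h2
  have x1 := C.X_pos m h s
  rw [C.v_eq]
  refine ((C.un_v _).Sr_le (g := fun w => δ ^ 2 + X0 * (p * E ν (-θ)) / X ν p m θ s * exp (θ * w))
    ((integrable_const _).add ((C.int1 h).const_mul _)) fun w => ?_).trans ?_
  · obtain ⟨f0, f1⟩ := (C.un_v (m + 1)).2 (w - s)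
    have t0 : 0 ≤ X0 * (p * E ν (-θ)) / X ν p m θ s * exp (θ * w) := by positivity
    rcases le_total X0 (X ν p (m + 1) (-θ) (w - s)) with h3 | h3
    · have := (pow_le_pow_left₀ f0 (H _ _ _ h2 h3) p).trans (pow_le_pow_of_le_one δ0 δ1 C.hp)
      linarith
    · rw [X_shift, neg_neg, neg_mul, exp_neg, ← div_eq_mul_inv, div_le_iff₀ (exp_pos _),
        div_le_iff₀ (by linarith)] at h3
      have : 1 ≤ X0 * (p * E ν (-θ)) / X ν p m θ s * exp (θ * w) := by
        rw [div_mul_eq_mul_div, le_div_iff₀ x1]; linarith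
      linarith [pow_le_one₀ f0 f1 (n := p), sq_nonneg δ]
  · rw [integral_add (integrable_const _) ((C.int1 h).const_mul _), integral_const_mul]
    change _ + _ * E ν θ ≤ _
    simp only [integral_const, probReal_univ, smul_eq_mul, one_mul]
    have b2 := C.hi θ (by linarith [C.l0])
    have b1 := C.lo θ (by linarith [C.l0])
    rw [div_le_iff₀ τ0] at hX
    rw [add_le_add_iff_left, div_mul_eq_mul_div, div_le_iff₀ x1]
    calc X0 * (p * E ν (-θ)) * E ν θ ≤ X0 * (2 * p) * 2 := by gcongr; linarith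
      _ ≤ _ := by linarith

lemma far {ε : ℝ} (hε : 0 < ε) : Far ν p l ε := by
  have hp := C.p2
  set η : ℝ := 1 - 1 / (16 * p) with hη
  have a0 : 0 < 1 / (16 * (p:ℝ)) := by positivity
  have a1 : 1 / (16 * (p:ℝ)) < 1 := by rw [div_lt_one (by positivity)]; linarith
  have η0 : 0 < η := by linarith
  have η1 : η < 1 := by linarith
  have mono : ∀ a b, a ≤ b → Far ν p l a → Far ν p l b := fun a b hab ⟨X0, x0, H⟩ =>
    ⟨X0, x0, fun m θ s h hX => (H m θ s h hX).trans hab⟩
  have h : ∀ k : ℕ, Far ν p l (η * ((1 + η) / 2) ^ k) := by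
    intro k
    induction k with
    | zero => rw [pow_zero, mul_one]; exact C.far_one
    | succ k ih =>
      have r0 : 0 < ((1 + η) / 2) ^ k := by positivity
      have r1 : ((1 + η) / 2) ^ k ≤ 1 := pow_le_one₀ (by positivity) (by linarith)
      have d0 : 0 < η * ((1 + η) / 2) ^ k := by positivity
      have d1 : η * ((1 + η) / 2) ^ k ≤ η := mul_le_of_le_one_right η0.le r1
      refine mono _ _ ?_ (C.far_step d0.le (by linarith)
        (τ := η * ((1 + η) / 2) ^ k * ((1 - η) / 2)) (mul_pos d0 (by linarith)) ih)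
      rw [pow_succ _ k, ← mul_assoc]
      nlinarith
  obtain ⟨k, hk⟩ := exists_pow_lt_of_lt_one hε (show (1 + η) / 2 < 1 by linarith)
  exact mono _ _ ((mul_le_of_le_one_left (by positivity) η1.le).trans hk.le) (h k)

lemma tail : ∃ X1, 1 ≤ X1 ∧ ∀ m θ s, |θ| = l →
    v ν p l m s ≤ (X1 / X ν p m θ s) ^ (3 / (4 * l)) := by
  have hp := C.p2
  have l0 := C.l0
  set r : ℝ := 3 / (4 * l) with hr
  have r0 : 0 < r := by positivity
  have r1 : 1 ≤ r := by rw [hr, le_div_iff₀ (by positivity)]; linarith [C.l1]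
  set G : ℝ := (2 * p) ^ r * (|E ν (3 / 4)| + |E ν (-(3 / 4))| + 1) with hG
  have G1 : 1 ≤ G := one_le_mul_of_one_le_of_one_le (one_le_rpow (by linarith) r0.le)
    (by linarith [abs_nonneg (E ν (3 / 4)), abs_nonneg (E ν (-(3 / 4)))])
  set ε : ℝ := 1 / (2 * G) with hε
  have ε0 : 0 < ε := by positivity
  have εG : ε * G = 1 / 2 := by rw [hε]; field_simp
  have ε1 : ε ≤ 1 := by nlinarith
  obtain ⟨X0, x0, H⟩ := C.far ε0
  set X1 : ℝ := 1 + X0 / ε ^ 2 with hX1
  have x1 : 1 ≤ X1 := by rw [hX1]; linarith [div_pos x0 (pow_pos ε0 2)]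
  have x2 : (X0 / X1) ^ r ≤ ε ^ 2 := by
    have : X0 / X1 ≤ ε ^ 2 := by
      rw [div_le_iff₀ (by linarith), hX1, mul_add, mul_div_cancel₀ _ (pow_pos ε0 2).ne']
      linarith [pow_pos ε0 2]
    exact (rpow_le_self_of_le_one (by positivity) (this.trans (pow_le_one₀ ε0.le ε1)) r1).trans this
  have key := fun m θ s (h : |θ| = l) => C.barrier (θ := θ)
    (fun m θ s => if X1 ≤ X ν p m θ s then ε * (X1 / X ν p m θ s) ^ r else 1)
    (fun m θ s h => by
      have := C.X_pos m h s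
      split_ifs with h1
      · exact (C.L_le m h s).trans (max_le (by positivity) (le_trans (by linarith)
          (show 0 ≤ _ by positivity)))
      · exact ((C.un_L m).2 s).2)
    (fun m θ f h F hv hf s => by
      split_ifs with h1
      swap
      · exact (F.Sr.2 s).2
      have h2 : |-θ| = l := by rwa [abs_neg]
      have x3 := C.X_pos m h2 s
      obtain ⟨e1, e2⟩ := C.pE h
      have ar : |-θ * r| = 3 / 4 := by rw [abs_mul, h2, abs_of_pos r0, hr]; field_simp
      have e3 : ∀ w, (X1 / X ν p (m + 1) θ (w - s)) ^ r =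
          (X1 / X ν p m (-θ) s) ^ r * (p * E ν θ) ^ r * exp (-θ * r * w) := by
        intro w
        rw [X_shift, mul_right_comm (-θ), exp_mul (-θ * w), ← mul_rpow (by positivity) (by linarith),
          ← mul_rpow (by positivity) (exp_pos _).le, neg_mul, exp_neg]
        congr 1; field_simp
      refine (F.Sr_le (g := fun w => ε ^ 2 * ((X1 / X ν p m (-θ) s) ^ r * (p * E ν θ) ^ r *
        exp (-θ * r * w))) (((C.int _ ar.le).const_mul _).const_mul _) fun w => ?_).trans ?_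
      · rw [← e3]
        obtain ⟨f0, f1⟩ := F.2 (w - s)
        have x4 := C.X_pos (m + 1) h (w - s)
        have b1 : f (w - s) ^ p ≤ f (w - s) ^ 2 := pow_le_pow_of_le_one f0 f1 C.hp
        rcases le_total (X ν p (m + 1) θ (w - s)) X0 with h3 | h3
        · calc _ ≤ 1 := pow_le_one₀ f0 f1
            _ ≤ (X0 / X1 * (X1 / X ν p (m + 1) θ (w - s))) ^ r := by
                refine one_le_rpow ?_ r0.le
                rw [div_mul_div_cancel₀ (by linarith)]
                exact (one_le_div x4).2 h3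
            _ ≤ _ := by
                rw [mul_rpow (by positivity) (by positivity)]
                gcongr
        · have b2 : f (w - s) ≤ ε := (hv _).trans (H _ _ _ h h3)
          have b3 : f (w - s) ≤ ε * (X1 / X ν p (m + 1) θ (w - s)) ^ r := by
            by_cases h4 : X1 ≤ X ν p (m + 1) θ (w - s)
            · simpa [h4] using hf (w - s)
            · exact b2.trans (le_mul_of_one_le_right ε0.le (one_le_rpow
                ((one_le_div x4).2 (not_le.1 h4).le) r0.le))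
          calc _ ≤ f (w - s) * f (w - s) := by rwa [← sq]
            _ ≤ ε * (ε * (X1 / X ν p (m + 1) θ (w - s)) ^ r) := by gcongr
            _ = _ := by ring
      · rw [integral_const_mul, integral_const_mul]
        change _ * (_ * E ν (-θ * r)) ≤ _
        have b1 : E ν (-θ * r) ≤ |E ν (3 / 4)| + |E ν (-(3 / 4))| + 1 := by
          rcases (abs_eq (by norm_num)).1 ar with h3 | h3 <;> rw [h3] <;>
            linarith [le_abs_self (E ν (3 / 4)), le_abs_self (E ν (-(3 / 4))),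
              abs_nonneg (E ν (3 / 4)), abs_nonneg (E ν (-(3 / 4)))]
        have b0 : 0 ≤ E ν (-θ * r) := integral_nonneg fun _ => (exp_pos _).le
        have b2 : (p * E ν θ) ^ r * E ν (-θ * r) ≤ G :=
          mul_le_mul (rpow_le_rpow (by linarith) e2 r0.le) b1 b0 (by positivity)
        calc _ = ε * (X1 / X ν p m (-θ) s) ^ r * (ε * ((p * E ν θ) ^ r * E ν (-θ * r))) := by ring
          _ ≤ _ := mul_le_of_le_one_right (by positivity)
              ((mul_le_mul_of_nonneg_left b2 ε0.le).trans (by linarith))) m h s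
  refine ⟨X1, x1, fun m θ s h => (key m θ s h).trans ?_⟩
  have := C.X_pos m h s
  split_ifs with h1
  · exact mul_le_of_le_one_left (by positivity) ε1
  · exact one_le_rpow ((one_le_div this).2 (not_le.1 h1).le) r0.le

end Ctx

/-- an entire orbit with a plateau of linear width and exponential tails -/
theorem kpp (hp : 2 ≤ p) (hI : ∀ θ : ℝ, |θ| ≤ 3 / 4 → Integrable (fun w => exp (θ * w)) ν) :
    ∃ (u : ℕ → ℝ → ℝ) (b c : ℝ), 0 < b ∧ 0 < c ∧ ∀ m, Un (u m) ∧ u m = Sr ν p (u (m + 1)) ∧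
      (∀ s, u m s ≤ exp (b * (m + 1) - 3 / 4 * |s|)) ∧ ∀ s, |s| ≤ c * m → 1 / 2 ≤ u m s := by
  obtain ⟨l, C⟩ := exists_ctx hp hI
  obtain ⟨X1, x1, H⟩ := C.tail
  have p2 := C.p2
  have l0 := C.l0
  have g1 : 0 < log (4 * X1) := log_pos (by linarith)
  have g2 : 0 < log (2 * (p:ℝ)) := log_pos (by linarith)
  have g3 : 0 < log (3 / 2 : ℝ) := log_pos (by norm_num)
  have sg : ∀ s : ℝ, ∃ θ : ℝ, |θ| = l ∧ θ * s = l * |s| := fun s => by
    rcases abs_cases s with h | h
    · exact ⟨l, C.abs_l, by rw [h.1]⟩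
    · exact ⟨-l, C.abs_nl, by rw [h.1]; ring⟩
  refine ⟨v ν p l, 3 / (4 * l) * (log (4 * X1) + log (2 * p)), log (3 / 2) / l, by positivity,
    by positivity, fun m => ⟨C.un_v m, funext (C.v_eq m), fun s => ?_, fun s hs => ?_⟩⟩
  · obtain ⟨θ, h, e⟩ := sg s
    refine (H m θ s h).trans ?_
    have x0 := C.X_pos m h s
    have a1 : X1 / X ν p m θ s ≤ exp ((log (4 * X1) + log (2 * p)) * (m + 1) - l * |s|) := by
      have a2 : exp (log (4 * X1) + m * log (2 * p) - l * |s|) =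
          X1 / (1 / 4 / (2 * p) ^ m * exp (θ * s)) := by
        rw [exp_sub, exp_add, exp_log (by linarith), exp_nat_mul, exp_log (by linarith), e]
        field_simp
      refine le_trans ?_ (a2.symm.le.trans (exp_le_exp.2 ?_))
      · exact div_le_div_of_nonneg_left (by linarith) (by positivity)
          (mul_le_mul_of_nonneg_right (C.aa_bd m θ h).1 (exp_pos _).le)
      · nlinarith [mul_nonneg g1.le (Nat.cast_nonneg (α := ℝ) m)]
    refine (rpow_le_rpow (by positivity) a1 (by positivity)).trans (le_of_eq ?_)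
    rw [← exp_mul]
    congr 1; field_simp
  · refine le_trans ?_ (C.W_le 0 m s)
    have a1 : ∀ θ : ℝ, |θ| = l → X ν p m θ s ≤ 1 / 4 := by
      intro θ h
      have a2 : θ * s ≤ m * log (3 / 2) := by
        refine (le_abs_self _).trans ?_
        rw [abs_mul, h]
        rw [div_mul_eq_mul_div, le_div_iff₀ l0] at hs
        linarith
      calc X ν p m θ s ≤ 1 / 4 * (2 / 3) ^ m * exp (m * log (3 / 2)) :=
            mul_le_mul (C.aa_bd m θ h).2 (exp_le_exp.2 a2) (exp_pos _).le (by positivity)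
        _ = 1 / 4 := by
            rw [exp_nat_mul, exp_log (by norm_num), mul_assoc, ← mul_pow]; norm_num
    exact le_trans (by linarith [a1 l C.abs_l, a1 (-l) C.abs_nl]) (le_max_right _ _)

end Pool.Agent.Lib.MP_242fd5_gt.S8
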